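import Pool.Agent.HEP.GDef

/-!
HEP geometry, module GFold: fold words. `X` in `Br a` (older leg, walked up to the fold), `Y` in `Br c` (younger leg).
`fw X Y = X ++ (!rt X) :: lt (X ++ [!rt X]) :: Y`, `fe X = E (X ++ [!rt X])`.

PAPER PROOF. `X` ends at the right border of the column `a` with a step inside the column (`Br.not_hz`); `tn (rt X) (Dr X) = (1, 0)`,
so `tn (!rt X) (Dr X)` is the other step from the right border into the column: `F0 (fe X) = 3 a` (as in `Be_drop`, `gd_std`), direction not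
horizontal, and `lt` then gives `(-1, 0)` (`lt_spec`). `V (fw X Y)` by `V_snoc`, `app_left`. `fw_sub`: with `X' , X` the older
word is `X' ++ rt X' :: X`, whose vertices are `V X'` and the shift of `V X` by `E X' + (1, 0)` (`app_right`); `rt (X' ++ rt X' :: X) = rt X`,
same last direction, `fe (X' ++ rt X' :: X) = (E X' + (1, 0)) + fe X`; `V (Y ++ rt Y :: Y')` begins with `V Y`. So the shift of `V (fw X Y)`
by `E X' + (1, 0)` is an infix of `V (fw (X' ++ rt X' :: X) (Y ++ rt Y :: Y'))`; same if there is no `X'` or no `Y'` (`fw_subl`,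
`fw_subr`). `fw_inj`: all the vertices of `V (fw X Y)` have `F0 ≤ 3 a + 1` (for the `Y` part: `F0 (fe X + (-1, 0) - z) = 3 a - 2 - F0 z ≤ 3 a - 2`)
and `E X` has `3 a + 1`, so `a` is determined; then `split_uniq` with the property `3 a ≤ F0 z` at the letter after `fe X` (write `fw X Y =
(X ++ [!rt X]) ++ lt (..) :: Y`), and `X ++ [!rt X]` determines `X`.
-/

namespace Pool.Agent.HEP

open Pool.Agent.Hhelper14.SAW Pool.Agent.HHP

private lemma GFold_dr {a : ℕ} {X : List Bool} (h : Br a X) :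
    (Dr X = (0, 1) ∧ rt X = false) ∨ (Dr X = (1, -1) ∧ rt X = true) := by
  rcases gd_std X with ⟨h1, -⟩ | ⟨-, h1 | h1 | h1⟩
  · rw [h.2] at h1; omega
  · exact absurd (Or.inr h1) h.not_hz
  · left; refine ⟨h1, ?_⟩; unfold rt; rw [h1]; decide
  · right; refine ⟨h1, ?_⟩; unfold rt; rw [h1]; decide

theorem fe_eq (X : List Bool) : fe X = E X + tn (!rt X) (Dr X) := by
  unfold fe
  rw [E_append]
  rfl

theorem fe_U {a : ℕ} {X : List Bool} (h : Br a X) :
    tn (!rt X) (Dr X) = (0, -1) ∨ tn (!rt X) (Dr X) = (-1, 1) := by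
  rcases GFold_dr h with ⟨h1, h2⟩ | ⟨h1, h2⟩
  · right; rw [h1, h2]; decide
  · left; rw [h1, h2]; decide

theorem fe_F0 {a : ℕ} {X : List Bool} (h : Br a X) : F0 (fe X) = 3 * a := by
  rw [fe_eq, F0_add, h.2]
  rcases fe_U h with h1 | h1 <;> rw [h1] <;> simp [F0]

private lemma GFold_lt {a : ℕ} {X : List Bool} (h : Br a X) :
    tn (lt (X ++ [!rt X])) (Dr (X ++ [!rt X])) = (-1, 0) := by
  refine lt_spec ?_ ?_
  · have := fe_F0 h
    unfold fe at this
    rw [this]; omega
  · have e : Dr (X ++ [!rt X]) = tn (!rt X) (Dr X) := by rw [Dr_append]; rfl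
    rw [e]
    unfold hz
    rcases fe_U h with h1 | h1 <;> rw [h1] <;> simp

theorem fw_V {a : ℕ} {X : List Bool} (h : Br a X) (Y : List Bool) :
    V (fw X Y) = V X ++ fe X :: (V Y).map (fun z => (fe X + (-1, 0)) - z) ∧
      E (fw X Y) = (fe X + (-1, 0)) - E Y ∧ Dr (fw X Y) = - Dr Y ∧
      (fw X Y).length = X.length + Y.length + 2 := by
  have e : fw X Y = (X ++ [!rt X]) ++ lt (X ++ [!rt X]) :: Y := by unfold fw; simp
  obtain ⟨h1, h2, h3⟩ := app_left (Q := Y) (GFold_lt h)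
  refine ⟨?_, ?_, ?_, ?_⟩
  · rw [e, h1, V_append]
    have : vs (E X + tn (!rt X) (Dr X)) (tn (!rt X) (Dr X)) [] = [fe X] := by
      rw [fe_eq]; rfl
    rw [this]
    simp [fe]
  · rw [e, h2]; rfl
  · rw [e, h3]
  · unfold fw; simp; ring

/-- The frame of a fold word with a longer first leg. -/
private lemma GFold_shift {a' a : ℕ} {X' X : List Bool} (hX' : Br a' X') (hX : Br a X) (Y : List Bool) :
    V (fw (X' ++ rt X' :: X) Y) = V X' ++ (V (fw X Y)).map (fun z => (E X' + (1, 0)) + z) := by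
  obtain ⟨h1, h2, h3⟩ := app_right (Q := X) hX'.tn_rt
  have hrt : rt (X' ++ rt X' :: X) = rt X := by
    change decide (Dr (X' ++ rt X' :: X) = (1, -1)) = decide (Dr X = (1, -1))
    rw [h3]
  have hfe : fe (X' ++ rt X' :: X) = (E X' + (1, 0)) + fe X := by
    rw [fe_eq, fe_eq, hrt, h2, h3, add_assoc]
  rw [(fw_V (join_Br hX' hX) Y).1, (fw_V hX Y).1, h1, hfe]
  simp only [List.map_append, List.map_cons, List.map_map, List.append_assoc]
  congr 3
  refine List.map_congr_left fun z _ => ?_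
  simp only [Function.comp_apply]
  ring

private lemma GFold_pre {a c : ℕ} {X Y : List Bool} (hX : Br a X) (hY : Br c Y) (Y' : List Bool) :
    ∃ t, V (fw X (Y ++ rt Y :: Y')) = V (fw X Y) ++ t := by
  refine ⟨((V Y').map (fun z => (E Y + (1, 0)) + z)).map (fun z => (fe X + (-1, 0)) - z), ?_⟩
  rw [(fw_V hX _).1, (fw_V hX _).1, (app_right (Q := Y') hY.tn_rt).1]
  simp

theorem fw_subl {a' a : ℕ} {X' X Y : List Bool} (hX' : Br a' X') (hX : Br a X)
    (h : (V (fw (X' ++ rt X' :: X) Y)).Nodup) : (V (fw X Y)).Nodup := by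
  rw [GFold_shift hX' hX Y] at h
  exact List.Nodup.of_map _ (List.nodup_append.1 h).2.1

theorem fw_subr {a c c' : ℕ} {X Y Y' : List Bool} (hX : Br a X) (hY : Br c Y) (hY' : Br c' Y')
    (h : (V (fw X (Y ++ rt Y :: Y'))).Nodup) : (V (fw X Y)).Nodup := by
  obtain ⟨t, ht⟩ := GFold_pre hX hY Y'
  rw [ht] at h
  exact (List.nodup_append.1 h).1

theorem fw_sub {a' a c c' : ℕ} {X' X Y Y' : List Bool} (hX' : Br a' X') (hX : Br a X) (hY : Br c Y) (hY' : Br c' Y')
    (h : (V (fw (X' ++ rt X' :: X) (Y ++ rt Y :: Y'))).Nodup) : (V (fw X Y)).Nodup :=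
  fw_subr hX hY hY' (fw_subl hX' hX h)

private lemma GFold_top {a c : ℕ} {X Y : List Bool} (hX : Br a X) (hY : Br c Y) :
    ∀ z ∈ V (fw X Y), F0 z ≤ 3 * a + 1 := by
  intro z hz
  rw [(fw_V hX Y).1, List.mem_append, List.mem_cons, List.mem_map] at hz
  rcases hz with hz | rfl | ⟨w, hw, rfl⟩
  · exact (hX.1.2 z hz).2
  · rw [fe_F0 hX]; omega
  · have := (hY.1.2 w hw).1
    rw [F0_sub, F0_add, fe_F0 hX]
    simp only [F0] at this ⊢
    omega

private lemma GFold_le {a a' c : ℕ} {X X' Y Y' : List Bool} (hX : Br a X) (hX' : Br a' X') (hY : Br c Y)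
    (h : fw X Y = fw X' Y') : a' ≤ a := by
  have h1 : E X' ∈ V (fw X Y) := by
    rw [h, (fw_V hX' Y').1]
    exact List.mem_append_left _ (E_mem X')
  have := GFold_top hX hY _ h1
  rw [hX'.2] at this
  omega

theorem fw_inj {a a' c c' : ℕ} {X X' Y Y' : List Bool} (hX : Br a X) (hX' : Br a' X') (hY : Br c Y) (hY' : Br c' Y')
    (h : fw X Y = fw X' Y') : X = X' ∧ Y = Y' := by
  have h1 : a' ≤ a := GFold_le hX hX' hY h
  have h2 : a ≤ a' := GFold_le hX' hX hY' h.symm
  obtain rfl : a = a' := le_antisymm h2 h1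
  have e : ∀ A B : List Bool, fw A B = (A ++ [!rt A]) ++ lt (A ++ [!rt A]) :: B := by
    intro A B; unfold fw; simp
  have key : ∀ {A B : List Bool} {k : ℕ}, Br a A → Br k B →
      ∀ z ∈ vs (E (A ++ [!rt A]) + tn (lt (A ++ [!rt A])) (Dr (A ++ [!rt A])))
        (tn (lt (A ++ [!rt A])) (Dr (A ++ [!rt A]))) B, ¬ (3 * (a : ℤ) ≤ F0 z) := by
    intro A B k hA hB z hz
    rw [GFold_lt hA, vs_left] at hz
    obtain ⟨w, hw, rfl⟩ := List.mem_map.1 hz
    have h3 := (hB.1.2 w hw).1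
    have h4 := fe_F0 hA
    unfold fe at h4
    rw [F0_sub, F0_add, h4]
    simp only [F0] at h3 ⊢
    omega
  have h5 := split_uniq (fun z => 3 * (a : ℤ) ≤ F0 z) ((e X Y).symm.trans (h.trans (e X' Y')))
    (by have := fe_F0 hX; unfold fe at this; rw [this]) (key hX hY)
    (by have := fe_F0 hX'; unfold fe at this; rw [this]) (key hX' hY')
  refine ⟨?_, h5.2.2⟩
  have h6 := h5.1
  have h7 : X.length = X'.length := by
    have := congrArg List.length h6
    simpa using this
  exact (List.append_inj h6 h7).1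

end Pool.Agent.HEP
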