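import Pool.Agent.HEP.GSide
import Pool.Agent.HEP.GFold

/-!
HEP geometry, module GPLA: planarity, the older leg `X` is one-sided (the younger leg is the longer one).

PAPER PROOF. Frame of `X`. Put `Z = Y ++ rt Y :: Y'` (in `Br (c + 1 + c')`, `join_Br`) and `m = a - c - 1 ≥ 0`. By `fw_V` (applied to `Z`) and `app_right`
the points of the younger leg are `fe X + (-1, 0) - z`, `z ∈ V Z = V Y ++ (E Y + (1, 0)) + V Y'`; `F0 (fe X + (-1, 0) - z) = 3 a - 2 - F0 z`. So the
`Y` part has `F0 ≥ 3 m` (`F0 z ≤ 3 c + 1`), ends at `e1 = fe X + (-1, 0) - E Y = E (fw X Y)`, `F0 e1 = 3 m`; the `Y'` part begins at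
`e2 = e1 + (-1, 0)`, has `F0 ≤ 3 m - 2`, and its last point has `F0 = 3 a - 2 - (3 (c + 1 + c') + 1) ≤ -3` (`hful`).
If `m = 0` the row `F0 z = -2` has no point of `V X` (`0 ≤ F0`), nothing to prove. Otherwise apply `planar` with
barrier (lower end first) = reverse of the list `E X + (1, 0), E X, fe X, (points of V Z in order)`: `A1` = reverse of the `Y'` points without the first
one `e2`, `A2` = reverse of (`E X + (1,0), E X, fe X`, `Y` points without the last one `e1`); `P = (V X).dropLast` (all the vertices of `X` but `E X`).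
`UChain`: consecutive vertices of `vs` differ by unit vectors (prove `UChain (V W)`, from `isChain` of `toL` or by induction with
`gd_std`; `fe X - E X` is a unit vector, `fe X + (-1, 0) - fe X` too), reversed chains and `U.symm`, `U.neg`. Disjointness: `hN` via `fw_V`;
`E X ∉ (V X).dropLast` (nodup); `F0 (E X + (1, 0)) = 3 a + 3`. `hlo`: lower end has `F0 ≤ -3 < 0 ≤ F0 z`. `hhi`: `F0 z ≤ 3 a + 1 < 3 a + 3`.
The row points `z, z'` are not `E X` (`3 m - 2 < 3 a + 1`). `e2.2 = e1.2 = (E (fw X Y)).2`.
-/

namespace Pool.Agent.HEP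

open Pool.Agent.Hhelper14.SAW Pool.Agent.HHP

private lemma GPLA_vs (W : List Bool) : ∀ p d : ℤ × ℤ, U d → UChain (vs p d W) := by
  induction W with
  | nil => intro p d _; simp [vs, UChain]
  | cons b W ih =>
    intro p d hd
    have hU : U (tn b d) := by
      unfold tn
      split_ifs
      · exact hd.L
      · exact hd.R
    have h1 := ih (p + tn b d) (tn b d) hU
    have h2 : vs (p + tn b d) (tn b d) W = (p + tn b d) :: (vs (p + tn b d) (tn b d) W).tail := by
      cases W <;> rfl
    simp only [vs]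
    rw [h2] at h1 ⊢
    refine List.isChain_cons_cons.2 ⟨?_, h1⟩
    have : p - (p + tn b d) = - tn b d := by ring
    rw [this]
    exact hU.neg

theorem uchain_V (W : List Bool) : UChain (V W) := by
  exact GPLA_vs W _ _ (by simp [U])

/-- The last vertex of a word. -/
private lemma GPLA_last (W : List Bool) : V W = (V W).dropLast ++ [E W] := by
  have h := vs_getLast? (0, 0) (1, 0) W
  have h1 : V W ≠ [] := vs_ne _ _ _
  have h2 : (V W).getLast h1 = E W := by
    have := List.getLast?_eq_getLast_of_ne_nil h1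
    unfold V at this
    rw [h] at this
    exact (Option.some.inj this).symm
  conv_lhs => rw [← List.dropLast_append_getLast h1]
  rw [h2]

/-- The first vertex of a word. -/
private lemma GPLA_head (W : List Bool) : V W = (0, 0) :: (V W).tail := by
  cases W <;> rfl

private lemma GPLA_F0 (q x y : ℤ × ℤ) : F0 (q - (x + y)) = F0 (q - x) - F0 y := by
  rw [F0_sub', F0_sub', F0_add]; ring

private lemma GPLA_headI {l : List (ℤ × ℤ)} {x : ℤ × ℤ} (h : l.head? = some x) : l.headI = x := by
  cases l with
  | nil => simp at h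
  | cons a l => simpa using h

theorem plA {a c c' : ℕ} {X Y Y' : List Bool} (hX : Br a X) (hY : Br c Y) (hY' : Br c' Y')
    (hca : c + 1 ≤ a) (hful : a ≤ c + 1 + c') (hN : (V (fw X (Y ++ rt Y :: Y'))).Nodup)
    {z z' : ℤ × ℤ} (hz : z ∈ V X) (hz' : z' ∈ V X)
    (hr : F0 z = 3 * ((a : ℤ) - c - 1) - 2) (hr' : F0 z' = 3 * ((a : ℤ) - c - 1) - 2)
    (hlt : z.2 < (E (fw X Y)).2) : z'.2 < (E (fw X Y)).2 := by
  obtain ⟨v1, -, -, -⟩ := fw_V hX (Y ++ rt Y :: Y')
  obtain ⟨-, v2, -, -⟩ := fw_V hX Y
  obtain ⟨w1, -, -⟩ := app_right (Q := Y') hY.tn_rt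
  have hfe := fe_F0 hX
  set q : ℤ × ℤ := fe X + (-1, 0) with hq
  have hFq : F0 q = 3 * a - 2 := by rw [hq, F0_add, hfe]; simp [F0]; ring
  set e1 : ℤ × ℤ := q - E Y with he1
  set e2 : ℤ × ℤ := q - (E Y + (1, 0)) with he2
  have hEY := hY.2
  have hEX := hX.2
  have hF1 : F0 e1 = 3 * ((a : ℤ) - c - 1) := by rw [he1, F0_sub', hFq, hEY]; ring
  have hF2 : F0 e2 = 3 * ((a : ℤ) - c - 1) - 2 := by
    rw [he2, F0_sub', hFq, F0_add, hEY]; simp [F0]; ring
  -- the two lists
  set A1 : List (ℤ × ℤ) := ((V Y').tail.map (fun w => q - ((E Y + (1, 0)) + w))).reverse with hA1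
  set A2 : List (ℤ × ℤ) := ((V Y).dropLast.map (fun w => q - w)).reverse ++ [fe X, E X, E X + (1, 0)] with hA2
  have hT : ((E X + (1, 0)) :: E X :: fe X :: (V (Y ++ rt Y :: Y')).map (fun w => q - w)).reverse =
      A1 ++ e2 :: e1 :: A2 := by
    rw [w1, GPLA_head Y', hA1, hA2, he1, he2]
    conv_lhs => rw [GPLA_last Y]
    simp only [List.map_append, List.map_cons, List.map_map, List.reverse_append, List.reverse_cons,
      List.nil_append, List.append_assoc, List.cons_append]
    congr 1
    congr 1
    simp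
  have hch : UChain (A1 ++ e2 :: e1 :: A2) := by
    rw [← hT]
    unfold UChain
    rw [List.isChain_reverse]
    have h1 : List.IsChain (fun x y => U (x - y)) ((V (Y ++ rt Y :: Y')).map (fun w => q - w)) := by
      rw [List.isChain_map]
      refine List.IsChain.imp ?_ (uchain_V (Y ++ rt Y :: Y'))
      intro x y h
      have : q - x - (q - y) = -(x - y) := by ring
      rw [this]
      exact h.neg
    have h2 : (V (Y ++ rt Y :: Y')).map (fun w => q - w) = q :: ((V (Y ++ rt Y :: Y')).map (fun w => q - w)).tail := by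
      rw [GPLA_head]
      simp
    have h3 : List.IsChain (fun x y => U (x - y))
        ((E X + (1, 0)) :: E X :: fe X :: (V (Y ++ rt Y :: Y')).map (fun w => q - w)) := by
      rw [h2] at h1 ⊢
      refine List.isChain_cons_cons.2 ⟨?_, List.isChain_cons_cons.2 ⟨?_, List.isChain_cons_cons.2 ⟨?_, h1⟩⟩⟩
      · simp [U]
      · rw [fe_eq]
        have : E X - (E X + tn (!rt X) (Dr X)) = - tn (!rt X) (Dr X) := by ring
        rw [this]
        exact (U_tn X _).neg
      · rw [hq]
        simp [U]
    refine List.IsChain.imp ?_ h3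
    intro x y h
    exact h.symm
  have hsub : ∀ x ∈ A1 ++ e2 :: e1 :: A2, x = E X + (1, 0) ∨ x = E X ∨
      x ∈ fe X :: (V (Y ++ rt Y :: Y')).map (fun w => q - w) := by
    intro x hx
    rw [← hT, List.mem_reverse, List.mem_cons, List.mem_cons] at hx
    exact hx
  have hnd := List.nodup_append.1 (v1 ▸ hN)
  have hlX := GPLA_last X
  have hEXn : E X ∉ (V X).dropLast := by
    have := hnd.1
    rw [hlX, List.nodup_append] at this
    intro h
    exact this.2.2 _ h _ (List.mem_singleton_self _) rfl
  have hmemX : ∀ x ∈ (V X).dropLast, x ∈ V X := fun x hx => List.mem_of_mem_dropLast hx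
  have hlast : (e1 :: A2).getLast (by simp) = E X + (1, 0) := by
    rw [hA2]
    simp
  have hhead : (A1 ++ e2 :: e1 :: A2).headI = q - ((E Y + (1, 0)) + E Y') := by
    refine GPLA_headI ?_
    have h5 : (E X + (1, 0)) :: E X :: fe X :: (V (Y ++ rt Y :: Y')).map (fun w => q - w) =
        ((E X + (1, 0)) :: E X :: fe X :: ((V Y).map (fun w => q - w) ++
          (V Y').dropLast.map (fun w => q - ((E Y + (1, 0)) + w)))) ++ [q - ((E Y + (1, 0)) + E Y')] := by
      rw [w1]
      conv_lhs => rw [GPLA_last Y']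
      simp
      rfl
    rw [← hT, List.head?_reverse, h5, List.getLast?_concat]
  have hmem : ∀ x ∈ V X, F0 x = 3 * ((a : ℤ) - c - 1) - 2 → x ∈ (V X).dropLast := by
    intro x hx hFx
    rw [hlX, List.mem_append, List.mem_singleton] at hx
    rcases hx with hx | hx
    · exact hx
    · exfalso
      rw [hx, hEX] at hFx
      omega
  have h22 : e2.2 = e1.2 := by
    rw [he2, he1]
    simp
  have key := planar (P := (V X).dropLast) (z := z) (z' := z') (m := (a : ℤ) - c - 1) hch
    (by rw [he1, he2]; ring) hF2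
    (by
      intro x hx
      rw [hA1, List.mem_reverse, List.mem_map] at hx
      obtain ⟨w, hw, rfl⟩ := hx
      have h5 := (hY'.1.2 w (List.mem_of_mem_tail hw)).1
      have h6 : F0 (q - (E Y + (1, 0) + w)) = F0 e2 - F0 w := GPLA_F0 _ _ _
      rw [h6, hF2]
      omega)
    (by
      intro x hx
      rw [hA2, List.mem_append, List.mem_reverse, List.mem_map] at hx
      rcases hx with ⟨w, hw, rfl⟩ | hx
      · have h5 := (hY.1.2 w (List.mem_of_mem_dropLast hw)).2
        rw [F0_sub', hFq]
        omega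
      · simp only [List.mem_cons, List.not_mem_nil, or_false] at hx
        rcases hx with rfl | rfl | rfl
        · rw [hfe]; omega
        · rw [hEX]; omega
        · rw [F0_add, hEX]; simp only [F0]; omega)
    (by
      have h5 := uchain_V X
      rw [hlX] at h5
      exact (List.isChain_append.1 h5).1)
    (by
      intro x hx hxB
      rcases hsub x hxB with h5 | h5 | h5
      · have h6 := (hX.1.2 x (hmemX x hx)).2
        rw [h5, F0_add, hEX] at h6
        simp only [F0] at h6
        omega
      · exact hEXn (h5 ▸ hx)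
      · exact hnd.2.2 x (hmemX x hx) x h5 rfl)
    (by
      intro x hx
      rw [hhead]
      have h5 := (hX.1.2 x (hmemX x hx)).1
      have h6 : F0 (q - (E Y + (1, 0) + E Y')) = F0 e2 - F0 (E Y') := GPLA_F0 _ _ _
      rw [h6, hF2, hY'.2]
      omega)
    (by
      intro x hx
      rw [hlast]
      have h5 := (hX.1.2 x (hmemX x hx)).2
      rw [F0_add, hEX]
      simp only [F0] at h5 ⊢
      omega)
    (hmem z hz hr) (hmem z' hz' hr') hr hr'
  rw [v2] at hlt ⊢
  rw [← h22] at hlt ⊢
  exact key hlt

end Pool.Agent.HEP
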