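import Pool.Agent.HEP.GIdent

/-!
HEP geometry, module GFar: mass of the words beyond the slit, and monotonicity of the bridge masses.

PAPER PROOF. `top_le`: `∑ n < B, xc ^ (n + 1) * (topn T M δ τ n).card ≤ (ms xE (Br T)).toReal`: every `P` in `topn` is
`toL W` with `W.length = n` (`toL_surj` for `Rg_dom`), `W` in `Br T` (all the vertices are in `Rg`, so `0 ≤ F0`
(`F3 z ≤ 0`) and `F0 ≤ 3 T + 1`; `F0 (E W) = 3 T + 1`, `toL_headI`); different `P` have different `W` (`toL_inj` is about `toL`, here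
`P = toL W` determines `P`); copy the proof of `gf_le` in `HHP/Lib`. `ms xE (Br T) ≤ 1` is finite (`Br_one`).
`far_le`: `ms_le_of_count` with `F n = farn T T' M δ τ n` for suitable `T', M` depending on the number of letters: to
have one `F`, use `F n := farn T (n + T + 5) (n + 5) δ τ n`; for `n < N` it is contained in
`farn T (N + T + 5) (N + 5) δ τ n` (monotone in `T'`, `M`: `D_mono`). A word `W` of `Far δ τ T` has `toL W ∈ F W.length`:
`isSaw_toL` with `Rg_dom`, and the vertices of a word with `n` letters satisfy the side conditions of `cc (n + T + 5) (n + 5)`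
(`saw_near`, as in `strip_mass`; `F3 ≤ 0` is `0 ≤ F0`; the old slit is excluded by `0 ≤ F0`). Then `slit_ineq` with
`T' = N + T + 5`, `M = N + 5` and `top_le` give `0.35 * ∑ n < N, ... ≤ ms xE (Br T)`, and `1 / 0.35 ≤ 3`.
`br_anti`: `ms_le_of_count` with `F n := topn T' (n + 5) 0 (n + 5) n` (the slit with `δ = 0` is empty inside
the half plane), `slit_ineq`, `top_le`. It is enough to do one step or directly `T ≤ T'`.
-/

namespace Pool.Agent.HEP

open Pool.Agent.Hhelper14.SAW Pool.Agent.HHP Finset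
open scoped ENNReal

private lemma count_le {P : List Bool → Prop} (F : ℕ → Finset (List (ℤ × ℤ)))
    (h : ∀ n, ∀ Q ∈ F n, ∃ W, W.length = n ∧ P W ∧ toL W = Q) {x : ℝ} (hx : 0 ≤ x) (B : ℕ) :
    ENNReal.ofReal (∑ n ∈ range B, x ^ (n + 1) * ((F n).card : ℝ)) ≤ ms (ENNReal.ofReal x) P := by
  classical
  have hex : ∀ q : (_ : ℕ) × List (ℤ × ℤ), ∃ W : List Bool, q ∈ (range B).sigma F →
      W.length = q.1 ∧ P W ∧ toL W = q.2 := by
    intro q
    by_cases hq : q ∈ (range B).sigma F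
    · obtain ⟨W, h2, h3, h4⟩ := h q.1 q.2 (Finset.mem_sigma.1 hq).2
      exact ⟨W, fun _ => ⟨h2, h3, h4⟩⟩
    · exact ⟨[], fun h => absurd h hq⟩
  choose φ hφ using hex
  have h1 : ENNReal.ofReal (∑ n ∈ range B, x ^ (n + 1) * ((F n).card : ℝ)) =
      ∑ q ∈ (range B).sigma F, ENNReal.ofReal x ^ ((φ q).length + 1) := by
    rw [ENNReal.ofReal_sum_of_nonneg (fun n _ => by positivity), Finset.sum_sigma]
    refine Finset.sum_congr rfl fun n hn => ?_
    have h2 : ∀ Q ∈ F n, ENNReal.ofReal x ^ ((φ ⟨n, Q⟩).length + 1) = ENNReal.ofReal x ^ (n + 1) := by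
      intro Q hQ
      rw [(hφ ⟨n, Q⟩ (Finset.mem_sigma.2 ⟨hn, hQ⟩)).1]
    rw [Finset.sum_congr rfl h2, Finset.sum_const, nsmul_eq_mul,
      ENNReal.ofReal_mul (by positivity), ENNReal.ofReal_pow hx, ENNReal.ofReal_natCast, mul_comm]
  rw [h1]
  have hinj : ∀ q ∈ (range B).sigma F, ∀ q' ∈ (range B).sigma F, φ q = φ q' → q = q' := by
    intro q hq q' hq' he
    have a := hφ q hq
    have b := hφ q' hq'
    obtain ⟨n, Q⟩ := q
    obtain ⟨n', Q'⟩ := q'
    have e1 : n = n' := by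
      have h3 := a.1
      have h4 := b.1
      simp only at h3 h4
      rw [← h3, ← h4, he]
    have e2 : Q = Q' := by
      have h3 := a.2.2
      have h4 := b.2.2
      simp only at h3 h4
      rw [← h3, ← h4, he]
    subst e1 e2
    rfl
  rw [ms_ind]
  calc ∑ q ∈ (range B).sigma F, ENNReal.ofReal x ^ ((φ q).length + 1)
      = ∑ q ∈ (range B).sigma F,
          (fun W => if P W then ENNReal.ofReal x ^ (W.length + 1) else 0) (φ q) := by
        refine Finset.sum_congr rfl fun q hq => ?_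
        simp only
        rw [if_pos (hφ q hq).2.1]
    _ = ∑ W ∈ ((range B).sigma F).image φ,
          (if P W then ENNReal.ofReal x ^ (W.length + 1) else 0) :=
        (Finset.sum_image (f := fun W => if P W then ENNReal.ofReal x ^ (W.length + 1) else 0)
          fun q hq q' hq' he => hinj q hq q' hq' he).symm
    _ ≤ _ := by
        refine (ENNReal.sum_le_tsum _).trans (le_of_eq (tsum_congr fun W => ?_))
        congr

theorem top_le (T M δ : ℕ) (τ : ℤ) (B : ℕ) :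
    ENNReal.ofReal (∑ n ∈ range B, xc ^ (n + 1) * ((topn T M δ τ n).card : ℝ)) ≤ ms xE (Br T) := by
  refine count_le (P := Br T) (fun n => topn T M δ τ n) ?_ xc_pos.le B
  intro n Q hQ
  unfold topn at hQ
  rw [Finset.mem_filter, mem_saw (Rg_dom _ _ _)] at hQ
  obtain ⟨W, h1, h2, h3, h4⟩ := toL_surj (Rg_dom _ _ _) hQ.1
  refine ⟨W, h1, ⟨⟨h2, fun z hz => ?_⟩, ?_⟩, h4⟩
  · obtain ⟨⟨-, -, g1, -, -, g2, g3⟩, -⟩ := h3 z hz
    simp only [cc, F0, F2, F3, F4] at *
    rcases lt_or_ge z.2 0 with hy | hy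
    · have := (g3 hy).2; push_cast at *; omega
    · have := (g2 hy).2; push_cast at *; omega
  · rw [← hQ.2, ← h4, toL_headI]

private lemma hp_dom : Dom (fun z : ℤ × ℤ => hon z ∧ 0 ≤ F0 z) := by
  refine ⟨⟨by decide, by decide⟩, fun x h => h.1, fun x h => ?_⟩
  have := h.2
  simp only [slit, F0] at *
  omega

/-- Words of the half plane are in the large domains. -/
private lemma toL_mem {δ : ℕ} {τ : ℤ} {T' : ℕ} {W : List Bool} (h1 : (V W).Nodup)
    (h2 : ∀ z ∈ V W, 0 ≤ F0 z ∧ ¬ (F0 z = 3 * (δ : ℤ) - 2 ∧ τ ≤ z.2))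
    (h3 : ∀ z ∈ V W, F0 z ≤ 3 * (T' : ℤ) + 1) :
    toL W ∈ saw (Rg (cc T' (W.length + 5)) δ τ) W.length := by
  rw [mem_saw (Rg_dom _ _ _)]
  have h4 : IsSaw (fun z : ℤ × ℤ => hon z ∧ 0 ≤ F0 z) W.length (toL W) :=
    isSaw_toL hp_dom h1 fun z hz => ⟨V_hon hz, (h2 z hz).1⟩
  have hnear := saw_near hp_dom _ _ h4
  refine isSaw_toL (Rg_dom _ _ _) h1 fun z hz => ?_
  have h5 := hnear z (by unfold toL; simp [hz])
  have h6 := h2 z hz
  have h7 := h3 z hz
  have h8 := hp_dom.off z ⟨V_hon hz, h6.1⟩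
  refine ⟨⟨V_hon hz, h8, ?_⟩, h6.2⟩
  simp only [cc, F0, F1, F2, F3, F4, F5] at *
  push_cast
  refine ⟨?_, ?_, ?_, ?_, ?_⟩ <;> omega

private lemma F0_near {W : List Bool} (h1 : (V W).Nodup) (h2 : ∀ z ∈ V W, 0 ≤ F0 z) :
    ∀ z ∈ V W, F0 z ≤ 3 * (W.length : ℤ) := by
  intro z hz
  have h4 : IsSaw (fun z : ℤ × ℤ => hon z ∧ 0 ≤ F0 z) W.length (toL W) :=
    isSaw_toL hp_dom h1 fun z hz => ⟨V_hon hz, h2 z hz⟩
  have h5 := saw_near hp_dom _ _ h4 z (by unfold toL; simp [hz])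
  simp only [F0]
  omega

private lemma cc_le {T T' M M' : ℕ} (h : T ≤ T') (h' : M ≤ M') : (cc T M).Le (cc T' M') := by
  refine ⟨?_, ?_, ?_, ?_, ?_, ?_, ?_⟩ <;> simp [cc] <;> assumption

private lemma Rg_mono {T T' M M' δ : ℕ} {τ : ℤ} (h : T ≤ T') (h' : M ≤ M') (z : ℤ × ℤ)
    (hz : Rg (cc T M) δ τ z) : Rg (cc T' M') δ τ z :=
  ⟨D_mono (cc_le h h') hz.1, hz.2⟩

private lemma toReal_le (T M δ : ℕ) (τ : ℤ) (B : ℕ) :
    ∑ n ∈ range B, xc ^ (n + 1) * ((topn T M δ τ n).card : ℝ) ≤ (ms xE (Br T)).toReal := by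
  have hne : ms xE (Br T) ≠ ∞ := ne_top_of_le_ne_top ENNReal.one_ne_top (Br_one T)
  exact (ENNReal.ofReal_le_iff_le_toReal hne).1 (top_le T M δ τ B)

theorem far_le (δ : ℕ) (τ : ℤ) (T : ℕ) : ms xE (Far δ τ T) ≤ 3 * ms xE (Br T) := by
  classical
  have hne : ms xE (Br T) ≠ ∞ := ne_top_of_le_ne_top ENNReal.one_ne_top (Br_one T)
  have hx := xc_pos
  have key := ms_le_of_count (P := Far δ τ T) (fun n => farn T (n + T + 5) (n + 5) δ τ n)
    (x := xc) (M := 3 * (ms xE (Br T)).toReal) ?_ xc_pos.le ?_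
  · rw [ENNReal.ofReal_mul (by norm_num), ENNReal.ofReal_toReal hne] at key
    simpa [xE] using key
  · rintro W ⟨h1, h2, h3, h4, h5, z, hz, hz2⟩
    unfold farn
    rw [Finset.mem_filter, toL_headI]
    have hn := F0_near h1 (fun z hz => (h2 z hz).1)
    refine ⟨toL_mem h1 h2 (fun z hz => ?_), h3, h4, ?_, z, ?_, hz2⟩
    · have := hn z hz
      push_cast
      omega
    · have := hn z hz
      omega
    · unfold toL
      simp [hz]
  · intro N
    obtain ⟨B, hB⟩ := slit_ineq δ T (N + T + 5) (N + 5) τ (by omega)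
    have h1 := hB N
    have h2 := toReal_le T (N + 5) δ τ B
    have h3 : 0 ≤ ∑ n ∈ range N, xc ^ (n + 1) * ((topn (N + T + 5) (N + 5) δ τ n).card : ℝ) :=
      Finset.sum_nonneg fun n _ => by positivity
    have h4 : ∑ n ∈ range N, xc ^ (n + 1) * ((farn T (n + T + 5) (n + 5) δ τ n).card : ℝ) ≤
        ∑ n ∈ range N, xc ^ (n + 1) * ((farn T (N + T + 5) (N + 5) δ τ n).card : ℝ) := by
      refine Finset.sum_le_sum fun n hn => ?_
      rw [Finset.mem_range] at hn
      refine mul_le_mul_of_nonneg_left ?_ (by positivity)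
      norm_cast
      refine Finset.card_le_card fun Q hQ => ?_
      unfold farn at hQ ⊢
      rw [Finset.mem_filter, mem_saw (Rg_dom _ _ _)] at hQ ⊢
      exact ⟨hQ.1.mono (Rg_mono (by omega) (by omega)), hQ.2⟩
    have h5 : 0 ≤ (ms xE (Br T)).toReal := ENNReal.toReal_nonneg
    linarith

theorem br_anti {T T' : ℕ} (h : T ≤ T') : ms xE (Br T') ≤ ms xE (Br T) := by
  classical
  have hne : ms xE (Br T) ≠ ∞ := ne_top_of_le_ne_top ENNReal.one_ne_top (Br_one T)
  have hx := xc_pos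
  have key := ms_le_of_count (P := Br T') (fun n => topn T' (n + 5) 0 0 n)
    (x := xc) (M := (ms xE (Br T)).toReal) ?_ xc_pos.le ?_
  · rw [ENNReal.ofReal_toReal hne] at key
    exact key
  · rintro W ⟨⟨h1, h2⟩, h3⟩
    unfold topn
    rw [Finset.mem_filter, toL_headI]
    refine ⟨toL_mem h1 (fun z hz => ⟨(h2 z hz).1, ?_⟩) (fun z hz => (h2 z hz).2), h3⟩
    rintro ⟨h4, -⟩
    have := (h2 z hz).1
    push_cast at h4
    omega
  · intro N
    obtain ⟨B, hB⟩ := slit_ineq 0 T T' (N + 5) 0 h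
    have h1 := hB N
    have h2 := toReal_le T (N + 5) 0 0 B
    have h3 : 0 ≤ ∑ n ∈ range N, xc ^ (n + 1) * ((farn T T' (N + 5) 0 0 n).card : ℝ) :=
      Finset.sum_nonneg fun n _ => by positivity
    have h4 : ∑ n ∈ range N, xc ^ (n + 1) * ((topn T' (n + 5) 0 0 n).card : ℝ) ≤
        ∑ n ∈ range N, xc ^ (n + 1) * ((topn T' (N + 5) 0 0 n).card : ℝ) := by
      refine Finset.sum_le_sum fun n hn => ?_
      rw [Finset.mem_range] at hn
      refine mul_le_mul_of_nonneg_left ?_ (by positivity)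
      norm_cast
      refine Finset.card_le_card fun Q hQ => ?_
      unfold topn at hQ ⊢
      rw [Finset.mem_filter, mem_saw (Rg_dom _ _ _)] at hQ ⊢
      exact ⟨hQ.1.mono (Rg_mono le_rfl (by omega)), hQ.2⟩
    linarith

end Pool.Agent.HEP
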