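import Pool.Agent.HEP.GDef
import Pool.Agent.Hhelper14.SAW.Refl

/-!
HEP geometry, module GRefl: the reflection `sg (a, b) = (a + b, - b)`; on words `W ↦ W.map (! ·)`.

PAPER PROOF. `sg (tn b d) = tn (!b) (sg d)` (`sg_L`, `sg_R`), `sg` is additive, `sg (1, 0) = (1, 0)`, `F0 (sg z) = F0 z`; so
`vs (sg p) (sg d) (W.map not) = (vs p d W).map sg` by induction. The rest is bookkeeping (`sg_inj`, `sg_sg`). For
`Ren`: split `W.map not = W1' ++ b' :: W2'` comes from the split of `W` (`List.map_eq_append_iff`). `ms_not`: the map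
`W ↦ W.map not` is a bijection which keeps the length (`ms_ind`, `Equiv.tsum_eq` or `Function.Involutive`).
-/

namespace Pool.Agent.HEP

open Pool.Agent.Hhelper14.SAW Pool.Agent.HHP
open scoped ENNReal

private lemma sg_tn (b : Bool) (d : ℤ × ℤ) : sg (tn b d) = tn (!b) (sg d) := by
  cases b
  · simp [tn, sg_R]
  · simp [tn, sg_L]

private lemma sg_add (x y : ℤ × ℤ) : sg (x + y) = sg x + sg y := by
  ext <;> simp [sg] <;> ring

private lemma sg_zero : sg (0, 0) = (0, 0) := by simp [sg]

private lemma sg_one : sg (1, 0) = (1, 0) := by simp [sg]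

private lemma vs_not (p d : ℤ × ℤ) (W : List Bool) :
    vs (sg p) (sg d) (W.map (! ·)) = (vs p d W).map sg := by
  induction W generalizing p d with
  | nil => simp [vs]
  | cons b W ih =>
    simp only [List.map_cons, vs]
    rw [← ih, sg_add, sg_tn]

private lemma ep_not (p d : ℤ × ℤ) (W : List Bool) :
    ep (sg p) (sg d) (W.map (! ·)) = sg (ep p d W) := by
  induction W generalizing p d with
  | nil => simp [ep]
  | cons b W ih =>
    simp only [List.map_cons, ep]
    rw [← ih, sg_add, sg_tn]

private lemma ed_not (d : ℤ × ℤ) (W : List Bool) :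
    ed (sg d) (W.map (! ·)) = sg (ed d W) := by
  induction W generalizing d with
  | nil => simp [ed]
  | cons b W ih =>
    simp only [List.map_cons, ed]
    rw [← ih, sg_tn]

private lemma not_not_map (W : List Bool) : (W.map (! ·)).map (! ·) = W := by
  rw [List.map_map]
  have : ((fun b : Bool => !b) ∘ fun b : Bool => !b) = id := by
    funext b; simp
  rw [this, List.map_id]

theorem V_not (W : List Bool) : V (W.map (! ·)) = (V W).map sg := by
  have := vs_not (0, 0) (1, 0) W
  rw [sg_zero, sg_one] at this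
  exact this

theorem E_not (W : List Bool) : E (W.map (! ·)) = sg (E W) := by
  have := ep_not (0, 0) (1, 0) W
  rw [sg_zero, sg_one] at this
  exact this

theorem Dr_not (W : List Bool) : Dr (W.map (! ·)) = sg (Dr W) := by
  have := ed_not (1, 0) W
  rw [sg_one] at this
  exact this

theorem hz_sg {d : ℤ × ℤ} : hz (sg d) ↔ hz d := by
  obtain ⟨a, b⟩ := d
  unfold hz sg
  simp only [Prod.mk.injEq]
  constructor <;> rintro (h | h) <;> [left; right; left; right] <;> constructor <;> omega

theorem F0_sg (z : ℤ × ℤ) : F0 (sg z) = F0 z := by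
  unfold F0 sg
  simp only
  ring

private lemma In_not {n : ℕ} {W : List Bool} (h : In n W) : In n (W.map (! ·)) := by
  refine ⟨?_, ?_⟩
  · rw [V_not]
    exact h.1.map sg_inj
  · intro z hz
    rw [V_not, List.mem_map] at hz
    obtain ⟨y, hy, rfl⟩ := hz
    rw [F0_sg]
    exact h.2 y hy

theorem Br_not {k : ℕ} {W : List Bool} (h : Br k W) : Br k (W.map (! ·)) := by
  refine ⟨In_not h.1, ?_⟩
  rw [E_not, F0_sg]
  exact h.2

theorem Ren_not {i : ℕ} {W : List Bool} (h : Ren i W) : Ren i (W.map (! ·)) := by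
  obtain ⟨W1, b, W2, rfl, h1, h2⟩ := h
  refine ⟨W1.map (! ·), !b, W2.map (! ·), by simp, ?_, ?_⟩
  · intro z hz
    rw [V_not, List.mem_map] at hz
    obtain ⟨y, hy, rfl⟩ := hz
    rw [F0_sg]
    exact h1 y hy
  · intro z hz
    rw [E_not, Dr_not, ← sg_tn, ← sg_add, vs_not, List.mem_map] at hz
    obtain ⟨y, hy, rfl⟩ := hz
    rw [F0_sg]
    exact h2 y hy

theorem Irr_not {W : List Bool} (h : Irr W) : Irr (W.map (! ·)) := by
  obtain ⟨k, h1, h2⟩ := h
  refine ⟨k, Br_not h1, fun i hi hik hr => h2 i hi hik ?_⟩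
  have := Ren_not hr
  rwa [not_not_map] at this

theorem ms_not (y : ℝ≥0∞) (P : List Bool → Prop) : ms y (fun W => P (W.map (! ·))) = ms y P := by
  unfold ms
  let e : {W : List Bool // P (W.map (! ·))} ≃ {W : List Bool // P W} :=
    { toFun := fun W => ⟨W.1.map (! ·), W.2⟩
      invFun := fun W => ⟨W.1.map (! ·), by rw [not_not_map]; exact W.2⟩
      left_inv := fun W => Subtype.ext (not_not_map W.1)
      right_inv := fun W => Subtype.ext (not_not_map W.1) }
  rw [← Equiv.tsum_eq e]
  refine tsum_congr fun W => ?_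
  simp [e]

end Pool.Agent.HEP
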