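import Pool.Agent.HEP.GDef

/-!
HEP geometry, module GRev: reversal of arcs.

Let `W = [t_1, ..., t_n]`, directions `d_0 = (1, 0)`, `d_i = tn t_i d_(i-1)`, vertices `z_0 = o`, `z_i = z_(i-1) + d_i`,
`t_(n+1) = lt W` (so the next direction is `(-1, 0)`, `lt_spec`). The reversed walk enters `z_n` in the direction `(1, 0)`
(from `z_n + (-1, 0)`), and then goes `z_n, z_(n-1), ..., z_0`; its turns are `!t_(n+1), !t_n, ..., !t_2`, which is
`rvw W = ((W ++ [lt W]).tail.reverse).map (! ·)`.

PAPER PROOF. General reversal lemma for `vs`: for a word `A` and a state `(p, d)` with `U d`, let `q = ep p d A`,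
`f = ed d A`. Then the walk which enters `q` in direction `g` such that `tn c g = - f`... It is convenient to prove by
induction on `A` (from the end, `List.reverseRecOn`, or `generalizing p d`): for every `b`,
`vs (ep p d (A ++ [b]) ) (- tn b (ed ..)) ...`. Suggested statement (R): for all words `A`, all `p d`, with
`q = ep p d A`, `f = ed d A`, and any letter `b`: the word `X = (A ++ [b]).tail.reverse.map (!·)` started at `q` with
direction `- tn b f` has `vs q (- tn b f) X = (vs p d A).reverse` and last direction `- (tn a d)` where `a` is the first letter of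
`A ++ [b]`. Induction on `A`: for `A = []`: `X = []`. For `A = a :: A'`: `(a :: A' ++ [b]).tail = A' ++ [b]`,
`X = (A' ++ [b]).reverse.map not = ((A' ++ [b]).tail.reverse.map not) ++ [!a']` with `a'` the first letter of `A' ++ [b]`; by
induction the first part ends at `p + tn a d` with last direction `- tn a' (tn a d)`, and `tn (!a') (- tn a' e) = - e` for unit `e`
(`tn_neg` and `tn (!a) (tn a e) = e`: `L (R e) = e`, `R (L e) = e`), so the next vertex is `p + tn a d - tn a d = p`.
Use `vs_snoc`/`vs_append`. Apply it with `A = W`, `b = lt W`, `p = (0,0)`, `d = (1,0)`; then shift by `- E W`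
(`vs_shift`). `F0 (E (rvw W)) = - F0 (E W)`. The last direction of `rvw W` is `- d_1`, `d_1 = tn t_1 (1, 0)` is not
horizontal. `rvw (rvw W) = W`: `lt (rvw W) = !t_1` by `lt_unique` (`tn (!t_1) (- d_1) = - (1, 0)`), then
`rvw W ++ [!t_1] = ((W ++ [lt W]).reverse).map not` and its tail reversed is `W`.
-/

namespace Pool.Agent.HEP

open Pool.Agent.Hhelper14.SAW Pool.Agent.HHP

private lemma GRev_tn (a : Bool) (d : ℤ × ℤ) : tn (!a) (tn a d) = d := by
  obtain ⟨x, y⟩ := d
  cases a <;> simp [tn, L, R]

/-- the reversal lemma -/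
private lemma GRev_rev (A : List Bool) : ∀ (p d : ℤ × ℤ) (b c : Bool) (T : List Bool), A ++ [b] = c :: T →
    vs (ep p d A) (-tn b (ed d A)) ((T.reverse).map (! ·)) = (vs p d A).reverse ∧
      ep (ep p d A) (-tn b (ed d A)) ((T.reverse).map (! ·)) = p ∧
      ed (-tn b (ed d A)) ((T.reverse).map (! ·)) = -tn c d := by
  induction A with
  | nil =>
    intro p d b c T h
    simp only [List.nil_append, List.cons.injEq] at h
    obtain ⟨rfl, rfl⟩ := h
    simp [vs, ep, ed]
  | cons a A ih =>
    intro p d b c T h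
    simp only [List.cons_append, List.cons.injEq] at h
    obtain ⟨rfl, rfl⟩ := h
    obtain ⟨a', T', hT⟩ : ∃ a' T', A ++ [b] = a' :: T' := by
      cases A with
      | nil => exact ⟨b, [], rfl⟩
      | cons x A => exact ⟨x, A ++ [b], rfl⟩
    obtain ⟨h1, h2, h3⟩ := ih (p + tn a d) (tn a d) b a' T' hT
    have hX : ((A ++ [b]).reverse).map (! ·) = (T'.reverse).map (! ·) ++ [!a'] := by
      rw [hT, List.reverse_cons, List.map_append]
      rfl
    have e1 : ep p d (a :: A) = ep (p + tn a d) (tn a d) A := rfl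
    have e2 : ed d (a :: A) = ed (tn a d) A := rfl
    have e3 : vs p d (a :: A) = p :: vs (p + tn a d) (tn a d) A := rfl
    have e4 : tn (!a') (-tn a' (tn a d)) = -tn a d := by rw [tn_neg, GRev_tn]
    have e5 : p + tn a d + -tn a d = p := by rw [add_neg_cancel_right]
    rw [hX, e1, e2, e3]
    refine ⟨?_, ?_, ?_⟩
    · rw [vs_append, h1, h2, h3, e4, e5, List.reverse_cons]
      rfl
    · rw [ep_append, h2, h3]
      show p + tn a d + tn (!a') (-tn a' (tn a d)) = p
      rw [e4, e5]
    · rw [ed_append, h3]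
      show tn (!a') (-tn a' (tn a d)) = -tn a d
      exact e4

theorem rvw_spec {W : List Bool} (hE : F0 (E W) % 3 = 0) (hd : ¬ hz (Dr W)) :
    V (rvw W) = ((V W).reverse).map (fun z => z - E W) ∧ E (rvw W) = - E W ∧ ¬ hz (Dr (rvw W)) ∧
      (rvw W).length = W.length ∧ rvw (rvw W) = W := by
  obtain ⟨a, T, hT⟩ : ∃ a T, W ++ [lt W] = a :: T := by
    cases W with
    | nil => exact ⟨lt [], [], rfl⟩
    | cons x A => exact ⟨x, A ++ [lt (x :: A)], rfl⟩
  have hr : rvw W = (T.reverse).map (! ·) := by
    rw [rvw, hT, List.tail_cons]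
  have hlt : tn (lt W) (Dr W) = (-1, 0) := lt_spec hE hd
  have hneg : -((-1, 0) : ℤ × ℤ) = (1, 0) := by ext <;> simp
  have hneg' : -((1, 0) : ℤ × ℤ) = (-1, 0) := by ext <;> simp
  obtain ⟨h1, h2, h3⟩ := GRev_rev W (0, 0) (1, 0) (lt W) a T hT
  have e1 : ep (0, 0) (1, 0) W = E W := rfl
  have e2 : ed (1, 0) W = Dr W := rfl
  have e3 : vs (0, 0) (1, 0) W = V W := rfl
  rw [e1, e2, hlt, hneg, ← hr] at h1 h2
  rw [e2, hlt, hneg, ← hr] at h3
  rw [e3, vs_right] at h1
  rw [ep_right] at h2
  have hV : V (rvw W) = ((V W).reverse).map (fun z => z - E W) := by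
    rw [← h1, List.map_map]
    have : ((fun z => z - E W) ∘ fun z => E W + z) = (id : ℤ × ℤ → ℤ × ℤ) := by
      funext z
      simp
    rw [this, List.map_id]
  have hEr : E (rvw W) = - E W := by
    have h0 : ((0, 0) : ℤ × ℤ) = 0 := rfl
    rw [h0] at h2
    exact (neg_eq_of_add_eq_zero_right h2).symm
  have hDr : Dr (rvw W) = - tn a (1, 0) := h3
  refine ⟨hV, hEr, ?_, ?_, ?_⟩
  · rw [hDr, hz_neg]
    cases a <;> simp [tn, L, R, hz]
  · rw [hr, List.length_map, List.length_reverse]
    have := congrArg List.length hT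
    simp only [List.length_append, List.length_cons, List.length_nil] at this
    omega
  · have hl : lt (rvw W) = !a := by
      symm
      apply lt_unique
      rw [hDr, tn_neg, GRev_tn, hneg']
    have hw : rvw W ++ [lt (rvw W)] = (!lt W) :: (W.reverse).map (! ·) := by
      rw [hl, hr]
      have h5 : (T.reverse).map (! ·) ++ [!a] = ((a :: T).reverse).map (! ·) := by
        rw [List.reverse_cons, List.map_append]
        rfl
      rw [h5, ← hT, List.reverse_append]
      rfl
    rw [rvw, hw, List.tail_cons, ← List.map_reverse, List.reverse_reverse, List.map_map]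
    have : ((fun x => !x) ∘ fun x => !x) = (id : Bool → Bool) := by
      funext x
      simp
    rw [this, List.map_id]

end Pool.Agent.HEP
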