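import Pool.Agent.HEP.GFac
import Pool.Agent.HHP.StepA
import Pool.Agent.Hhelper14.SAW.Main

/-!
Project HEP, geometry: the total mass of the blocks is one (Kesten's relation).

PROOF. The masses `B k = ms xE (Br k)` are not summable: otherwise the Hammersley-Welsh recursion `SS_rec` bounds the masses of
the strips, hence (`hw_sum`) the sums `∑ k ≤ n, xc ^ k * a_k`, but `a_k ≥ mu ^ k`. By the unique factorisation
`∑ B k = ∑_(m ≥ 1) p ^ m`, `p` = mass of the blocks, and `B k ≤ 1`: so `p = 1`.
-/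

namespace Pool.Agent.HEP

open Pool.Agent.Hhelper14.SAW Pool.Agent.Hhelper63.HW Pool.Agent.HHP Finset
open scoped ENNReal

/-- Bound of the generating function of all walks by a bound for strips. -/
lemma hw_sum {x : ℝ} (hx : 0 < x) {M : ℝ}
    (hM : ∀ T N, gf (fun n => (saw (St T) n).card) x N ≤ M) (N : ℕ) :
    ∑ k ∈ range N, x ^ k * (an k : ℝ) ≤ M + (x * M + 2 * (x ^ 2 * (M * M))) := by
  have hH : ∀ N, gf Hn x N ≤ M := by
    intro N
    refine le_trans ?_ (hM N N)
    unfold gf
    refine sum_le_sum fun n hn => ?_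
    have : Hn n ≤ (saw (St N) n).card := card_le_card (saw_Hp_subset (by rw [mem_range] at hn; omega))
    have : (Hn n : ℝ) ≤ ((saw (St N) n).card : ℝ) := by exact_mod_cast this
    gcongr
  have hM0 : 0 ≤ M := (gf_nonneg Hn hx.le 0).trans (hH 0)
  have h2 : ∑ k ∈ range N, x ^ k * (an k : ℝ) ≤ ∑ k ∈ range N, (x ^ k * (Hn k : ℝ) +
      (x ^ k * ((∑ m ∈ (range N).filter (fun m => m + 1 = k), Hn m : ℕ) : ℝ) +
      2 * (x ^ k * ((∑ p ∈ (range N ×ˢ range N).filter (fun p => p.1 + p.2 + 2 = k), Hn p.1 * Hn p.2 : ℕ) : ℝ)))) := by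
    refine sum_le_sum fun k hk => ?_
    have h3 := an_le k N (by rw [mem_range] at hk; omega)
    have h4 : (an k : ℝ) ≤ (Hn k : ℝ) + (((∑ m ∈ (range N).filter (fun m => m + 1 = k), Hn m : ℕ) : ℝ) +
      2 * ((∑ p ∈ (range N ×ˢ range N).filter (fun p => p.1 + p.2 + 2 = k), Hn p.1 * Hn p.2 : ℕ) : ℝ)) := by
      exact_mod_cast h3
    have h5 := mul_le_mul_of_nonneg_left h4 (pow_nonneg hx.le k)
    refine h5.trans (le_of_eq ?_)
    ring
  refine h2.trans ?_
  rw [sum_add_distrib, sum_add_distrib, ← mul_sum]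
  have k1 := gf_shift Hn hx.le N
  have k3 := gf_conv Hn Hn hx.le N
  have k4 : ∑ k ∈ range N, x ^ k * (Hn k : ℝ) = gf Hn x N := rfl
  rw [k4]
  have g0 := gf_nonneg Hn hx.le N
  have g1 := hH N
  have e1 : x * gf Hn x N ≤ x * M := mul_le_mul_of_nonneg_left g1 hx.le
  have e2 : x ^ 2 * (gf Hn x N * gf Hn x N) ≤ x ^ 2 * (M * M) :=
    mul_le_mul_of_nonneg_left (mul_le_mul g1 g1 g0 hM0) (by positivity)
  linarith

/-- The masses of the strips are not bounded at the critical point. -/
lemma In_unbounded {M : ℝ≥0∞} (hM : M ≠ ⊤) : ¬ ∀ n, ms xE (In n) ≤ M := by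
  intro h
  have hxc : 0 < xc := Pool.Agent.Hhelper14.SAW.xc_pos
  have h1 : ∀ T N, gf (fun n => (saw (St T) n).card) xc N ≤ M.toReal / xc := by
    intro T N
    have h2 := (gf_le hxc.le T N).trans (h T)
    rw [le_div_iff₀ hxc, mul_comm]
    exact (ENNReal.ofReal_le_iff_le_toReal hM).1 h2
  set C : ℝ := M.toReal / xc + (xc * (M.toReal / xc) + 2 * (xc ^ 2 * (M.toReal / xc * (M.toReal / xc)))) with hC
  have h3 : ∀ N : ℕ, (N : ℝ) ≤ C := by
    intro N
    refine le_trans ?_ (hw_sum hxc h1 N)
    calc (N : ℝ) = ∑ _k ∈ range N, (1 : ℝ) := by simp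
      _ ≤ ∑ k ∈ range N, xc ^ k * (an k : ℝ) := by
          refine sum_le_sum fun k _ => ?_
          rcases Nat.eq_zero_or_pos k with h0 | h0
          · subst h0
            rw [an_zero]; simp
          · have h4 := mu_pow_le k h0
            have h5 : xc ^ k * mu ^ k = 1 := by rw [← mul_pow, xc_mu, one_pow]
            calc (1 : ℝ) = xc ^ k * mu ^ k := h5.symm
              _ ≤ xc ^ k * (an k : ℝ) := mul_le_mul_of_nonneg_left h4 (pow_nonneg hxc.le k)
  obtain ⟨N, hN⟩ := exists_nat_gt C
  exact absurd (h3 N) (not_le.2 hN)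

lemma Fi_mass_le (k : ℕ) : ms xE (Fi (k + 1)) ≤ 2 * ms xE (Br (k + 1)) := by
  have h1 : ∀ W, Fi (k + 1) W → Br (k + 1) W ∨ ∃ P, Br (k + 1) P ∧ W = P ++ [!rt P] := by
    intro W hW
    rcases Fi_cases hW with h | h | h
    · exact Or.inl h
    · exfalso
      have h2 := hW.2
      rw [h, E_nil] at h2
      simp [F0] at h2
      omega
    · exact Or.inr h
  refine (ms_or h1).trans ?_
  rw [two_mul]
  refine add_le_add le_rfl ?_
  refine (ms_snoc_le xE (k + 1)).trans ?_
  calc xE * ms xE (Br (k + 1)) ≤ 1 * ms xE (Br (k + 1)) := mul_le_mul' xE_le le_rfl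
    _ = ms xE (Br (k + 1)) := one_mul _

lemma JP_mass_le (a b : ℕ) : ms2 xE (JP a b) ≤ ms xE (Br a) * ms xE (Br b) := by
  have h1 : ms2 xE (JP a b) ≤ ms2 xE (fun p => Be a p.1 ∧ Be b p.2) := ms2_mono fun p hp => ⟨hp.1, hp.2.1⟩
  rw [ms_mul] at h1
  have h2 : ∀ k, ms xE (Be k) ≤ ms xE (Br k) := fun k => by
    refine (Be_le xE k).trans ?_
    calc xE * ms xE (Br k) ≤ 1 * ms xE (Br k) := mul_le_mul' xE_le le_rfl
      _ = ms xE (Br k) := one_mul _
  exact h1.trans (mul_le_mul' (h2 a) (h2 b))

private lemma prod_tel (x : ℕ → ℝ≥0∞) (n : ℕ) :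
    1 + ∑ b ∈ range n, x b * ∏ j ∈ range b, (1 + x j) = ∏ b ∈ range n, (1 + x b) := by
  induction n with
  | zero => simp
  | succ n ih =>
    rw [sum_range_succ, ← add_assoc, ih, prod_range_succ]
    ring

private lemma prod_le_exp {x : ℕ → ℝ≥0∞} {T : ℝ≥0∞} (hT : T ≠ ⊤) (hx : ∀ n, ∑ b ∈ range n, x b ≤ T) (n : ℕ) :
    ∏ b ∈ range n, (1 + x b) ≤ ENNReal.ofReal (Real.exp T.toReal) := by
  have hxb : ∀ b, x b ≠ ⊤ := fun b => by
    refine ne_top_of_le_ne_top hT ((single_le_sum (f := x) (fun _ _ => bot_le) ?_).trans (hx (b + 1)))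
    rw [mem_range]; omega
  have h1 : ∀ b, 1 + x b ≤ ENNReal.ofReal (Real.exp (x b).toReal) := fun b => by
    have h2 := Real.add_one_le_exp (x b).toReal
    calc 1 + x b = ENNReal.ofReal ((x b).toReal + 1) := by
          rw [ENNReal.ofReal_add ENNReal.toReal_nonneg zero_le_one, ENNReal.ofReal_toReal (hxb b),
            ENNReal.ofReal_one, add_comm]
      _ ≤ _ := ENNReal.ofReal_le_ofReal h2
  calc ∏ b ∈ range n, (1 + x b) ≤ ∏ b ∈ range n, ENNReal.ofReal (Real.exp (x b).toReal) :=
        prod_le_prod' fun b _ => h1 b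
    _ = ENNReal.ofReal (Real.exp (∑ b ∈ range n, (x b).toReal)) := by
        rw [Real.exp_sum, ENNReal.ofReal_prod_of_nonneg fun b _ => (Real.exp_pos _).le]
    _ ≤ _ := by
        refine ENNReal.ofReal_le_ofReal (Real.exp_le_exp.2 ?_)
        rw [← ENNReal.toReal_sum fun b _ => hxb b]
        exact ENNReal.toReal_mono hT (hx n)

/-- The masses of the bridges are not summable. -/
theorem Br_tsum : ∑' k, ms xE (Br k) = ⊤ := by
  by_contra hS
  set S := ∑' k, ms xE (Br k) with hSd
  set F : ℝ≥0∞ := 3 + 2 * S with hF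
  have hFtop : F ≠ ⊤ := by rw [hF]; finiteness
  have hB : ∀ n, ∑ k ∈ range n, ms xE (Br k) ≤ S := fun n => ENNReal.sum_le_tsum _
  have hFi : ∀ n, ∑ k ∈ range (n + 1), ms xE (Fi k) ≤ F := by
    intro n
    rw [sum_range_succ']
    have h0 : ms xE (Fi 0) ≤ 3 := by
      refine (Fi_le xE 0).trans ?_
      calc (1 + xE) * ms xE (Br 0) + xE ≤ (1 + 1) * 1 + 1 := by
            gcongr
            · exact xE_le
            · exact Br_one 0
            · exact xE_le
        _ = 3 := by norm_num
    have h1 : ∑ k ∈ range n, ms xE (Fi (k + 1)) ≤ 2 * S := by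
      calc ∑ k ∈ range n, ms xE (Fi (k + 1)) ≤ ∑ k ∈ range n, 2 * ms xE (Br (k + 1)) :=
            sum_le_sum fun k _ => Fi_mass_le k
        _ = 2 * ∑ k ∈ range n, ms xE (Br (k + 1)) := by rw [mul_sum]
        _ ≤ 2 * S := by
            gcongr
            refine le_trans ?_ (hB (n + 1))
            rw [sum_range_succ']
            exact le_self_add
    rw [hF, add_comm]
    exact add_le_add h0 h1
  have hrec : ∀ n, ms xE (SS n) ≤ (F + S * F) + ∑ b ∈ range n, (S * ms xE (Br b)) * ms xE (SS b) := by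
    intro n
    refine (SS_rec xE n).trans (add_le_add (add_le_add (hFi n) ?_) ?_)
    · calc ∑ a ∈ range (n + 1), ∑ b ∈ range a, ms xE (Be a) * ms xE (Fi b)
          ≤ ∑ a ∈ range (n + 1), ms xE (Br a) * F := by
            refine sum_le_sum fun a _ => ?_
            rw [← mul_sum]
            refine mul_le_mul' ?_ ?_
            · refine (Be_le xE a).trans ?_
              calc xE * ms xE (Br a) ≤ 1 * ms xE (Br a) := mul_le_mul' xE_le le_rfl
                _ = ms xE (Br a) := one_mul _
            · rcases a with _ | a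
              · simp
              · exact hFi a
        _ = (∑ a ∈ range (n + 1), ms xE (Br a)) * F := by rw [sum_mul]
        _ ≤ S * F := mul_le_mul' (hB _) le_rfl
    · calc ∑ a ∈ range (n + 1), ∑ b ∈ range a, ms2 xE (JP a b) * ms xE (SS b)
          ≤ ∑ a ∈ range (n + 1), ∑ b ∈ range a, ms xE (Br a) * (ms xE (Br b) * ms xE (SS b)) := by
            refine sum_le_sum fun a _ => sum_le_sum fun b _ => ?_
            rw [← mul_assoc]
            exact mul_le_mul' (JP_mass_le a b) le_rfl
        _ ≤ ∑ a ∈ range (n + 1), ∑ b ∈ range n, ms xE (Br a) * (ms xE (Br b) * ms xE (SS b)) := by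
            refine sum_le_sum fun a ha => sum_le_sum_of_subset (range_subset_range.2 ?_)
            rw [mem_range] at ha; omega
        _ = ∑ b ∈ range n, (∑ a ∈ range (n + 1), ms xE (Br a)) * (ms xE (Br b) * ms xE (SS b)) := by
            rw [sum_comm]
            exact sum_congr rfl fun b _ => by rw [sum_mul]
        _ ≤ ∑ b ∈ range n, (S * ms xE (Br b)) * ms xE (SS b) := by
            refine sum_le_sum fun b _ => ?_
            rw [mul_assoc]
            exact mul_le_mul' (hB _) le_rfl
  have hgr : ∀ n, ms xE (SS n) ≤ (F + S * F) * ∏ b ∈ range n, (1 + S * ms xE (Br b)) := by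
    intro n
    induction n using Nat.strong_induction_on with
    | _ n ih =>
      refine (hrec n).trans ?_
      calc (F + S * F) + ∑ b ∈ range n, (S * ms xE (Br b)) * ms xE (SS b)
          ≤ (F + S * F) + ∑ b ∈ range n, (S * ms xE (Br b)) * ((F + S * F) * ∏ j ∈ range b, (1 + S * ms xE (Br j))) := by
            gcongr with b hb
            exact ih b (mem_range.1 hb)
        _ = (F + S * F) * (1 + ∑ b ∈ range n, (S * ms xE (Br b)) * ∏ j ∈ range b, (1 + S * ms xE (Br j))) := by
            rw [mul_add (F + S * F) 1, mul_one, mul_sum]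
            congr 1
            refine sum_congr rfl fun b _ => ?_
            ring
        _ = _ := by rw [prod_tel]
  have hSS : S * S ≠ ⊤ := ENNReal.mul_ne_top hS hS
  have hbd : ∀ n, ms xE (SS n) ≤ (F + S * F) * ENNReal.ofReal (Real.exp (S * S).toReal) := by
    intro n
    refine (hgr n).trans (mul_le_mul' le_rfl (prod_le_exp hSS (fun m => ?_) n))
    rw [← mul_sum]
    exact mul_le_mul' le_rfl (hB m)
  refine In_unbounded (M := (1 + xE) * ((F + S * F) * ENNReal.ofReal (Real.exp (S * S).toReal))) ?_ fun n =>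
    (In_le xE n).trans (mul_le_mul' le_rfl (hbd n))
  have := xE_ne.2
  finiteness

private lemma tsum_lists {β : Type} (f : List β → ℝ≥0∞) : ∑' l, f l = f [] + ∑' c, ∑' l, f (c :: l) := by
  classical
  rw [ENNReal.tsum_eq_add_tsum_ite ([] : List β), ← ENNReal.tsum_prod (f := fun c l => f (c :: l))]
  congr 1
  have hinj : Function.Injective (fun x : β × List β => x.1 :: x.2) := by
    rintro ⟨a, l⟩ ⟨a', l'⟩ h
    simp only [List.cons.injEq] at h
    exact Prod.ext h.1 h.2
  have key : ∑' l, (if l = [] then 0 else f l) = ∑' p : β × List β, f (p.1 :: p.2) := by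
    rw [← hinj.tsum_eq (f := fun l => if l = [] then 0 else f l)]
    · refine tsum_congr fun x => ?_
      rw [if_neg (by simp)]
    · intro l hl
      rcases l with _ | ⟨c, l⟩
      · simp at hl
      · exact ⟨(c, l), rfl⟩
  convert key

/-- Lists of length `m` of blocks with a property. -/
private lemma pow_lists (P : Blk → Prop) (m : ℕ) :
    (∑' c : Blk, ind (P c) * xE ^ (c.1.length + 1)) ^ m =
      ∑' l : List Blk, ind (l.length = m ∧ ∀ c ∈ l, P c) * wj l := by
  induction m with
  | zero =>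
    rw [pow_zero, tsum_eq_single []]
    · rw [ind_true (by simp), wj_nil, one_mul]
    · intro l hl
      rw [ind_false, zero_mul]
      rintro ⟨h, -⟩
      exact hl (List.length_eq_zero_iff.1 h)
  | succ m ih =>
    rw [tsum_lists, ind_false (by simp), zero_mul, zero_add, pow_succ', ih, ← ENNReal.tsum_mul_right]
    refine tsum_congr fun c => ?_
    rw [← ENNReal.tsum_mul_left]
    refine tsum_congr fun l => ?_
    rw [wj_cons, ind_congr (show (c :: l).length = m + 1 ∧ (∀ d ∈ c :: l, P d) ↔
      P c ∧ (l.length = m ∧ ∀ d ∈ l, P d) by simp; tauto), ind_and (P c) (l.length = m ∧ ∀ d ∈ l, P d)]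
    ring

private lemma wj_levels (k : ℕ) : ∑' l : List Blk, ind (hj l = k) * wj l =
    if k = 0 then 1 else ms xE (Br (k - 1)) := by
  rcases k with _ | k
  · rw [if_pos rfl, tsum_eq_single []]
    · rw [ind_true hj_nil, wj_nil, one_mul]
    · intro l hl
      rw [ind_false, zero_mul]
      intro h
      have := hj_pos hl
      omega
  · rw [if_neg (by omega), Nat.add_sub_cancel, ms_Br]

private lemma wj_sum_le (N : ℕ) : ∑' l : List Blk, ind (hj l ≤ N) * wj l ≤ N + 1 := by
  have h1 : ∑' l : List Blk, ind (hj l ≤ N) * wj l = ∑ k ∈ range (N + 1), ∑' l : List Blk, ind (hj l = k) * wj l := by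
    rw [← Summable.tsum_finsetSum (fun _ _ => ENNReal.summable)]
    refine tsum_congr fun l => ?_
    rw [← sum_mul]
    congr 1
    by_cases h : hj l ≤ N
    · rw [ind_true h, sum_eq_single (hj l), ind_true rfl]
      · intro k _ hk
        exact ind_false (Ne.symm hk)
      · intro h2
        exfalso
        rw [mem_range] at h2; omega
    · rw [ind_false h, sum_eq_zero]
      intro k hk
      rw [mem_range] at hk
      exact ind_false (by omega)
  rw [h1]
  calc ∑ k ∈ range (N + 1), ∑' l : List Blk, ind (hj l = k) * wj l ≤ ∑ _k ∈ range (N + 1), (1 : ℝ≥0∞) := by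
        refine sum_le_sum fun k _ => ?_
        rw [wj_levels]
        split_ifs
        · exact le_rfl
        · exact Br_one _
    _ = N + 1 := by simp

private lemma no_exp {p : ℝ} (hp : 1 < p) (J : ℕ) (h : ∀ m : ℕ, p ^ m ≤ m * J + 1) : False := by
  obtain ⟨x, hx, rfl⟩ : ∃ x : ℝ, 0 < x ∧ p = 1 + x := ⟨p - 1, by linarith, by ring⟩
  obtain ⟨m, hm⟩ := exists_nat_gt ((2 * J + 1) / x ^ 2)
  have hx2 : 0 < x ^ 2 := by positivity
  rw [div_lt_iff₀ hx2] at hm
  have hm0 : 0 < m := by
    rcases Nat.eq_zero_or_pos m with h0 | h0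
    · subst h0
      exfalso
      have : (0 : ℝ) ≤ 2 * J + 1 := by positivity
      simp at hm
      linarith
    · exact h0
  have h1 := h (2 * m)
  have h2 := one_add_mul_le_pow (show (-2 : ℝ) ≤ x by linarith) m
  have h3 : (1 + (m : ℝ) * x) ^ 2 ≤ (1 + x) ^ (2 * m) := by
    rw [mul_comm 2 m, pow_mul]
    exact pow_le_pow_left₀ (by positivity) h2 2
  have hm1 : (1 : ℝ) ≤ m := by exact_mod_cast hm0
  have h4 : ((2 * m : ℕ) : ℝ) * J + 1 < (1 + (m : ℝ) * x) ^ 2 := by
    have h5 : (2 * (J : ℝ) + 1) * m < m * x ^ 2 * m := mul_lt_mul_of_pos_right hm (by linarith)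
    push_cast
    nlinarith [mul_nonneg (by linarith : (0 : ℝ) ≤ m) hx.le]
  linarith

private lemma blk_J (J : ℕ) : ∑' c : Blk, ind (htw c.1 ≤ J) * xE ^ (c.1.length + 1) ≤ 1 := by
  set p := ∑' c : Blk, ind (htw c.1 ≤ J) * xE ^ (c.1.length + 1) with hp
  have h1 : ∀ m : ℕ, p ^ m ≤ ((m * J : ℕ) : ℝ≥0∞) + 1 := by
    intro m
    rw [hp, pow_lists]
    refine le_trans (ENNReal.tsum_le_tsum fun l => ?_) (wj_sum_le (m * J))
    refine mul_le_mul' (ind_mono ?_) le_rfl
    rintro ⟨h2, h3⟩
    rw [← h2]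
    clear h2
    induction l with
    | nil => simp [hj_nil]
    | cons c l ih =>
      rw [hj_cons, List.length_cons, add_mul, one_mul]
      have := h3 c (by simp)
      have := ih fun d hd => h3 d (by simp [hd])
      omega
  have hpt : p ≠ ⊤ := by
    have := h1 1
    rw [pow_one] at this
    exact ne_top_of_le_ne_top (by finiteness) this
  by_contra hlt
  rw [not_le] at hlt
  have h2 : 1 < p.toReal := by
    have := (ENNReal.toReal_lt_toReal ENNReal.one_ne_top hpt).2 hlt
    simpa using this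
  refine no_exp h2 J fun m => ?_
  have h3 := ENNReal.toReal_mono (by finiteness) (h1 m)
  rw [ENNReal.toReal_pow, ENNReal.toReal_add (ENNReal.natCast_ne_top _) ENNReal.one_ne_top,
    ENNReal.toReal_natCast, ENNReal.toReal_one] at h3
  push_cast at h3
  exact h3

/-- The total mass of the blocks is one. -/
theorem blk_tot : ∑' c : Blk, xE ^ (c.1.length + 1) = 1 := by
  refine le_antisymm ?_ ?_
  · rw [ENNReal.tsum_eq_iSup_sum]
    refine iSup_le fun s => ?_
    refine le_trans ?_ (blk_J (s.sup fun c => htw c.1))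
    refine le_trans (sum_le_sum fun c hc => ?_) (ENNReal.sum_le_tsum s)
    rw [ind_true (le_sup (f := fun c : Blk => htw c.1) hc), one_mul]
  · by_contra hlt
    rw [not_le] at hlt
    set p := ∑' c : Blk, xE ^ (c.1.length + 1) with hp
    have h1 : ∀ m : ℕ, p ^ m = ∑' l : List Blk, ind (l.length = m) * wj l := by
      intro m
      have := pow_lists (fun _ => True) m
      simp only [implies_true, and_true] at this
      rw [← this, hp]
      congr 2
      funext c
      rw [ind_true trivial, one_mul]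
    have h2 : ∑' l : List Blk, wj l = ∑' m, p ^ m := by
      rw [tsum_congr h1, ENNReal.tsum_comm]
      refine tsum_congr fun l => ?_
      rw [tsum_eq_single l.length]
      · rw [ind_true rfl, one_mul]
      · intro m hm
        rw [ind_false (Ne.symm hm), zero_mul]
    have h3 : ∑' l : List Blk, wj l = ⊤ := by
      have h4 : ∑' l : List Blk, wj l = ∑' k, ∑' l : List Blk, ind (hj l = k) * wj l := by
        rw [ENNReal.tsum_comm]
        refine tsum_congr fun l => ?_
        rw [tsum_eq_single (hj l)]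
        · rw [ind_true rfl, one_mul]
        · intro m hm
          rw [ind_false (Ne.symm hm), zero_mul]
      rw [h4, eq_top_iff, ← Br_tsum]
      have h5 : Function.Injective (fun k : ℕ => k + 1) := add_left_injective 1
      refine le_trans (le_of_eq (tsum_congr fun k => ?_)) (ENNReal.tsum_comp_le_tsum_of_injective h5 _)
      rw [wj_levels, if_neg (by omega), Nat.add_sub_cancel]
    rw [h2, ENNReal.tsum_geometric] at h3
    rw [ENNReal.inv_eq_top, tsub_eq_zero_iff_le] at h3
    exact absurd h3 (not_le.2 hlt)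

end Pool.Agent.HEP
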