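import Pool.Agent.HEP.GJn
import Pool.Agent.HEP.GFold
import Pool.Agent.HEP.GRefl
import Pool.Agent.HEP.GTot

/-!
HEP geometry, module GSys: the system `hs n` of the honeycomb lattice (blocks with more than `n` steps do not move and are
killed by `Av`).

Leg 1 (older strand) given by the list `l` (read from the fold outward): word `jn l.reverse`. Leg 2 (younger strand), list `s`:
word `jn s`. Coordinates of the younger leg: the point `z` of the frame of `jn l.reverse` is `fe (jn l.reverse) + (-1, 0) - z`.
`rowT l j`: second coordinates (frame of leg 2) of the points of leg 1 (with the point `o'` behind its end) in the row `F0 = 3 j`, the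
row just beyond the line `j`. `rowF l j`: second coordinates of the points of leg 2 in the row `F0 = 3 j - 3`, the row just beyond the end (line
`j - 1`) of an older leg of height `j`.
-/

namespace Pool.Agent.HEP

open Pool.Agent.Hhelper14.SAW Pool.Agent.HHP
open scoped ENNReal

/-- Rows of the older leg. -/
def rowT (l : List Blk) (j : ℕ) : Set ℤ :=
  {y | ∃ z, (z = o' ∨ z ∈ V (jn l.reverse)) ∧ F0 (fe (jn l.reverse) + (-1, 0) - z) = 3 * j ∧
    y = (fe (jn l.reverse) + (-1, 0) - z).2}

/-- Rows of the younger leg. -/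
def rowF (l : List Blk) (j : ℕ) : Set ℤ := {y | ∃ z ∈ V (jn l), F0 z = 3 * (j : ℤ) - 3 ∧ y = z.2}

/-- Avoidance of the two legs, blocks with at most `n` steps. -/
def Avn (n : ℕ) (l s : List Blk) : Prop :=
  (∀ c ∈ l ++ s, c.1.length ≤ n) ∧ (l = [] ∨ s = [] ∨ (V (fw (jn l.reverse) (jn s))).Nodup)

lemma Avn_pre {n : ℕ} {l l' s s' : List Blk} (h : Avn n (l ++ l') (s ++ s')) : Avn n l s := by
  obtain ⟨h1, h2⟩ := h
  refine ⟨fun c hc => h1 c ?_, ?_⟩
  · simp only [List.mem_append] at hc ⊢
    tauto
  by_cases hl : l = []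
  · exact Or.inl hl
  by_cases hs : s = []
  · exact Or.inr (Or.inl hs)
  right; right
  have h3 : (V (fw (jn (l ++ l').reverse) (jn (s ++ s')))).Nodup := by
    rcases h2 with h2 | h2 | h2
    · exact absurd (List.append_eq_nil_iff.1 h2).1 hl
    · exact absurd (List.append_eq_nil_iff.1 h2).1 hs
    · exact h2
  rw [List.reverse_append] at h3
  have hlr : l.reverse ≠ [] := by simpa using hl
  by_cases hl' : l' = []
  · subst hl'
    rw [List.reverse_nil, List.nil_append] at h3
    by_cases hs' : s' = []
    · subst hs'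
      rwa [List.append_nil] at h3
    · rw [jn_append hs hs'] at h3
      exact fw_subr (jn_Br hlr) (jn_Br hs) (jn_Br hs') h3
  · have hlr' : l'.reverse ≠ [] := by simpa using hl'
    rw [jn_append hlr' hlr] at h3
    by_cases hs' : s' = []
    · subst hs'
      rw [List.append_nil] at h3
      exact fw_subl (jn_Br hlr') (jn_Br hlr) h3
    · rw [jn_append hs hs'] at h3
      exact fw_sub (jn_Br hlr') (jn_Br hlr) (jn_Br hs) (jn_Br hs') h3

lemma ee_abs (c : Blk) : |(tn (!rt c.1) (Dr c.1)).2| ≤ 1 := by
  rcases fe_U c.2.br with h | h <;> rw [h] <;> simp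

lemma htw_not (c : Blk) : htw (c.1.map (! ·)) = htw c.1 := by
  unfold htw
  rw [E_not, F0_sg]

/-- The system of the honeycomb lattice. -/
noncomputable def hs (n : ℕ) : Sys where
  B := Blk
  ht c := htw c.1
  dx c := if c.1.length ≤ n then (E c.1).2 else 0
  ee c := (tn (!rt c.1) (Dr c.1)).2
  wt c := xE ^ (c.1.length + 1)
  rf c := ⟨c.1.map (! ·), Irr_not c.2⟩
  ht_pos c := htw_pos c.1
  ee_le := ee_abs
  rf_rf c := by
    apply Subtype.ext
    simp only [List.map_map]
    conv_rhs => rw [← List.map_id c.1]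
    refine List.map_congr_left fun b _ => ?_
    simp
  ht_rf c := htw_not c
  wt_rf c := by simp
  dx_rf c := by
    simp only [List.length_map]
    split_ifs
    · rw [E_not]; rfl
    · simp
  tot := blk_tot
  Av := Avn n
  Av_pre _ _ _ _ h := Avn_pre h
  hi σ l j := if σ then sSup (rowT l j) else sSup (rowF l j)
  lo σ l j := if σ then sInf (rowT l j) else sInf (rowF l j)

variable {n : ℕ}

lemma hs_h (l : List Blk) : (hs n).h l = hj l := rfl

lemma hs_w (l : List Blk) : (hs n).w l = wj l := rfl

/-- The displacement of a word of short blocks. -/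
lemma hs_x {l : List Blk} (h : ∀ c ∈ l, c.1.length ≤ n) : (hs n).x l = xj l := by
  change (l.map fun c : Blk => if c.1.length ≤ n then (E c.1).2 else 0).sum = (l.map fun c : Blk => (E c.1).2).sum
  congr 1
  refine List.map_congr_left fun c hc => ?_
  rw [if_pos (h c hc)]

lemma hs_b_zero : (hs n).b 0 = 1 := by
  change ∑' l : List Blk, ind (hj l = 0) * wj l = 1
  rw [tsum_eq_single ([] : List Blk)]
  · rw [ind_true hj_nil, wj_nil, one_mul]
  · intro l hl
    rw [ind_false (by have := hj_pos hl; omega), zero_mul]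

lemma hs_b (k : ℕ) : (hs n).b (k + 1) = ms xE (Br k) := by
  rw [ms_Br]; rfl

/-- The position of the end of leg 1. -/
lemma hs_p1 {l : List Blk} (hl : l ≠ []) (h : ∀ c ∈ l, c.1.length ≤ n) :
    (hs n).p1 l = (fe (jn l.reverse)).2 := by
  obtain ⟨c, l, rfl⟩ := List.exists_cons_of_ne_nil hl
  have h1 : (hs n).p1 (c :: l) = (tn (!rt c.1) (Dr c.1)).2 + xj (c :: l) :=
    congrArg (fun y => (tn (!rt c.1) (Dr c.1)).2 + y) (hs_x h)
  have h2 := jn_snoc l.reverse c
  refine h1.trans ?_
  rw [fe_eq, List.reverse_cons, h2.1, h2.2, Prod.snd_add, jn_E (by simp)]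
  have h3 : xj (l.reverse ++ [c]) = xj (c :: l) := by
    unfold xj
    rw [List.map_append, List.sum_append, List.map_reverse, List.sum_reverse]
    simp [add_comm]
  rw [h3]; ring

/-- The position of the end of leg 2. -/
lemma hs_x_eq {l : List Blk} (hl : l ≠ []) (h : ∀ c ∈ l, c.1.length ≤ n) : (hs n).x l = (E (jn l)).2 := by
  rw [hs_x h, jn_E hl]

end Pool.Agent.HEP
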