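import Pool.Agent.HEP.GC1
import Pool.Agent.HEP.GPL

/-!
HEP geometry: the system of the honeycomb lattice satisfies the hypotheses, with the constant 40.
-/

namespace Pool.Agent.HEP

theorem hs_hyp (n : ℕ) (hn : 1 ≤ n) : (hs n).Hyp n 40 where
  anti := hs_anti n
  dxn := hs_dx n
  mov := hs_mov n hn
  c1 := hs_c1 n
  plt := hs_plt n
  plf := hs_plf n

end Pool.Agent.HEP
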