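import Pool.Agent.HEP.RnSeq

/-!
Project HEP (MP_8c6f77_pr). RENEWAL TOOLBOX, cutting of words at a level.

All sums are in `ℝ≥0∞`. Main statements:
* `cut_self`, `cut_app`, `cut_cut`: the cut.
* `tsum_cut`: decomposition of a sum over all words at the last renewal `≤ N`.
* `tsum_list`: decomposition at the first block.
* `tsum_w_h`, `tsum_w_Lam`, `sum_b_Lam`: renewal identities.
* `cont_eq`, `cont_le`: summing out the continuation after the level `m`.
* `pass_le`: words passing the level `j`, weight decreasing in the excess.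
* `t1_le`: words of given height, cut at a lower level.
* `ext_fun`: general weight.
-/

namespace Pool.Agent.HEP

open scoped ENNReal

namespace Alph

variable (A : Alph)

lemma cut_self {N : ℕ} {l : List A.B} (hl : A.h l ≤ N) : A.cut N l = l := by
  induction l generalizing N with
  | nil => rfl
  | cons c l ih =>
    rw [A.h_cons] at hl
    unfold cut
    rw [if_pos (by omega), ih (by omega)]

lemma cut_app {N : ℕ} {l0 : List A.B} (h0 : A.h l0 ≤ N) {c : A.B} (hc : N < A.h l0 + A.ht c)
    (r : List A.B) : A.cut N (l0 ++ c :: r) = l0 := by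
  induction l0 generalizing N with
  | nil =>
    rw [A.h_nil] at hc
    rw [List.nil_append]
    unfold cut
    rw [if_neg (by omega)]
  | cons a l ih =>
    rw [A.h_cons] at h0 hc
    rw [List.cons_append]
    unfold cut
    rw [if_pos (by omega), ih (by omega) (by omega)]

lemma cut_eq_iff {N : ℕ} {l0 : List A.B} (h0 : A.h l0 ≤ N) (c : A.B) (r : List A.B) :
    A.cut N (l0 ++ c :: r) = l0 ↔ N < A.h l0 + A.ht c := by
  constructor
  · intro e
    have := A.h_cut_lt N (l0 ++ c :: r) (c := c) (r := r) (by rw [e])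
    rwa [e] at this
  · intro hc
    exact A.cut_app h0 hc r

lemma cut_cut {m N : ℕ} (hm : m ≤ N) (l : List A.B) : A.cut m (A.cut N l) = A.cut m l := by
  induction l generalizing m N with
  | nil => rfl
  | cons c l ih =>
    by_cases h1 : A.ht c ≤ N
    · have e1 : A.cut N (c :: l) = c :: A.cut (N - A.ht c) l := by
        rw [cut, if_pos h1]
      rw [e1]
      by_cases h2 : A.ht c ≤ m
      · rw [cut, if_pos h2, cut, if_pos h2, ih (by omega)]
      · rw [cut, if_neg h2, cut, if_neg h2]
    · have e1 : A.cut N (c :: l) = [] := by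
        rw [cut, if_neg h1]
      rw [e1, cut, cut, if_neg (by omega)]

/-- Decomposition of a sum over all words at the last renewal `≤ N`. -/
theorem tsum_cut (N : ℕ) (F : List A.B → ℝ≥0∞) :
    ∑' l, F l = ∑' l0, ind (A.h l0 ≤ N) *
      (F l0 + ∑' c, ∑' r, ind (N < A.h l0 + A.ht c) * F (l0 ++ c :: r)) := by
  classical
  have e1 : ∀ l, F l = ∑' l0, ind (A.cut N l = l0) * F l := by
    intro l
    rw [tsum_eq_single (A.cut N l)]
    · rw [ind_true rfl, one_mul]
    · intro l0 hl0
      rw [ind_false (fun e => hl0 e.symm), zero_mul]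
  rw [tsum_congr e1, ENNReal.tsum_comm]
  refine tsum_congr fun l0 => ?_
  by_cases h0 : A.h l0 ≤ N
  · rw [ind_true h0, one_mul, ENNReal.tsum_eq_add_tsum_ite l0]
    have hinj : Function.Injective (fun p : A.B × List A.B => l0 ++ p.1 :: p.2) := by
      rintro ⟨c, r⟩ ⟨c', r'⟩ e
      have e2 := List.append_cancel_left e
      rw [List.cons.injEq] at e2
      exact Prod.ext e2.1 e2.2
    have hsup : Function.support (fun l => if l = l0 then 0 else ind (A.cut N l = l0) * F l) ⊆
        Set.range (fun p : A.B × List A.B => l0 ++ p.1 :: p.2) := by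
      intro l hl
      rw [Function.mem_support] at hl
      by_cases hll : l = l0
      · rw [if_pos hll] at hl
        exact absurd rfl hl
      · rw [if_neg hll] at hl
        by_cases hc : A.cut N l = l0
        · obtain ⟨r, hr⟩ := A.cut_prefix N l
          rw [hc] at hr
          cases r with
          | nil => rw [List.append_nil] at hr; exact absurd hr hll
          | cons c r => exact ⟨(c, r), hr.symm⟩
        · rw [ind_false hc, zero_mul] at hl
          exact absurd rfl hl
    have hmain : (∑' l, if l = l0 then 0 else ind (A.cut N l = l0) * F l) =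
        ∑' c, ∑' r, ind (N < A.h l0 + A.ht c) * F (l0 ++ c :: r) := by
      rw [← hinj.tsum_eq hsup, ENNReal.tsum_prod']
      refine tsum_congr fun c => tsum_congr fun r => ?_
      have h2 : l0 ++ c :: r ≠ l0 := by
        intro e
        have := congrArg List.length e
        simp at this
      rw [if_neg h2]
      rw [ind_congr (A.cut_eq_iff h0 c r)]
    refine congrArg₂ (· + ·) (by rw [A.cut_self h0, ind_true rfl, one_mul]) ?_
    refine Eq.trans (tsum_congr fun x => ?_) hmain
    by_cases hx : x = l0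
    · rw [if_pos hx, if_pos hx]
    · rw [if_neg hx, if_neg hx]
  · rw [ind_false h0, zero_mul]
    rw [ENNReal.tsum_eq_zero]
    intro l
    have : A.cut N l ≠ l0 := by
      intro e
      apply h0
      rw [← e]
      exact A.h_cut_le N l
    rw [ind_false this, zero_mul]

/-- Mass of the blocks of height at most `k`, plus the tail. -/
lemma small_add_Lam (k : ℕ) : (∑' c, ind (A.ht c ≤ k) * A.wt c) + A.Lam k = 1 := by
  unfold Lam
  rw [← ENNReal.tsum_add, ← A.tot]
  refine tsum_congr fun c => ?_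
  rw [← add_mul]
  by_cases h1 : A.ht c ≤ k
  · rw [ind_true h1, ind_false (by omega), add_zero, one_mul]
  · rw [ind_false h1, ind_true (by omega), zero_add, one_mul]

/-- Mass of the blocks with heights in `(i, j]`, plus the tail at `j`. -/
lemma mid_add_Lam {i j : ℕ} (hij : i ≤ j) :
    (∑' c, ind (i < A.ht c) * (ind (A.ht c ≤ j) * A.wt c)) + A.Lam j = A.Lam i := by
  unfold Lam
  rw [← ENNReal.tsum_add]
  refine tsum_congr fun c => ?_
  by_cases h1 : A.ht c ≤ j
  · rw [ind_true h1, ind_false (p := j < A.ht c) (by omega), one_mul, zero_mul, add_zero]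
  · rw [ind_false h1, ind_true (p := j < A.ht c) (by omega), ind_true (p := i < A.ht c) (by omega)]
    simp

/-- Summing out the continuation after the last renewal `≤ m`. -/
theorem cont_eq {m N : ℕ} (hm : m ≤ N) (g : List A.B → ℝ≥0∞) :
    ∑' l, ind (A.h l ≤ N) * (g (A.cut m l) * (A.w l * A.Lam (N - A.h l))) =
      ∑' l, ind (A.h l ≤ m) * (g l * (A.w l * A.Lam (m - A.h l))) := by
  rw [A.tsum_cut m]
  refine tsum_congr fun l0 => ?_
  by_cases h0 : A.h l0 ≤ m
  · rw [ind_true h0, one_mul, one_mul, A.cut_self h0, ind_true (h0.trans hm), one_mul]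
    have e1 : ∀ c, (∑' r, ind (m < A.h l0 + A.ht c) * (ind (A.h (l0 ++ c :: r) ≤ N) *
        (g (A.cut m (l0 ++ c :: r)) * (A.w (l0 ++ c :: r) * A.Lam (N - A.h (l0 ++ c :: r)))))) =
        g l0 * A.w l0 * (ind (m - A.h l0 < A.ht c) * (ind (A.ht c ≤ N - A.h l0) * A.wt c)) := by
      intro c
      by_cases h1 : m < A.h l0 + A.ht c
      · by_cases h2 : A.ht c ≤ N - A.h l0
        · rw [ind_true (p := m - A.h l0 < A.ht c) (by omega), ind_true h2, one_mul, one_mul]
          have h3 := A.tsum_w_Lam (N - A.h l0 - A.ht c)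
          calc (∑' r, ind (m < A.h l0 + A.ht c) * (ind (A.h (l0 ++ c :: r) ≤ N) *
                (g (A.cut m (l0 ++ c :: r)) * (A.w (l0 ++ c :: r) * A.Lam (N - A.h (l0 ++ c :: r))))))
              = ∑' r, (g l0 * A.w l0 * A.wt c) * (ind (A.h r ≤ N - A.h l0 - A.ht c) *
                  (A.w r * A.Lam (N - A.h l0 - A.ht c - A.h r))) := by
                refine tsum_congr fun r => ?_
                rw [A.cut_app h0 h1 r, A.h_append, A.h_cons, A.w_append, A.w_cons, ind_true h1,
                  one_mul, ind_congr (show A.h l0 + (A.ht c + A.h r) ≤ N ↔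
                    A.h r ≤ N - A.h l0 - A.ht c by omega),
                  show N - (A.h l0 + (A.ht c + A.h r)) = N - A.h l0 - A.ht c - A.h r by omega]
                ring
            _ = g l0 * A.w l0 * A.wt c := by rw [ENNReal.tsum_mul_left, h3, mul_one]
        · rw [ind_false h2, zero_mul, mul_zero, mul_zero, ENNReal.tsum_eq_zero]
          intro r
          rw [A.h_append, A.h_cons, ind_false (p := A.h l0 + (A.ht c + A.h r) ≤ N) (by omega),
            zero_mul, mul_zero]
      · rw [ind_false (p := m - A.h l0 < A.ht c) (by omega), zero_mul, mul_zero,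
          ENNReal.tsum_eq_zero]
        intro r
        rw [ind_false h1, zero_mul]
    rw [tsum_congr e1, ENNReal.tsum_mul_left, ← mul_assoc, ← mul_add, ← mul_assoc, add_comm,
      A.mid_add_Lam (by omega)]
  · rw [ind_false h0, zero_mul, zero_mul]

theorem cont_le {m N : ℕ} (hm : m ≤ N) (g : List A.B → ℝ≥0∞) :
    ∑' l, ind (A.h l ≤ N) * (g (A.cut m l) * (A.w l * A.Lam (N - A.h l))) ≤
      ∑' l, ind (A.h l ≤ m) * (g l * (A.w l * A.Lam (m - A.h l))) := (A.cont_eq hm g).le

/-- General weight: words passing the level `m`, weight `phi` of the height. -/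
theorem ext_fun_w {m : ℕ} {Z : ℝ≥0∞} (phi : ℕ → ℝ≥0∞)
    (hphi : ∀ v, m < v → ∑' r, A.w r * phi (v + A.h r) ≤ Z) (g : List A.B → ℝ≥0∞) :
    ∑' l, ind (m < A.h l) * (g (A.cut m l) * (A.w l * phi (A.h l))) ≤
      (∑' l, ind (A.h l ≤ m) * (g l * (A.w l * A.Lam (m - A.h l)))) * Z := by
  rw [A.tsum_cut m, ← ENNReal.tsum_mul_right]
  refine ENNReal.tsum_le_tsum fun l0 => ?_
  by_cases h0 : A.h l0 ≤ m
  · rw [ind_true h0, one_mul, one_mul, ind_false (by omega), zero_mul, zero_add]
    have e1 : ∀ c, (∑' r, ind (m < A.h l0 + A.ht c) * (ind (m < A.h (l0 ++ c :: r)) *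
        (g (A.cut m (l0 ++ c :: r)) * (A.w (l0 ++ c :: r) * phi (A.h (l0 ++ c :: r)))))) ≤
        (g l0 * A.w l0 * Z) * (ind (m - A.h l0 < A.ht c) * A.wt c) := by
      intro c
      by_cases h1 : m < A.h l0 + A.ht c
      · rw [ind_true (p := m - A.h l0 < A.ht c) (by omega), one_mul]
        calc (∑' r, ind (m < A.h l0 + A.ht c) * (ind (m < A.h (l0 ++ c :: r)) *
              (g (A.cut m (l0 ++ c :: r)) * (A.w (l0 ++ c :: r) * phi (A.h (l0 ++ c :: r))))))
            = ∑' r, (g l0 * A.w l0 * A.wt c) * (A.w r * phi (A.h l0 + A.ht c + A.h r)) := by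
              refine tsum_congr fun r => ?_
              rw [A.cut_app h0 h1 r, A.h_append, A.h_cons, A.w_append, A.w_cons, ind_true h1,
                one_mul, ind_true (by omega), one_mul, ← add_assoc]
              ring
          _ ≤ g l0 * A.w l0 * A.wt c * Z := by
              rw [ENNReal.tsum_mul_left]
              exact mul_le_mul_right (hphi _ h1) _
          _ = (g l0 * A.w l0 * Z) * A.wt c := by ring
      · rw [ind_false (p := m - A.h l0 < A.ht c) (by omega), zero_mul, mul_zero, nonpos_iff_eq_zero,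
          ENNReal.tsum_eq_zero]
        intro r
        rw [ind_false h1, zero_mul]
    refine (ENNReal.tsum_le_tsum e1).trans (le_of_eq ?_)
    rw [ENNReal.tsum_mul_left]
    unfold Lam
    ring
  · rw [ind_false h0, zero_mul, zero_mul, zero_mul]

/-- Words passing the level `j`, with a weight decreasing in the excess. -/
theorem pass_le {m j N : ℕ} (hm : m < j) {f : ℕ → ℝ≥0∞} (hf : Antitone f) (g : List A.B → ℝ≥0∞) :
    ∑' l, ind (j ≤ A.h l ∧ A.h l ≤ N) * (g (A.cut m l) * (A.w l * f (A.h l - j))) ≤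
      (∑' l, ind (A.h l ≤ m) * (g l * (A.w l * A.Lam (m - A.h l)))) *
        ∑ k ∈ Finset.range (N + 1), A.b k * f k := by
  have h1 := A.ext_fun_w (m := j - 1) (Z := ∑ k ∈ Finset.range (N + 1), A.b k * f k)
    (fun v => ind (v ≤ N) * f (v - j)) (by
      intro v hv
      rw [← A.tsum_w_h N f]
      refine ENNReal.tsum_le_tsum fun r => ?_
      by_cases h2 : v + A.h r ≤ N
      · rw [ind_true h2, ind_true (p := A.h r ≤ N) (by omega), one_mul, one_mul]
        exact mul_le_mul_right (hf (by omega)) _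
      · rw [ind_false h2, zero_mul, mul_zero]
        exact zero_le) (fun l => g (A.cut m l))
  have h2 := A.cont_le (m := m) (N := j - 1) (by omega) g
  refine le_trans (le_of_eq ?_) (h1.trans ?_)
  · refine tsum_congr fun l => ?_
    rw [A.cut_cut (by omega), ind_and, ind_congr (show j ≤ A.h l ↔ j - 1 < A.h l by omega)]
    ring
  · exact mul_le_mul_left h2 _

lemma tsum_ind_w (k : ℕ) : ∑' l, ind (A.h l = k) * A.w l = A.b k := rfl

/-- Decomposition of `b` at the first block. -/
theorem b_first {k : ℕ} (hk : 1 ≤ k) :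
    A.b k = ∑' c, ind (A.ht c ≤ k) * (A.wt c * A.b (k - A.ht c)) := by
  unfold b
  rw [tsum_list, A.h_nil, ind_false (by omega), zero_mul, zero_add]
  refine tsum_congr fun c => ?_
  by_cases h1 : A.ht c ≤ k
  · rw [ind_true h1, one_mul, ← ENNReal.tsum_mul_left]
    refine tsum_congr fun l => ?_
    rw [A.h_cons, A.w_cons, ind_congr (show A.ht c + A.h l = k ↔ A.h l = k - A.ht c by omega)]
    ring
  · rw [ind_false h1, zero_mul, ENNReal.tsum_eq_zero]
    intro l
    rw [A.h_cons, ind_false (by omega), zero_mul]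

variable {A}

/-- (T1): a jump over the level `i`, followed by a renewal at `k`. -/
theorem jump_le (hb : Antitone A.b) {i k : ℕ} (hk : 1 ≤ k) (hik : i ≤ k) :
    ∑' c, ind (i < A.ht c) * (ind (A.ht c ≤ k) * (A.wt c * A.b (k - A.ht c))) ≤
      A.Lam i * A.b k := by
  have h1 : (∑' c, ind (A.ht c ≤ i) * A.wt c) * A.b k +
      ∑' c, ind (i < A.ht c) * (ind (A.ht c ≤ k) * (A.wt c * A.b (k - A.ht c))) ≤ A.b k := by
    conv_rhs => rw [A.b_first hk]
    rw [← ENNReal.tsum_mul_right, ← ENNReal.tsum_add]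
    refine ENNReal.tsum_le_tsum fun c => ?_
    by_cases h2 : A.ht c ≤ i
    · rw [ind_true h2, ind_false (p := i < A.ht c) (by omega), ind_true (p := A.ht c ≤ k) (by omega),
        zero_mul, add_zero, one_mul, one_mul]
      exact mul_le_mul_right (hb (Nat.sub_le _ _)) _
    · rw [ind_false h2, ind_true (p := i < A.ht c) (by omega), zero_mul, zero_mul, zero_add, one_mul]
  have h3 : A.b k = (∑' c, ind (A.ht c ≤ i) * A.wt c) * A.b k + A.Lam i * A.b k := by
    rw [← add_mul, A.small_add_Lam, one_mul]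
  rw [h3] at h1
  have h4 : (∑' c, ind (A.ht c ≤ i) * A.wt c) * A.b k ≠ ⊤ := by
    refine ne_top_of_le_ne_top (A.b_ne_top k) ?_
    conv_rhs => rw [h3]
    exact le_self_add
  have h5 : (∑' c, ind (A.ht c ≤ i) * A.wt c) * ((∑' c, ind (A.ht c ≤ i) * A.wt c) * A.b k + A.Lam i * A.b k)
      = (∑' c, ind (A.ht c ≤ i) * A.wt c) * A.b k := by rw [← h3]
  rw [h5] at h1
  exact (ENNReal.add_le_add_iff_left h4).1 h1

/-- Words of height `q`, cut at the level `i ≤ q`. -/
theorem t1_le (hb : Antitone A.b) {i q : ℕ} (hi : i ≤ q) (g : List A.B → ℝ≥0∞) :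
    ∑' l, ind (A.h l = q) * (g (A.cut i l) * A.w l) ≤
      (∑' l, ind (A.h l ≤ i) * (g l * (A.w l * A.Lam (i - A.h l)))) * A.b (q - i) := by
  rw [A.tsum_cut i, ← ENNReal.tsum_mul_right]
  refine ENNReal.tsum_le_tsum fun l0 => ?_
  by_cases h0 : A.h l0 ≤ i
  · rw [ind_true h0, one_mul, one_mul, A.cut_self h0]
    have e1 : ∀ c, (∑' r, ind (i < A.h l0 + A.ht c) * (ind (A.h (l0 ++ c :: r) = q) *
        (g (A.cut i (l0 ++ c :: r)) * A.w (l0 ++ c :: r)))) =
        (g l0 * A.w l0) * (ind (i - A.h l0 < A.ht c) * (ind (A.ht c ≤ q - A.h l0) *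
          (A.wt c * A.b (q - A.h l0 - A.ht c)))) := by
      intro c
      by_cases h1 : i < A.h l0 + A.ht c
      · by_cases h2 : A.ht c ≤ q - A.h l0
        · rw [ind_true (p := i - A.h l0 < A.ht c) (by omega), ind_true h2, one_mul, one_mul]
          unfold b
          rw [← ENNReal.tsum_mul_left, ← ENNReal.tsum_mul_left]
          refine tsum_congr fun r => ?_
          have h3 := A.ht_pos c
          rw [A.cut_app h0 h1 r, A.h_append, A.h_cons, A.w_append, A.w_cons, ind_true h1,
            one_mul, ind_congr (show A.h l0 + (A.ht c + A.h r) = q ↔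
              A.h r = q - A.h l0 - A.ht c by omega)]
          ring
        · rw [ind_false h2, zero_mul, mul_zero, mul_zero, ENNReal.tsum_eq_zero]
          intro r
          rw [A.h_append, A.h_cons, ind_false (p := A.h l0 + (A.ht c + A.h r) = q)
            (by have := A.ht_pos c; omega), zero_mul, mul_zero]
      · rw [ind_false (p := i - A.h l0 < A.ht c) (by omega), zero_mul, mul_zero,
          ENNReal.tsum_eq_zero]
        intro r
        rw [ind_false h1, zero_mul]
    rw [tsum_congr e1, ENNReal.tsum_mul_left]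
    by_cases h2 : A.h l0 = q
    · have h3 : i = q := by omega
      subst h3
      rw [ind_true h2, h2, Nat.sub_self, one_mul, A.Lam_zero, A.b_zero, mul_one, mul_one]
      have e2 : (∑' c, ind (0 < A.ht c) * (ind (A.ht c ≤ 0) * (A.wt c * A.b (0 - A.ht c)))) = 0 := by
        rw [ENNReal.tsum_eq_zero]
        intro c
        have := A.ht_pos c
        rw [ind_false (p := A.ht c ≤ 0) (by omega), zero_mul, mul_zero]
      rw [e2, mul_zero, add_zero]
    · rw [ind_false h2, zero_mul, zero_add]
      have h3 := jump_le hb (i := i - A.h l0) (k := q - A.h l0) (by omega) (by omega)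
      calc g l0 * A.w l0 * (∑' c, ind (i - A.h l0 < A.ht c) * (ind (A.ht c ≤ q - A.h l0) *
            (A.wt c * A.b (q - A.h l0 - A.ht c))))
          ≤ g l0 * A.w l0 * (A.Lam (i - A.h l0) * A.b (q - A.h l0)) := mul_le_mul_right h3 _
        _ ≤ g l0 * A.w l0 * (A.Lam (i - A.h l0) * A.b (q - i)) :=
            mul_le_mul_right (mul_le_mul_right (hb (by omega)) _) _
        _ = g l0 * (A.w l0 * A.Lam (i - A.h l0)) * A.b (q - i) := by ring
  · rw [ind_false h0, zero_mul, zero_mul, zero_mul]

variable (A)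

/-- The rest of the word behind `cut N l`. -/
def rest (N : ℕ) (l : List A.B) : List A.B := l.drop (A.cut N l).length

lemma cut_append_rest (N : ℕ) (l : List A.B) : A.cut N l ++ A.rest N l = l := by
  obtain ⟨r, hr⟩ := A.cut_prefix N l
  have e : A.rest N l = r := by
    unfold rest
    have e1 := congrArg (List.drop (A.cut N l).length) hr
    rw [List.drop_left] at e1
    exact e1
  rw [e]
  exact hr.symm

lemma cut_eq_self {N : ℕ} {l : List A.B} (h : A.h l ≤ N) : A.cut N l = l := A.cut_self h

/-- A word `l0` of height at most `N` followed by a block which crosses the level `N`. -/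
lemma cut_eq {N : ℕ} {l0 l1 : List A.B} {c : A.B} (h0 : A.h l0 ≤ N) (h1 : N < A.h l0 + A.ht c) :
    A.cut N (l0 ++ c :: l1) = l0 := A.cut_app h0 h1 l1

lemma rest_eq {N : ℕ} {l0 l1 : List A.B} {c : A.B} (h0 : A.h l0 ≤ N) (h1 : N < A.h l0 + A.ht c) :
    A.rest N (l0 ++ c :: l1) = c :: l1 := by
  unfold rest
  rw [A.cut_eq h0 h1, List.drop_left]

/-- The decomposition of the words at the level `N`, second form. -/
theorem tsum_cut' (N : ℕ) (F : List A.B → ℝ≥0∞) :
    ∑' l, F l = ∑' l0, ind (A.h l0 ≤ N) *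
      (F l0 + ∑' c, ind (N < A.h l0 + A.ht c) * ∑' l1, F (l0 ++ c :: l1)) := by
  rw [A.tsum_cut N F]
  refine tsum_congr fun l0 => ?_
  congr 2
  refine tsum_congr fun c => ?_
  rw [ENNReal.tsum_mul_left]

/-- Mass of the blocks which cross the level `N`. -/
lemma tsum_cross (N : ℕ) (l0 : List A.B) (h : A.h l0 ≤ N) :
    ∑' c, ind (N < A.h l0 + A.ht c) * A.wt c = A.Lam (N - A.h l0) := by
  unfold Lam
  refine tsum_congr fun c => ?_
  rw [ind_congr (show N < A.h l0 + A.ht c ↔ N - A.h l0 < A.ht c by omega)]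

/-- Summation over the future of the word behind the level `N`: the part up to the last renewal `≤ N'` is refined
from the part up to the last renewal `≤ N`. -/
theorem ext_Lam {N N' : ℕ} (hN : N ≤ N') (g : List A.B → ℝ≥0∞) :
    ∑' l, ind (A.h l ≤ N') * (g (A.cut N l) * (A.w l * A.Lam (N' - A.h l))) =
      ∑' l0, ind (A.h l0 ≤ N) * (g l0 * (A.w l0 * A.Lam (N - A.h l0))) := A.cont_eq hN g

/-- Summation of a weight of the height over the words which cross the level `N`. -/
theorem ext_fun (N : ℕ) (g : List A.B → ℝ≥0∞) (φ : ℕ → ℝ≥0∞) (C : ℝ≥0∞)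
    (hC : ∀ v, N < v → ∑' t, A.b t * φ (v + t) ≤ C) :
    ∑' l, ind (N < A.h l) * (g (A.cut N l) * (A.w l * φ (A.h l))) ≤
      C * ∑' l0, ind (A.h l0 ≤ N) * (g l0 * (A.w l0 * A.Lam (N - A.h l0))) := by
  rw [mul_comm C]
  refine A.ext_fun_w φ (fun v hv => ?_) g
  rw [A.tsum_h (fun t => φ (v + t))]
  exact hC v hv

variable {A}

/-- Number of the renewals in a window behind the level `N`. -/
theorem ext_win (hb : Antitone A.b) (N s t : ℕ) (g : List A.B → ℝ≥0∞) :
    ∑' l, ind (N < A.h l ∧ s ≤ A.h l ∧ A.h l ≤ s + t) * (g (A.cut N l) * A.w l) ≤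
      A.U t * ∑' l0, ind (A.h l0 ≤ N) * (g l0 * (A.w l0 * A.Lam (N - A.h l0))) := by
  refine le_trans (le_of_eq ?_) (A.ext_fun N g (fun k => ind (s ≤ k ∧ k ≤ s + t)) (A.U t) ?_)
  · refine tsum_congr fun l => ?_
    rw [ind_and (N < A.h l)]
    ring
  · intro v hv
    rw [tsum_eq_sum (s := Finset.Icc (s - v) (s - v + t))]
    · refine le_trans (Finset.sum_le_sum fun j _ => ?_) (sum_Icc_b hb (s - v) t)
      calc A.b j * ind (s ≤ v + j ∧ v + j ≤ s + t) ≤ A.b j * 1 := mul_le_mul_right (ind_le_one _) _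
        _ = A.b j := mul_one _
    · intro j hj
      rw [ind_false, mul_zero]
      rintro ⟨h1, h2⟩
      exact hj (Finset.mem_Icc.2 ⟨by omega, by omega⟩)

/-- The renewals `p ≥ u` behind the level `N`, weight `Lam (p - u)`. -/
theorem ext_win_Lam (hb : Antitone A.b) (N M u : ℕ) (g : List A.B → ℝ≥0∞) :
    ∑' l, ind (N < A.h l ∧ u ≤ A.h l ∧ A.h l ≤ M) * (g (A.cut N l) * (A.w l * A.Lam (A.h l - u))) ≤
      A.K0 M * ∑' l0, ind (A.h l0 ≤ N) * (g l0 * (A.w l0 * A.Lam (N - A.h l0))) := by
  refine le_trans (le_of_eq ?_) (A.ext_fun N g (fun k => ind (u ≤ k ∧ k ≤ M) * A.Lam (k - u)) (A.K0 M) ?_)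
  · refine tsum_congr fun l => ?_
    rw [ind_and (N < A.h l)]
    ring
  · intro v hv
    refine le_trans ?_ (sum_bLam_shift hb M u v)
    rw [tsum_eq_sum (s := (Finset.range (M + 1)).filter (fun j => u ≤ v + j ∧ v + j ≤ M))]
    · have h1 : ((Finset.range (M + 1)).filter (fun j => u ≤ v + j ∧ v + j ≤ M)).map
          ⟨fun j => j + v, add_left_injective v⟩ ⊆ Finset.Icc (max u v) M := by
        intro p hp
        simp only [Finset.mem_map, Finset.mem_filter, Finset.mem_range, Function.Embedding.coeFn_mk] at hp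
        obtain ⟨j, hj, rfl⟩ := hp
        rw [Finset.mem_Icc]
        omega
      refine le_trans ?_ (Finset.sum_le_sum_of_subset h1)
      rw [Finset.sum_map]
      refine Finset.sum_le_sum fun j hj => ?_
      simp only [Function.Embedding.coeFn_mk, Nat.add_sub_cancel]
      rw [Finset.mem_filter] at hj
      rw [ind_true hj.2, one_mul, add_comm v j]
    · intro j hj
      rw [ind_false, zero_mul, mul_zero]
      rintro ⟨h1, h2⟩
      exact hj (Finset.mem_filter.2 ⟨Finset.mem_range.2 (by omega), h1, h2⟩)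

/-- Exact height `p > N`. -/
theorem ext_exact (hb : Antitone A.b) {N p : ℕ} (hp : N < p) (g : List A.B → ℝ≥0∞) :
    ∑' l, ind (A.h l = p) * (g (A.cut N l) * A.w l) ≤
      A.b (p - N) * ∑' l0, ind (A.h l0 ≤ N) * (g l0 * (A.w l0 * A.Lam (N - A.h l0))) := by
  rw [mul_comm]
  exact t1_le hb hp.le g

end Alph

end Pool.Agent.HEP
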