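import Pool.Agent.HEP.RcDefs
import Pool.Agent.HEP.RnCut

/-!
Module RcOne, section (1) of note 2958: `a m * U m ≤ K0 m * TT m`.

PAPER PROOF. `a_anti` : for `N ≤ N'` use `Av l s → Av (cut N l) (cut N s)` (`Av_pre`, `cut_prefix`) and, first in `s` for fixed
`l`, then in `l`, the cut lemma (`ext_Lam` of RnCut): for every `g`,
`∑' l, ind (h l ≤ N') * (g (cut N l) * (w l * Lam (N' - h l))) ≤ ∑' l, ind (h l ≤ N) * (g l * (w l * Lam (N - h l)))`.
`a_le_one` : drop `Av`, `tsum_w_Lam` twice.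
`a_le_T` : a pair `l1, l2` of `a N` has `h l1 ≤ h l2` (case `σ = true`: `l = l1`, `s = cut (h l - 1) l2`) or `h l2 < h l1` (case
`σ = false`: `l = l2`, `s = cut (h l) l1`). `good σ 1 l s` holds: `av` by `Av_pre`, `h s ≤ h l - d σ` by `h_cut_le`, `os σ 1 l s` by `plt`, `plf`.
For fixed `l` the sum over `l2` (resp. `l1`) with given cut `s` at the level `c = h l - d σ` of `w l2 * Lam (N - h l2)` over `h l2 ≤ N`
is at most `w s * Lam (c - h s)` (cut lemma with `N' = N`, level `c ≤ N`; no other condition is needed).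
`a_mul_U` : `a m * U m ≤ ∑ N ≤ m, b N * a N` (`a_anti`) `≤ ∑ σ, ∑' l s, ind (good, h l ≤ m) * (w l * w s * Lam (del)) * ∑_(h l ≤ N ≤ m) b N *
Lam (N - h l)` and `b N ≤ b (N - h l)` (`anti`), `∑ k ≤ m, b k * Lam k ≤ K0 m` because `Lam k * U k ≤ 1`.
-/

namespace Pool.Agent.HEP

open scoped ENNReal

namespace Sys

variable {S : Sys}

private theorem RcOne_Av_cut {N : ℕ} {l s : List S.B} (h : S.Av l s) : S.Av (S.cut N l) (S.cut N s) := by
  obtain ⟨r, hr⟩ := S.cut_prefix N l
  obtain ⟨t, ht⟩ := S.cut_prefix N s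
  rw [hr, ht] at h
  exact S.Av_pre _ _ _ _ h

private theorem RcOne_Av_cut_r {N : ℕ} {l s : List S.B} (h : S.Av l s) : S.Av l (S.cut N s) := by
  obtain ⟨t, ht⟩ := S.cut_prefix N s
  have h' : S.Av (l ++ []) (S.cut N s ++ t) := by rw [← ht, List.append_nil]; exact h
  exact S.Av_pre _ _ _ _ h'

private theorem RcOne_Av_cut_l {N : ℕ} {l s : List S.B} (h : S.Av l s) : S.Av (S.cut N l) s := by
  obtain ⟨t, ht⟩ := S.cut_prefix N l
  have h' : S.Av (S.cut N l ++ t) (s ++ []) := by rw [← ht, List.append_nil]; exact h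
  exact S.Av_pre _ _ _ _ h'

theorem a_anti : Antitone S.a := by
  intro N N' hN
  unfold a
  set g : List S.B → ℝ≥0∞ := fun l => ∑' s, ind (S.h s ≤ N) * (ind (S.Av l s) * (S.w s * S.Lam (N - S.h s))) with hg
  have h1 : ∀ l : List S.B, ∑' s, ind (S.Av l s ∧ S.h l ≤ N' ∧ S.h s ≤ N') *
      (S.w l * S.w s * (S.Lam (N' - S.h l) * S.Lam (N' - S.h s))) ≤
      ind (S.h l ≤ N') * (g (S.cut N l) * (S.w l * S.Lam (N' - S.h l))) := by
    intro l
    calc ∑' s, ind (S.Av l s ∧ S.h l ≤ N' ∧ S.h s ≤ N') *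
          (S.w l * S.w s * (S.Lam (N' - S.h l) * S.Lam (N' - S.h s)))
        ≤ ∑' s, (ind (S.h l ≤ N') * (S.w l * S.Lam (N' - S.h l))) *
          (ind (S.h s ≤ N') * (ind (S.Av (S.cut N l) (S.cut N s)) * (S.w s * S.Lam (N' - S.h s)))) := by
          refine ENNReal.tsum_le_tsum fun s => ?_
          have e : ind (S.Av l s ∧ S.h l ≤ N' ∧ S.h s ≤ N') ≤
              ind (S.h l ≤ N') * (ind (S.h s ≤ N') * ind (S.Av (S.cut N l) (S.cut N s))) := by
            rw [← ind_and, ← ind_and]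
            exact ind_mono fun h => ⟨h.2.1, h.2.2, RcOne_Av_cut h.1⟩
          calc ind (S.Av l s ∧ S.h l ≤ N' ∧ S.h s ≤ N') *
                (S.w l * S.w s * (S.Lam (N' - S.h l) * S.Lam (N' - S.h s)))
              ≤ (ind (S.h l ≤ N') * (ind (S.h s ≤ N') * ind (S.Av (S.cut N l) (S.cut N s)))) *
                (S.w l * S.w s * (S.Lam (N' - S.h l) * S.Lam (N' - S.h s))) := mul_le_mul' e le_rfl
            _ = _ := by ring
      _ = (ind (S.h l ≤ N') * (S.w l * S.Lam (N' - S.h l))) *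
          ∑' s, ind (S.h s ≤ N') * (ind (S.Av (S.cut N l) (S.cut N s)) * (S.w s * S.Lam (N' - S.h s))) :=
          ENNReal.tsum_mul_left
      _ ≤ (ind (S.h l ≤ N') * (S.w l * S.Lam (N' - S.h l))) * g (S.cut N l) :=
          mul_le_mul' le_rfl (S.cont_le hN (fun s => ind (S.Av (S.cut N l) s)))
      _ = _ := by ring
  refine (ENNReal.tsum_le_tsum h1).trans ((S.cont_le hN g).trans (le_of_eq ?_))
  refine tsum_congr fun l => ?_
  rw [hg]
  simp only
  rw [← ENNReal.tsum_mul_right, ← ENNReal.tsum_mul_left]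
  refine tsum_congr fun s => ?_
  rw [ind_and, ind_and]
  ring

theorem a_le_one (N : ℕ) : S.a N ≤ 1 := by
  unfold a
  calc ∑' l, ∑' s, ind (S.Av l s ∧ S.h l ≤ N ∧ S.h s ≤ N) *
        (S.w l * S.w s * (S.Lam (N - S.h l) * S.Lam (N - S.h s)))
      ≤ ∑' l, ∑' s, (ind (S.h l ≤ N) * (S.w l * S.Lam (N - S.h l))) *
        (ind (S.h s ≤ N) * (S.w s * S.Lam (N - S.h s))) := by
        refine ENNReal.tsum_le_tsum fun l => ENNReal.tsum_le_tsum fun s => ?_
        calc ind (S.Av l s ∧ S.h l ≤ N ∧ S.h s ≤ N) * (S.w l * S.w s * (S.Lam (N - S.h l) * S.Lam (N - S.h s)))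
            ≤ (ind (S.h l ≤ N) * ind (S.h s ≤ N)) * (S.w l * S.w s * (S.Lam (N - S.h l) * S.Lam (N - S.h s))) := by
              refine mul_le_mul' ?_ le_rfl
              rw [← ind_and]
              exact ind_mono fun h => h.2
          _ = _ := by ring
    _ = 1 := by
        simp only [ENNReal.tsum_mul_left, S.tsum_w_Lam, mul_one]

/-- The short leg, cut, for a fixed long leg. -/
private theorem RcOne_short {N c : ℕ} (hc : c ≤ N) (P : List S.B → Prop) (Q : List S.B → Prop)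
    (hPQ : ∀ s, P s → Q (S.cut c s)) :
    ∑' s, ind (P s ∧ S.h s ≤ N) * (S.w s * S.Lam (N - S.h s)) ≤
      ∑' s, ind (Q s ∧ S.h s ≤ c) * (S.w s * S.Lam (c - S.h s)) := by
  calc ∑' s, ind (P s ∧ S.h s ≤ N) * (S.w s * S.Lam (N - S.h s))
      ≤ ∑' s, ind (S.h s ≤ N) * (ind (Q (S.cut c s)) * (S.w s * S.Lam (N - S.h s))) := by
        refine ENNReal.tsum_le_tsum fun s => ?_
        rw [← mul_assoc (ind (S.h s ≤ N)), ← ind_and]
        exact mul_le_mul' (ind_mono fun h => ⟨h.2, hPQ s h.1⟩) le_rfl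
    _ ≤ ∑' s, ind (S.h s ≤ c) * (ind (Q s) * (S.w s * S.Lam (c - S.h s))) :=
        S.cont_le hc (fun s => ind (Q s))
    _ = _ := by
        refine tsum_congr fun s => ?_
        rw [ind_and]
        ring

theorem a_le_T {n K : ℕ} (hH : S.Hyp n K) (N : ℕ) : S.a N ≤
    (∑' l, ∑' s, ind (S.good true 1 l s ∧ S.h l ≤ N) * (S.w l * S.w s * S.Lam (S.del true l s) * S.Lam (N - S.h l))) +
    ∑' l, ∑' s, ind (S.good false 1 l s ∧ S.h l ≤ N) * (S.w l * S.w s * S.Lam (S.del false l s) * S.Lam (N - S.h l)) := by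
  -- the two cases
  have h0 : S.a N ≤ (∑' l, ∑' s, ind (S.Av l s ∧ S.h l ≤ S.h s ∧ S.h l ≤ N ∧ S.h s ≤ N) *
        (S.w l * S.w s * (S.Lam (N - S.h l) * S.Lam (N - S.h s)))) +
      ∑' l, ∑' s, ind (S.Av s l ∧ S.h l < S.h s ∧ S.h l ≤ N ∧ S.h s ≤ N) *
        (S.w l * S.w s * (S.Lam (N - S.h l) * S.Lam (N - S.h s))) := by
    have e2 : ∑' l, ∑' s, ind (S.Av s l ∧ S.h l < S.h s ∧ S.h l ≤ N ∧ S.h s ≤ N) *
        (S.w l * S.w s * (S.Lam (N - S.h l) * S.Lam (N - S.h s))) =
        ∑' l, ∑' s, ind (S.Av l s ∧ S.h s < S.h l ∧ S.h l ≤ N ∧ S.h s ≤ N) *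
        (S.w l * S.w s * (S.Lam (N - S.h l) * S.Lam (N - S.h s))) := by
      rw [ENNReal.tsum_comm]
      refine tsum_congr fun l => tsum_congr fun s => ?_
      rw [ind_congr (show (S.Av l s ∧ S.h s < S.h l ∧ S.h s ≤ N ∧ S.h l ≤ N) ↔
        (S.Av l s ∧ S.h s < S.h l ∧ S.h l ≤ N ∧ S.h s ≤ N) by tauto)]
      ring
    rw [e2, ← ENNReal.tsum_add]
    unfold a
    refine ENNReal.tsum_le_tsum fun l => ?_
    rw [← ENNReal.tsum_add]
    refine ENNReal.tsum_le_tsum fun s => ?_
    rw [← add_mul]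
    refine mul_le_mul' (le_trans (ind_mono fun h => ?_) (ind_or_le _ _)) le_rfl
    rcases le_or_gt (S.h l) (S.h s) with h1 | h1
    · exact Or.inl ⟨h.1, h1, h.2⟩
    · exact Or.inr ⟨h.1, h1, h.2⟩
  refine h0.trans (add_le_add ?_ ?_)
  · refine ENNReal.tsum_le_tsum fun l => ?_
    by_cases hl : S.h l ≤ N
    · have key := RcOne_short (S := S) (N := N) (c := S.h l - 1) (by omega)
        (fun s => S.Av l s ∧ S.h l ≤ S.h s) (fun s => S.good true 1 l s) (fun s hs =>
          ⟨RcOne_Av_cut_r hs.1, S.h_cut_le _ _, hH.plt l s hs.1 hs.2⟩)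
      calc ∑' s, ind (S.Av l s ∧ S.h l ≤ S.h s ∧ S.h l ≤ N ∧ S.h s ≤ N) *
            (S.w l * S.w s * (S.Lam (N - S.h l) * S.Lam (N - S.h s)))
          = (S.w l * S.Lam (N - S.h l)) *
            ∑' s, ind ((S.Av l s ∧ S.h l ≤ S.h s) ∧ S.h s ≤ N) * (S.w s * S.Lam (N - S.h s)) := by
            rw [← ENNReal.tsum_mul_left]
            refine tsum_congr fun s => ?_
            rw [ind_congr (show (S.Av l s ∧ S.h l ≤ S.h s ∧ S.h l ≤ N ∧ S.h s ≤ N) ↔
              ((S.Av l s ∧ S.h l ≤ S.h s) ∧ S.h s ≤ N) by tauto)]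
            ring
        _ ≤ (S.w l * S.Lam (N - S.h l)) *
            ∑' s, ind (S.good true 1 l s ∧ S.h s ≤ S.h l - 1) * (S.w s * S.Lam (S.h l - 1 - S.h s)) :=
            mul_le_mul' le_rfl key
        _ ≤ ∑' s, ind (S.good true 1 l s ∧ S.h l ≤ N) *
            (S.w l * S.w s * S.Lam (S.del true l s) * S.Lam (N - S.h l)) := by
            rw [← ENNReal.tsum_mul_left]
            refine ENNReal.tsum_le_tsum fun s => ?_
            have e : ind (S.good true 1 l s ∧ S.h s ≤ S.h l - 1) ≤ ind (S.good true 1 l s ∧ S.h l ≤ N) :=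
              ind_mono fun h => ⟨h.1, hl⟩
            calc (S.w l * S.Lam (N - S.h l)) *
                  (ind (S.good true 1 l s ∧ S.h s ≤ S.h l - 1) * (S.w s * S.Lam (S.h l - 1 - S.h s)))
                = ind (S.good true 1 l s ∧ S.h s ≤ S.h l - 1) *
                  (S.w l * S.w s * S.Lam (S.h l - 1 - S.h s) * S.Lam (N - S.h l)) := by ring
              _ ≤ _ := mul_le_mul' e le_rfl
    · refine le_of_eq_of_le (ENNReal.tsum_eq_zero.2 fun s => ?_) zero_le
      rw [ind_false (fun h => hl h.2.2.1), zero_mul]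
  · refine ENNReal.tsum_le_tsum fun l => ?_
    by_cases hl : S.h l ≤ N
    · have key := RcOne_short (S := S) (N := N) (c := S.h l) hl
        (fun s => S.Av s l ∧ S.h l < S.h s) (fun s => S.good false 1 l s) (fun s hs =>
          ⟨RcOne_Av_cut_l hs.1, by
            have := S.h_cut_le (S.h l) s
            simpa [d_false] using this, hH.plf l s hs.1 hs.2⟩)
      calc ∑' s, ind (S.Av s l ∧ S.h l < S.h s ∧ S.h l ≤ N ∧ S.h s ≤ N) *
            (S.w l * S.w s * (S.Lam (N - S.h l) * S.Lam (N - S.h s)))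
          = (S.w l * S.Lam (N - S.h l)) *
            ∑' s, ind ((S.Av s l ∧ S.h l < S.h s) ∧ S.h s ≤ N) * (S.w s * S.Lam (N - S.h s)) := by
            rw [← ENNReal.tsum_mul_left]
            refine tsum_congr fun s => ?_
            rw [ind_congr (show (S.Av s l ∧ S.h l < S.h s ∧ S.h l ≤ N ∧ S.h s ≤ N) ↔
              ((S.Av s l ∧ S.h l < S.h s) ∧ S.h s ≤ N) by tauto)]
            ring
        _ ≤ (S.w l * S.Lam (N - S.h l)) *
            ∑' s, ind (S.good false 1 l s ∧ S.h s ≤ S.h l) * (S.w s * S.Lam (S.h l - S.h s)) :=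
            mul_le_mul' le_rfl key
        _ ≤ ∑' s, ind (S.good false 1 l s ∧ S.h l ≤ N) *
            (S.w l * S.w s * S.Lam (S.del false l s) * S.Lam (N - S.h l)) := by
            rw [← ENNReal.tsum_mul_left]
            refine ENNReal.tsum_le_tsum fun s => ?_
            have e : ind (S.good false 1 l s ∧ S.h s ≤ S.h l) ≤ ind (S.good false 1 l s ∧ S.h l ≤ N) :=
              ind_mono fun h => ⟨h.1, hl⟩
            have e' : S.del false l s = S.h l - S.h s := by simp [del, d_false]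
            rw [e']
            calc (S.w l * S.Lam (N - S.h l)) *
                  (ind (S.good false 1 l s ∧ S.h s ≤ S.h l) * (S.w s * S.Lam (S.h l - S.h s)))
                = ind (S.good false 1 l s ∧ S.h s ≤ S.h l) *
                  (S.w l * S.w s * S.Lam (S.h l - S.h s) * S.Lam (N - S.h l)) := by ring
              _ ≤ _ := mul_le_mul' e le_rfl
    · refine le_of_eq_of_le (ENNReal.tsum_eq_zero.2 fun s => ?_) zero_le
      rw [ind_false (fun h => hl h.2.2.1), zero_mul]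

private theorem RcOne_T {n K : ℕ} (hH : S.Hyp n K) (σ : Bool) (m : ℕ) :
    ∑ N ∈ Finset.range (m + 1), S.b N *
      (∑' l, ∑' s, ind (S.good σ 1 l s ∧ S.h l ≤ N) * (S.w l * S.w s * S.Lam (S.del σ l s) * S.Lam (N - S.h l)))
      ≤ S.K0 m * S.T σ m := by
  have h1 : ∀ l s : List S.B, ∑ N ∈ Finset.range (m + 1), S.b N *
      (ind (S.good σ 1 l s ∧ S.h l ≤ N) * (S.w l * S.w s * S.Lam (S.del σ l s) * S.Lam (N - S.h l))) ≤
      S.K0 m * (ind (S.good σ 1 l s ∧ S.h l ≤ m) * (S.w l * S.w s * S.Lam (S.del σ l s))) := by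
    intro l s
    by_cases hl : S.good σ 1 l s ∧ S.h l ≤ m
    · rw [ind_true hl, one_mul]
      have h2 : ∀ N ∈ Finset.range (m + 1), S.b N *
          (ind (S.good σ 1 l s ∧ S.h l ≤ N) * (S.w l * S.w s * S.Lam (S.del σ l s) * S.Lam (N - S.h l))) ≤
          (S.w l * S.w s * S.Lam (S.del σ l s)) *
            (if S.h l ≤ N then S.b (N - S.h l) * S.Lam (N - S.h l) else 0) := by
        intro N _
        by_cases hN : S.h l ≤ N
        · rw [ind_true ⟨hl.1, hN⟩, if_pos hN, one_mul]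
          calc S.b N * (S.w l * S.w s * S.Lam (S.del σ l s) * S.Lam (N - S.h l))
              ≤ S.b (N - S.h l) * (S.w l * S.w s * S.Lam (S.del σ l s) * S.Lam (N - S.h l)) :=
                mul_le_mul' (hH.anti (Nat.sub_le _ _)) le_rfl
            _ = _ := by ring
        · rw [ind_false (fun h => hN h.2), if_neg hN, zero_mul, mul_zero, mul_zero]
      refine (Finset.sum_le_sum h2).trans ?_
      rw [← Finset.mul_sum, mul_comm]
      refine mul_le_mul' ?_ le_rfl
      refine le_trans ?_ (S.sum_bLam_le m)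
      rw [← Finset.sum_filter]
      have h3 : ∑ N ∈ (Finset.range (m + 1)).filter (fun N => S.h l ≤ N), S.b (N - S.h l) * S.Lam (N - S.h l) =
          ∑ k ∈ ((Finset.range (m + 1)).filter (fun N => S.h l ≤ N)).image (fun N => N - S.h l),
            S.b k * S.Lam k := by
        rw [Finset.sum_image]
        intro x hx y hy e
        simp only [Finset.coe_filter, Finset.mem_range, Set.mem_ofPred_eq] at hx hy
        simp only at e
        omega
      rw [h3]
      refine Finset.sum_le_sum_of_subset ?_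
      intro k hk
      simp only [Finset.mem_image, Finset.mem_filter, Finset.mem_range] at hk ⊢
      obtain ⟨N, hN, rfl⟩ := hk
      omega
    · refine le_of_eq_of_le (Finset.sum_eq_zero fun N hN => ?_) zero_le
      rw [Finset.mem_range] at hN
      rw [ind_false (fun h => hl ⟨h.1, by omega⟩), zero_mul, mul_zero]
  unfold T
  simp only [← ENNReal.tsum_mul_left]
  rw [← Summable.tsum_finsetSum (fun _ _ => ENNReal.summable)]
  refine ENNReal.tsum_le_tsum fun l => ?_
  rw [← Summable.tsum_finsetSum (fun _ _ => ENNReal.summable)]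
  exact ENNReal.tsum_le_tsum fun s => h1 l s

theorem a_mul_U {n K : ℕ} (hH : S.Hyp n K) (m : ℕ) : S.a m * S.U m ≤ S.K0 m * S.TT m := by
  calc S.a m * S.U m = ∑ N ∈ Finset.range (m + 1), S.b N * S.a m := by
        unfold Alph.U
        rw [Finset.mul_sum]
        exact Finset.sum_congr rfl fun N _ => mul_comm _ _
    _ ≤ ∑ N ∈ Finset.range (m + 1), S.b N * S.a N :=
        Finset.sum_le_sum fun N hN => mul_le_mul' le_rfl (a_anti (by rw [Finset.mem_range] at hN; omega))
    _ ≤ ∑ N ∈ Finset.range (m + 1), (S.b N *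
          (∑' l, ∑' s, ind (S.good true 1 l s ∧ S.h l ≤ N) *
            (S.w l * S.w s * S.Lam (S.del true l s) * S.Lam (N - S.h l))) +
          S.b N * ∑' l, ∑' s, ind (S.good false 1 l s ∧ S.h l ≤ N) *
            (S.w l * S.w s * S.Lam (S.del false l s) * S.Lam (N - S.h l))) := by
        refine Finset.sum_le_sum fun N _ => ?_
        rw [← mul_add]
        exact mul_le_mul' le_rfl (a_le_T hH N)
    _ ≤ S.K0 m * S.T true m + S.K0 m * S.T false m := by
        rw [Finset.sum_add_distrib]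
        exact add_le_add (RcOne_T hH true m) (RcOne_T hH false m)
    _ = S.K0 m * S.TT m := by
        unfold TT
        ring

end Sys

end Pool.Agent.HEP
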