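import Pool.Agent.HEP.ScPure

set_option autoImplicit false

/-!
# HEP, section (3), extended nonnegative reals

`sc_ennreal` is the form used for the sequences of a system: `U`, `a`, `T`, `Φ` take values in `ℝ≥0∞`.
-/

open scoped ENNReal

noncomputable section

namespace Pool.HEP

/-- the recursive inequality of section (2) -/
def H3E (C0 : ℕ) (κ : ℝ≥0∞) (n : ℕ) (U T Φ : ℕ → ℝ≥0∞) : Prop :=
  ∀ (r : ℕ) (m : ℕ → ℕ) (kap X G k : ℕ), m 0 = 0 → Monotone m → (∀ s, m s ≤ n) → 1 ≤ kap →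
    (∀ s, U (m (s + 1)) ≤ kap * U (m s)) → 1 ≤ X → 1 ≤ G → G ≤ n ^ 4 → 1 ≤ k →
    Φ X * kap * U (m (r + 1)) ≤ 1 → (k : ℝ≥0∞) + 1 ≤ Φ G * U (m r) → rho (n ^ 4) k * kap ≤ 1 →
    (G : ℝ≥0∞) * T (m (r + 1)) ≤
      G * (15 * (r + 1) * κ ^ 3 * T (m r)) + C0 * (r + 1) * κ * (G + X)

theorem sc_ennreal (ε : ℝ) (hε : 0 < ε) (C0 : ℕ) (hC0 : 1 ≤ C0) : ∃ C : ℝ, 0 < C ∧
    ∀ n : ℕ, 1 ≤ n → ∀ (U a T Φ : ℕ → ℝ≥0∞) (κ : ℝ≥0∞), U 0 = 1 → Monotone U →
    (∀ i, U (i + 1) ≤ U i + 1) → 1 ≤ T 0 → T 0 ≤ 2 → Monotone T → (∀ m, T m ≠ ⊤) →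
    1 ≤ κ → κ ≤ ENNReal.ofReal (1 + Real.log (n + 1)) → (∀ m, a m ≤ 1) →
    (∀ m ≤ n, a m * U m ≤ κ * T m) →
    (∀ m M, m ≤ M → M ≤ n → T M ≤ T m + 2 * a m * U M) →
    (∀ x : ℕ, 1 ≤ x → Φ x ≤ ENNReal.ofReal (((n : ℝ) / x) ^ 2)) →
    1 ≤ C0 * Φ 1 → H3E C0 κ n U T Φ →
    ∀ m ≤ n, a m * U m ≤ ENNReal.ofReal (C * (n : ℝ) ^ ε) := by
  obtain ⟨C, hC, hmain⟩ := sc_pure ε C0 hε (by exact_mod_cast hC0)
  refine ⟨C, hC, ?_⟩
  intro n hn U a T Φ κ hU0 hUm hUs hT0 hT2 hTm hTf hκ hκl ha1 H1 H2 H4' H5 h3 m hm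
  have hUb : ∀ i, U i ≤ (i : ℝ≥0∞) + 1 := by
    intro i
    induction i with
    | zero => rw [hU0]; simp
    | succ i ih =>
      refine (hUs i).trans ?_
      push_cast
      gcongr
  have hUf : ∀ i, U i ≠ ⊤ := fun i => ne_top_of_le_ne_top (by finiteness) (hUb i)
  have haf : ∀ i, a i ≠ ⊤ := fun i => ne_top_of_le_ne_top ENNReal.one_ne_top (ha1 i)
  have hκf : κ ≠ ⊤ := ne_top_of_le_ne_top ENNReal.ofReal_ne_top hκl
  have hΦf : ∀ x, 1 ≤ x → Φ x ≠ ⊤ := fun x hx => ne_top_of_le_ne_top ENNReal.ofReal_ne_top (H4' x hx)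
  have hlog0 : 0 ≤ 1 + Real.log ((n : ℝ) + 1) := by
    have : 0 ≤ Real.log ((n : ℝ) + 1) := Real.log_nonneg (by have : (0 : ℝ) ≤ n := Nat.cast_nonneg _
                                                             linarith)
    linarith
  have key := hmain n hn (fun i => (U i).toReal) (fun i => (a i).toReal) (fun i => (T i).toReal)
    (fun i => (Φ i).toReal) κ.toReal (by simp [hU0])
    (fun i j hij => ENNReal.toReal_mono (hUf j) (hUm hij))
    (by
      intro i
      have := ENNReal.toReal_mono (by finiteness [hUf i]) (hUs i)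
      rwa [ENNReal.toReal_add (hUf i) ENNReal.one_ne_top, ENNReal.toReal_one] at this)
    (by
      have := ENNReal.toReal_mono (by finiteness) (hUb n)
      rwa [ENNReal.toReal_add (by finiteness) ENNReal.one_ne_top, ENNReal.toReal_one,
        ENNReal.toReal_natCast] at this)
    (by
      have := ENNReal.toReal_mono (hTf 0) hT0
      simpa using this)
    (by
      have := ENNReal.toReal_mono (by finiteness) hT2
      simpa using this)
    (fun i j hij => ENNReal.toReal_mono (hTf j) (hTm hij))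
    (by
      have := ENNReal.toReal_mono hκf hκ
      simpa using this)
    (by
      have := ENNReal.toReal_mono ENNReal.ofReal_ne_top hκl
      rwa [ENNReal.toReal_ofReal hlog0] at this)
    (fun i => ENNReal.toReal_nonneg)
    (by
      intro i
      have := ENNReal.toReal_mono ENNReal.one_ne_top (ha1 i)
      simpa using this)
    (by
      intro i hi
      have := ENNReal.toReal_mono (ENNReal.mul_ne_top hκf (hTf i)) (H1 i hi)
      rwa [ENNReal.toReal_mul, ENNReal.toReal_mul] at this)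
    (by
      intro i j hij hj
      have hne : 2 * a i * U j ≠ ⊤ :=
        ENNReal.mul_ne_top (ENNReal.mul_ne_top (by finiteness) (haf i)) (hUf j)
      have := ENNReal.toReal_mono (ENNReal.add_ne_top.2 ⟨hTf i, hne⟩) (H2 i j hij hj)
      rw [ENNReal.toReal_add (hTf i) hne, ENNReal.toReal_mul, ENNReal.toReal_mul] at this
      simpa using this)
    (by
      intro x hx
      have := ENNReal.toReal_mono ENNReal.ofReal_ne_top (H4' x hx)
      rwa [ENNReal.toReal_ofReal (by positivity)] at this)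
    (by
      have := ENNReal.toReal_mono (ENNReal.mul_ne_top (by finiteness) (hΦf 1 le_rfl)) H5
      rw [ENNReal.toReal_mul] at this
      simpa using this)
    (by
      intro r m' kap X G k hm0 hmm hmn hk0 hkU hX hG hGn hk hΦX hΦG hrho
      have hkU' : ∀ s, U (m' (s + 1)) ≤ kap * U (m' s) := by
        intro s
        have h1 := hkU s
        have h2 : ((kap : ℝ≥0∞) * U (m' s)) ≠ ⊤ := ENNReal.mul_ne_top (by finiteness) (hUf _)
        rw [← ENNReal.toReal_le_toReal (hUf _) h2, ENNReal.toReal_mul, ENNReal.toReal_natCast]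
        exact h1
      have hΦX' : Φ X * kap * U (m' (r + 1)) ≤ 1 := by
        have h2 : Φ X * kap * U (m' (r + 1)) ≠ ⊤ :=
          ENNReal.mul_ne_top (ENNReal.mul_ne_top (hΦf X hX) (by finiteness)) (hUf _)
        rw [← ENNReal.toReal_le_toReal h2 ENNReal.one_ne_top, ENNReal.toReal_mul,
          ENNReal.toReal_mul, ENNReal.toReal_natCast, ENNReal.toReal_one]
        exact hΦX
      have hΦG' : (k : ℝ≥0∞) + 1 ≤ Φ G * U (m' r) := by
        have h2 : Φ G * U (m' r) ≠ ⊤ := ENNReal.mul_ne_top (hΦf G hG) (hUf _)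
        rw [← ENNReal.toReal_le_toReal (by finiteness) h2, ENNReal.toReal_mul,
          ENNReal.toReal_add (by finiteness) ENNReal.one_ne_top, ENNReal.toReal_natCast,
          ENNReal.toReal_one]
        exact hΦG
      have h4 := h3 r m' kap X G k hm0 hmm hmn hk0 hkU' hX hG hGn hk hΦX' hΦG' hrho
      have e1 : (15 * ((r : ℝ≥0∞) + 1) * κ ^ 3 * T (m' r)) ≠ ⊤ :=
        ENNReal.mul_ne_top (ENNReal.mul_ne_top (by finiteness) (ENNReal.pow_ne_top hκf)) (hTf _)
      have e2 : (G : ℝ≥0∞) * (15 * ((r : ℝ≥0∞) + 1) * κ ^ 3 * T (m' r)) ≠ ⊤ :=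
        ENNReal.mul_ne_top (by finiteness) e1
      have e3 : (C0 : ℝ≥0∞) * (r + 1) * κ * (G + X) ≠ ⊤ :=
        ENNReal.mul_ne_top (ENNReal.mul_ne_top (by finiteness) hκf) (by finiteness)
      have h5 := ENNReal.toReal_mono (ENNReal.add_ne_top.2 ⟨e2, e3⟩) h4
      rw [ENNReal.toReal_add e2 e3] at h5
      simp only [ENNReal.toReal_mul, ENNReal.toReal_natCast, ENNReal.toReal_pow] at h5
      rw [ENNReal.toReal_add (by finiteness) ENNReal.one_ne_top,
        ENNReal.toReal_add (by finiteness) (by finiteness)] at h5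
      simp only [ENNReal.toReal_natCast, ENNReal.toReal_one, ENNReal.toReal_ofNat] at h5
      have hG0 : (0 : ℝ) < G := by exact_mod_cast hG
      have h6 : (G : ℝ) * (T (m' (r + 1))).toReal ≤
          G * (15 * (r + 1) * κ.toReal ^ 3 * (T (m' r)).toReal +
            C0 * (r + 1) * κ.toReal * (1 + X / G)) := by
        refine h5.trans (le_of_eq ?_)
        field_simp
      exact le_of_mul_le_mul_left h6 hG0)
    m hm
  have hfin : a m * U m ≠ ⊤ := ENNReal.mul_ne_top (haf m) (hUf m)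
  rw [← ENNReal.toReal_mul] at key
  rw [← ENNReal.ofReal_toReal hfin]
  exact ENNReal.ofReal_le_ofReal key

end Pool.HEP
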