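import Pool.Agent.HEP.RcRes
import Pool.Agent.HEP.RcOne
import Pool.Agent.HEP.Sc

set_option autoImplicit false

/-!
# HEP, section (3): the bound of the avoidance probability of a system

`a N * U N ≤ C n^ε` for `N ≤ n`.
-/

open scoped ENNReal

namespace Pool.Agent.HEP

namespace Sys

variable {S : Sys}

/-- `mov` in terms of `Phi 1` -/
theorem one_le_Phi {K : ℕ} (hmov : 1 ≤ (K : ℝ≥0∞) * ∑' c, ind (S.dx c ≠ 0) * S.wt c) :
    1 ≤ (K : ℝ≥0∞) * S.Phi 1 := by
  refine hmov.trans (mul_le_mul_of_nonneg_left ?_ bot_le)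
  unfold Alph.Phi
  apply ENNReal.tsum_le_tsum
  intro c
  rw [mul_comm]
  apply mul_le_mul_of_nonneg_left _ bot_le
  by_cases h : S.dx c = 0
  · rw [ind_false (by simpa using h)]; exact bot_le
  · rw [ind_true h]
    unfold Alph.q
    rw [← ENNReal.ofReal_one]
    apply ENNReal.ofReal_le_ofReal
    apply le_min le_rfl
    have h1 : (1 : ℤ) ≤ |S.dx c| := Int.one_le_abs h
    have h2 : (1 : ℝ) ≤ |(S.dx c : ℝ)| := by exact_mod_cast h1
    rw [Nat.cast_one, div_one, ← sq_abs]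
    nlinarith

theorem Phi_le {n : ℕ} (hdx : ∀ c, |S.dx c| ≤ n) (x : ℕ) :
    S.Phi x ≤ ENNReal.ofReal (((n : ℝ) / x) ^ 2) := by
  unfold Alph.Phi
  calc ∑' c, S.wt c * S.q x c ≤ ∑' c, S.wt c * ENNReal.ofReal (((n : ℝ) / x) ^ 2) := by
        apply ENNReal.tsum_le_tsum
        intro c
        apply mul_le_mul_of_nonneg_left _ bot_le
        unfold Alph.q
        apply ENNReal.ofReal_le_ofReal
        refine (min_le_right _ _).trans ?_
        rw [div_pow, div_pow]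
        apply div_le_div_of_nonneg_right _ (by positivity)
        rw [← sq_abs]
        have h1 : |(S.dx c : ℝ)| ≤ n := by exact_mod_cast hdx c
        gcongr
    _ = ENNReal.ofReal (((n : ℝ) / x) ^ 2) := by
        rw [ENNReal.tsum_mul_right, S.tot, one_mul]

theorem one_le_TT (h : S.Av [] []) : 1 ≤ S.TT 0 := by
  unfold TT
  refine le_trans ?_ le_self_add
  unfold T
  refine le_trans ?_ (ENNReal.le_tsum ([] : List S.B))
  refine le_trans ?_ (ENNReal.le_tsum ([] : List S.B))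
  have hg : S.good true 1 [] [] ∧ S.h [] ≤ 0 := by
    refine ⟨⟨h, ?_, Or.inl rfl⟩, le_of_eq S.h_nil⟩
    rw [S.h_nil]; exact Nat.zero_le _
  have hd : S.del true [] [] = 0 := by
    unfold del; rw [S.h_nil]; rfl
  rw [ind_true hg, hd, S.Lam_zero, S.w_nil]
  simp

theorem a_eq_zero (h : ¬ S.Av [] []) (N : ℕ) : S.a N = 0 := by
  unfold a
  rw [ENNReal.tsum_eq_zero]
  intro l
  rw [ENNReal.tsum_eq_zero]
  intro s
  rw [ind_false, zero_mul]
  rintro ⟨h1, _, _⟩
  exact h (S.Av_pre [] l [] s (by simpa using h1))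

end Sys

theorem sc_main (ε : ℝ) (hε : 0 < ε) (K : ℕ) : ∃ C : ℝ, 0 < C ∧ ∀ (S : Sys) (n : ℕ), 1 ≤ n →
    S.Hyp n K → ∀ N ≤ n, S.a N * S.U N ≤ ENNReal.ofReal (C * (n : ℝ) ^ ε) := by
  obtain ⟨C, hC, hmain⟩ := Pool.HEP.sc_ennreal ε hε (8 * K + 1) (by omega)
  refine ⟨C, hC, ?_⟩
  intro S n hn hH N hN
  by_cases hAv : S.Av [] []
  · have hTU : ∀ m, S.TT m ≤ 2 * S.U m := by
      intro m
      unfold Sys.TT
      rw [two_mul]
      exact add_le_add (Sys.T_le_U _ _) (Sys.T_le_U _ _)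
    refine hmain n hn S.U S.a S.TT S.Phi (S.K0 n) S.U_zero S.U_mono S.U_succ_le
      (Sys.one_le_TT hAv) ?_ Sys.TT_mono ?_ (S.one_le_K0 n) (S.K0_le n) Sys.a_le_one ?_ ?_ ?_ ?_ ?_
      N hN
    · refine (hTU 0).trans ?_
      rw [S.U_zero, mul_one]
    · intro m
      exact ne_top_of_le_ne_top (ENNReal.mul_ne_top (by finiteness) (S.U_ne_top m)) (hTU m)
    · intro m hm
      refine (Sys.a_mul_U hH m).trans ?_
      exact mul_le_mul_of_nonneg_right (S.K0_mono hm) bot_le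
    · intro m M hmM _
      refine (Sys.crudeTT hmM).trans (le_of_eq ?_)
      ring
    · intro x _
      exact Sys.Phi_le hH.dxn x
    · refine (Sys.one_le_Phi hH.mov).trans ?_
      apply mul_le_mul_of_nonneg_right _ bot_le
      have : K ≤ 8 * K + 1 := by omega
      exact_mod_cast this
    · intro r m kap X G k hm0 hmm hmn hk0 hkU hX hG hGn hk hΦX hΦG hrho
      have hρ : ENNReal.ofReal (Pool.HEP.rho (n ^ 4) k) * (kap : ℝ≥0∞) ≤ 1 := by
        have h0 : 0 ≤ Pool.HEP.rho (n ^ 4) k := by unfold Pool.HEP.rho; positivity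
        rw [← ENNReal.ofReal_natCast, ← ENNReal.ofReal_mul h0, ← ENNReal.ofReal_one]
        exact ENNReal.ofReal_le_ofReal hrho
      have h1 := Sys.rec_le hH m hmm hm0 r X G k (n ^ 4) kap (fun i _ => hkU i) hX hG hGn hk
        hΦX hΦG hρ
      refine h1.trans ?_
      have hK : S.K0 (m (r + 1)) ≤ S.K0 n := S.K0_mono (hmn _)
      have hC0 : (8 * (K : ℝ≥0∞)) ≤ ((8 * K + 1 : ℕ) : ℝ≥0∞) := by
        push_cast; exact le_self_add
      gcongr
  · rw [Sys.a_eq_zero hAv, zero_mul]; exact bot_le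

end Pool.Agent.HEP
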