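import Pool.Agent.HEP.Alph

/-!
Project HEP, renewal toolbox 1: sums over words, the renewal equation.
-/

namespace Pool.Agent.HEP.Alph

open scoped ENNReal
open Finset

variable (A : Alph)

/-- A sum over all words. -/
lemma tsum_list {β : Type} (f : List β → ℝ≥0∞) : ∑' l, f l = f [] + ∑' c, ∑' l, f (c :: l) := by
  classical
  rw [ENNReal.tsum_eq_add_tsum_ite ([] : List β), ← ENNReal.tsum_prod (f := fun c l => f (c :: l))]
  congr 1
  have hinj : Function.Injective (fun x : β × List β => x.1 :: x.2) := by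
    rintro ⟨a, l⟩ ⟨a', l'⟩ h
    simp only [List.cons.injEq] at h
    exact Prod.ext h.1 h.2
  have key : ∑' l, (if l = [] then 0 else f l) = ∑' p : β × List β, f (p.1 :: p.2) := by
    rw [← hinj.tsum_eq (f := fun l => if l = [] then 0 else f l)]
    · refine tsum_congr fun x => ?_
      rw [if_neg (by simp)]
    · intro l hl
      rcases l with _ | ⟨c, l⟩
      · simp at hl
      · exact ⟨(c, l), rfl⟩
  convert key

/-- Sums of functions of the height over the blocks. -/
lemma tsum_ht (φ : ℕ → ℝ≥0∞) : ∑' c, A.wt c * φ (A.ht c) = ∑' k, A.lam k * φ k := by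
  unfold lam
  simp_rw [← ENNReal.tsum_mul_right]
  rw [ENNReal.tsum_comm]
  refine tsum_congr fun c => ?_
  rw [tsum_eq_single (A.ht c)]
  · rw [ind_true rfl, one_mul]
  · intro k hk
    rw [ind_false (Ne.symm hk), zero_mul, zero_mul]

/-- Sums of functions of the height over the words. -/
lemma tsum_h (φ : ℕ → ℝ≥0∞) : ∑' l, A.w l * φ (A.h l) = ∑' k, A.b k * φ k := by
  unfold b
  simp_rw [← ENNReal.tsum_mul_right]
  rw [ENNReal.tsum_comm]
  refine tsum_congr fun l => ?_
  rw [tsum_eq_single (A.h l)]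
  · rw [ind_true rfl, one_mul]
  · intro k hk
    rw [ind_false (Ne.symm hk), zero_mul, zero_mul]

lemma lam_zero : A.lam 0 = 0 := by
  unfold lam
  rw [ENNReal.tsum_eq_zero]
  intro c
  have := A.ht_pos c
  rw [ind_false (by omega), zero_mul]

lemma Lam_zero : A.Lam 0 = 1 := by
  unfold Lam
  rw [← A.tot]
  refine tsum_congr fun c => ?_
  have := A.ht_pos c
  rw [ind_true (by omega), one_mul]

lemma tsum_lam : ∑' k, A.lam k = 1 := by
  have := A.tsum_ht (fun _ => 1)
  simp only [mul_one] at this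
  rw [← this, A.tot]

lemma Lam_succ (k : ℕ) : A.Lam k = A.lam (k + 1) + A.Lam (k + 1) := by
  unfold Lam lam
  rw [← ENNReal.tsum_add]
  refine tsum_congr fun c => ?_
  rw [← add_mul]
  congr 1
  by_cases h1 : A.ht c = k + 1
  · rw [ind_true (by omega), ind_true h1, ind_false (by omega), add_zero]
  · by_cases h2 : k + 1 < A.ht c
    · rw [ind_true (by omega), ind_false h1, ind_true h2, zero_add]
    · rw [ind_false (by omega), ind_false h1, ind_false h2, zero_add]

/-- Total mass of the blocks. -/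
lemma sum_lam (k : ℕ) : ∑ j ∈ range (k + 1), A.lam j + A.Lam k = 1 := by
  induction k with
  | zero => rw [sum_range_one, A.lam_zero, A.Lam_zero, zero_add]
  | succ k ih => rw [sum_range_succ, add_assoc, ← A.Lam_succ k, ih]

lemma Lam_anti : Antitone A.Lam :=
  antitone_nat_of_succ_le fun k => by rw [A.Lam_succ k]; exact le_add_self

lemma Lam_le_one (k : ℕ) : A.Lam k ≤ 1 := by
  rw [← A.sum_lam k]; exact le_add_self

lemma Lam_ne_top (k : ℕ) : A.Lam k ≠ ⊤ := ne_top_of_le_ne_top ENNReal.one_ne_top (A.Lam_le_one k)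

lemma lam_le_one (k : ℕ) : A.lam k ≤ 1 := by
  rw [← A.tsum_lam]; exact ENNReal.le_tsum k

lemma lam_ne_top (k : ℕ) : A.lam k ≠ ⊤ := ne_top_of_le_ne_top ENNReal.one_ne_top (A.lam_le_one k)

lemma Lam_eq (k : ℕ) : A.Lam k = ∑' j, A.lam (k + 1 + j) := by
  have h1 : ∑ j ∈ range (k + 1), A.lam j + ∑' j, A.lam (k + 1 + j) = 1 := by
    rw [← A.tsum_lam, ← ENNReal.summable.sum_add_tsum_nat_add' (k := k + 1) (f := A.lam)]
    congr 1
    refine tsum_congr fun j => ?_
    rw [add_comm]
  have h2 := A.sum_lam k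
  have h3 : ∑ j ∈ range (k + 1), A.lam j ≠ ⊤ :=
    ne_top_of_le_ne_top ENNReal.one_ne_top (by rw [← h2]; exact le_self_add)
  exact (ENNReal.add_right_inj h3).1 (h2.trans h1.symm)

lemma b_zero : A.b 0 = 1 := by
  unfold b
  rw [tsum_eq_single []]
  · rw [ind_true A.h_nil, A.w_nil, one_mul]
  · intro l hl
    rw [ind_false (fun h => hl (A.h_eq_zero.1 h)), zero_mul]

/-- The renewal equation. -/
lemma b_succ (k : ℕ) : A.b (k + 1) = ∑ j ∈ range (k + 1), A.lam (j + 1) * A.b (k - j) := by
  have h1 : A.b (k + 1) = ∑' c, A.wt c * (if A.ht c ≤ k + 1 then A.b (k + 1 - A.ht c) else 0) := by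
    conv_lhs => unfold b
    rw [tsum_list, ind_false (by rw [A.h_nil]; omega), zero_mul, zero_add]
    refine tsum_congr fun c => ?_
    split_ifs with hc
    · unfold b
      rw [← ENNReal.tsum_mul_left]
      refine tsum_congr fun l => ?_
      rw [A.h_cons, A.w_cons, ind_congr (show A.ht c + A.h l = k + 1 ↔ A.h l = k + 1 - A.ht c by omega)]
      ring
    · rw [mul_zero, ENNReal.tsum_eq_zero]
      intro l
      rw [A.h_cons, ind_false (by omega), zero_mul]
  rw [h1, A.tsum_ht (fun m => if m ≤ k + 1 then A.b (k + 1 - m) else 0),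
    tsum_eq_sum (s := range (k + 2)) (fun m hm => by
      rw [mem_range, not_lt] at hm
      rw [if_neg (by omega), mul_zero]), sum_range_succ', A.lam_zero, zero_mul, add_zero]
  refine sum_congr rfl fun j hj => ?_
  rw [mem_range] at hj
  rw [if_pos (by omega), show k + 1 - (j + 1) = k - j by omega]

lemma sum_lam_le_one (k : ℕ) : ∑ j ∈ range (k + 1), A.lam j ≤ 1 := by
  rw [← A.sum_lam k]; exact le_self_add

lemma b_le_one (k : ℕ) : A.b k ≤ 1 := by
  induction k using Nat.strong_induction_on with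
  | _ k ih =>
    rcases k with _ | k
    · rw [A.b_zero]
    · rw [A.b_succ]
      calc ∑ j ∈ range (k + 1), A.lam (j + 1) * A.b (k - j) ≤ ∑ j ∈ range (k + 1), A.lam (j + 1) * 1 := by
            refine sum_le_sum fun j _ => mul_le_mul' le_rfl (ih _ (by omega))
        _ ≤ ∑ j ∈ range (k + 2), A.lam j := by
            rw [sum_range_succ' A.lam (k + 1)]
            simp only [mul_one]
            exact le_self_add
        _ ≤ 1 := A.sum_lam_le_one (k + 1)

lemma b_ne_top (k : ℕ) : A.b k ≠ ⊤ := ne_top_of_le_ne_top ENNReal.one_ne_top (A.b_le_one k)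

/-- The renewal identity. -/
theorem ren (N : ℕ) : ∑ p ∈ range (N + 1), A.b p * A.Lam (N - p) = 1 := by
  induction N with
  | zero => rw [sum_range_one, A.b_zero, A.Lam_zero, one_mul]
  | succ N ih =>
    rw [sum_range_succ, Nat.sub_self, A.Lam_zero, mul_one]
    have h1 : ∀ p ∈ range (N + 1), A.b p * A.Lam (N - p) =
        A.b p * A.lam (N - p + 1) + A.b p * A.Lam (N + 1 - p) := by
      intro p hp
      rw [mem_range] at hp
      rw [show N + 1 - p = N - p + 1 by omega, ← mul_add, ← A.Lam_succ]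
    have h2 : A.b (N + 1) = ∑ p ∈ range (N + 1), A.b p * A.lam (N - p + 1) := by
      rw [A.b_succ, ← sum_range_reflect]
      refine sum_congr rfl fun j hj => ?_
      rw [mem_range] at hj
      rw [show N + 1 - 1 - j = N - j by omega, show N - (N - j) = j by omega, mul_comm]
    rw [sum_congr rfl h1, sum_add_distrib, ← h2] at ih
    rw [add_comm, ih]

theorem sum_b_Lam (N : ℕ) : ∑ p ∈ range (N + 1), A.b p * A.Lam (N - p) = 1 := A.ren N

/-- Sums of functions of the height over the words of height at most `N`. -/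
lemma tsum_w_h (N : ℕ) (f : ℕ → ℝ≥0∞) :
    ∑' l, ind (A.h l ≤ N) * (A.w l * f (A.h l)) = ∑ k ∈ range (N + 1), A.b k * f k := by
  have h1 := A.tsum_h (fun k => ind (k ≤ N) * f k)
  rw [tsum_eq_sum (s := range (N + 1)) (fun k hk => by
    rw [mem_range, not_lt] at hk
    rw [ind_false (by omega), zero_mul, mul_zero])] at h1
  rw [sum_congr rfl (g := fun k => A.b k * f k) (fun k hk => by
    rw [mem_range] at hk
    rw [ind_true (by omega), one_mul])] at h1
  rw [← h1]
  refine tsum_congr fun l => ?_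
  ring

/-- The words up to their last renewal `≤ N` have total probability 1. -/
lemma tsum_w_Lam (N : ℕ) : ∑' l, ind (A.h l ≤ N) * (A.w l * A.Lam (N - A.h l)) = 1 := by
  rw [A.tsum_w_h N (fun k => A.Lam (N - k)), A.ren]

/-- Mass of the words of height at most `N`. -/
lemma tsum_le (N : ℕ) : ∑' l, ind (A.h l ≤ N) * A.w l = A.U N := by
  have := A.tsum_w_h N (fun _ => 1)
  simp only [mul_one] at this
  rw [this]
  rfl

lemma U_zero : A.U 0 = 1 := by
  unfold U
  rw [sum_range_one, A.b_zero]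

lemma U_succ (N : ℕ) : A.U (N + 1) = A.U N + A.b (N + 1) := by
  unfold U
  rw [sum_range_succ]

lemma U_mono : Monotone A.U := monotone_nat_of_le_succ fun N => by rw [A.U_succ]; exact le_self_add

lemma one_le_U (N : ℕ) : 1 ≤ A.U N := by
  rw [← A.U_zero]; exact A.U_mono (Nat.zero_le N)

lemma U_succ_le (N : ℕ) : A.U (N + 1) ≤ A.U N + 1 := by
  rw [A.U_succ]
  exact add_le_add le_rfl (A.b_le_one _)

lemma U_le (N : ℕ) : A.U N ≤ N + 1 := by
  induction N with
  | zero => rw [A.U_zero]; simp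
  | succ N ih =>
    refine (A.U_succ_le N).trans ?_
    push_cast
    exact add_le_add ih le_rfl

lemma U_ne_top (N : ℕ) : A.U N ≠ ⊤ := ne_top_of_le_ne_top (by exact_mod_cast ENNReal.natCast_ne_top (N + 1)) (A.U_le N)

lemma U_ne_zero (N : ℕ) : A.U N ≠ 0 := (lt_of_lt_of_le zero_lt_one (A.one_le_U N)).ne'

lemma U_mul_Lam (N : ℕ) : A.U N * A.Lam N ≤ 1 := by
  rw [← A.ren N]
  unfold U
  rw [sum_mul]
  exact sum_le_sum fun p _ => mul_le_mul' le_rfl (A.Lam_anti (Nat.sub_le N p))

lemma Lam_mul_U (N : ℕ) : A.Lam N * A.U N ≤ 1 := by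
  rw [mul_comm]; exact A.U_mul_Lam N

lemma Lam_le_div (N : ℕ) : A.Lam N ≤ (A.U N)⁻¹ := by
  rw [ENNReal.le_inv_iff_mul_le]; exact A.Lam_mul_U N

lemma U_mul_sum_Lam (M : ℕ) : A.U M * ∑ k ∈ range (M + 1), A.Lam k ≤ 2 * M + 1 := by
  have h1 : ∑ N ∈ range (2 * M + 1), ∑ p ∈ range (N + 1), A.b p * A.Lam (N - p) = 2 * M + 1 := by
    rw [sum_congr rfl fun N _ => A.ren N, sum_const, card_range]
    simp
  rw [← h1]
  unfold U
  rw [sum_mul_sum]
  have h2 : ∀ N ∈ range (2 * M + 1), ∑ p ∈ range (N + 1), A.b p * A.Lam (N - p) =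
      ∑ p ∈ range (2 * M + 1), if p ≤ N then A.b p * A.Lam (N - p) else 0 := by
    intro N hN
    rw [mem_range] at hN
    rw [← sum_filter]
    refine sum_congr (Finset.ext fun p => ?_) fun _ _ => rfl
    simp only [mem_range, mem_filter]
    omega
  rw [sum_congr rfl h2, sum_comm (s := range (2 * M + 1))]
  refine (sum_le_sum fun p hp => ?_).trans (sum_le_sum_of_subset (range_subset_range.2 (by omega : M + 1 ≤ 2 * M + 1)))
  rw [mem_range] at hp
  rw [← sum_filter]
  have h3 : (range (M + 1)).map ⟨fun k => k + p, add_left_injective p⟩ ⊆ (range (2 * M + 1)).filter (fun N => p ≤ N) := by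
    intro N hN
    simp only [mem_map, Function.Embedding.coeFn_mk, mem_range, mem_filter] at hN ⊢
    obtain ⟨k, hk, rfl⟩ := hN
    omega
  refine le_trans ?_ (sum_le_sum_of_subset h3)
  rw [sum_map]
  simp only [Function.Embedding.coeFn_mk, Nat.add_sub_cancel]
  exact le_refl _

end Pool.Agent.HEP.Alph
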