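import Pool.Agent.HEP.GSys
import Pool.Agent.HEP.GFar
import Pool.Agent.HEP.GRev

/-!
HEP geometry, module GC1: the slit bound `C1` for the system `hs n`.

The word `arc σ l s` of a pair (long leg `l`, short leg `s`) starts at the end of the long leg and ends at the end of the short leg. If
the crossings of the level of its end by the long leg are on the lower side of the end, at distance at least `G`, then for
`G` positions `τ` of the tip of the slit the word belongs to `Far δ' τ δ`; the upper side is reduced to this case by reflection.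
`far_le` bounds each of these masses by `3 * ms xE (Br δ)`.
-/

namespace Pool.Agent.HEP

open Pool.Agent.Hhelper14.SAW Pool.Agent.HHP
open scoped ENNReal

/-- Arcs whose row is on the lower side of the end, at distance at least `G`. -/
def Gap (δ T G X : ℕ) (W : List Bool) : Prop :=
  (V W).Nodup ∧ (∀ z ∈ V W, 0 ≤ F0 z) ∧ F0 (E W) = 3 * δ ∧ ¬ hz (Dr W) ∧ (∃ z ∈ V W, 3 * (T : ℤ) + 3 ≤ F0 z) ∧
    |(E W).2| ≤ X ∧ ∀ z ∈ V W, F0 z = 3 * (δ : ℤ) - 2 → z.2 + G ≤ (E W).2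

private lemma GC1_far {δ T G X : ℕ} {W : List Bool} (h : Gap δ T G X W) {τ : ℤ} (h1 : (E W).2 - G < τ)
    (h2 : τ ≤ (E W).2) : Far δ τ T W := by
  obtain ⟨a1, a2, a3, a4, a5, a6, a7⟩ := h
  refine ⟨a1, fun z hz => ⟨a2 z hz, ?_⟩, a3, h2, a4, a5⟩
  rintro ⟨h3, h4⟩
  have := a7 z hz h3
  omega

private lemma GC1_ms (y : ℝ≥0∞) (P : List Bool → Prop) : ms y P = ∑' W, ind (P W) * y ^ (W.length + 1) := by
  classical
  unfold ms
  refine (tsum_subtype {W | P W} (fun W : List Bool => y ^ (W.length + 1))).trans (tsum_congr fun W => ?_)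
  by_cases h : P W
  · rw [Set.indicator_of_mem (by exact h), ind_true h, one_mul]
  · rw [Set.indicator_of_notMem (by exact h), ind_false h, zero_mul]

lemma gap_ms (δ T G X : ℕ) :
    (G : ℝ≥0∞) * ms xE (Gap δ T G X) ≤ (G + 2 * X : ℕ) * (3 * ms xE (Br T)) := by
  classical
  have h1 : ∀ W, (G : ℝ≥0∞) * (ind (Gap δ T G X W) * xE ^ (W.length + 1)) ≤
      ∑ τ ∈ Finset.Ioc (-(X : ℤ) - G) X, ind (Far δ τ T W) * xE ^ (W.length + 1) := by
    intro W
    by_cases h : Gap δ T G X W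
    · rw [ind_true h, one_mul, ← Finset.sum_mul]
      refine mul_le_mul_left ?_ _
      have h2 : Finset.Ioc ((E W).2 - G) (E W).2 ⊆ Finset.Ioc (-(X : ℤ) - G) X := by
        intro τ hτ
        rw [Finset.mem_Ioc] at hτ ⊢
        have h3 := abs_le.1 h.2.2.2.2.2.1
        constructor <;> omega
      refine le_trans (le_of_eq ?_) (Finset.sum_le_sum_of_subset h2)
      rw [Finset.sum_congr rfl (g := fun _ => (1 : ℝ≥0∞)), Finset.sum_const, Int.card_Ioc]
      · simp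
      · intro τ hτ
        rw [Finset.mem_Ioc] at hτ
        exact ind_true (GC1_far h hτ.1 hτ.2)
    · rw [ind_false h, zero_mul, mul_zero]
      exact zero_le
  rw [GC1_ms, ← ENNReal.tsum_mul_left]
  refine (ENNReal.tsum_le_tsum h1).trans ?_
  rw [Summable.tsum_finsetSum fun _ _ => ENNReal.summable]
  have h2 : ∀ τ ∈ Finset.Ioc (-(X : ℤ) - G) X, ∑' W, ind (Far δ τ T W) * xE ^ (W.length + 1) ≤ 3 * ms xE (Br T) := by
    intro τ _
    rw [← GC1_ms]
    exact far_le δ τ T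
  refine (Finset.sum_le_sum h2).trans (le_of_eq ?_)
  rw [Finset.sum_const, Int.card_Ioc, nsmul_eq_mul]
  congr 2
  omega

/-- The word of the pair `l` (long leg), `s` (short leg). -/
noncomputable def arc (σ : Bool) (l s : List Blk) : List Bool :=
  if σ then fw (jn l.reverse) (jn s) else rvw (fw (jn s.reverse) (jn l))

private lemma GC1_hj (l : List Blk) : hj l.reverse = hj l := by
  unfold hj; rw [List.map_reverse, List.sum_reverse]

private lemma GC1_rne {l : List Blk} (hl : l ≠ []) : l.reverse ≠ [] := by simpa using hl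

private lemma GC1_brr {l : List Blk} (hl : l ≠ []) : Br (hj l - 1) (jn l.reverse) := by
  have := jn_Br (GC1_rne hl)
  rwa [GC1_hj] at this

private lemma GC1_fwE {a c : ℕ} {X Y : List Bool} (hX : Br a X) (hY : Br c Y) :
    F0 (E (fw X Y)) = 3 * ((a : ℤ) - c - 1) ∧ ¬ hz (Dr (fw X Y)) := by
  obtain ⟨-, h2, h3, -⟩ := fw_V hX Y
  constructor
  · rw [h2, F0_sub, F0_add, fe_F0 hX, hY.2]
    simp only [F0]
    ring
  · rw [h3, hz_neg]
    exact hY.not_hz

private lemma GC1_rvw {a c : ℕ} {X Y : List Bool} (hX : Br a X) (hY : Br c Y) :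
    V (rvw (fw X Y)) = ((V (fw X Y)).reverse).map (fun z => z - E (fw X Y)) ∧ E (rvw (fw X Y)) = - E (fw X Y) ∧
      ¬ hz (Dr (rvw (fw X Y))) ∧ (rvw (fw X Y)).length = (fw X Y).length ∧ rvw (rvw (fw X Y)) = fw X Y := by
  obtain ⟨h1, h2⟩ := GC1_fwE hX hY
  exact rvw_spec (by rw [h1]; omega) h2

lemma arc_inj (σ : Bool) {l s l' s' : List Blk} (hl : l ≠ []) (hs : s ≠ []) (hl' : l' ≠ []) (hs' : s' ≠ [])
    (h : arc σ l s = arc σ l' s') : l = l' ∧ s = s' := by
  cases σ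
  · have h1 : rvw (fw (jn s.reverse) (jn l)) = rvw (fw (jn s'.reverse) (jn l')) := h
    have h2 := congrArg rvw h1
    rw [(GC1_rvw (GC1_brr hs) (jn_Br hl)).2.2.2.2, (GC1_rvw (GC1_brr hs') (jn_Br hl')).2.2.2.2] at h2
    obtain ⟨h3, h4⟩ := fw_inj (GC1_brr hs) (GC1_brr hs') (jn_Br hl) (jn_Br hl') h2
    exact ⟨jn_inj hl hl' h4, List.reverse_injective (jn_inj (GC1_rne hs) (GC1_rne hs') h3)⟩
  · have h1 : fw (jn l.reverse) (jn s) = fw (jn l'.reverse) (jn s') := h
    obtain ⟨h3, h4⟩ := fw_inj (GC1_brr hl) (GC1_brr hl') (jn_Br hs) (jn_Br hs') h1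
    exact ⟨List.reverse_injective (jn_inj (GC1_rne hl) (GC1_rne hl') h3), jn_inj hs hs' h4⟩

private lemma GC1_wj (l : List Blk) : wj l.reverse = wj l := by
  unfold wj; rw [List.map_reverse, List.prod_reverse]

/-- The mass of the pair. -/
lemma arc_mass (σ : Bool) {l s : List Blk} (hl : l ≠ []) (hs : s ≠ []) :
    wj l * wj s = xE ^ (arc σ l s).length := by
  cases σ
  · have e : (arc false l s).length = (jn s.reverse).length + (jn l).length + 2 := by
      change (rvw (fw (jn s.reverse) (jn l))).length = _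
      rw [(GC1_rvw (GC1_brr hs) (jn_Br hl)).2.2.2.1, (fw_V (GC1_brr hs) (jn l)).2.2.2]
    rw [e, ← GC1_wj s, jn_length hl, jn_length (GC1_rne hs), ← pow_add]
    congr 1
    ring
  · have e : (arc true l s).length = (jn l.reverse).length + (jn s).length + 2 := (fw_V (GC1_brr hl) (jn s)).2.2.2
    rw [e, ← GC1_wj l, jn_length hs, jn_length (GC1_rne hl), ← pow_add]
    congr 1
    ring

/-- Finite rows. -/
private lemma GC1_fin {α : Type} (L : List α) (f : α → ℤ) (S : Set ℤ) (h : ∀ y ∈ S, ∃ z ∈ L, y = f z) :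
    BddAbove S ∧ BddBelow S := by
  have : S ⊆ (f '' {z | z ∈ L}) := by
    intro y hy
    obtain ⟨z, hz, rfl⟩ := h y hy
    exact ⟨z, hz, rfl⟩
  have h1 : S.Finite := Set.Finite.subset (Set.Finite.image f (List.finite_toSet L)) this
  exact ⟨h1.bddAbove, h1.bddBelow⟩

private lemma GC1_rowT (l : List Blk) (j : ℕ) : BddAbove (rowT l j) ∧ BddBelow (rowT l j) := by
  refine GC1_fin (o' :: V (jn l.reverse)) (fun z => (fe (jn l.reverse) + (-1, 0) - z).2) _ ?_
  rintro y ⟨z, h1, -, h2⟩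
  exact ⟨z, by simpa using h1, h2⟩

private lemma GC1_rowF (l : List Blk) (j : ℕ) : BddAbove (rowF l j) ∧ BddBelow (rowF l j) := by
  refine GC1_fin (V (jn l)) (fun z => z.2) _ ?_
  rintro y ⟨z, h1, -, h2⟩
  exact ⟨z, h1, h2⟩

/-- Reflected arcs. -/
private lemma GC1_not {δ T G X : ℕ} {W : List Bool} (a1 : (V W).Nodup) (a2 : ∀ z ∈ V W, 0 ≤ F0 z)
    (a3 : F0 (E W) = 3 * δ) (a4 : ¬ hz (Dr W)) (a5 : ∃ z ∈ V W, 3 * (T : ℤ) + 3 ≤ F0 z) (a6 : |(E W).2| ≤ X)
    (a7 : ∀ z ∈ V W, F0 z = 3 * (δ : ℤ) - 2 → (E W).2 + G ≤ z.2) : Gap δ T G X (W.map (! ·)) := by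
  refine ⟨?_, ?_, ?_, ?_, ?_, ?_, ?_⟩
  · rw [V_not]; exact a1.map sg_inj
  · intro z hz
    rw [V_not, List.mem_map] at hz
    obtain ⟨y, hy, rfl⟩ := hz
    rw [F0_sg]; exact a2 y hy
  · rw [E_not, F0_sg]; exact a3
  · rw [Dr_not, hz_sg]; exact a4
  · obtain ⟨z, hz, h⟩ := a5
    refine ⟨sg z, ?_, by rw [F0_sg]; exact h⟩
    rw [V_not]; exact List.mem_map_of_mem hz
  · rw [E_not]
    change |-(E W).2| ≤ X
    rw [abs_neg]; exact a6
  · intro z hz h
    rw [V_not, List.mem_map] at hz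
    obtain ⟨y, hy, rfl⟩ := hz
    rw [F0_sg] at h
    have := a7 y hy h
    rw [E_not]
    change -y.2 + G ≤ -(E W).2
    omega

/-- The column of the end of the arc. -/
def dl' (σ : Bool) (δ : ℕ) : ℕ := if σ then δ else δ + 1

private lemma GC1_two {δ T G X : ℕ} {W : List Bool} (a1 : (V W).Nodup) (a2 : ∀ z ∈ V W, 0 ≤ F0 z)
    (a3 : F0 (E W) = 3 * δ) (a4 : ¬ hz (Dr W)) (a5 : ∃ z ∈ V W, 3 * (T : ℤ) + 3 ≤ F0 z) (a6 : |(E W).2| ≤ X)
    (a7 : (∀ z ∈ V W, F0 z = 3 * (δ : ℤ) - 2 → (E W).2 + G ≤ z.2) ∨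
      ∀ z ∈ V W, F0 z = 3 * (δ : ℤ) - 2 → z.2 + G ≤ (E W).2) :
    Gap δ T G X W ∨ Gap δ T G X (W.map (! ·)) := by
  rcases a7 with a7 | a7
  · exact Or.inr (GC1_not a1 a2 a3 a4 a5 a6 a7)
  · exact Or.inl ⟨a1, a2, a3, a4, a5, a6, a7⟩

private lemma arc_gapT {n δ G X : ℕ} {l s : List Blk} (hl0 : l ≠ []) (hs0 : s ≠ [])
    (hg : (hs n).good true G l s) (hd : hj l - 1 = hj s + δ) (hX : |(hs n).pl true l - (hs n).ps true s| ≤ X) :
    Gap δ δ G X (arc true l s) ∨ Gap δ δ G X ((arc true l s).map (! ·)) := by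
  have hg' : Avn n l s ∧ hj s ≤ hj l - 1 ∧ (s = [] ∨ sSup (rowT l (hj s)) + G ≤ (hs n).x s ∨
      (hs n).x s + G ≤ sInf (rowT l (hj s))) := hg
  obtain ⟨⟨hlen, hav⟩, -, hos⟩ := hg'
  have hN : (V (fw (jn l.reverse) (jn s))).Nodup := by
    rcases hav with h | h | h
    · exact absurd h hl0
    · exact absurd h hs0
    · exact h
  have hx : (hs n).x s = (E (jn s)).2 := hs_x_eq hs0 fun c hc => hlen c (List.mem_append_right _ hc)
  have hp : (hs n).pl true l = (fe (jn l.reverse)).2 := hs_p1 hl0 fun c hc => hlen c (List.mem_append_left _ hc)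
  have hps : (hs n).ps true s = (hs n).x s := rfl
  rw [hp, hps, hx] at hX
  have hBX := GC1_brr hl0
  have hBY := jn_Br hs0
  have hfe := fe_F0 hBX
  obtain ⟨v1, v2, v3, -⟩ := fw_V hBX (jn s)
  obtain ⟨u1, u2⟩ := GC1_fwE hBX hBY
  have hE2 : (E (arc true l s)).2 = (fe (jn l.reverse)).2 - (E (jn s)).2 := by
    change (E (fw (jn l.reverse) (jn s))).2 = _
    rw [v2]
    simp
  have p1 := hj_pos hs0
  have hac : ((hj l - 1 : ℕ) : ℤ) = ((hj s - 1 : ℕ) : ℤ) + 1 + δ := by omega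
  have hY : ∀ w ∈ V (jn s), 0 ≤ F0 w ∧ F0 w ≤ 3 * ((hj s - 1 : ℕ) : ℤ) + 1 := hBY.1.2
  have hXV : ∀ w ∈ V (jn l.reverse), 0 ≤ F0 w ∧ F0 w ≤ 3 * ((hj l - 1 : ℕ) : ℤ) + 1 := hBX.1.2
  have hFw : ∀ w : ℤ × ℤ, F0 (fe (jn l.reverse) + (-1, 0) - w) = 3 * ((hj l - 1 : ℕ) : ℤ) - 2 - F0 w := by
    intro w
    rw [F0_sub, F0_add, hfe]
    simp only [F0]
    ring
  have hrow : ∀ z ∈ V (arc true l s), F0 z = 3 * (δ : ℤ) - 2 → (fe (jn l.reverse)).2 - z.2 ∈ rowT l (hj s) := by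
    intro z hz h
    have hz' : z ∈ V (fw (jn l.reverse) (jn s)) := hz
    rw [v1, List.mem_append, List.mem_cons, List.mem_map] at hz'
    rcases hz' with hz' | rfl | ⟨w, hw, rfl⟩
    · refine ⟨z, Or.inr hz', ?_, by simp⟩
      rw [hFw, h]; omega
    · rw [hfe] at h; omega
    · rw [hFw] at h
      have := hY w hw
      omega
  refine GC1_two hN ?_ ?_ u2 ?_ ?_ ?_
  · intro z hz
    have hz' : z ∈ V (fw (jn l.reverse) (jn s)) := hz
    rw [v1, List.mem_append, List.mem_cons, List.mem_map] at hz'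
    rcases hz' with hz' | rfl | ⟨w, hw, rfl⟩
    · exact (hXV z hz').1
    · rw [hfe]; positivity
    · rw [hFw]
      have := hY w hw
      omega
  · change F0 (E (fw (jn l.reverse) (jn s))) = _
    rw [u1]; omega
  · refine ⟨E (jn l.reverse), ?_, ?_⟩
    · change _ ∈ V (fw (jn l.reverse) (jn s))
      rw [v1]; exact List.mem_append_left _ (E_mem _)
    · rw [hBX.2]; omega
  · rw [hE2]; exact hX
  · rw [hE2]
    rcases hos with h | h | h
    · exact absurd h hs0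
    · left
      intro z hz hF
      have := le_csSup (GC1_rowT l (hj s)).1 (hrow z hz hF)
      omega
    · right
      intro z hz hF
      have := csInf_le (GC1_rowT l (hj s)).2 (hrow z hz hF)
      omega

private lemma arc_gapF {n δ G X : ℕ} {l s : List Blk} (hl0 : l ≠ []) (hs0 : s ≠ [])
    (hg : (hs n).good false G l s) (hd : hj l = hj s + δ) (hX : |(hs n).pl false l - (hs n).ps false s| ≤ X) :
    Gap (δ + 1) δ G X (arc false l s) ∨ Gap (δ + 1) δ G X ((arc false l s).map (! ·)) := by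
  have hg' : Avn n s l ∧ hj s ≤ hj l - 0 ∧ (s = [] ∨ sSup (rowF l (hj s)) + G ≤ (hs n).p1 s ∨
      (hs n).p1 s + G ≤ sInf (rowF l (hj s))) := hg
  obtain ⟨⟨hlen, hav⟩, -, hos⟩ := hg'
  have hN : (V (fw (jn s.reverse) (jn l))).Nodup := by
    rcases hav with h | h | h
    · exact absurd h hs0
    · exact absurd h hl0
    · exact h
  have hx : (hs n).p1 s = (fe (jn s.reverse)).2 := hs_p1 hs0 fun c hc => hlen c (List.mem_append_left _ hc)
  have hp : (hs n).pl false l = (E (jn l)).2 := hs_x_eq hl0 fun c hc => hlen c (List.mem_append_right _ hc)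
  have hps : (hs n).ps false s = (hs n).p1 s := rfl
  rw [hp, hps, hx] at hX
  rw [hx] at hos
  have hBX := GC1_brr hs0
  have hBY := jn_Br hl0
  have hfe := fe_F0 hBX
  obtain ⟨v1, v2, v3, -⟩ := fw_V hBX (jn l)
  obtain ⟨u1, u2⟩ := GC1_fwE hBX hBY
  obtain ⟨r1, r2, r3, -, -⟩ := GC1_rvw hBX hBY
  have hE2 : (E (arc false l s)).2 = (E (jn l)).2 - (fe (jn s.reverse)).2 := by
    change (E (rvw (fw (jn s.reverse) (jn l)))).2 = _
    rw [r2, v2]
    simp
  have p1 := hj_pos hs0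
  have hac : ((hj l - 1 : ℕ) : ℤ) = ((hj s - 1 : ℕ) : ℤ) + δ := by omega
  have hY : ∀ w ∈ V (jn l), 0 ≤ F0 w ∧ F0 w ≤ 3 * ((hj l - 1 : ℕ) : ℤ) + 1 := hBY.1.2
  have hXV : ∀ w ∈ V (jn s.reverse), 0 ≤ F0 w ∧ F0 w ≤ 3 * ((hj s - 1 : ℕ) : ℤ) + 1 := hBX.1.2
  have hFw : ∀ w : ℤ × ℤ, F0 (fe (jn s.reverse) + (-1, 0) - w) = 3 * ((hj s - 1 : ℕ) : ℤ) - 2 - F0 w := by
    intro w
    rw [F0_sub, F0_add, hfe]
    simp only [F0]
    ring
  have hmem : ∀ z ∈ V (arc false l s), (3 * (δ : ℤ) + 3 ≤ F0 z) ∨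
      ∃ w ∈ V (jn l), F0 z = 3 * ((hj l - 1 : ℕ) : ℤ) + 1 - F0 w ∧ z.2 = (E (jn l)).2 - w.2 := by
    intro z hz
    have hz' : z ∈ V (rvw (fw (jn s.reverse) (jn l))) := hz
    rw [r1, List.mem_map] at hz'
    obtain ⟨y, hy, rfl⟩ := hz'
    rw [List.mem_reverse, v1, List.mem_append, List.mem_cons, List.mem_map] at hy
    rcases hy with hy | rfl | ⟨w, hw, rfl⟩
    · left
      have := (hXV y hy).1
      rw [F0_sub, u1]; omega
    · left
      rw [F0_sub, u1, hfe]; omega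
    · right
      refine ⟨w, hw, ?_, ?_⟩
      · rw [F0_sub, u1, hFw]; omega
      · rw [v2]; simp
  refine GC1_two ?_ ?_ ?_ r3 ?_ ?_ ?_
  · change (V (rvw (fw (jn s.reverse) (jn l)))).Nodup
    rw [r1]
    exact (List.nodup_reverse.2 hN).map fun a b h => by simpa using h
  · intro z hz
    rcases hmem z hz with h | ⟨w, hw, h, -⟩
    · omega
    · have := hY w hw
      omega
  · change F0 (E (rvw (fw (jn s.reverse) (jn l)))) = _
    have e : F0 (-E (fw (jn s.reverse) (jn l))) = - F0 (E (fw (jn s.reverse) (jn l))) := by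
      simp only [F0, Prod.fst_neg, Prod.snd_neg]
      ring
    rw [r2, e, u1]
    push_cast
    omega
  · refine ⟨E (jn s.reverse) - E (fw (jn s.reverse) (jn l)), ?_, ?_⟩
    · change _ ∈ V (rvw (fw (jn s.reverse) (jn l)))
      rw [r1, List.mem_map]
      refine ⟨E (jn s.reverse), ?_, rfl⟩
      rw [List.mem_reverse, v1]
      exact List.mem_append_left _ (E_mem _)
    · rw [F0_sub, u1, hBX.2]; omega
  · rw [hE2]; exact hX
  · have hrow : ∀ z ∈ V (arc false l s), F0 z = 3 * ((δ + 1 : ℕ) : ℤ) - 2 → (E (jn l)).2 - z.2 ∈ rowF l (hj s) := by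
      intro z hz h
      rcases hmem z hz with h1 | ⟨w, hw, h1, h2⟩
      · push_cast at h; omega
      · refine ⟨w, hw, ?_, ?_⟩
        · push_cast at h; omega
        · rw [h2]; ring
    rw [hE2]
    rcases hos with h | h | h
    · exact absurd h hs0
    · left
      intro z hz hF
      have := le_csSup (GC1_rowF l (hj s)).1 (hrow z hz hF)
      omega
    · right
      intro z hz hF
      have := csInf_le (GC1_rowF l (hj s)).2 (hrow z hz hF)
      omega

lemma arc_gap {n : ℕ} {σ : Bool} {δ G X : ℕ} {l s : List Blk} (hl0 : l ≠ []) (hs0 : s ≠ [])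
    (hg : (hs n).good σ G l s) (hd : hj l - Sys.d σ = hj s + δ)
    (hX : |(hs n).pl σ l - (hs n).ps σ s| ≤ X) :
    Gap (dl' σ δ) δ G X (arc σ l s) ∨ Gap (dl' σ δ) δ G X ((arc σ l s).map (! ·)) := by
  cases σ
  · exact arc_gapF hl0 hs0 hg hd hX
  · exact arc_gapT hl0 hs0 hg hd hX

private lemma GC1_two_xE : 1 ≤ 2 * xE := by
  have h1 := mu_bounds.2
  have h2 : (1 : ℝ) ≤ 2 * xc := by
    unfold xc
    have := mu_pos
    rw [mul_one_div, le_div_iff₀ this]
    linarith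
  unfold xE
  rw [← ENNReal.ofReal_ofNat, ← ENNReal.ofReal_mul (by norm_num), ENNReal.one_le_ofReal]
  exact h2

lemma pair_ms (σ : Bool) (P : List Bool → Prop) :
    ∑' l : List Blk, ∑' s : List Blk, ind (l ≠ [] ∧ s ≠ [] ∧ P (arc σ l s)) * (wj l * wj s) ≤ 2 * ms xE P := by
  classical
  have h1 : ∀ l s : List Blk, ind (l ≠ [] ∧ s ≠ [] ∧ P (arc σ l s)) * (wj l * wj s) ≤
      2 * (ind (l ≠ [] ∧ s ≠ [] ∧ P (arc σ l s)) * xE ^ ((arc σ l s).length + 1)) := by
    intro l s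
    by_cases h : l ≠ [] ∧ s ≠ [] ∧ P (arc σ l s)
    · rw [ind_true h, one_mul, one_mul, arc_mass σ h.1 h.2.1, pow_succ]
      calc xE ^ (arc σ l s).length = xE ^ (arc σ l s).length * 1 := (mul_one _).symm
        _ ≤ xE ^ (arc σ l s).length * (2 * xE) := by gcongr; exact GC1_two_xE
        _ = _ := by ring
    · rw [ind_false h, zero_mul]; exact zero_le
  refine (ENNReal.tsum_le_tsum fun l => ENNReal.tsum_le_tsum fun s => h1 l s).trans ?_
  simp_rw [ENNReal.tsum_mul_left]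
  refine mul_le_mul_right ?_ _
  rw [← ENNReal.tsum_prod (f := fun (l s : List Blk) => ind (l ≠ [] ∧ s ≠ [] ∧ P (arc σ l s)) *
    xE ^ ((arc σ l s).length + 1))]
  let S : Set (List Blk × List Blk) := {p | p.1 ≠ [] ∧ p.2 ≠ [] ∧ P (arc σ p.1 p.2)}
  have h2 : ∑' p : List Blk × List Blk, ind (p.1 ≠ [] ∧ p.2 ≠ [] ∧ P (arc σ p.1 p.2)) *
      xE ^ ((arc σ p.1 p.2).length + 1) = ∑' p : S, xE ^ ((arc σ p.1.1 p.1.2).length + 1) := by
    refine Eq.trans (tsum_congr fun p => ?_)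
      (tsum_subtype S (fun p : List Blk × List Blk => xE ^ ((arc σ p.1 p.2).length + 1))).symm
    by_cases h : p ∈ S
    · rw [Set.indicator_of_mem h, ind_true (show p.1 ≠ [] ∧ p.2 ≠ [] ∧ P (arc σ p.1 p.2) from h), one_mul]
    · rw [Set.indicator_of_notMem h, ind_false (show ¬ (p.1 ≠ [] ∧ p.2 ≠ [] ∧ P (arc σ p.1 p.2)) from h), zero_mul]
  rw [h2]
  let φ : S → {W : List Bool // P W} := fun p => ⟨arc σ p.1.1 p.1.2, p.2.2.2⟩
  have hφ : Function.Injective φ := by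
    intro p q h
    have h3 : arc σ p.1.1 p.1.2 = arc σ q.1.1 q.1.2 := congrArg Subtype.val h
    obtain ⟨h4, h5⟩ := arc_inj σ p.2.1 p.2.2.1 q.2.1 q.2.2.1 h3
    exact Subtype.ext (Prod.ext h4 h5)
  exact ENNReal.tsum_comp_le_tsum_of_injective hφ (fun W : {W : List Bool // P W} => xE ^ (W.1.length + 1))

private lemma GC1_b (n k : ℕ) : (hs n).b (k + 1) ≤ (hs n).b k := by
  rw [hs_b]
  cases k with
  | zero => rw [hs_b_zero]; exact Br_one 0
  | succ k => rw [hs_b]; exact br_anti (Nat.le_succ k)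

/-- `b` is nonincreasing. -/
theorem hs_anti (n : ℕ) : Antitone (hs n).b := antitone_nat_of_succ_le (GC1_b n)

theorem hs_C1 (n : ℕ) : (hs n).C1 26 := by
  classical
  intro σ δ X G hG
  have hdσ : Sys.d σ ≤ 1 := Sys.d_le σ
  have h1 : ∀ l s : List Blk, ind ((hs n).good σ G l s ∧ (hs n).h l - Sys.d σ = (hs n).h s + δ ∧
      |(hs n).pl σ l - (hs n).ps σ s| ≤ X) * ((hs n).w l * (hs n).w s) ≤
      (ind (s = []) * (ind (hj l = δ + Sys.d σ) * wj l + ind (δ = 0 ∧ l = []))) +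
      (ind (l ≠ [] ∧ s ≠ [] ∧ Gap (dl' σ δ) δ G X (arc σ l s)) * (wj l * wj s) +
      ind (l ≠ [] ∧ s ≠ [] ∧ Gap (dl' σ δ) δ G X ((arc σ l s).map (! ·))) * (wj l * wj s)) := by
    intro l s
    by_cases h : (hs n).good σ G l s ∧ (hs n).h l - Sys.d σ = (hs n).h s + δ ∧
      |(hs n).pl σ l - (hs n).ps σ s| ≤ X
    · rw [ind_true h, one_mul]
      obtain ⟨hg, hd, hX⟩ := h
      have hd' : hj l - Sys.d σ = hj s + δ := hd
      change wj l * wj s ≤ _
      by_cases hs0 : s = []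
      · refine le_trans ?_ le_self_add
        subst hs0
        rw [ind_true rfl, one_mul, wj_nil, mul_one]
        rw [hj_nil, zero_add] at hd'
        by_cases hl0 : hj l < Sys.d σ
        · have hl1 : l = [] := by
            by_contra hne
            have := hj_pos hne
            omega
          have hδ : δ = 0 := by omega
          rw [ind_true (show δ = 0 ∧ l = [] from ⟨hδ, hl1⟩), hl1, wj_nil]
          exact le_add_self
        · rw [ind_true (show hj l = δ + Sys.d σ by omega), one_mul]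
          exact le_self_add
      · have hl0 : l ≠ [] := by
          rintro rfl
          have := hj_pos hs0
          rw [hj_nil] at hd'
          omega
        refine le_trans ?_ le_add_self
        rcases arc_gap hl0 hs0 hg hd' hX with h | h
        · rw [ind_true (⟨hl0, hs0, h⟩ : l ≠ [] ∧ s ≠ [] ∧ Gap (dl' σ δ) δ G X (arc σ l s)), one_mul]
          exact le_self_add
        · rw [ind_true (⟨hl0, hs0, h⟩ : l ≠ [] ∧ s ≠ [] ∧ Gap (dl' σ δ) δ G X ((arc σ l s).map (! ·))), one_mul]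
          exact le_add_self
    · rw [ind_false h, zero_mul]; exact zero_le
  have h2 : ∑' l : List Blk, ∑' s : List Blk, (ind (s = []) * (ind (hj l = δ + Sys.d σ) * wj l + ind (δ = 0 ∧ l = []))) ≤
      2 * (hs n).b δ := by
    have e1 : ∀ l : List Blk, ∑' s : List Blk, (ind (s = []) * (ind (hj l = δ + Sys.d σ) * wj l +
        ind (δ = 0 ∧ l = []))) = ind (hj l = δ + Sys.d σ) * wj l + ind (δ = 0 ∧ l = []) := by
      intro l
      rw [tsum_eq_single ([] : List Blk)]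
      · rw [ind_true rfl, one_mul]
      · intro s hs0
        rw [ind_false hs0, zero_mul]
    rw [tsum_congr e1, ENNReal.tsum_add, two_mul]
    refine add_le_add ?_ ?_
    · change (hs n).b (δ + Sys.d σ) ≤ _
      exact hs_anti n (Nat.le_add_right _ _)
    · by_cases hδ : δ = 0
      · rw [hδ, hs_b_zero, tsum_eq_single ([] : List Blk)]
        · exact ind_le_one _
        · intro l hl0
          exact ind_false fun h => hl0 h.2
      · have : ∀ l : List Blk, ind (δ = 0 ∧ l = []) = 0 := fun l => ind_false fun h => hδ h.1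
        simp [this]
  have h3 := pair_ms σ (Gap (dl' σ δ) δ G X)
  have h4 := pair_ms σ (fun W => Gap (dl' σ δ) δ G X (W.map (! ·)))
  rw [ms_not xE (Gap (dl' σ δ) δ G X)] at h4
  have h5 := gap_ms (dl' σ δ) δ G X
  have h6 : ms xE (Br δ) ≤ (hs n).b δ := by rw [← hs_b (n := n)]; exact GC1_b n δ
  have h7 : ∑' l : List Blk, ∑' s : List Blk, ind ((hs n).good σ G l s ∧ (hs n).h l - Sys.d σ = (hs n).h s + δ ∧
      |(hs n).pl σ l - (hs n).ps σ s| ≤ X) * ((hs n).w l * (hs n).w s) ≤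
      2 * (hs n).b δ + (2 * ms xE (Gap (dl' σ δ) δ G X) + 2 * ms xE (Gap (dl' σ δ) δ G X)) := by
    refine (ENNReal.tsum_le_tsum fun l => ENNReal.tsum_le_tsum fun s => h1 l s).trans ?_
    simp_rw [ENNReal.tsum_add]
    exact add_le_add h2 (add_le_add h3 h4)
  calc (G : ℝ≥0∞) * ∑' l : List Blk, ∑' s : List Blk, ind ((hs n).good σ G l s ∧
        (hs n).h l - Sys.d σ = (hs n).h s + δ ∧ |(hs n).pl σ l - (hs n).ps σ s| ≤ X) * ((hs n).w l * (hs n).w s)
      ≤ (G : ℝ≥0∞) * (2 * (hs n).b δ + (2 * ms xE (Gap (dl' σ δ) δ G X) + 2 * ms xE (Gap (dl' σ δ) δ G X))) :=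
        mul_le_mul_right h7 _
    _ = 2 * G * (hs n).b δ + 4 * ((G : ℝ≥0∞) * ms xE (Gap (dl' σ δ) δ G X)) := by ring
    _ ≤ 2 * G * (hs n).b δ + 4 * ((G + 2 * X : ℕ) * (3 * (hs n).b δ)) :=
        add_le_add le_rfl (mul_le_mul_right (h5.trans (mul_le_mul_right (mul_le_mul_right h6 _) _)) _)
    _ = (14 * G + 24 * X) * (hs n).b δ := by push_cast; ring
    _ ≤ (26 : ℕ) * (G + X) * (hs n).b δ := by
        gcongr
        rw [mul_add]
        push_cast
        gcongr <;> norm_num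

/-- The slit bound. -/
theorem hs_c1 (n : ℕ) : (hs n).C1 40 := by
  intro σ δ X G hG
  refine (hs_C1 n σ δ X G hG).trans ?_
  gcongr
  norm_num

private lemma GC1_U {d : ℤ × ℤ} (h : U d) : |d.2| ≤ 1 := by
  rcases h with h | h | h | h | h | h <;> rw [h.2] <;> simp

private lemma GC1_len (W : List Bool) : |(E W).2| ≤ W.length := by
  induction W using List.reverseRecOn with
  | nil => change |(0 : ℤ)| ≤ _; simp
  | append_singleton W b ih =>
    rw [E_snoc, Prod.snd_add, List.length_append, List.length_singleton]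
    have h1 := GC1_U (U_tn W b)
    have h2 := abs_add_le (E W).2 (tn b (Dr W)).2
    push_cast
    omega

theorem hs_dx (n : ℕ) (c : (hs n).B) : |(hs n).dx c| ≤ n := by
  change |if c.1.length ≤ n then (E c.1).2 else 0| ≤ (n : ℤ)
  split_ifs with h
  · have := GC1_len c.1
    omega
  · simp

private lemma GC1_irr : Irr [true] := ⟨0, Br_true, fun i h1 h2 => by omega⟩

theorem hs_mov (n : ℕ) (hn : 1 ≤ n) : 1 ≤ ((40 : ℕ) : ℝ≥0∞) * ∑' c, ind ((hs n).dx c ≠ 0) * (hs n).wt c := by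
  have h1 : ind ((hs n).dx (⟨[true], GC1_irr⟩ : Blk) ≠ 0) * (hs n).wt (⟨[true], GC1_irr⟩ : Blk) ≤
      ∑' c, ind ((hs n).dx c ≠ 0) * (hs n).wt c :=
    ENNReal.le_tsum (f := fun c : (hs n).B => ind ((hs n).dx c ≠ 0) * (hs n).wt c) (⟨[true], GC1_irr⟩ : Blk)
  have h2 : (hs n).dx (⟨[true], GC1_irr⟩ : Blk) ≠ 0 := by
    change (if ([true] : List Bool).length ≤ n then (E [true]).2 else 0) ≠ 0
    rw [if_pos (by simpa using hn)]
    decide
  have h3 : (hs n).wt (⟨[true], GC1_irr⟩ : Blk) = xE ^ 2 := rfl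
  rw [ind_true h2, one_mul, h3] at h1
  have h4 := GC1_two_xE
  calc (1 : ℝ≥0∞) = 1 * 1 := (one_mul 1).symm
    _ ≤ (2 * xE) * (2 * xE) := mul_le_mul' h4 h4
    _ = 4 * xE ^ 2 := by ring
    _ ≤ ((40 : ℕ) : ℝ≥0∞) * xE ^ 2 := by gcongr; norm_num
    _ ≤ _ := by gcongr

end Pool.Agent.HEP
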