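import Pool.Agent.HEP.RnWord

/-!
Project HEP, renewal toolbox 2: consequences of the monotonicity of `b`.
-/

namespace Pool.Agent.HEP.Alph

open scoped ENNReal
open Finset

variable {A : Alph}

/-- Window sums. -/
lemma sum_Icc_b (hb : Antitone A.b) (s t : ℕ) : ∑ k ∈ Icc s (s + t), A.b k ≤ A.U t := by
  unfold U
  have h : Icc s (s + t) = (range (t + 1)).map ⟨fun k => k + s, add_left_injective s⟩ := by
    ext k
    simp only [mem_Icc, mem_map, mem_range, Function.Embedding.coeFn_mk]
    constructor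
    · intro hk
      exact ⟨k - s, by omega, by omega⟩
    · rintro ⟨j, hj, rfl⟩
      omega
  rw [h, sum_map]
  exact sum_le_sum fun k _ => hb (Nat.le_add_right k s)

lemma U_add (hb : Antitone A.b) (x y : ℕ) : A.U (x + y) ≤ A.U x + A.U y := by
  rcases y with _ | y
  · rw [add_zero]; exact le_self_add
  · have h : A.U (x + (y + 1)) = A.U x + ∑ k ∈ Icc (x + 1) (x + 1 + y), A.b k := by
      unfold U
      rw [range_eq_Ico, range_eq_Ico, ← sum_Ico_consecutive _ (Nat.zero_le (x + 1)) (by omega)]
      congr 1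
      refine sum_congr (Finset.ext fun k => ?_) fun _ _ => rfl
      simp only [mem_Ico, mem_Icc]
      omega
    rw [h]
    exact add_le_add le_rfl ((sum_Icc_b hb (x + 1) y).trans (A.U_mono (Nat.le_succ y)))

lemma U_two (hb : Antitone A.b) (x : ℕ) : A.U (2 * x) ≤ 2 * A.U x := by
  rw [two_mul, two_mul]; exact U_add hb x x

lemma U_mul_nat (hb : Antitone A.b) (c x : ℕ) (hc : 1 ≤ c) : A.U (c * x) ≤ c * A.U x := by
  induction c, hc using Nat.le_induction with
  | base => simp
  | succ c _ ih =>
    rw [add_mul, one_mul]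
    push_cast
    rw [add_mul, one_mul]
    exact (U_add hb _ _).trans (add_le_add ih le_rfl)

lemma b_mul (hb : Antitone A.b) (N : ℕ) : (N + 1) * A.b N ≤ A.U N := by
  unfold U
  calc ((N : ℝ≥0∞) + 1) * A.b N = ∑ _k ∈ range (N + 1), A.b N := by
        rw [sum_const, card_range, nsmul_eq_mul]; push_cast; rfl
    _ ≤ _ := sum_le_sum fun k hk => hb (by rw [mem_range] at hk; omega)

/-- A free jump over the level `w` followed by a renewal at `m` (`p ≤ w ≤ m`). -/
theorem T1 (hb : Antitone A.b) {p w m : ℕ} (hpw : p ≤ w) (hwm : w ≤ m) :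
    ∑ u ∈ Ioc w m, A.lam (u - p) * A.b (m - u) ≤ A.Lam (w - p) * A.b (m - p) := by
  rcases Nat.eq_or_lt_of_le (hpw.trans hwm) with h0 | h0
  · have : w = m := by omega
    subst this
    simp
  · -- the renewal equation for `b (m - p)`
    have h1 : A.b (m - p) = ∑ u ∈ Ioc p m, A.lam (u - p) * A.b (m - u) := by
      obtain ⟨k, hk⟩ : ∃ k, m - p = k + 1 := ⟨m - p - 1, by omega⟩
      rw [hk, A.b_succ]
      have h : Ioc p m = (range (k + 1)).map ⟨fun j => j + (p + 1), add_left_injective (p + 1)⟩ := by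
        ext u
        simp only [mem_Ioc, mem_map, mem_range, Function.Embedding.coeFn_mk]
        constructor
        · intro hu
          exact ⟨u - (p + 1), by omega, by omega⟩
        · rintro ⟨j, hj, rfl⟩
          omega
      rw [h, sum_map]
      refine sum_congr rfl fun j hj => ?_
      rw [mem_range] at hj
      simp only [Function.Embedding.coeFn_mk]
      rw [show j + (p + 1) - p = j + 1 by omega, show m - (j + (p + 1)) = k - j by omega]
    have h2 : ∑ u ∈ Ioc p m, A.lam (u - p) * A.b (m - u) =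
        ∑ u ∈ Ioc p w, A.lam (u - p) * A.b (m - u) + ∑ u ∈ Ioc w m, A.lam (u - p) * A.b (m - u) := by
      rw [← sum_union]
      · congr 1
        ext u
        simp only [mem_union, mem_Ioc]
        omega
      · rw [Finset.disjoint_left]
        intro u hu hu'
        simp only [mem_Ioc] at hu hu'
        omega
    have h3 : (∑ u ∈ Ioc p w, A.lam (u - p)) * A.b (m - p) ≤ ∑ u ∈ Ioc p w, A.lam (u - p) * A.b (m - u) := by
      rw [sum_mul]
      exact sum_le_sum fun u hu => mul_le_mul' le_rfl (hb (by rw [mem_Ioc] at hu; omega))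
    have h4 : ∑ u ∈ Ioc p w, A.lam (u - p) + A.Lam (w - p) = 1 := by
      have h : Ioc p w = (range (w - p)).map ⟨fun j => j + (p + 1), add_left_injective (p + 1)⟩ := by
        ext u
        simp only [mem_Ioc, mem_map, mem_range, Function.Embedding.coeFn_mk]
        constructor
        · intro hu
          exact ⟨u - (p + 1), by omega, by omega⟩
        · rintro ⟨j, hj, rfl⟩
          omega
      rw [h, sum_map, ← A.sum_lam (w - p), sum_range_succ', A.lam_zero, add_zero]
      congr 1
      refine sum_congr rfl fun j _ => ?_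
      simp only [Function.Embedding.coeFn_mk]
      rw [show j + (p + 1) - p = j + 1 by omega]
    have h5 : (∑ u ∈ Ioc p w, A.lam (u - p)) * A.b (m - p) ≠ ⊤ :=
      ENNReal.mul_ne_top (ne_top_of_le_ne_top ENNReal.one_ne_top (by rw [← h4]; exact le_self_add)) (A.b_ne_top _)
    refine (ENNReal.add_le_add_iff_left h5).1 ?_
    calc (∑ u ∈ Ioc p w, A.lam (u - p)) * A.b (m - p) + ∑ u ∈ Ioc w m, A.lam (u - p) * A.b (m - u)
        ≤ ∑ u ∈ Ioc p w, A.lam (u - p) * A.b (m - u) + ∑ u ∈ Ioc w m, A.lam (u - p) * A.b (m - u) :=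
          add_le_add h3 le_rfl
      _ = A.b (m - p) := by rw [← h2, ← h1]
      _ = (∑ u ∈ Ioc p w, A.lam (u - p)) * A.b (m - p) + A.Lam (w - p) * A.b (m - p) := by
          rw [← add_mul, h4, one_mul]

variable (A)

/-- `K0 N = ∑ k ≤ N, b k / U k`. -/
noncomputable def K0 (N : ℕ) : ℝ≥0∞ := ∑ k ∈ range (N + 1), A.b k / A.U k

lemma K0_mono : Monotone A.K0 := fun N M h => by
  unfold K0
  exact sum_le_sum_of_subset (range_subset_range.2 (by omega))

lemma one_le_K0 (N : ℕ) : 1 ≤ A.K0 N := by
  refine le_trans ?_ (A.K0_mono (Nat.zero_le N))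
  unfold K0
  rw [sum_range_one, A.b_zero, A.U_zero, div_one]

/-- `∑ b k / U k ≤ 1 + log (U N)`. -/
lemma K0_le_log (N : ℕ) : A.K0 N ≤ ENNReal.ofReal (1 + Real.log (A.U N).toReal) := by
  induction N with
  | zero =>
    unfold K0
    rw [sum_range_one, A.b_zero, A.U_zero]
    simp
  | succ N ih =>
    have hU : ∀ n, 1 ≤ (A.U n).toReal := fun n => by
      have := ENNReal.toReal_mono (A.U_ne_top n) (A.one_le_U n)
      simpa using this
    have h0 : A.K0 (N + 1) = A.K0 N + A.b (N + 1) / A.U (N + 1) := by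
      unfold K0; rw [sum_range_succ]
    have h1 : A.b (N + 1) / A.U (N + 1) ≤
        ENNReal.ofReal (Real.log (A.U (N + 1)).toReal - Real.log (A.U N).toReal) := by
      have e1 : A.b (N + 1) / A.U (N + 1) =
          ENNReal.ofReal ((A.b (N + 1)).toReal / (A.U (N + 1)).toReal) := by
        rw [ENNReal.ofReal_div_of_pos (by linarith [hU (N + 1)]), ENNReal.ofReal_toReal (A.b_ne_top _),
          ENNReal.ofReal_toReal (A.U_ne_top _)]
      rw [e1]
      refine ENNReal.ofReal_le_ofReal ?_
      have e2 : (A.U (N + 1)).toReal = (A.U N).toReal + (A.b (N + 1)).toReal := by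
        rw [A.U_succ, ENNReal.toReal_add (A.U_ne_top _) (A.b_ne_top _)]
      have p1 := hU N
      have p2 := hU (N + 1)
      have e3 : (A.b (N + 1)).toReal / (A.U (N + 1)).toReal =
          1 - (A.U N).toReal / (A.U (N + 1)).toReal := by
        rw [eq_sub_iff_add_eq, ← add_div, add_comm, ← e2, div_self (by linarith)]
      have e4 : Real.log (A.U N).toReal - Real.log (A.U (N + 1)).toReal =
          Real.log ((A.U N).toReal / (A.U (N + 1)).toReal) := by
        rw [Real.log_div (by linarith) (by linarith)]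
      have e5 := Real.log_le_sub_one_of_pos (x := (A.U N).toReal / (A.U (N + 1)).toReal)
        (div_pos (by linarith) (by linarith))
      rw [e3]
      linarith
    have h2 : 0 ≤ Real.log (A.U (N + 1)).toReal - Real.log (A.U N).toReal := by
      rw [sub_nonneg]
      exact Real.log_le_log (by linarith [hU N]) (ENNReal.toReal_mono (A.U_ne_top _) (A.U_mono (Nat.le_succ N)))
    have h3 : 0 ≤ 1 + Real.log (A.U N).toReal := by linarith [Real.log_nonneg (hU N)]
    rw [h0]
    refine (add_le_add ih h1).trans ?_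
    rw [← ENNReal.ofReal_add h3 h2]
    exact ENNReal.ofReal_le_ofReal (by linarith)

lemma K0_le (N : ℕ) : A.K0 N ≤ ENNReal.ofReal (1 + Real.log (N + 1)) := by
  refine (A.K0_le_log N).trans (ENNReal.ofReal_le_ofReal ?_)
  have h1 : (A.U N).toReal ≤ N + 1 := by
    have := ENNReal.toReal_mono (by exact_mod_cast ENNReal.natCast_ne_top (N + 1)) (A.U_le N)
    rwa [ENNReal.toReal_add (ENNReal.natCast_ne_top _) ENNReal.one_ne_top, ENNReal.toReal_natCast,
      ENNReal.toReal_one] at this
  have h2 : 0 < (A.U N).toReal := ENNReal.toReal_pos (A.U_ne_zero N) (A.U_ne_top N)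
  linarith [Real.log_le_log h2 h1]

lemma K0_ne_top (N : ℕ) : A.K0 N ≠ ⊤ := ne_top_of_le_ne_top ENNReal.ofReal_ne_top (A.K0_le N)

lemma sum_bLam_le (N : ℕ) : ∑ k ∈ range (N + 1), A.b k * A.Lam k ≤ A.K0 N := by
  unfold K0
  refine sum_le_sum fun k _ => ?_
  rw [div_eq_mul_inv]
  exact mul_le_mul' le_rfl (A.Lam_le_div k)

variable {A}

/-- The same with a start `v` before or behind the level `u` (`v ≤ p`, `u ≤ p`). -/
lemma sum_bLam_shift (hb : Antitone A.b) (n u v : ℕ) :
    ∑ p ∈ Icc (max u v) n, A.b (p - v) * A.Lam (p - u) ≤ A.K0 n := by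
  refine le_trans ?_ (A.sum_bLam_le n)
  have h : ∀ p ∈ Icc (max u v) n, A.b (p - v) * A.Lam (p - u) ≤ A.b (p - max u v) * A.Lam (p - max u v) := by
    intro p hp
    rw [mem_Icc] at hp
    exact mul_le_mul' (hb (by omega)) (A.Lam_anti (by omega))
  refine (sum_le_sum h).trans ?_
  have h1 : Icc (max u v) n ⊆ (range (n + 1)).map ⟨fun j => j + max u v, add_left_injective (max u v)⟩ := by
    intro p hp
    rw [mem_Icc] at hp
    simp only [mem_map, mem_range, Function.Embedding.coeFn_mk]
    exact ⟨p - max u v, by omega, by omega⟩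
  refine (sum_le_sum_of_subset h1).trans ?_
  rw [sum_map]
  refine sum_le_sum fun k _ => ?_
  simp only [Function.Embedding.coeFn_mk, Nat.add_sub_cancel]
  exact le_refl _

end Pool.Agent.HEP.Alph
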