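import Mathlib

set_option autoImplicit false

/-!
Project HEP: doubling argument. A power lower bound for every `n` and an upper bound `exp(C n^ε)` give a small ratio
`a_{2m} / a_m ^ 2` for some `m` between `n` and `C n^(1/(1-ε))`.
-/

namespace Pool.Agent.HEP

theorem ratio_small (an : ℕ → ℝ) (hpos : ∀ n, 0 < an n) (mu : ℝ) (hmu : 0 < mu) (κ : ℝ)
    (hκ : 0 ≤ κ) (c : ℝ) (hc : 0 < c)
    (hlow : ∀ n : ℕ, 1 ≤ n → c * (n : ℝ) ^ κ * mu ^ n ≤ an n) (C₁ : ℝ) (hC₁ : 0 < C₁)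
    (ε : ℝ) (hε : 0 < ε) (hε1 : ε < 1)
    (hup : ∀ n : ℕ, 1 ≤ n → an n ≤ mu ^ n * Real.exp (C₁ * (n : ℝ) ^ ε)) :
    ∃ C : ℝ, 0 < C ∧ ∀ n : ℕ, 1 ≤ n → ∃ m : ℕ, n ≤ m ∧ (m : ℝ) ≤ C * (n : ℝ) ^ (1 + ε / (1 - ε)) ∧
      an (2 * m) / an m ^ 2 ≤ C * (m : ℝ) ^ (-κ) := by
  set β : ℕ → ℝ := fun n => Real.log (an n) - n * Real.log mu with hβ
  have hβlow : ∀ n : ℕ, 1 ≤ n → Real.log c + κ * Real.log n ≤ β n := by
    intro n hn
    have hn0 : (0 : ℝ) < n := by exact_mod_cast hn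
    have h1 := Real.log_le_log (by positivity) (hlow n hn)
    rw [Real.log_mul (by positivity) (by positivity), Real.log_mul hc.ne' (by positivity),
      Real.log_rpow hn0, Real.log_pow] at h1
    simp only [hβ]
    linarith
  have hβup : ∀ n : ℕ, 1 ≤ n → β n ≤ C₁ * (n : ℝ) ^ ε := by
    intro n hn
    have h1 := Real.log_le_log (hpos n) (hup n hn)
    rw [Real.log_mul (by positivity) (Real.exp_pos _).ne', Real.log_exp, Real.log_pow] at h1
    simp only [hβ]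
    linarith
  set δ : ℝ := 1 - Real.log c with hδ
  set lam : ℝ := δ + κ * Real.log 2 with hlam
  have hε2 : 0 < 1 - ε := by linarith
  set γ : ℝ := ε / (1 - ε) with hγ
  have hγ0 : 0 < γ := by positivity
  set D : ℝ := 1 + (2 * C₁) ^ (1 / (1 - ε)) + 2 * |δ| with hD
  have hD1 : 1 ≤ D := by
    have : 0 ≤ (2 * C₁) ^ (1 / (1 - ε)) := by positivity
    have := abs_nonneg δ
    rw [hD]; linarith
  have hDC : 2 * C₁ ≤ D ^ (1 - ε) := by
    have h1 : (2 * C₁) ^ (1 / (1 - ε)) ≤ D := by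
      have := abs_nonneg δ
      rw [hD]; linarith
    have h2 := Real.rpow_le_rpow (by positivity) h1 hε2.le
    rwa [← Real.rpow_mul (by positivity), one_div, inv_mul_cancel₀ hε2.ne', Real.rpow_one] at h2
  have hDδ : 2 * δ < D := by
    have h1 : 0 ≤ (2 * C₁) ^ (1 / (1 - ε)) := by positivity
    have h2 := le_abs_self δ
    rw [hD]; linarith
  have hD0 : 0 < D := by linarith
  refine ⟨max (Real.exp lam) D, lt_max_of_lt_right hD0, fun n hn => ?_⟩
  have hn0 : (0 : ℝ) < n := by exact_mod_cast hn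
  have hn1 : (1 : ℝ) ≤ n := by exact_mod_cast hn
  have hsq1 : 1 ≤ (n : ℝ) ^ γ := Real.one_le_rpow hn1 hγ0.le
  obtain ⟨k, hk1, hk2⟩ := exists_nat_pow_near (show (1 : ℝ) ≤ D * (n : ℝ) ^ γ by nlinarith)
    (show (1 : ℝ) < 2 by norm_num)
  have hrt : (n : ℝ) ^ (1 + γ) = (n : ℝ) ^ γ * n := by
    rw [add_comm, Real.rpow_add_one hn0.ne']
  by_contra hcon
  push Not at hcon
  -- the violation at `2 ^ j n`, `j ≤ k`
  have hviol : ∀ j : ℕ, j ≤ k → lam - κ * Real.log ((2 ^ j * n : ℕ) : ℝ) ≤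
      β (2 ^ (j + 1) * n) - 2 * β (2 ^ j * n) := by
    intro j hj
    have h1 : n ≤ 2 ^ j * n := Nat.le_mul_of_pos_left n (by positivity)
    have hm0 : (0 : ℝ) < ((2 ^ j * n : ℕ) : ℝ) := by positivity
    have h2 : ((2 ^ j * n : ℕ) : ℝ) ≤ max (Real.exp lam) D * (n : ℝ) ^ (1 + γ) := by
      rw [hrt]
      push_cast
      have h3 : (2 : ℝ) ^ j ≤ 2 ^ k := pow_le_pow_right₀ (by norm_num) hj
      calc (2 : ℝ) ^ j * n ≤ D * (n : ℝ) ^ γ * n := by
            exact mul_le_mul_of_nonneg_right (h3.trans hk1) hn0.le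
        _ = D * ((n : ℝ) ^ γ * n) := by ring
        _ ≤ max (Real.exp lam) D * ((n : ℝ) ^ γ * n) :=
            mul_le_mul_of_nonneg_right (le_max_right _ _) (by positivity)
    have h4 := hcon _ h1 h2
    have h5 : Real.exp lam * ((2 ^ j * n : ℕ) : ℝ) ^ (-κ) ≤
        an (2 * (2 ^ j * n)) / an (2 ^ j * n) ^ 2 :=
      (mul_le_mul_of_nonneg_right (le_max_left _ _) (by positivity)).trans h4.le
    have h6 := Real.log_le_log (by positivity) h5
    rw [Real.log_mul (Real.exp_pos _).ne' (by positivity), Real.log_exp, Real.log_rpow hm0,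
      Real.log_div (hpos _).ne' (pow_ne_zero 2 (hpos _).ne'), Real.log_pow] at h6
    have h7 : 2 * (2 ^ j * n) = 2 ^ (j + 1) * n := by ring
    rw [h7] at h6
    simp only [hβ]
    push_cast at h6 ⊢
    have e : (2 : ℝ) ^ (j + 1) = 2 ^ j * 2 := pow_succ _ _
    rw [e]
    linarith
  have hgrow : ∀ j : ℕ, j ≤ k + 1 →
      (2 : ℝ) ^ j ≤ β (2 ^ j * n) - κ * Real.log ((2 ^ j * n : ℕ) : ℝ) + δ := by
    intro j
    induction j with
    | zero =>
      intro _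
      have h1 := hβlow n hn
      simp only [pow_zero, one_mul]
      rw [hδ]
      linarith
    | succ j ih =>
      intro hj
      have h1 := ih (by omega)
      have h2 := hviol j (by omega)
      have h3 : Real.log ((2 ^ (j + 1) * n : ℕ) : ℝ) =
          Real.log 2 + Real.log ((2 ^ j * n : ℕ) : ℝ) := by
        have h4 : ((2 ^ (j + 1) * n : ℕ) : ℝ) = 2 * ((2 ^ j * n : ℕ) : ℝ) := by
          push_cast; ring
        rw [h4, Real.log_mul (by norm_num) (by positivity)]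
      rw [h3, pow_succ]
      rw [hlam] at h2
      linarith
  have hJ := hgrow (k + 1) le_rfl
  set t : ℝ := (2 : ℝ) ^ (k + 1) with ht
  have ht0 : 0 < t := by positivity
  have htD : D * (n : ℝ) ^ γ < t := hk2
  have htD2 : D < t := lt_of_le_of_lt (by nlinarith) htD
  have hN1 : 1 ≤ 2 ^ (k + 1) * n := Nat.one_le_iff_ne_zero.2 (by positivity)
  have hlog : 0 ≤ κ * Real.log ((2 ^ (k + 1) * n : ℕ) : ℝ) :=
    mul_nonneg hκ (Real.log_nonneg (by exact_mod_cast hN1))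
  have hu := hβup (2 ^ (k + 1) * n) hN1
  have h8 : C₁ * ((2 ^ (k + 1) * n : ℕ) : ℝ) ^ ε ≤ t / 2 := by
    have h1 : ((2 ^ (k + 1) * n : ℕ) : ℝ) = t * n := by push_cast; rfl
    rw [h1, Real.mul_rpow ht0.le hn0.le]
    -- `t = t ^ ε * t ^ (1 - ε)` and `t ^ (1 - ε) ≥ 2 C₁ n ^ ε`
    have h2 : t = t ^ ε * t ^ (1 - ε) := by
      rw [← Real.rpow_add ht0]; norm_num
    have h3 : 2 * C₁ * (n : ℝ) ^ ε ≤ t ^ (1 - ε) := by
      have h4 := Real.rpow_le_rpow (by positivity) htD.le hε2.le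
      rw [Real.mul_rpow hD0.le (by positivity), ← Real.rpow_mul hn0.le] at h4
      have h5 : γ * (1 - ε) = ε := by rw [hγ]; field_simp
      rw [h5] at h4
      exact (mul_le_mul_of_nonneg_right hDC (by positivity)).trans h4
    calc C₁ * (t ^ ε * (n : ℝ) ^ ε) = t ^ ε * (2 * C₁ * (n : ℝ) ^ ε) / 2 := by ring
      _ ≤ t ^ ε * t ^ (1 - ε) / 2 := by gcongr
      _ = t / 2 := by rw [← h2]
  linarith

end Pool.Agent.HEP
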