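import Pool.Agent.HHP.Main

/-!
Project HEP: from masses of words of the strips with at most `n` letters to the number of walks.
-/

namespace Pool.Agent.HEP

open Pool.Agent.Hhelper14.SAW Pool.Agent.Hhelper63.HW Pool.Agent.HHP Finset
open scoped ENNReal

/-- Finite form of `hw_of_M`. -/
lemma hw_fin {x : ℝ} (hx : 0 < x) {M : ℝ} (n : ℕ)
    (hM : gf (fun k => (saw (St (n + 1)) k).card) x (n + 1) ≤ M) :
    (an n : ℝ) * x ^ n ≤ M + (x * M + 2 * (x ^ 2 * (M * M))) := by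
  have hH : gf Hn x (n + 1) ≤ M := by
    refine le_trans ?_ hM
    unfold gf
    refine sum_le_sum fun k hk => ?_
    have : Hn k ≤ (saw (St (n + 1)) k).card := card_le_card (saw_Hp_subset (by rw [mem_range] at hk; omega))
    have : (Hn k : ℝ) ≤ ((saw (St (n + 1)) k).card : ℝ) := by exact_mod_cast this
    gcongr
  have hM0 : 0 ≤ M := (gf_nonneg Hn hx.le _).trans hH
  have h1 : (an n : ℝ) * x ^ n ≤ ∑ k ∈ range (n + 1), x ^ k * (an k : ℝ) := by
    have := single_le_sum (s := range (n + 1)) (f := fun k => x ^ k * (an k : ℝ))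
      (fun _ _ => by positivity) (mem_range.2 (Nat.lt_succ_self n))
    linarith
  refine h1.trans ?_
  set N := n + 1
  have h2 : ∑ k ∈ range N, x ^ k * (an k : ℝ) ≤ ∑ k ∈ range N, (x ^ k * (Hn k : ℝ) +
      (x ^ k * ((∑ m ∈ (range N).filter (fun m => m + 1 = k), Hn m : ℕ) : ℝ) +
      2 * (x ^ k * ((∑ p ∈ (range N ×ˢ range N).filter (fun p => p.1 + p.2 + 2 = k), Hn p.1 * Hn p.2 : ℕ) : ℝ)))) := by
    refine sum_le_sum fun k hk => ?_
    have h3 := an_le k N (by rw [mem_range] at hk; omega)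
    have h4 : (an k : ℝ) ≤ (Hn k : ℝ) + (((∑ m ∈ (range N).filter (fun m => m + 1 = k), Hn m : ℕ) : ℝ) +
      2 * ((∑ p ∈ (range N ×ˢ range N).filter (fun p => p.1 + p.2 + 2 = k), Hn p.1 * Hn p.2 : ℕ) : ℝ)) := by
      exact_mod_cast h3
    have h5 := mul_le_mul_of_nonneg_left h4 (pow_nonneg hx.le k)
    refine h5.trans (le_of_eq ?_)
    ring
  refine h2.trans ?_
  rw [sum_add_distrib, sum_add_distrib, ← mul_sum]
  have k1 := gf_shift Hn hx.le N
  have k3 := gf_conv Hn Hn hx.le N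
  have k4 : ∑ k ∈ range N, x ^ k * (Hn k : ℝ) = gf Hn x N := rfl
  rw [k4]
  have g0 := gf_nonneg Hn hx.le N
  have e1 : x * gf Hn x N ≤ x * M := mul_le_mul_of_nonneg_left hH hx.le
  have e2 : x ^ 2 * (gf Hn x N * gf Hn x N) ≤ x ^ 2 * (M * M) :=
    mul_le_mul_of_nonneg_left (mul_le_mul hH hH g0 hM0) (by positivity)
  linarith

/-- The generating function of the strips, short words. -/
lemma gf_le_len {x : ℝ} (hx : 0 ≤ x) (T N : ℕ) :
    ENNReal.ofReal (x * gf (fun n => (saw (St T) n).card) x N) ≤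
      ms (ENNReal.ofReal x) (fun W => In T W ∧ W.length < N) := by
  classical
  have hex : ∀ q : (_ : ℕ) × List (ℤ × ℤ), ∃ W : List Bool, q ∈ (range N).sigma (fun n => saw (St T) n) →
      W.length = q.1 ∧ In T W ∧ toL W = q.2 := by
    intro q
    by_cases hq : q ∈ (range N).sigma (fun n => saw (St T) n)
    · have h1 := (Finset.mem_sigma.1 hq).2
      rw [mem_saw (St_dom T)] at h1
      obtain ⟨W, h2, h3, h4, h5⟩ := toL_surj (St_dom T) h1
      exact ⟨W, fun _ => ⟨h2, ⟨h3, fun z hz => (h4 z hz).2⟩, h5⟩⟩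
    · exact ⟨[], fun h => absurd h hq⟩
  choose φ hφ using hex
  have h1 : ENNReal.ofReal (x * gf (fun n => (saw (St T) n).card) x N) =
      ∑ q ∈ (range N).sigma (fun n => saw (St T) n), ENNReal.ofReal x ^ ((φ q).length + 1) := by
    unfold gf
    rw [Finset.mul_sum, ENNReal.ofReal_sum_of_nonneg (fun n _ => by positivity), Finset.sum_sigma]
    refine Finset.sum_congr rfl fun n hn => ?_
    have h2 : ∀ P ∈ saw (St T) n, ENNReal.ofReal x ^ ((φ ⟨n, P⟩).length + 1) = ENNReal.ofReal x ^ (n + 1) := by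
      intro P hP
      rw [(hφ ⟨n, P⟩ (Finset.mem_sigma.2 ⟨hn, hP⟩)).1]
    rw [Finset.sum_congr rfl h2, Finset.sum_const, nsmul_eq_mul, ← mul_assoc, ← pow_succ',
      ENNReal.ofReal_mul (by positivity), ENNReal.ofReal_pow hx, ENNReal.ofReal_natCast, mul_comm]
  rw [h1]
  have hinj : ∀ q ∈ (range N).sigma (fun n => saw (St T) n), ∀ q' ∈ (range N).sigma (fun n => saw (St T) n),
      φ q = φ q' → q = q' := by
    intro q hq q' hq' he
    have a := hφ q hq
    have b := hφ q' hq'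
    obtain ⟨n, P⟩ := q
    obtain ⟨n', P'⟩ := q'
    have e1 : n = n' := by
      have h3 := a.1
      have h4 := b.1
      simp only at h3 h4
      rw [← h3, ← h4, he]
    have e2 : P = P' := by
      have h3 := a.2.2
      have h4 := b.2.2
      simp only at h3 h4
      rw [← h3, ← h4, he]
    subst e1 e2
    rfl
  rw [ms_ind]
  calc ∑ q ∈ (range N).sigma (fun n => saw (St T) n), ENNReal.ofReal x ^ ((φ q).length + 1)
      = ∑ q ∈ (range N).sigma (fun n => saw (St T) n),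
          (fun W => if In T W ∧ W.length < N then ENNReal.ofReal x ^ (W.length + 1) else 0) (φ q) := by
        refine Finset.sum_congr rfl fun q hq => ?_
        simp only
        rw [if_pos ⟨(hφ q hq).2.1, by
          rw [(hφ q hq).1]; exact Finset.mem_range.1 (Finset.mem_sigma.1 hq).1⟩]
    _ = ∑ W ∈ ((range N).sigma (fun n => saw (St T) n)).image φ,
          (if In T W ∧ W.length < N then ENNReal.ofReal x ^ (W.length + 1) else 0) :=
        (Finset.sum_image (f := fun W => if In T W ∧ W.length < N then ENNReal.ofReal x ^ (W.length + 1) else 0)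
          fun q hq q' hq' he => hinj q hq q' hq' he).symm
    _ ≤ _ := by
        refine (ENNReal.sum_le_tsum _).trans (le_of_eq (tsum_congr fun W => ?_))
        congr

/-- From the mass of the short words of the strip to the number of walks. -/
lemma an_le_mass {n : ℕ} {G : ℝ} (hG : 0 ≤ G)
    (h : ms xE (fun W => In (n + 1) W ∧ W.length < n + 1) ≤ ENNReal.ofReal G) :
    (an n : ℝ) ≤ mu ^ n * (8 * (1 + G) ^ 2) := by
  have hxc : 0 < xc := Pool.Agent.Hhelper14.SAW.xc_pos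
  have h1 : xc * gf (fun k => (saw (St (n + 1)) k).card) xc (n + 1) ≤ G :=
    (ENNReal.ofReal_le_ofReal_iff hG).1 ((gf_le_len hxc.le (n + 1) (n + 1)).trans h)
  have h2 := hw_fin hxc (M := G / xc) n (by rw [le_div_iff₀ hxc, mul_comm]; exact h1)
  have h3 : G / xc + (xc * (G / xc) + 2 * (xc ^ 2 * (G / xc * (G / xc)))) = G / xc + (G + 2 * G ^ 2) := by
    field_simp
  rw [h3] at h2
  have hmu := mu_bounds
  have hxm : xc * mu = 1 := xc_mu
  have hxinv : G / xc ≤ 2 * G := by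
    have : 1 / 2 ≤ xc := by nlinarith
    rw [div_le_iff₀ hxc]; nlinarith
  have hmun : 0 < mu ^ n := pow_pos mu_pos n
  have h4 : (an n : ℝ) = (an n : ℝ) * xc ^ n * mu ^ n := by
    rw [mul_assoc, ← mul_pow, hxm, one_pow, mul_one]
  rw [h4, mul_comm (mu ^ n)]
  refine mul_le_mul_of_nonneg_right ?_ hmun.le
  nlinarith

/-- The number of walks. -/
theorem an_upper_of {ε : ℝ} (hε : 0 < ε) (h : ∃ C : ℝ, 0 < C ∧ ∀ n : ℕ, 1 ≤ n →
      ms xE (fun W => In (n + 1) W ∧ W.length < n + 1) ≤ ENNReal.ofReal (Real.exp (C * (n : ℝ) ^ ε))) :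
    ∃ C : ℝ, 0 < C ∧ ∀ n : ℕ, 1 ≤ n → (an n : ℝ) ≤ mu ^ n * Real.exp (C * (n : ℝ) ^ ε) := by
  obtain ⟨C, hC, h⟩ := h
  have hlog : 0 < Real.log 32 := Real.log_pos (by norm_num)
  refine ⟨2 * C + Real.log 32, by linarith, fun n hn => ?_⟩
  have hn1 : (1 : ℝ) ≤ n := by exact_mod_cast hn
  have ht1 : 1 ≤ (n : ℝ) ^ ε := Real.one_le_rpow hn1 hε.le
  set t : ℝ := (n : ℝ) ^ ε with ht
  refine (an_le_mass (Real.exp_pos _).le (h n hn)).trans ?_
  refine mul_le_mul_of_nonneg_left ?_ (pow_pos mu_pos n).le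
  have hE : 1 ≤ Real.exp (C * t) := Real.one_le_exp (by positivity)
  calc 8 * (1 + Real.exp (C * t)) ^ 2 ≤ 8 * (2 * Real.exp (C * t)) ^ 2 := by gcongr; linarith
    _ = 32 * Real.exp (2 * C * t) := by
        have : Real.exp (2 * C * t) = Real.exp (C * t) ^ 2 := by
          rw [← Real.exp_nat_mul]; congr 1; push_cast; ring
        rw [this]; ring
    _ = Real.exp (Real.log 32) * Real.exp (2 * C * t) := by rw [Real.exp_log (by norm_num)]
    _ ≤ Real.exp ((2 * C + Real.log 32) * t) := by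
        rw [← Real.exp_add]
        apply Real.exp_le_exp.2
        nlinarith

/-- The final statement. -/
theorem final_of {ε : ℝ} (hε : 0 < ε) (h : ∃ C : ℝ, 0 < C ∧ ∀ n : ℕ, 1 ≤ n →
      ms xE (fun W => In (n + 1) W ∧ W.length < n + 1) ≤ ENNReal.ofReal (Real.exp (C * (n : ℝ) ^ ε))) :
    ∃ C : ℝ, 0 < C ∧ ∀ n : ℕ, 1 ≤ n →
    (Pool.Agent.Hhelper14.Honeycomb.a n : ℝ) ≤
      Pool.Agent.Hhelper14.Honeycomb.muL ^ n * Real.exp (C * (n : ℝ) ^ ε) ∧
    Real.exp (-(C * (n : ℝ) ^ ε)) ≤ Pool.Agent.Hhelper14.Honeycomb.P n := by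
  obtain ⟨C, hC, h⟩ := an_upper_of hε h
  have hmuL := muL_eq hw_quant
  refine ⟨2 * C, by linarith, fun n hn => ?_⟩
  have h1 := h n hn
  have ht : 0 ≤ (n : ℝ) ^ ε := by positivity
  have hmun : 0 < mu ^ n := pow_pos mu_pos n
  constructor
  · rw [hmuL, a_eq]
    refine h1.trans (mul_le_mul_of_nonneg_left (Real.exp_le_exp.2 ?_) hmun.le)
    nlinarith
  · rw [P_eq, a_eq, a_eq]
    have h2 := mu_pow_le (2 * n) (by omega)
    have han : (0 : ℝ) < an n := lt_of_lt_of_le hmun (mu_pow_le n hn)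
    rw [le_div_iff₀ (by positivity)]
    have h3 : (an n : ℝ) ^ 2 ≤ (mu ^ n * Real.exp (C * (n : ℝ) ^ ε)) ^ 2 :=
      pow_le_pow_left₀ han.le h1 2
    calc Real.exp (-(2 * C * (n : ℝ) ^ ε)) * (an n : ℝ) ^ 2
        ≤ Real.exp (-(2 * C * (n : ℝ) ^ ε)) * (mu ^ n * Real.exp (C * (n : ℝ) ^ ε)) ^ 2 :=
          mul_le_mul_of_nonneg_left h3 (Real.exp_pos _).le
      _ = mu ^ (2 * n) := by
          rw [mul_pow, ← pow_mul, ← Real.exp_nat_mul]
          have e : Real.exp (-(2 * C * (n : ℝ) ^ ε)) * (mu ^ (n * 2) *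
              Real.exp (((2 : ℕ) : ℝ) * (C * (n : ℝ) ^ ε))) = mu ^ (n * 2) *
              (Real.exp (-(2 * C * (n : ℝ) ^ ε)) * Real.exp (((2 : ℕ) : ℝ) * (C * (n : ℝ) ^ ε))) := by
            ring
          rw [e, ← Real.exp_add]
          have e2 : -(2 * C * (n : ℝ) ^ ε) + ((2 : ℕ) : ℝ) * (C * (n : ℝ) ^ ε) = 0 := by
            push_cast; ring
          rw [e2, Real.exp_zero, mul_one, mul_comm n 2]
      _ ≤ _ := h2

end Pool.Agent.HEP
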