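import Pool.Agent.HEP.GSys
import Pool.Agent.HHP.StepA

/-!
HEP geometry, module GHW: Hammersley-Welsh unfolding with avoidance of consecutive strands.

PAPER PROOF. For a list `c` of strands (lists of blocks) and a word `t` let `cat c t` be: `cat [] t = t`, `cat (P :: c) t = fw (jn P) (cat c t)`.
CLAIM. Every `W` in `SS m` is `cat c t`, where (A) `t = []`, or (B) `c = c' ++ [P]`-like last strand: precisely `W = cat c t` with `t = []` or `t = jn P` or
`t = jn P ++ [!rt (jn P)]` for a list `P ≠ []`, such that the list of strands `C` (`C = c` in case `t = []`, `C = c ++ [P]` otherwise) satisfies: every strand is nonempty, `hj ≤ m + 1`,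
strictly decreasing heights, and for consecutive strands `P1, P2` the word `V (fw (jn P1) (jn P2))` is nodup. Proof by strong induction on `m` (`stepA`): either `Fi k W` with `k ≤ m`: `Fi_cases`
(`Br k W`: `W = jn P` by `jn_surj`, `c = []`; `W = []`; or `W = P' ++ [!rt P']`, `Br k P'`); or `W = P ++ lt P :: Q`, `Be k P`, `1 ≤ k ≤ m`, `SS (k - 1) Q`: `Be_drop`: `P = X ++ [!rt X]`, `Br k X`, `X = jn P1`, `hj P1 = k + 1`, so
`W = fw (jn P1) Q`; apply the induction hypothesis to `Q` (strands of height `≤ k`, `< hj P1`). The first strand `P2` of `Q` (if there is one): `jn P2` is a prefix of `Q`, followed by nothing or by one letter or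
by `(!rt ..) :: ..`, so `V (fw (jn P1) (jn P2))` is a prefix of `V W` (`V_append`), nodup.
MASS. `(fw X Y).length + 1 = (X.length + 1) + (Y.length + 1) + 1`, so `xE ^ ((cat c t).length + 1) ≤ (c.map wj).prod * xE ^ (t.length + 1)` (`xE ≤ 1`, `jn_length`), and `≤ (C.map wj).prod` in all three cases
(in the case `t = []`: factor `xE ≤ 1`; in the third case one more factor `xE`).
The blocks of the strands have at most `W.length ≤ n` letters (`jn_mem_len`, `jn P` is a factor of `W`). So `C` is a chain of `hs (n + 1)`: `Chn C` (`Av P1.reverse P2` is `Avn`: lengths, and `(P1.reverse).reverse = P1`), all heights in `[1, n + 1]`.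
SUM. For each of the three kinds choose for every `W` of this kind a chain `C W`; the map `W ↦ C W` is injective (`W` is determined by `C` and the kind), so `∑ W of the kind, xE ^ (W.length + 1) ≤ chm (n + 1)`
(`tsum_rel` of `HHP/Tsum`, or `ENNReal.tsum_comp_le_tsum_of_injective`). Three kinds: factor 3 (`ms_or`).
-/

namespace Pool.Agent.HEP

open Pool.Agent.Hhelper14.SAW Pool.Agent.HHP
open scoped ENNReal

/-- The word of a list of strands, with a given word for the last strand. -/
private def wd (f : List Blk → List Bool) : List (List Blk) → List Bool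
  | [] => []
  | [P] => f P
  | P :: P' :: c => fw (jn P) (wd f (P' :: c))

/-- The three kinds of last words. -/
private def fk (κ : Fin 3) (P : List Blk) : List Bool :=
  if κ = 0 then fw (jn P) [] else if κ = 1 then jn P else jn P ++ [!rt (jn P)]

private lemma fk_pre (κ : Fin 3) (P : List Blk) : ∃ r, fk κ P = jn P ++ r := by
  unfold fk
  split_ifs
  · exact ⟨_, rfl⟩
  · exact ⟨[], by simp⟩
  · exact ⟨_, rfl⟩

private lemma fk_len (κ : Fin 3) {P : List Blk} (hP : P ≠ []) : xE ^ ((fk κ P).length + 1) ≤ wj P := by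
  rw [jn_length hP]
  refine pow_le_pow_right_of_le_one' xE_le ?_
  obtain ⟨r, hr⟩ := fk_pre κ P
  rw [hr, List.length_append]
  omega

private lemma fw_app (X Y r : List Bool) : fw X (Y ++ r) = fw X Y ++ r := by
  unfold fw; simp

private lemma wd_pre (κ : Fin 3) (P : List Blk) (c : List (List Blk)) : ∃ r, wd (fk κ) (P :: c) = jn P ++ r := by
  cases c with
  | nil => exact fk_pre κ P
  | cons P' c => exact ⟨_, rfl⟩

private lemma V_pre (W r : List Bool) (h : (V (W ++ r)).Nodup) : (V W).Nodup := by
  cases r with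
  | nil => rwa [List.append_nil] at h
  | cons b r =>
    rw [V_append] at h
    exact (List.nodup_append.1 h).1

/-- The properties of the list of strands. -/
private def Ok (m L : ℕ) (C : List (List Blk)) : Prop :=
  (∀ P ∈ C, P ≠ [] ∧ hj P ≤ m + 1 ∧ ∀ b ∈ P, b.1.length ≤ L) ∧
    List.IsChain (fun P P' => hj P' < hj P ∧ (V (fw (jn P) (jn P'))).Nodup) C

private lemma claim (m : ℕ) : ∀ W, SS m W → ∃ κ C, W = wd (fk κ) C ∧ Ok m W.length C := by
  induction m using Nat.strong_induction_on with
  | _ m ih =>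
    intro W hW
    rcases stepA hW with ⟨k, hk, hF⟩ | ⟨k, P, Q, hk1, hkm, hWe, hP, hQ⟩
    · have key : ∀ (κ : Fin 3) (l : List Blk), l ≠ [] → hj l = k + 1 → W = fk κ l →
          ∃ κ C, W = wd (fk κ) C ∧ Ok m W.length C := by
        intro κ l hl hj1 hWl
        refine ⟨κ, [l], hWl, ?_, List.isChain_singleton _⟩
        intro P hP
        rw [List.mem_singleton] at hP
        subst hP
        refine ⟨hl, by omega, fun b hb => ?_⟩
        obtain ⟨r, hr⟩ := fk_pre κ P
        rw [hWl, hr, List.length_append]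
        exact (jn_mem_len hb).trans (Nat.le_add_right _ _)
      rcases Fi_cases hF with h1 | h1 | ⟨P, h1, h2⟩
      · obtain ⟨l, hl, hl1, hl2⟩ := jn_surj h1
        exact key 1 l hl hl2 (by simp [fk, hl1])
      · refine ⟨0, [], h1, by simp, List.isChain_nil⟩
      · obtain ⟨l, hl, hl1, hl2⟩ := jn_surj h1
        exact key 2 l hl hl2 (by simp [fk, hl1, h2])
    · obtain ⟨X, hX, hPe⟩ := Be_drop hP
      obtain ⟨l, hl, hl1, hl2⟩ := jn_surj hX
      have hWf : W = fw X Q := by
        rw [hWe, hPe]
        unfold fw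
        simp
      have hlen : W.length = X.length + Q.length + 2 := by
        rw [hWf]; unfold fw; simp; ring
      have hlb : ∀ b ∈ l, b.1.length ≤ W.length := fun b hb => by
        have := jn_mem_len hb
        rw [hl1] at this
        omega
      obtain ⟨κ, C, hC, hC1, hC2⟩ := ih (k - 1) (by omega) Q hQ
      have hmem : ∀ P ∈ l :: C, P ≠ [] ∧ hj P ≤ m + 1 ∧ ∀ b ∈ P, b.1.length ≤ W.length := by
        intro P hP
        rw [List.mem_cons] at hP
        rcases hP with rfl | hP
        · exact ⟨hl, by omega, hlb⟩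
        · obtain ⟨a1, a2, a3⟩ := hC1 P hP
          exact ⟨a1, by omega, fun b hb => (a3 b hb).trans (by omega)⟩
      cases C with
      | nil =>
        refine ⟨0, [l], ?_, hmem, List.isChain_singleton _⟩
        rw [hWf, hC]
        simp [wd, fk, hl1]
      | cons P' c =>
        refine ⟨κ, l :: P' :: c, ?_, hmem, ?_⟩
        · rw [hWf, hC, ← hl1]
          rfl
        · rw [List.isChain_cons_cons]
          refine ⟨⟨?_, ?_⟩, hC2⟩
          · have := (hC1 P' (by simp)).2.1
            omega
          · obtain ⟨r, hr⟩ := wd_pre κ P' c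
            have h1 := hW.1.1
            rw [hWf, hC, hr, fw_app] at h1
            rw [hl1]
            exact V_pre _ _ h1

private lemma wd_len (κ : Fin 3) {C : List (List Blk)} (hC : ∀ P ∈ C, P ≠ []) :
    xE ^ ((wd (fk κ) C).length + 1) ≤ (C.map wj).prod := by
  induction C with
  | nil =>
    simp only [wd, List.length_nil, List.map_nil, List.prod_nil]
    rw [zero_add, pow_one]
    exact xE_le
  | cons P C ih =>
    cases C with
    | nil =>
      simp only [wd, List.map_cons, List.map_nil, List.prod_cons, List.prod_nil, mul_one]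
      exact fk_len κ (hC P (by simp))
    | cons P' c =>
      have h1 := ih fun P'' h => hC P'' (List.mem_cons_of_mem _ h)
      have e : (wd (fk κ) (P :: P' :: c)).length = (jn P).length + (wd (fk κ) (P' :: c)).length + 2 := by
        change (fw (jn P) (wd (fk κ) (P' :: c))).length = _
        unfold fw; simp; ring
      rw [List.map_cons, List.prod_cons, jn_length (hC P (by simp)), e]
      calc xE ^ ((jn P).length + (wd (fk κ) (P' :: c)).length + 2 + 1)
          = xE ^ ((jn P).length + 1) * xE ^ ((wd (fk κ) (P' :: c)).length + 1) * xE := by ring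
        _ ≤ xE ^ ((jn P).length + 1) * xE ^ ((wd (fk κ) (P' :: c)).length + 1) * 1 := by
            gcongr; exact xE_le
        _ ≤ xE ^ ((jn P).length + 1) * ((P' :: c).map wj).prod := by
            rw [mul_one]; gcongr

private lemma Ok_chn {n L : ℕ} (hL : L ≤ n) {C : List (List Blk)}
    (h1 : ∀ P ∈ C, P ≠ [] ∧ ∀ b ∈ P, b.1.length ≤ L)
    (h2 : List.IsChain (fun P P' => hj P' < hj P ∧ (V (fw (jn P) (jn P'))).Nodup) C) : (hs n).Chn C := by
  induction C with
  | nil => trivial
  | cons P C ih =>
    cases C with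
    | nil => trivial
    | cons P' c =>
      rw [List.isChain_cons_cons] at h2
      have hav : Avn n (List.reverse P) P' := by
        refine ⟨fun b hb => ?_, Or.inr (Or.inr ?_)⟩
        · rw [List.mem_append, List.mem_reverse] at hb
          rcases hb with hb | hb
          · exact ((h1 P (by simp)).2 b hb).trans hL
          · exact ((h1 P' (by simp)).2 b hb).trans hL
        · rw [List.reverse_reverse]
          exact h2.1.2
      exact ⟨⟨h2.1.1, hav⟩, ih (fun Q hQ => h1 Q (List.mem_cons_of_mem _ hQ)) h2.2⟩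

theorem ss_chm (n : ℕ) : ms xE (fun W => SS n W ∧ W.length ≤ n) ≤ 3 * (hs (n + 1)).chm (n + 1) := by
  have hex : ∀ W : {W : List Bool // SS n W ∧ W.length ≤ n}, ∃ q : Fin 3 × List (List Blk),
      W.1 = wd (fk q.1) q.2 ∧ Ok n W.1.length q.2 := by
    rintro ⟨W, hW, hl⟩
    obtain ⟨κ, C, h1, h2⟩ := claim n W hW
    exact ⟨(κ, C), h1, h2⟩
  choose φ hφ using hex
  have hinj : Function.Injective φ := by
    intro W W' h
    apply Subtype.ext
    rw [(hφ W).1, (hφ W').1, h]
  let g : Fin 3 × List (List Blk) → ℝ≥0∞ := fun q =>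
    ind ((hs (n + 1)).Chn q.2 ∧ ∀ W ∈ q.2, 1 ≤ (hs (n + 1)).h W ∧ (hs (n + 1)).h W ≤ n + 1) *
      (q.2.map (hs (n + 1)).w).prod
  have hle : ∀ W : {W : List Bool // SS n W ∧ W.length ≤ n}, xE ^ (W.1.length + 1) ≤ g (φ W) := by
    intro W
    obtain ⟨h1, h2, h3⟩ := hφ W
    have hg : (hs (n + 1)).Chn (φ W).2 ∧
        ∀ P ∈ (φ W).2, 1 ≤ (hs (n + 1)).h P ∧ (hs (n + 1)).h P ≤ n + 1 := by
      refine ⟨Ok_chn (L := W.1.length) (W.2.2.trans (Nat.le_succ n)) (fun P hP => ⟨(h2 P hP).1, (h2 P hP).2.2⟩) h3,
        fun P hP => ?_⟩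
      rw [hs_h]
      exact ⟨hj_pos (h2 P hP).1, (h2 P hP).2.1⟩
    change _ ≤ ind _ * _
    rw [ind_true hg, one_mul]
    conv_lhs => rw [h1]
    exact wd_len _ fun P hP => (h2 P hP).1
  unfold ms
  calc ∑' W : {W : List Bool // SS n W ∧ W.length ≤ n}, xE ^ (W.1.length + 1)
      ≤ ∑' W : {W : List Bool // SS n W ∧ W.length ≤ n}, g (φ W) := ENNReal.tsum_le_tsum hle
    _ ≤ ∑' q, g q := ENNReal.tsum_comp_le_tsum_of_injective hinj g
    _ = ∑' κ : Fin 3, (hs (n + 1)).chm (n + 1) := by
        exact ENNReal.tsum_prod (f := fun κ c => g (κ, c))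
    _ = 3 * (hs (n + 1)).chm (n + 1) := by
        rw [tsum_fintype, Finset.sum_const, Finset.card_univ, Fintype.card_fin, nsmul_eq_mul]
        norm_num

end Pool.Agent.HEP
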