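import Pool.Agent.HEP.ChAll
import Pool.Agent.HEP.GHyp
import Pool.Agent.HEP.GHW
import Pool.Agent.HEP.GFinA
import Pool.Agent.HEP.GDisj
import Pool.Agent.Hhelper14.SAW.Final

/-!
Project HEP: the final statements.

`main`: for every `ε > 0` there is `C > 0` with `a_n ≤ μ_L^n exp(C n^ε)` and `P_n ≥ exp(-C n^ε)` for every `n ≥ 1`.
`main_disj`: for every `ε > 0` there is `C > 0` such that for every `n ≥ 1` some `m` with `n ≤ m ≤ C n^(1+ε)` has
`P_m ≤ C m^(-1/10000)`.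
-/

namespace Pool.Agent.HEP

open Pool.Agent.Hhelper14.SAW Pool.Agent.HHP
open scoped ENNReal

lemma In_le_short (y : ℝ≥0∞) (n L : ℕ) :
    ms y (fun W => In n W ∧ W.length ≤ L) ≤ (1 + y) * ms y (fun W => SS n W ∧ W.length ≤ L) := by
  have h1 : ms y (fun W => In n W ∧ W.length ≤ L) ≤ ms y (fun W => SS n W ∧ W.length ≤ L) +
      ms y (fun W => ∃ P b, (SS n P ∧ P.length ≤ L) ∧ W = P ++ [b] ∧ hz (tn b (Dr P))) := by
    refine ms_or fun W hW => ?_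
    rcases In_cases hW.1 with h | ⟨P, b, h, h2, h3⟩
    · exact Or.inl ⟨h, hW.2⟩
    · refine Or.inr ⟨P, b, ⟨h, ?_⟩, h2, h3⟩
      have := hW.2
      rw [h2, List.length_append] at this
      omega
  have h2 : ms y (fun W => ∃ P b, (SS n P ∧ P.length ≤ L) ∧ W = P ++ [b] ∧ hz (tn b (Dr P))) ≤
      y * ms y (fun W => SS n W ∧ W.length ≤ L) := by
    refine ms_rel (fun W W' => ∃ b, W = W' ++ [b] ∧ hz (tn b (Dr W'))) ?_ ?_
    · rintro W ⟨P, b, hP, rfl, hb⟩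
      refine ⟨P, hP, ⟨b, rfl, hb⟩, le_of_eq ?_⟩
      rw [List.length_append, List.length_singleton, pow_succ' y (P.length + 1)]
    · rintro W1 W2 W' _ _ _ ⟨b, rfl, hb⟩ ⟨b', rfl, hb'⟩
      rw [tn_hz_unique hb hb']
  calc ms y (fun W => In n W ∧ W.length ≤ L)
      ≤ ms y (fun W => SS n W ∧ W.length ≤ L) + y * ms y (fun W => SS n W ∧ W.length ≤ L) :=
        h1.trans (add_le_add le_rfl h2)
    _ = (1 + y) * ms y (fun W => SS n W ∧ W.length ≤ L) := by ring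

theorem mass_short (ε : ℝ) (hε : 0 < ε) : ∃ C : ℝ, 0 < C ∧ ∀ n : ℕ, 1 ≤ n →
    ms xE (fun W => In (n + 1) W ∧ W.length < n + 1) ≤ ENNReal.ofReal (Real.exp (C * (n : ℝ) ^ ε)) := by
  obtain ⟨C, hC, h⟩ := ch_main ε hε 40
  have hlog : 0 < Real.log 6 := Real.log_pos (by norm_num)
  refine ⟨C * 3 ^ ε + Real.log 6, by positivity, fun n hn => ?_⟩
  have hn1 : (1 : ℝ) ≤ n := by exact_mod_cast hn
  have ht1 : 1 ≤ (n : ℝ) ^ ε := Real.one_le_rpow hn1 hε.le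
  have h1 := h (hs (n + 2)) (n + 2) (by omega) (hs_hyp (n + 2) (by omega))
  calc ms xE (fun W => In (n + 1) W ∧ W.length < n + 1)
      ≤ ms xE (fun W => In (n + 1) W ∧ W.length ≤ n + 1) := ms_mono fun W hW => ⟨hW.1, hW.2.le⟩
    _ ≤ (1 + xE) * ms xE (fun W => SS (n + 1) W ∧ W.length ≤ n + 1) := In_le_short _ _ _
    _ ≤ (1 + 1) * (3 * (hs (n + 1 + 1)).chm (n + 1 + 1)) := by
        gcongr
        · exact xE_le
        · exact ss_chm (n + 1)
    _ ≤ (1 + 1) * (3 * ENNReal.ofReal (Real.exp (C * ((n + 2 : ℕ) : ℝ) ^ ε))) := by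
        exact mul_le_mul_of_nonneg_left (mul_le_mul_of_nonneg_left h1 bot_le) bot_le
    _ = ENNReal.ofReal (6 * Real.exp (C * ((n + 2 : ℕ) : ℝ) ^ ε)) := by
        rw [ENNReal.ofReal_mul (by norm_num), ← mul_assoc]
        congr 1
        norm_num
    _ ≤ ENNReal.ofReal (Real.exp ((C * 3 ^ ε + Real.log 6) * (n : ℝ) ^ ε)) := by
        apply ENNReal.ofReal_le_ofReal
        have h2 : ((n + 2 : ℕ) : ℝ) ^ ε ≤ 3 ^ ε * (n : ℝ) ^ ε := by
          rw [← Real.mul_rpow (by norm_num) (by positivity)]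
          apply Real.rpow_le_rpow (by positivity) _ hε.le
          push_cast; linarith
        calc 6 * Real.exp (C * ((n + 2 : ℕ) : ℝ) ^ ε)
            = Real.exp (Real.log 6) * Real.exp (C * ((n + 2 : ℕ) : ℝ) ^ ε) := by
              rw [Real.exp_log (by norm_num)]
          _ ≤ Real.exp ((C * 3 ^ ε + Real.log 6) * (n : ℝ) ^ ε) := by
              rw [← Real.exp_add]
              apply Real.exp_le_exp.2
              have h3 := mul_le_mul_of_nonneg_left h2 hC.le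
              nlinarith

theorem main (ε : ℝ) (hε : 0 < ε) : ∃ C : ℝ, 0 < C ∧ ∀ n : ℕ, 1 ≤ n →
    (Pool.Agent.Hhelper14.Honeycomb.a n : ℝ) ≤
      Pool.Agent.Hhelper14.Honeycomb.muL ^ n * Real.exp (C * (n : ℝ) ^ ε) ∧
    Real.exp (-(C * (n : ℝ) ^ ε)) ≤ Pool.Agent.Hhelper14.Honeycomb.P n :=
  final_of hε (mass_short ε hε)

open Pool.Agent.Hhelper14.Honeycomb in
theorem main_disj (ε : ℝ) (hε : 0 < ε) : ∃ C : ℝ, 0 < C ∧ ∀ n : ℕ, 1 ≤ n →
    (n : ℝ) ^ (1 / 10000 : ℝ) * muL ^ n ≤ C * a n ∧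
    ∃ m : ℕ, n ≤ m ∧ (m : ℝ) ≤ C * (n : ℝ) ^ (1 + ε) ∧
      P m ≤ C * (m : ℝ) ^ (-(1 / 10000) : ℝ) := by
  obtain ⟨c, hc, hlow⟩ := Pool.Agent.Hhelper14.SAW.final.1
  -- `δ / (1 - δ) = ε`
  set δ : ℝ := ε / (1 + ε) with hδ
  have hδ0 : 0 < δ := by positivity
  have hδ1 : δ < 1 := by rw [hδ, div_lt_one (by positivity)]; linarith
  have hδε : δ / (1 - δ) = ε := by
    have : 1 - δ = 1 / (1 + ε) := by rw [hδ]; field_simp; ring
    rw [this, hδ]; field_simp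
  obtain ⟨C₁, hC₁, hup⟩ := main δ hδ0
  have hmu : 0 < muL := by
    rw [Pool.Agent.Hhelper14.SAW.muL_eq Pool.Agent.Hhelper14.SAW.hw_quant]
    exact Pool.Agent.Hhelper14.SAW.mu_pos
  obtain ⟨K, hK, h⟩ := ratio_small (fun n => (a n : ℝ)) Pool.Agent.Hhelper14.SAW.a_pos muL hmu
    (1 / 10000) (by norm_num) c hc hlow C₁ hC₁ δ hδ0 hδ1 fun n hn => (hup n hn).1
  rw [hδε] at h
  refine ⟨max K c⁻¹, lt_max_of_lt_left hK, fun n hn => ⟨?_, ?_⟩⟩
  · have h1 := hlow n hn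
    have h2 : (n : ℝ) ^ (1 / 10000 : ℝ) * muL ^ n ≤ c⁻¹ * a n := by
      rw [inv_mul_eq_div, le_div_iff₀ hc]
      calc (n : ℝ) ^ (1 / 10000 : ℝ) * muL ^ n * c = c * (n : ℝ) ^ (1 / 10000 : ℝ) * muL ^ n := by
            ring
        _ ≤ a n := h1
    exact h2.trans (mul_le_mul_of_nonneg_right (le_max_right _ _) (by positivity))
  · obtain ⟨m, h1, h2, h3⟩ := h n hn
    refine ⟨m, h1, h2.trans (mul_le_mul_of_nonneg_right (le_max_left _ _) (by positivity)), ?_⟩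
    rw [Pool.Agent.Hhelper14.SAW.P_eq]
    exact h3.trans (mul_le_mul_of_nonneg_right (le_max_left _ _) (by positivity))

end Pool.Agent.HEP
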