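import Pool.Agent.HEP.ChChn

/-!
Project HEP, section (4): the sum of the factors of one scale; the bound `chm n ≤ exp (137 ℓ (log₂ n + 1) ^ 3)`.
-/

namespace Pool.Agent.HEP

open scoped ENNReal
open Finset

namespace Ch

/-- `∏ (1 + f j) ≤ exp (∑ f j)`. -/
theorem prod_le_exp (f : ℕ → ℝ≥0∞) (n : ℕ) (X : ℝ) (hX0 : 0 ≤ X) (hX : ∑ j ∈ range n, f j ≤ ENNReal.ofReal X) :
    ∏ j ∈ range n, (1 + f j) ≤ ENNReal.ofReal (Real.exp X) := by
  have hfin : ∀ j ∈ range n, f j ≠ ⊤ := by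
    intro j hj
    have h1 : f j ≤ ∑ j ∈ range n, f j := Finset.single_le_sum (fun _ _ => bot_le) hj
    exact ne_top_of_le_ne_top ENNReal.ofReal_ne_top (h1.trans hX)
  have h1 : ∀ j ∈ range n, 1 + f j ≤ ENNReal.ofReal (Real.exp (f j).toReal) := by
    intro j hj
    rw [← ENNReal.ofReal_toReal (ENNReal.add_ne_top.2 ⟨ENNReal.one_ne_top, hfin j hj⟩)]
    refine ENNReal.ofReal_le_ofReal ?_
    rw [ENNReal.toReal_add ENNReal.one_ne_top (hfin j hj), ENNReal.toReal_one, add_comm]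
    exact Real.add_one_le_exp _
  refine (Finset.prod_le_prod' h1).trans ?_
  rw [← ENNReal.ofReal_prod_of_nonneg (fun j _ => (Real.exp_pos _).le), ← Real.exp_sum]
  refine ENNReal.ofReal_le_ofReal (Real.exp_le_exp.2 ?_)
  rw [← ENNReal.toReal_sum hfin]
  exact ENNReal.toReal_le_of_le_ofReal hX0 hX

theorem harm (k : ℕ) : ∑ p ∈ range (2 ^ k), ((p : ℝ≥0∞) + 1)⁻¹ ≤ k + 1 := by
  induction k with
  | zero => simp
  | succ k ih =>
    have e : 2 ^ (k + 1) = 2 ^ k + 2 ^ k := by rw [pow_succ]; ring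
    rw [e, sum_range_add]
    have h1 : ∑ x ∈ range (2 ^ k), (((2 ^ k + x : ℕ) : ℝ≥0∞) + 1)⁻¹ ≤ 1 := by
      calc ∑ x ∈ range (2 ^ k), (((2 ^ k + x : ℕ) : ℝ≥0∞) + 1)⁻¹
          ≤ ∑ x ∈ range (2 ^ k), ((2 ^ k : ℕ) : ℝ≥0∞)⁻¹ := by
            refine sum_le_sum fun x _ => ENNReal.inv_le_inv.2 ?_
            have : (2 ^ k : ℕ) ≤ 2 ^ k + x + 1 := by omega
            exact_mod_cast this
        _ = ((2 ^ k : ℕ) : ℝ≥0∞) * ((2 ^ k : ℕ) : ℝ≥0∞)⁻¹ := by
            rw [sum_const, card_range, nsmul_eq_mul]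
        _ ≤ 1 := ENNReal.mul_inv_le_one _
    refine (add_le_add ih h1).trans (le_of_eq ?_)
    push_cast
    ring

variable {A : Alph}

/-- The single blocks in the middle. -/
theorem sum_lam_le {H r p q : ℕ} (h : r + 1 + p + q ≤ H) :
    ∑ j ∈ range H, A.lam (H + j - p - q) ≤ A.Lam r := by
  obtain ⟨s, hs⟩ := Nat.exists_eq_add_of_le h
  rw [A.Lam_eq]
  calc ∑ j ∈ range H, A.lam (H + j - p - q) = ∑ j ∈ range H, (fun i => A.lam (r + 1 + i)) (j + s) := by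
        refine sum_congr rfl fun j _ => ?_
        simp only
        congr 1
        omega
    _ ≤ ∑' j, (fun i => A.lam (r + 1 + i)) (j + s) := ENNReal.sum_le_tsum _
    _ ≤ ∑' i, (fun i => A.lam (r + 1 + i)) i :=
        ENNReal.tsum_comp_le_tsum_of_injective (add_left_injective s) _

/-- **Sum of the factors of one scale.** -/
theorem sum_kap (hb : Antitone A.b) (L : ℝ≥0∞) (k : ℕ) :
    ∑ j ∈ range (2 ^ k), kap A L (2 ^ k / 4) (2 ^ k + j) ≤ 136 * L * ((k : ℝ≥0∞) + 1) ^ 2 := by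
  set H := 2 ^ k with hH
  set r := H / 4 with hr
  have hHpos : 1 ≤ H := Nat.one_le_two_pow
  have hU0 : A.U r ≠ 0 := A.U_ne_zero r
  have hU1 : A.U r ≠ ⊤ := A.U_ne_top r
  unfold kap
  rw [sum_add_distrib]
  have h1 : ∑ j ∈ range H, s2 A L r none * s1 A r none * A.b (H + j - 2 * r) ≤ 128 * L := by
    have hU : A.U (H - 2 * r) ≤ 8 * A.U r := by
      calc A.U (H - 2 * r) ≤ A.U (4 * (r + 1)) := A.U_mono (by omega)
        _ ≤ (4 : ℕ) * A.U (r + 1) := Alph.U_mul_nat hb 4 (r + 1) (by norm_num)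
        _ ≤ 4 * (A.U r + 1) := by
            push_cast
            exact mul_le_mul' le_rfl (A.U_succ_le r)
        _ ≤ 4 * (A.U r + A.U r) := mul_le_mul' le_rfl (add_le_add le_rfl (A.one_le_U r))
        _ = 8 * A.U r := by ring
    have hHb : (H : ℝ≥0∞) * A.b (H - 2 * r) ≤ 16 * A.U r := by
      have h2 : (H : ℝ≥0∞) ≤ 2 * (((H - 2 * r : ℕ) : ℝ≥0∞) + 1) := by
        have : H ≤ 2 * ((H - 2 * r) + 1) := by omega
        exact_mod_cast this
      calc (H : ℝ≥0∞) * A.b (H - 2 * r) ≤ 2 * (((H - 2 * r : ℕ) : ℝ≥0∞) + 1) * A.b (H - 2 * r) :=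
            mul_le_mul' h2 le_rfl
        _ = 2 * ((((H - 2 * r : ℕ) : ℝ≥0∞) + 1) * A.b (H - 2 * r)) := by ring
        _ ≤ 2 * A.U (H - 2 * r) := mul_le_mul' le_rfl (Alph.b_mul hb _)
        _ ≤ 2 * (8 * A.U r) := mul_le_mul' le_rfl hU
        _ = 16 * A.U r := by ring
    calc ∑ j ∈ range H, s2 A L r none * s1 A r none * A.b (H + j - 2 * r)
        ≤ ∑ j ∈ range H, s2 A L r none * s1 A r none * A.b (H - 2 * r) :=
          sum_le_sum fun j _ => mul_le_mul' le_rfl (hb (by omega))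
      _ = (H : ℝ≥0∞) * (s2 A L r none * s1 A r none * A.b (H - 2 * r)) := by
          rw [sum_const, card_range, nsmul_eq_mul]
      _ = (8 * L / A.U r) * ((H : ℝ≥0∞) * A.b (H - 2 * r)) := by
          simp only [s1, s2]; ring
      _ ≤ (8 * L / A.U r) * (16 * A.U r) := mul_le_mul' le_rfl hHb
      _ = 128 * L := by
          rw [div_eq_mul_inv]
          calc 8 * L * (A.U r)⁻¹ * (16 * A.U r) = 128 * L * (A.U r * (A.U r)⁻¹) := by ring
            _ = 128 * L := by rw [ENNReal.mul_inv_cancel hU0 hU1, mul_one]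
  have h2 : ∑ j ∈ range H, ∑ p ∈ range (r + 1), ∑ q ∈ range (r + 1), A.lam (H + j - p - q) *
      (s2 A L r (some p) * s1 A r (some q)) ≤ 8 * L * ((k : ℝ≥0∞) + 1) ^ 2 := by
    rw [sum_comm]
    have hsub : range (r + 1) ⊆ range (2 ^ k) := by
      intro x hx
      rw [mem_range] at hx ⊢
      omega
    have hharm : ∑ p ∈ range (r + 1), ((p : ℝ≥0∞) + 1)⁻¹ ≤ k + 1 :=
      (sum_le_sum_of_subset hsub).trans (harm k)
    calc ∑ p ∈ range (r + 1), ∑ j ∈ range H, ∑ q ∈ range (r + 1), A.lam (H + j - p - q) *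
          (s2 A L r (some p) * s1 A r (some q))
        = ∑ p ∈ range (r + 1), ∑ q ∈ range (r + 1), (∑ j ∈ range H, A.lam (H + j - p - q)) *
          (s2 A L r (some p) * s1 A r (some q)) := by
          refine sum_congr rfl fun p _ => ?_
          rw [sum_comm]
          refine sum_congr rfl fun q _ => ?_
          rw [sum_mul]
      _ ≤ ∑ p ∈ range (r + 1), ∑ q ∈ range (r + 1), A.Lam r * (s2 A L r (some p) * s1 A r (some q)) := by
          refine sum_le_sum fun p hp => sum_le_sum fun q hq => mul_le_mul' (sum_lam_le ?_) le_rfl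
          rw [mem_range] at hp hq
          omega
      _ = 8 * L * (A.U r * A.Lam r) * ((∑ p ∈ range (r + 1), ((p : ℝ≥0∞) + 1)⁻¹) *
          (∑ q ∈ range (r + 1), ((q : ℝ≥0∞) + 1)⁻¹)) := by
          rw [sum_mul_sum, mul_sum]
          refine sum_congr rfl fun p _ => ?_
          rw [mul_sum]
          refine sum_congr rfl fun q _ => ?_
          simp only [s1, s2]
          rw [div_eq_mul_inv, div_eq_mul_inv]
          ring
      _ ≤ 8 * L * 1 * (((k : ℝ≥0∞) + 1) * ((k : ℝ≥0∞) + 1)) :=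
          mul_le_mul' (mul_le_mul' le_rfl (A.U_mul_Lam r)) (mul_le_mul' hharm hharm)
      _ = 8 * L * ((k : ℝ≥0∞) + 1) ^ 2 := by ring
  refine (add_le_add h1 h2).trans ?_
  have h3 : (1 : ℝ≥0∞) ≤ ((k : ℝ≥0∞) + 1) ^ 2 := by
    have : 1 ≤ (k + 1) ^ 2 := Nat.one_le_pow _ _ (Nat.succ_pos k)
    exact_mod_cast this
  calc 128 * L + 8 * L * ((k : ℝ≥0∞) + 1) ^ 2 = 128 * L * 1 + 8 * L * ((k : ℝ≥0∞) + 1) ^ 2 := by rw [mul_one]
    _ ≤ 128 * L * ((k : ℝ≥0∞) + 1) ^ 2 + 8 * L * ((k : ℝ≥0∞) + 1) ^ 2 :=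
        add_le_add (mul_le_mul' le_rfl h3) le_rfl
    _ = 136 * L * ((k : ℝ≥0∞) + 1) ^ 2 := by ring

variable {S : Sys}

/-- One scale. -/
theorem CC_scale (hb : Antitone S.b) {n k : ℕ} {ℓ : ℝ} (hℓ : 1 ≤ ℓ)
    (ha : ∀ m ≤ n, S.a m * S.U m ≤ ENNReal.ofReal ℓ) (hk : 2 ^ k ≤ n) :
    CC S (2 ^ k) (2 ^ k + 2 ^ k) ≤ ENNReal.ofReal (Real.exp (137 * ℓ * ((k : ℝ) + 1) ^ 2)) := by
  have hpos : 1 ≤ 2 ^ k := Nat.one_le_two_pow
  have hL : (1 : ℝ≥0∞) ≤ ENNReal.ofReal ℓ := by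
    rw [← ENNReal.ofReal_one]; exact ENNReal.ofReal_le_ofReal hℓ
  have h1 := Tf_le hb ha hL (r := 2 ^ k / 4) (by omega) (A0 := 2 ^ k) (by omega) (2 ^ k)
  have h2 : Pf S.toAlph (ENNReal.ofReal ℓ) (2 ^ k / 4) (2 ^ k) (2 ^ k) ≤
      ENNReal.ofReal (Real.exp (136 * ℓ * ((k : ℝ) + 1) ^ 2)) := by
    unfold Pf
    refine prod_le_exp _ _ _ (by positivity) ((sum_kap hb _ k).trans (le_of_eq ?_))
    rw [ENNReal.ofReal_mul (by positivity), ENNReal.ofReal_mul (by positivity), ENNReal.ofReal_pow (by positivity),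
      ENNReal.ofReal_add (by positivity) (by positivity), ENNReal.ofReal_natCast]
    simp
  have h3 : S.U (2 ^ k / 4) ≤ ENNReal.ofReal (Real.exp k) := by
    calc S.U (2 ^ k / 4) ≤ ((2 ^ k / 4 : ℕ) : ℝ≥0∞) + 1 := S.U_le _
      _ ≤ ((2 ^ k : ℕ) : ℝ≥0∞) := by
          have : 2 ^ k / 4 + 1 ≤ 2 ^ k := by omega
          exact_mod_cast this
      _ = ENNReal.ofReal ((2 : ℝ) ^ k) := by
          rw [← ENNReal.ofReal_natCast]; push_cast; rfl
      _ ≤ ENNReal.ofReal (Real.exp k) := by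
          refine ENNReal.ofReal_le_ofReal ?_
          have h4 : (2 : ℝ) ≤ Real.exp 1 := by
            have := Real.add_one_le_exp (1 : ℝ)
            linarith
          calc (2 : ℝ) ^ k ≤ (Real.exp 1) ^ k := pow_le_pow_left₀ (by norm_num) h4 k
            _ = Real.exp k := by rw [← Real.exp_nat_mul, mul_one]
  refine ((CC_le_Tf _ _ _).trans h1).trans ((mul_le_mul' h3 h2).trans ?_)
  rw [← ENNReal.ofReal_mul (Real.exp_pos _).le, ← Real.exp_add]
  refine ENNReal.ofReal_le_ofReal (Real.exp_le_exp.2 ?_)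
  have hk0 : (0 : ℝ) ≤ k := Nat.cast_nonneg k
  nlinarith [sq_nonneg (k : ℝ), mul_nonneg (sub_nonneg.2 hℓ) (sq_nonneg ((k : ℝ) + 1))]

/-- **Section (4).** The mass of all the chains of strands of heights at most `n`. -/
theorem chm_le (hb : Antitone S.b) {n : ℕ} (hn : 1 ≤ n) {ℓ : ℝ} (hℓ : 1 ≤ ℓ)
    (ha : ∀ m ≤ n, S.a m * S.U m ≤ ENNReal.ofReal ℓ) :
    S.chm n ≤ ENNReal.ofReal (Real.exp (137 * ℓ * ((Nat.log 2 n : ℝ) + 1) ^ 3)) := by
  set K := Nat.log 2 n + 1 with hK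
  have h1 : n < 2 ^ K := Nat.lt_pow_succ_log_self (by norm_num) n
  refine ((chm_le_CC h1).trans (CC_prod K)).trans ?_
  have h2 : ∀ k ∈ range K, CC S (2 ^ k) (2 ^ k + 2 ^ k) ≤ ENNReal.ofReal (Real.exp (137 * ℓ * (K : ℝ) ^ 2)) := by
    intro k hk
    rw [mem_range] at hk
    have h3 : 2 ^ k ≤ n := by
      calc 2 ^ k ≤ 2 ^ (Nat.log 2 n) := Nat.pow_le_pow_right (by norm_num) (by omega)
        _ ≤ n := Nat.pow_log_le_self 2 (by omega)
    refine (CC_scale hb hℓ ha h3).trans (ENNReal.ofReal_le_ofReal (Real.exp_le_exp.2 ?_))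
    have h4 : (k : ℝ) + 1 ≤ K := by exact_mod_cast hk
    gcongr
  refine (Finset.prod_le_prod' h2).trans (le_of_eq ?_)
  rw [prod_const, card_range, ← ENNReal.ofReal_pow (Real.exp_pos _).le, ← Real.exp_nat_mul]
  congr 2
  rw [hK]
  push_cast
  ring

end Ch

end Pool.Agent.HEP
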