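import Pool.Agent.HEP.GTurn

/-!
HEP geometry, module GIdent: comparison of the identity in the domains of the columns `0..T` and `0..T'`.

PAPER PROOF. Let `p = Rg (cc T M) δ τ`, `p' = Rg (cc T' M) δ τ`, `p ⊆ p'`. By `telescope` (real part; `Tsum = 0` for
large `N` because the domains are finite: `saw_empty'` and `IsSaw.mono`), for every large `B`
`∑ n < B, xc ^ (n + 1) * ∑ Q ∈ exits p n, cos (Tn Q * π / 8) = 1` and the same for `p'` (`zt_re`). By `rg_exit` all
the cosines are `≥ 0` (`cos_nonneg_of`).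
* exits of `p` of the top kind (`3 T + 1 < F0 u`): `Tn = 0`, cosine 1, `u = v + (1, 0)`, `F0 v = 3 T + 1`: they are
  the images of `topn T M` under `P ↦ (P.headI + (1, 0)) :: P` (here only `≤` is needed: every top exit `u :: P` has
  `P ∈ topn T M δ τ n`).
* the other exits of `p` (`F0 u ≤ 3 T + 1`) are exits of `p'` which are not of the top kind of `p'` and have no vertex
  in the columns `> T`: `p'` and `F0 u ≤ 3 T + 1` imply `p u`.
* the exits of `p'` contain moreover, disjoint from these: `(P.headI + (1, 0)) :: P` for `P ∈ topn T' M` (cosine 1; an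
  exit since `F0 > 3 T' + 1`, and `≠ w` because `w` is in `p'` or is `o'`), and `(P.headI + (-1, 0)) :: P` for
  `P ∈ farn T T' M` (cosine `cos (3 π / 8) = sin (π / 8) ≥ 0.35` by `rg_exit`, `cos3`, `sin_ge`; it is an exit: `u = P.headI + (-1, 0)` has
  `F0 u = 3 δ - 2`, `τ ≤ u.2`, so `¬ p' u` (slit), and `u ≠ w`: `w` is in `p'` unless `w = o'`, and `w = o'` would mean
  `P = [o, o']`, excluded by `0 < n`; `Adj u v` by residues). They reach the column `T + 1`, hence are not exits of `p`.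
Subtract the common part: `0.35 * far + top' ≤ top`.
-/

namespace Pool.Agent.HEP

open Pool.Agent.Hhelper14.SAW Pool.Agent.HHP Finset

/-- Walks at the top of the domain. -/
noncomputable def topn (T M δ : ℕ) (τ : ℤ) (n : ℕ) : Finset (List (ℤ × ℤ)) :=
  (saw (Rg (cc T M) δ τ) n).filter (fun P => F0 P.headI = 3 * T + 1)

open Classical in
/-- Walks beyond the slit which have reached the column `T + 1`. -/
noncomputable def farn (T T' M δ : ℕ) (τ : ℤ) (n : ℕ) : Finset (List (ℤ × ℤ)) :=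
  (saw (Rg (cc T' M) δ τ) n).filter
    (fun P => F0 P.headI = 3 * δ ∧ τ ≤ P.headI.2 ∧ 0 < n ∧ ∃ z ∈ P, 3 * (T : ℤ) + 3 ≤ F0 z)

/-- Cosine of an exit. -/
private noncomputable def cs (Q : List (ℤ × ℤ)) : ℝ := Real.cos ((Tn Q : ℝ) * (Real.pi / 8))

private lemma ident_re (T M δ : ℕ) (τ : ℤ) : ∃ B : ℕ, ∀ K : ℕ, B ≤ K →
    (∀ n, K ≤ n → saw (Rg (cc T M) δ τ) n = ∅) ∧
      ∑ n ∈ range K, xc ^ (n + 1) * ∑ Q ∈ exits (Rg (cc T M) δ τ) n, cs Q = 1 := by
  obtain ⟨B, hB⟩ := saw_empty' (cc T M)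
  have hB' : ∀ n, B ≤ n → saw (Rg (cc T M) δ τ) n = ∅ := by
    intro n hn
    rw [Finset.eq_empty_iff_forall_notMem]
    intro P hP
    rw [mem_saw (Rg_dom _ _ _)] at hP
    have h1 : P ∈ saw (D (cc T M)) n := by
      rw [mem_saw (D_dom _)]
      exact hP.mono (fun x hx => hx.1)
    rw [hB n hn] at h1
    simp at h1
  refine ⟨B, fun K hK => ⟨fun n hn => hB' n (hK.trans hn), ?_⟩⟩
  have h := telescope (Rg_dom (cc T M) δ τ) K
  have hT : Tsum (Rg (cc T M) δ τ) K = 0 := by unfold Tsum; rw [hB' K hK]; simp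
  rw [hT, mul_zero, sub_zero] at h
  have h2 := congrArg Complex.re h
  rw [Complex.re_sum, Complex.one_re] at h2
  rw [← h2]
  refine Finset.sum_congr rfl fun n _ => ?_
  rw [← Complex.ofReal_pow, Complex.re_ofReal_mul, Complex.re_sum]
  congr 1
  refine Finset.sum_congr rfl fun Q _ => ?_
  rw [zt_re]
  rfl

private lemma second {p : ℤ × ℤ → Prop} {n : ℕ} {v w : ℤ × ℤ} {r : List (ℤ × ℤ)}
    (h : IsSaw p n (v :: w :: r)) : p w ∨ (w = o' ∧ n = 0) := by
  obtain ⟨h1, h2, h3, t, h4, h5⟩ := h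
  cases t with
  | nil =>
    right
    simp only [List.nil_append, List.cons.injEq] at h4
    refine ⟨h4.2.1, ?_⟩
    rw [h4.2.2] at h1
    simp at h1
    omega
  | cons a t =>
    left
    cases t with
    | nil =>
      simp only [List.cons_append, List.nil_append, List.cons.injEq] at h4
      rw [h4.2.1]
      exact h5 o (by simp)
    | cons b t =>
      simp only [List.cons_append, List.cons.injEq] at h4
      rw [h4.2.1]
      exact h5 b (by simp)

private lemma mem_cases {p : ℤ × ℤ → Prop} {n : ℕ} {P : List (ℤ × ℤ)}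
    (h : IsSaw p n P) {x : ℤ × ℤ} (hx : x ∈ P) : p x ∨ x = o' := by
  obtain ⟨h1, h2, h3, t, h4, h5⟩ := h
  rw [h4] at hx
  simp only [List.mem_append, List.mem_cons, List.not_mem_nil, or_false] at hx
  rcases hx with hx | hx | hx
  · left; exact h5 _ (by simp [hx])
  · left; exact h5 _ (by simp [hx])
  · right; exact hx

private lemma rg_mono {T T' M δ : ℕ} {τ : ℤ} (hT : T ≤ T') {x : ℤ × ℤ} (h : Rg (cc T M) δ τ x) :
    Rg (cc T' M) δ τ x := by
  obtain ⟨⟨g0, g1, g2, g3, g4, g5, g6⟩, h2⟩ := h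
  refine ⟨⟨g0, g1, ?_, g3, g4, g5, g6⟩, h2⟩
  simp only [cc] at *
  omega

private lemma rg_back {T T' M δ : ℕ} {τ : ℤ} {x : ℤ × ℤ} (h : Rg (cc T' M) δ τ x)
    (h1 : F0 x ≤ 3 * (T : ℤ) + 1) : Rg (cc T M) δ τ x := by
  obtain ⟨⟨g0, g1, g2, g3, g4, g5, g6⟩, h2⟩ := h
  exact ⟨⟨g0, g1, h1, g3, g4, g5, g6⟩, h2⟩

private lemma o'_F0 : F0 o' = -2 := by decide

/-- The common part. -/
private def comn (T M δ : ℕ) (τ : ℤ) (n : ℕ) : Finset (List (ℤ × ℤ)) :=
  (exits (Rg (cc T M) δ τ) n).filter (fun Q => F0 Q.headI ≤ 3 * (T : ℤ) + 1)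

private lemma cs_bound {T M δ : ℕ} {τ : ℤ} {n : ℕ} {Q : List (ℤ × ℤ)}
    (hQ : Q ∈ exits (Rg (cc T M) δ τ) n) : 0 ≤ cs Q := by
  obtain ⟨u, v, w, r, rfl, h1, h2, h3, h4⟩ := (mem_exits (Rg_dom _ _ _)).1 hQ
  have h := (rg_exit h1 h2 h3 h4).1
  exact cos_nonneg_of h.1 h.2

/-- First inequality. -/
private lemma part_up (T M δ : ℕ) (τ : ℤ) (n : ℕ) :
    ∑ Q ∈ exits (Rg (cc T M) δ τ) n, cs Q ≤
      ((topn T M δ τ n).card : ℝ) + ∑ Q ∈ comn T M δ τ n, cs Q := by
  rw [← Finset.sum_filter_add_sum_filter_not (exits (Rg (cc T M) δ τ) n)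
    (fun Q => F0 Q.headI ≤ 3 * (T : ℤ) + 1) cs, add_comm]
  refine add_le_add ?_ le_rfl
  set A := (exits (Rg (cc T M) δ τ) n).filter (fun Q => ¬ F0 Q.headI ≤ 3 * (T : ℤ) + 1) with hA
  have key : ∀ Q ∈ A, cs Q = 1 ∧ Q.tail ∈ topn T M δ τ n ∧ Q = (Q.tail.headI + (1, 0)) :: Q.tail := by
    intro Q hQ
    rw [hA, Finset.mem_filter] at hQ
    obtain ⟨hQ, hF⟩ := hQ
    obtain ⟨u, v, w, r, rfl, h1, h2, h3, h4⟩ := (mem_exits (Rg_dom _ _ _)).1 hQ
    simp only [List.headI_cons, not_le] at hF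
    obtain ⟨h5, h6⟩ := (rg_exit h1 h2 h3 h4).2.1 hF
    have h7 : u = v + (1, 0) := by rw [← h6]; ring
    refine ⟨?_, ?_, ?_⟩
    · unfold cs; rw [h5]; simp
    · simp only [List.tail_cons]
      unfold topn
      rw [Finset.mem_filter, mem_saw (Rg_dom _ _ _)]
      refine ⟨h1, ?_⟩
      simp only [List.headI_cons]
      have h8 := h1.head_mem
      have h9 := h8.1.1
      have h10 := h8.1.2.2.1
      have h11 := h2.1
      rw [h7] at hF h11
      simp only [hon, F0, cc, Prod.fst_add, Prod.snd_add] at h9 h10 h11 hF ⊢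
      omega
    · simp [h7]
  have e : ∑ Q ∈ A, cs Q = (A.card : ℝ) := by
    rw [Finset.sum_congr rfl (fun Q hQ => (key Q hQ).1)]
    simp
  rw [e]
  norm_cast
  refine Finset.card_le_card_of_injOn List.tail (fun Q hQ => (key Q hQ).2.1) ?_
  intro Q hQ Q' hQ' h
  rw [(key Q hQ).2.2, (key Q' hQ').2.2, h]

/-- Second inequality. -/
private lemma part_down (T T' M δ : ℕ) (τ : ℤ) (hT : T ≤ T') (n : ℕ) :
    ∑ Q ∈ comn T M δ τ n, cs Q + ((topn T' M δ τ n).card : ℝ) + 0.35 * ((farn T T' M δ τ n).card : ℝ) ≤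
      ∑ Q ∈ exits (Rg (cc T' M) δ τ) n, cs Q := by
  classical
  set A := comn T M δ τ n with hA
  set B := (topn T' M δ τ n).image (fun P => (P.headI + (1, 0)) :: P) with hB
  set C := (farn T T' M δ τ n).image (fun P => (P.headI + (-1, 0)) :: P) with hC
  have hBc : B.card = (topn T' M δ τ n).card :=
    Finset.card_image_of_injective _ (fun P P' h => by
      simp only [List.cons.injEq] at h; exact h.2)
  have hCc : C.card = (farn T T' M δ τ n).card :=
    Finset.card_image_of_injective _ (fun P P' h => by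
      simp only [List.cons.injEq] at h; exact h.2)
  -- members of `A`
  have kA : ∀ Q ∈ A, Q ∈ exits (Rg (cc T' M) δ τ) n ∧ F0 Q.headI ≤ 3 * (T : ℤ) + 1 ∧
      ∀ x ∈ Q, F0 x ≤ 3 * (T : ℤ) + 1 := by
    intro Q hQ
    rw [hA, comn, Finset.mem_filter] at hQ
    obtain ⟨hQ, hF⟩ := hQ
    obtain ⟨u, v, w, r, rfl, h1, h2, h3, h4⟩ := (mem_exits (Rg_dom _ _ _)).1 hQ
    simp only [List.headI_cons] at hF
    refine ⟨?_, hF, ?_⟩
    · rw [mem_exits (Rg_dom _ _ _)]
      refine ⟨u, v, w, r, rfl, h1.mono (fun x hx => rg_mono hT hx), h2, h3, ?_⟩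
      intro h5
      exact h4 (rg_back h5 hF)
    · intro x hx
      rcases List.mem_cons.1 hx with rfl | hx
      · exact hF
      · rcases mem_cases h1 hx with h5 | rfl
        · have := h5.1.2.2.1
          simp only [cc] at this
          exact this
        · rw [o'_F0]; omega
  -- members of `B`
  have kB : ∀ Q ∈ B, Q ∈ exits (Rg (cc T' M) δ τ) n ∧ F0 Q.headI = 3 * (T' : ℤ) + 3 ∧ cs Q = 1 := by
    intro Q hQ
    rw [hB, Finset.mem_image] at hQ
    obtain ⟨P, hP, rfl⟩ := hQ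
    unfold topn at hP
    rw [Finset.mem_filter, mem_saw (Rg_dom _ _ _)] at hP
    obtain ⟨hP, hF⟩ := hP
    obtain ⟨v, w, r, rfl, hvw, hv⟩ := hP.cases
    simp only [List.headI_cons] at hF ⊢
    have hFu : F0 (v + (1, 0)) = 3 * (T' : ℤ) + 3 := by
      simp only [F0, Prod.fst_add, Prod.snd_add] at *; omega
    have hadj : Adj (v + (1, 0)) v := by
      have h9 := hv.1.1
      refine ⟨?_, h9, ?_⟩
      · simp only [hon, F0, Prod.fst_add, Prod.snd_add] at *; omega
      · simp [U]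
    have huw : v + (1, 0) ≠ w := by
      intro h
      rcases mem_cases hP (x := w) (by simp) with h5 | h5
      · have := h5.1.2.2.1
        simp only [cc] at this
        rw [← h] at this
        omega
      · rw [h5] at h
        rw [h, o'_F0] at hFu
        omega
    have hu : ¬ Rg (cc T' M) δ τ (v + (1, 0)) := by
      intro h5
      have := h5.1.2.2.1
      simp only [cc] at this
      omega
    refine ⟨?_, hFu, ?_⟩
    · rw [mem_exits (Rg_dom _ _ _)]
      exact ⟨_, v, w, r, rfl, hP, hadj, huw, hu⟩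
    · have := ((rg_exit hP hadj huw hu).2.1 (by omega)).1
      unfold cs; rw [this]; simp
  -- members of `C`
  have kC : ∀ Q ∈ C, Q ∈ exits (Rg (cc T' M) δ τ) n ∧ F0 Q.headI = 3 * (δ : ℤ) - 2 ∧ 0.35 ≤ cs Q ∧
      ∃ x ∈ Q, 3 * (T : ℤ) + 3 ≤ F0 x := by
    intro Q hQ
    rw [hC, Finset.mem_image] at hQ
    obtain ⟨P, hP, rfl⟩ := hQ
    unfold farn at hP
    rw [Finset.mem_filter, mem_saw (Rg_dom _ _ _)] at hP
    obtain ⟨hP, hF, hτ, hn, z, hz, hz3⟩ := hP
    obtain ⟨v, w, r, rfl, hvw, hv⟩ := hP.cases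
    simp only [List.headI_cons] at hF hτ ⊢
    have hFu : F0 (v + (-1, 0)) = 3 * (δ : ℤ) - 2 := by
      simp only [F0, Prod.fst_add, Prod.snd_add] at *; omega
    have hu2 : τ ≤ (v + (-1, 0)).2 := by simpa using hτ
    have hadj : Adj (v + (-1, 0)) v := by
      have h9 := hv.1.1
      refine ⟨?_, h9, ?_⟩
      · simp only [hon, F0, Prod.fst_add, Prod.snd_add] at *; omega
      · simp [U]
    have hu : ¬ Rg (cc T' M) δ τ (v + (-1, 0)) := fun h5 => h5.2 ⟨hFu, hu2⟩
    have huw : v + (-1, 0) ≠ w := by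
      intro h
      rcases second hP with h5 | ⟨-, h5⟩
      · rw [← h] at h5; exact hu h5
      · omega
    refine ⟨?_, hFu, ?_, z, List.mem_cons_of_mem _ hz, hz3⟩
    · rw [mem_exits (Rg_dom _ _ _)]
      exact ⟨_, v, w, r, rfl, hP, hadj, huw, hu⟩
    · have he : v + (-1, 0) - v = (-1, 0) := by ring
      unfold cs
      rcases (rg_exit hP hadj huw hu).2.2 he with h | h
      · rw [h, cos3]; exact sin_ge
      · rw [h, cos3']; exact sin_ge
  have dAB : Disjoint A B := by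
    rw [Finset.disjoint_left]
    intro Q h1 h2
    have := (kA Q h1).2.1
    have := (kB Q h2).2.1
    omega
  have dAC : Disjoint (A ∪ B) C := by
    rw [Finset.disjoint_left]
    intro Q h1 h2
    obtain ⟨-, h3, -, x, hx, h4⟩ := kC Q h2
    rcases Finset.mem_union.1 h1 with h1 | h1
    · have := (kA Q h1).2.2 x hx
      omega
    · have := (kB Q h1).2.1
      omega
  have hsub : (A ∪ B) ∪ C ⊆ exits (Rg (cc T' M) δ τ) n := by
    intro Q hQ
    rcases Finset.mem_union.1 hQ with hQ | hQ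
    · rcases Finset.mem_union.1 hQ with hQ | hQ
      · exact (kA Q hQ).1
      · exact (kB Q hQ).1
    · exact (kC Q hQ).1
  refine le_trans ?_ (Finset.sum_le_sum_of_subset_of_nonneg hsub (fun Q hQ _ => cs_bound hQ))
  rw [Finset.sum_union dAC, Finset.sum_union dAB, Finset.sum_congr rfl (fun Q hQ => (kB Q hQ).2.2)]
  have hC1 : 0.35 * ((farn T T' M δ τ n).card : ℝ) ≤ ∑ Q ∈ C, cs Q := by
    rw [← hCc]
    have := Finset.card_nsmul_le_sum C cs 0.35 (fun Q hQ => (kC Q hQ).2.2.1)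
    rw [nsmul_eq_mul] at this
    linarith
  have hB1 : ∑ Q ∈ B, (1 : ℝ) = ((topn T' M δ τ n).card : ℝ) := by
    rw [← hBc]; simp
  rw [hB1]
  linarith

theorem slit_ineq (δ T T' M : ℕ) (τ : ℤ) (hT : T ≤ T') : ∃ B : ℕ, ∀ N : ℕ,
    0.35 * ∑ n ∈ range N, xc ^ (n + 1) * ((farn T T' M δ τ n).card : ℝ) +
      ∑ n ∈ range N, xc ^ (n + 1) * ((topn T' M δ τ n).card : ℝ) ≤
      ∑ n ∈ range B, xc ^ (n + 1) * ((topn T M δ τ n).card : ℝ) := by
  obtain ⟨B1, hB1⟩ := ident_re T M δ τ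
  obtain ⟨B2, hB2⟩ := ident_re T' M δ τ
  refine ⟨B1, fun N => ?_⟩
  have hx := xc_pos
  set K := max (max B1 B2) N with hK
  have hK1 : B1 ≤ K := le_trans (le_max_left _ _) (le_max_left _ _)
  have hK2 : B2 ≤ K := le_trans (le_max_right _ _) (le_max_left _ _)
  have hK3 : N ≤ K := le_max_right _ _
  have i1 := (hB1 K hK1).2
  have i2 := (hB2 K hK2).2
  have e1 : ∑ n ∈ range B1, xc ^ (n + 1) * ((topn T M δ τ n).card : ℝ) =
      ∑ n ∈ range K, xc ^ (n + 1) * ((topn T M δ τ n).card : ℝ) := by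
    refine Finset.sum_subset (Finset.range_subset_range.2 hK1) ?_
    intro n _ hn
    rw [Finset.mem_range, not_lt] at hn
    unfold topn
    rw [(hB1 B1 le_rfl).1 n hn]
    simp
  rw [e1]
  have e2 : ∑ n ∈ range N, xc ^ (n + 1) * ((farn T T' M δ τ n).card : ℝ) ≤
      ∑ n ∈ range K, xc ^ (n + 1) * ((farn T T' M δ τ n).card : ℝ) :=
    Finset.sum_le_sum_of_subset_of_nonneg (Finset.range_subset_range.2 hK3) (fun n _ _ => by positivity)
  have e3 : ∑ n ∈ range N, xc ^ (n + 1) * ((topn T' M δ τ n).card : ℝ) ≤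
      ∑ n ∈ range K, xc ^ (n + 1) * ((topn T' M δ τ n).card : ℝ) :=
    Finset.sum_le_sum_of_subset_of_nonneg (Finset.range_subset_range.2 hK3) (fun n _ _ => by positivity)
  have j1 : ∑ n ∈ range K, xc ^ (n + 1) * ∑ Q ∈ exits (Rg (cc T M) δ τ) n, cs Q ≤
      ∑ n ∈ range K, (xc ^ (n + 1) * ((topn T M δ τ n).card : ℝ) +
        xc ^ (n + 1) * ∑ Q ∈ comn T M δ τ n, cs Q) := by
    refine Finset.sum_le_sum fun n _ => ?_
    rw [← mul_add]
    exact mul_le_mul_of_nonneg_left (part_up T M δ τ n) (by positivity)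
  have j2 : ∑ n ∈ range K, (xc ^ (n + 1) * ∑ Q ∈ comn T M δ τ n, cs Q +
      xc ^ (n + 1) * ((topn T' M δ τ n).card : ℝ) + 0.35 * (xc ^ (n + 1) * ((farn T T' M δ τ n).card : ℝ))) ≤
      ∑ n ∈ range K, xc ^ (n + 1) * ∑ Q ∈ exits (Rg (cc T' M) δ τ) n, cs Q := by
    refine Finset.sum_le_sum fun n _ => ?_
    have := mul_le_mul_of_nonneg_left (part_down T T' M δ τ hT n) (show 0 ≤ xc ^ (n + 1) by positivity)
    refine le_trans (le_of_eq ?_) this
    ring
  rw [Finset.sum_add_distrib] at j1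
  rw [Finset.sum_add_distrib, Finset.sum_add_distrib, ← Finset.mul_sum] at j2
  rw [i1] at j1
  rw [i2] at j2
  linarith

end Pool.Agent.HEP
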