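import Pool.Agent.HEP.GDef
import Pool.Agent.Hhelper14.SAW.Strip

/-!
HEP geometry, module GTurn: turning numbers of the exits of a half plane domain with a slit.

PAPER PROOF. `p = Rg c δ τ` is a domain (`Rg_dom`), contained in `D c`.
(1) `slit_turn`: `u` is a slit vertex (`F0 u = 3 δ - 2`, `τ ≤ u.2`), `v` its neighbour in `p`. `exit_formula` gives
the list `t` and either `t = []`, `v = o`, `Tn = S (u - o)`: then `u = (0, 1)` or `(1, -1)` (as in the proof of
`exit_formula`), `Tn = 1` resp. `-1`; or `Tn = S v + dl v u + Th u (t ++ [o])`, where `t = v :: t'`. `v` and `u` are off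
the old slit (`F0 u > 0`), so `S v + dl v u = S u` (`dl_eq_S`). All the points `x` of `t ++ [o]` are in `p`; put
`z = x - u`. Since `x` is a honeycomb vertex, `F0 z` is `2` or `0` mod 3, and if `F0 z = 0` then `z.2 < 0` (`x` is not
on the slit, `x ≠ u`). So `z` is in the set `A`: `F0 z < 0 ∨ 2 ≤ F0 z ∨ (F0 z = 0 ∧ z.2 < 0)`. Potential
`Sup z = if sec z = 0 ∨ (sec z = 1 ∧ 0 < F0 z) then sec z else sec z - 6`; for `z, z'` in `A`, both nonzero, with
`U (z' - z)`: `dl z z' = Sup z' - Sup z` (`dl_eq_of`, case analysis, `omega`). By induction on the list (as in `Th_eq_S`)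
`Th u (v :: t' ++ [o]) = Sup (v - u) - Sup (- u)`. Finally `S u - Sup (- u) = 3` (`F0 u > 0`; the four sectors
0, 1, 5, 4 of `u`: `S u = 0, 1, -1, -2`, `Sup (- u) = -3, -2, -4, -5`), and `v - u` is `(1, 0)` (`Sup = 0`, `Tn = 3`),
`(0, -1)` (`Sup = -2`, `Tn = 1`) or `(-1, 1)` (`Sup = -4`, `Tn = -1`): `u` has residue 1, so these are its neighbours.
(2) `rg_exit`: either `¬ D c u`, then `exit_class` (the walk is also a walk of `D c`, `IsSaw.mono`) gives `ExitKind`; the
kinds `±4, ±5` do not occur as `c.a3 = c.b3 = 0` (copy the `omega` argument of `no_slit`); the kinds with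
`u - v = (-1, 0)` are `3` and `-3`; if `3 T + 1 < F0 u` then `F0 v ≤ 3 T + 1` and the residues give `F0 u - F0 v ≥ 2`,
so `u - v = (1, 0)` and the kind is `0`. Or `D c u` and `u` is a slit vertex: (1) (here `δ ≥ 1` because `D c u`
implies `F0 u ≥ 0`), and `F0 u ≤ 3 T + 1`.
-/

namespace Pool.Agent.HEP

open Pool.Agent.Hhelper14.SAW Pool.Agent.HHP

/-- Lifted sector in the plane cut along the half line `F0 z = 0`, `0 ≤ z.2`. -/
private def GTSup (z : ℤ × ℤ) : ℤ := if sec z = 0 ∨ (sec z = 1 ∧ 0 < F0 z) then sec z else sec z - 6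

/-- Admissible points. -/
private def GTA (z : ℤ × ℤ) : Prop := F0 z < 0 ∨ 2 ≤ F0 z ∨ (F0 z = 0 ∧ z.2 < 0)

private lemma GTA.nz {z : ℤ × ℤ} (h : GTA z) : NZ z := by
  simp only [GTA, NZ, F0] at *
  omega

private lemma GTSup_mod (z : ℤ × ℤ) : (GTSup z - sec z) % 6 = 0 := by
  unfold GTSup; split_ifs <;> omega

private lemma GTSup_pos {z : ℤ × ℤ} (h : 0 < F0 z) : -2 ≤ GTSup z ∧ GTSup z ≤ 1 := by
  obtain ⟨a, b⟩ := z
  unfold GTSup sec
  simp only [F0] at *
  split_ifs <;> omega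

private lemma GTSup_neg {z : ℤ × ℤ} (h : F0 z < 0) : -5 ≤ GTSup z ∧ GTSup z ≤ -2 := by
  obtain ⟨a, b⟩ := z
  unfold GTSup sec
  simp only [F0] at *
  split_ifs <;> omega

private lemma GTSup_zero {z : ℤ × ℤ} (h : F0 z = 0) (h2 : z.2 < 0) : GTSup z = -2 := by
  obtain ⟨a, b⟩ := z
  unfold GTSup sec
  simp only [F0] at *
  split_ifs <;> omega

private lemma GT_F0_step {z z' : ℤ × ℤ} (h : U (z' - z)) : -2 ≤ F0 z' - F0 z ∧ F0 z' - F0 z ≤ 2 := by
  simp only [U, F0, Prod.fst_sub, Prod.snd_sub] at *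
  omega

private lemma GTSup_step {z z' : ℤ × ℤ} (hz : GTA z) (hz' : GTA z') (h : U (z' - z)) :
    -1 ≤ GTSup z' - GTSup z ∧ GTSup z' - GTSup z ≤ 1 := by
  have h1 := sec_step hz.nz hz'.nz h
  have h2 := GTSup_mod z
  have h3 := GTSup_mod z'
  have h4 := GT_F0_step h
  rcases hz with hz | hz | hz <;> rcases hz' with hz' | hz' | hz'
  · have := GTSup_neg hz; have := GTSup_neg hz'; omega
  · omega
  · have := GTSup_neg hz; have := GTSup_zero hz'.1 hz'.2; omega
  · omega
  · have := GTSup_pos (z := z) (by omega); have := GTSup_pos (z := z') (by omega); omega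
  · have := GTSup_pos (z := z) (by omega); have := GTSup_zero hz'.1 hz'.2; omega
  · have := GTSup_zero hz.1 hz.2; have := GTSup_neg hz'; omega
  · have := GTSup_zero hz.1 hz.2; have := GTSup_pos (z := z') (by omega); omega
  · have := GTSup_zero hz.1 hz.2; have := GTSup_zero hz'.1 hz'.2; omega

private lemma GTdl {z z' : ℤ × ℤ} (hz : GTA z) (hz' : GTA z') (h : U (z' - z)) :
    dl z z' = GTSup z' - GTSup z := by
  have hs := GTSup_step hz hz' h
  have h1 := GTSup_mod z
  have h2 := GTSup_mod z'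
  exact dl_eq_of hz.nz hz'.nz h (by omega) hs.1 hs.2

private lemma GTTh (p : ℤ × ℤ) : ∀ (P : List (ℤ × ℤ)) (h : ℤ × ℤ), UChain (h :: P) →
    (∀ x ∈ h :: P, GTA (x - p)) →
    Th p (h :: P) = GTSup (h - p) - GTSup ((h :: P).getLast (by simp) - p) := by
  intro P
  induction P with
  | nil => intro h _ _; simp
  | cons x r ih =>
    intro h hc hO
    have h1 := List.isChain_cons_cons.1 hc
    have := ih x h1.2 (fun y hy => hO y (List.mem_cons_of_mem _ hy))
    rw [Th_cons_cons, this, List.getLast_cons_cons,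
      GTdl (hO x (by simp)) (hO h (by simp)) (by simpa using h1.1)]
    ring

private lemma GT_opp {u : ℤ × ℤ} (h : 0 < F0 u) : S u - GTSup (-u) = 3 := by
  obtain ⟨a, b⟩ := u
  unfold S GTSup sec
  simp only [F0, Prod.fst_neg, Prod.snd_neg] at *
  split_ifs <;> omega

private lemma GT_nbr {u v : ℤ × ℤ} (hadj : Adj u v) {δ : ℕ} (hu : F0 u = 3 * (δ : ℤ) - 2) :
    u - v = (-1, 0) ∨ u - v = (0, 1) ∨ u - v = (1, -1) := by
  obtain ⟨a, b⟩ := u
  obtain ⟨x, y⟩ := v
  obtain ⟨h1, h2, h3⟩ := hadj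
  simp only [hon, U, F0, Prod.mk_sub_mk, Prod.mk.injEq] at *
  omega

theorem slit_turn {c : Par} {δ : ℕ} {τ : ℤ} {n : ℕ} {u v w : ℤ × ℤ} {r : List (ℤ × ℤ)}
    (hP : IsSaw (Rg c δ τ) n (v :: w :: r)) (hadj : Adj u v) (huw : u ≠ w) (hδ : 1 ≤ δ)
    (hu : F0 u = 3 * (δ : ℤ) - 2) (hu2 : τ ≤ u.2) :
    (Tn (u :: v :: w :: r) = 3 ∧ u - v = (-1, 0)) ∨ (Tn (u :: v :: w :: r) = 1 ∧ u - v = (0, 1)) ∨
      (Tn (u :: v :: w :: r) = -1 ∧ u - v = (1, -1)) := by
  have hnu : ¬ Rg c δ τ u := fun h => h.2 ⟨hu, hu2⟩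
  have hdom := Rg_dom c δ τ
  obtain ⟨t, ht, hpt, h⟩ := exit_formula hdom hP hadj huw hnu
  have huo : u - o = u := by simp [o]
  have hou : o - u = -u := by simp [o]
  have hF : 0 < F0 u := by omega
  rcases h with ⟨rfl, h⟩ | ⟨t', rfl, hvo, h⟩
  · simp only [List.nil_append, List.cons.injEq] at ht
    obtain ⟨rfl, rfl, rfl⟩ := ht
    rw [h, huo]
    have h1 := hex_nbr hadj adj_o huw
    have h2 : u = (0, 1) ∨ u = (1, -1) := by
      obtain ⟨a, b⟩ := u
      simp only [o, o', L, R, Prod.mk_sub_mk, Prod.mk.injEq] at h1 ⊢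
      omega
    rcases h2 with rfl | rfl
    · right; left; decide
    · right; right; decide
  · have hUC : UChain (v :: (t' ++ [o])) := by
      have h1 : HChain ((v :: (t' ++ [o])) ++ [o']) := by
        have h2 : (v :: (t' ++ [o])) ++ [o'] = v :: w :: r := by rw [ht]; simp
        rw [h2]; exact hP.2.2.1
      exact HChain.U (List.isChain_append.1 h1).1
    have hw := GTTh u (t' ++ [o]) v hUC (by
      intro x hx
      obtain ⟨⟨g1, -⟩, g2⟩ := hpt x (by simpa using hx)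
      obtain ⟨a, b⟩ := x
      obtain ⟨a', b'⟩ := u
      simp only [hon, GTA, F0, Prod.mk_sub_mk] at *
      omega)
    have hgl : (v :: (t' ++ [o])).getLast (by simp) = o := by simp
    rw [hgl, hou] at hw
    have hv := hpt v (by simp)
    have hov : Off (v - o) := by
      have h1 := hdom.off v hv
      have h4 : ¬ (v.1 = 0 ∧ v.2 = 0) := fun h => hvo (Prod.ext h.1 h.2)
      simp only [slit, Off, o, Prod.fst_sub, Prod.snd_sub] at *
      omega
    have hou' : Off (u - o) := by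
      simp only [Off, o, Prod.fst_sub, Prod.snd_sub, F0] at *
      omega
    have hd := dl_eq_S hov hou' (by simpa using hadj.2.2)
    have hopp := GT_opp hF
    have hw' : Th u ((v :: t') ++ [o]) = GTSup (v - u) - GTSup (-u) := hw
    have hT : Tn (u :: v :: w :: r) = 3 + GTSup (v - u) := by
      rw [h, hd, hw', huo]
      omega
    rcases GT_nbr hadj hu with e | e | e
    · left
      refine ⟨?_, e⟩
      rw [hT, vsub e]
      decide
    · right; left
      refine ⟨?_, e⟩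
      rw [hT, vsub e]
      decide
    · right; right
      refine ⟨?_, e⟩
      rw [hT, vsub e]
      decide

theorem rg_exit {T M δ : ℕ} {τ : ℤ} {n : ℕ} {u v w : ℤ × ℤ} {r : List (ℤ × ℤ)}
    (hP : IsSaw (Rg (cc T M) δ τ) n (v :: w :: r)) (hadj : Adj u v) (huw : u ≠ w)
    (hu : ¬ Rg (cc T M) δ τ u) :
    (-3 ≤ Tn (u :: v :: w :: r) ∧ Tn (u :: v :: w :: r) ≤ 3) ∧
      (3 * (T : ℤ) + 1 < F0 u → Tn (u :: v :: w :: r) = 0 ∧ u - v = (1, 0)) ∧
      (u - v = (-1, 0) → Tn (u :: v :: w :: r) = 3 ∨ Tn (u :: v :: w :: r) = -3) := by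
  have hPD : IsSaw (D (cc T M)) n (v :: w :: r) := hP.mono fun x hx => hx.1
  have hv : D (cc T M) v := hPD.head_mem
  by_cases hD : D (cc T M) u
  · -- a slit vertex
    have hs : F0 u = 3 * (δ : ℤ) - 2 ∧ τ ≤ u.2 := by
      by_contra hcon
      exact hu ⟨hD, hcon⟩
    have hF : 0 ≤ F0 u ∧ F0 u ≤ 3 * T + 1 := by
      obtain ⟨g0, g1, g2, g3, g4, g5, g6⟩ := hD
      simp only [cc, F3, F0] at *
      rcases lt_or_ge u.2 0 with h | h
      · have := g6 h; omega
      · have := g5 h; omega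
    have h := slit_turn hP hadj huw (by omega) hs.1 hs.2
    rcases h with ⟨h1, h2⟩ | ⟨h1, h2⟩ | ⟨h1, h2⟩ <;> rw [h1, h2] <;>
      refine ⟨by omega, fun h => by omega, fun h => ?_⟩
    · left; rfl
    · simp at h
    · simp at h
  · have hk := exit_class hPD hadj huw hD
    have hF : 0 ≤ F0 v ∧ F0 v ≤ 3 * T + 1 := by
      obtain ⟨g0, g1, g2, g3, g4, g5, g6⟩ := hv
      simp only [cc, F3, F0] at *
      rcases lt_or_ge v.2 0 with h | h
      · have := g6 h; omega
      · have := g5 h; omega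
    have hru : F0 u % 3 ≠ 2 := by
      have := hadj.1
      simp only [hon, F0] at *; omega
    have hrv : F0 v % 3 ≠ 2 := by
      have := hadj.2.1
      simp only [hon, F0] at *; omega
    have hsl : slit u → F0 u ≤ -2 := by
      intro h
      simp only [slit, F0] at *; omega
    have hsub : F0 u = F0 v + F0 (u - v) := by
      simp only [F0, Prod.fst_sub, Prod.snd_sub]; ring
    generalize Tn (u :: v :: w :: r) = k at hk
    have e1 : F0 ((1, 0) : ℤ × ℤ) = 2 := by decide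
    have e2 : F0 ((0, 1) : ℤ × ℤ) = 1 := by decide
    have e3 : F0 ((1, -1) : ℤ × ℤ) = 1 := by decide
    have e4 : F0 ((-1, 1) : ℤ × ℤ) = -1 := by decide
    have e5 : F0 ((-1, 0) : ℤ × ℤ) = -2 := by decide
    have e6 : F0 ((0, -1) : ℤ × ℤ) = -1 := by decide
    rcases hk with ⟨rfl, h1, h2, h3⟩ | ⟨rfl, h1, h2, h3⟩ | ⟨rfl, h1, h2, h3⟩ | ⟨rfl, h1, h2, h4, h3⟩ |
      ⟨rfl, h1, h2, h4, h3⟩ | ⟨rfl, h1, h2, h4, h3⟩ | ⟨rfl, h1, h2, h4, h3⟩ | ⟨rfl, h1, h3⟩ | ⟨rfl, h1, h3⟩ |
      ⟨rfl, h1, h3⟩ | ⟨rfl, h1, h3⟩ <;> rw [h3] at hsub ⊢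
    · exact ⟨by omega, fun _ => ⟨rfl, rfl⟩, fun h => by simp at h⟩
    · exact ⟨by omega, fun h => by omega, fun h => by simp at h⟩
    · exact ⟨by omega, fun h => by omega, fun h => by simp at h⟩
    · exact ⟨by omega, fun h => by omega, fun h => by simp at h⟩
    · exact ⟨by omega, fun h => by omega, fun h => by simp⟩
    · exact ⟨by omega, fun h => by omega, fun h => by simp at h⟩
    · exact ⟨by omega, fun h => by omega, fun h => by simp⟩
    · have := hsl h1; omega
    · have := hsl h1; omega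
    · have := hsl h1; omega
    · have := hsl h1; omega

end Pool.Agent.HEP
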