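import Mathlib

/-!
Project HEP (MP_8c6f77_pr, honeycomb lattice, `a_n ≤ C μ^n exp (n^ε)`): THE ABSTRACT SETTING.
Only definitions and trivial lemmas. Everything of the sections (1)-(4) (recursion for `T`, parameters, product
chain bound) is a statement about a system `S : Sys` which satisfies `S.Hyp n K`; the geometry of the honeycomb
lattice supplies one system for every `n`, with an absolute constant `K`.

DICTIONARY.
* `B` = irreducible bridges (blocks). `ht c` = number of columns of the block `c` (at least 1), `dx c` = lateral
  displacement (declared `0` if the block has more than `n` steps), `wt c` = mass, `rf c` = reflected block,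
  `ee c` = a correction `0, 1, -1` of the position at the first fold (see `p1`).
* A word `l : List B` is a leg, READ FROM THE FOLD OUTWARD. `h l` = height, `x l` = displacement, `w l` = mass.
* `lam k` = mass of the blocks of height `k`, `Lam k` = mass of the blocks of height `> k` (so `Lam 0 = 1`),
  `b k` = mass of the words of height `k` (renewal mass; `b 0 = 1`), `U N = b 0 + ... + b N`.
* At a fold there are two legs. Leg 1 = the last columns of the older strand (the column of the fold included),
  leg 2 = the first columns of the younger strand. `Av l1 l2`: the two legs do not meet and all their blocks have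
  at most `n` steps; `l1` = leg 1, `l2` = leg 2. The levels are the lines between the columns of the younger
  strand: leg 2 of height `v` ends at the level `v`, leg 1 of height `u ≥ 1` ends at the level `u - 1`.
* `σ : Bool` says which leg is the LONG one: `σ = true`: the long leg `l` is leg 1, the short leg `s` is leg 2;
  `σ = false`: the long leg `l` is leg 2, the short leg `s` is leg 1. `d true = 1`, `d false = 0`.
  `h l - d σ` (natural subtraction) is the level at which the long leg ends (for `σ = true`), resp. the largest
  height of a short leg that ends below it. `del σ l s = h l - d σ - h s`.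
* `hi σ l j`, `lo σ l j`: the largest and the smallest lateral position of a crossing of the level where a short
  leg of height `j` ends, by the long leg `l`. `ps σ s`, `pl σ l`: lateral positions of the ends of the legs.
* `good σ G l s`: the legs do not meet, `h s ≤ h l - d σ`, and all the crossings of the end level of `s` by `l` are on
  one side of the end of `s`, at distance at least `G` (`G = 1`: one-sidedness only).
* `T σ M`, `TT M`, `a N`, `J l-heights`: the sums of the paper.
* A chain is a list of strands (words of blocks in their natural order), of strictly decreasing heights;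
  consecutive strands `W, W'` satisfy `Av W.reverse W'`.
-/

namespace Pool.Agent.HEP

open scoped ENNReal

/-- Indicator of a proposition. -/
noncomputable def ind (p : Prop) : ℝ≥0∞ := by
  classical
  exact if p then 1 else 0

lemma ind_true {p : Prop} (h : p) : ind p = 1 := by
  unfold ind; exact if_pos h

lemma ind_false {p : Prop} (h : ¬ p) : ind p = 0 := by
  unfold ind; exact if_neg h

lemma ind_le_one (p : Prop) : ind p ≤ 1 := by
  by_cases h : p
  · rw [ind_true h]
  · rw [ind_false h]; exact zero_le_one

lemma ind_mono {p q : Prop} (h : p → q) : ind p ≤ ind q := by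
  by_cases hp : p
  · rw [ind_true hp, ind_true (h hp)]
  · rw [ind_false hp]; exact bot_le

lemma ind_congr {p q : Prop} (h : p ↔ q) : ind p = ind q :=
  le_antisymm (ind_mono h.1) (ind_mono h.2)

lemma ind_and (p q : Prop) : ind (p ∧ q) = ind p * ind q := by
  by_cases hp : p <;> by_cases hq : q <;> simp [ind_true, ind_false, hp, hq]

lemma ind_or_le (p q : Prop) : ind (p ∨ q) ≤ ind p + ind q := by
  by_cases hp : p
  · rw [ind_true (Or.inl hp), ind_true hp]; exact le_self_add
  · rw [ind_false hp, zero_add]; exact ind_mono fun h => h.resolve_left hp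

lemma ind_mul_self (p : Prop) : ind p * ind p = ind p := by
  by_cases hp : p <;> simp [ind_true, ind_false, hp]

lemma ind_ne_top (p : Prop) : ind p ≠ ⊤ := ne_top_of_le_ne_top ENNReal.one_ne_top (ind_le_one p)

/-- The alphabet: blocks with height, displacement, correction, weight, reflection. -/
structure Alph where
  /-- blocks -/
  B : Type
  /-- height (number of columns) -/
  ht : B → ℕ
  /-- lateral displacement -/
  dx : B → ℤ
  /-- correction of the position, see `Sys.p1` -/
  ee : B → ℤ
  /-- mass -/
  wt : B → ℝ≥0∞
  /-- reflection -/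
  rf : B → B
  ht_pos : ∀ c, 1 ≤ ht c
  ee_le : ∀ c, |ee c| ≤ 1
  rf_rf : ∀ c, rf (rf c) = c
  ht_rf : ∀ c, ht (rf c) = ht c
  wt_rf : ∀ c, wt (rf c) = wt c
  dx_rf : ∀ c, dx (rf c) = - dx c
  tot : ∑' c, wt c = 1

namespace Alph

variable (A : Alph)

/-- Height of a word. -/
def h (l : List A.B) : ℕ := (l.map A.ht).sum

/-- Displacement of a word. -/
def x (l : List A.B) : ℤ := (l.map A.dx).sum

/-- Mass of a word. -/
noncomputable def w (l : List A.B) : ℝ≥0∞ := (l.map A.wt).prod

/-- Mass of the blocks of height `k`. -/
noncomputable def lam (k : ℕ) : ℝ≥0∞ := ∑' c, ind (A.ht c = k) * A.wt c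

/-- Mass of the blocks of height larger than `k`. -/
noncomputable def Lam (k : ℕ) : ℝ≥0∞ := ∑' c, ind (k < A.ht c) * A.wt c

/-- Mass of the words of height `k`. -/
noncomputable def b (k : ℕ) : ℝ≥0∞ := ∑' l, ind (A.h l = k) * A.w l

/-- Renewal function. -/
noncomputable def U (N : ℕ) : ℝ≥0∞ := ∑ k ∈ Finset.range (N + 1), A.b k

lemma h_nil : A.h [] = 0 := rfl
lemma x_nil : A.x [] = 0 := rfl
lemma w_nil : A.w [] = 1 := rfl

lemma h_cons (c : A.B) (l : List A.B) : A.h (c :: l) = A.ht c + A.h l := by simp [h]
lemma x_cons (c : A.B) (l : List A.B) : A.x (c :: l) = A.dx c + A.x l := by simp [x]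
lemma w_cons (c : A.B) (l : List A.B) : A.w (c :: l) = A.wt c * A.w l := by simp [w]

lemma h_append (l m : List A.B) : A.h (l ++ m) = A.h l + A.h m := by simp [h]
lemma x_append (l m : List A.B) : A.x (l ++ m) = A.x l + A.x m := by simp [x]
lemma w_append (l m : List A.B) : A.w (l ++ m) = A.w l * A.w m := by simp [w]

lemma h_reverse (l : List A.B) : A.h l.reverse = A.h l := by
  unfold h; rw [List.map_reverse, List.sum_reverse]
lemma x_reverse (l : List A.B) : A.x l.reverse = A.x l := by
  unfold x; rw [List.map_reverse, List.sum_reverse]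
lemma w_reverse (l : List A.B) : A.w l.reverse = A.w l := by
  unfold w; rw [List.map_reverse, List.prod_reverse]

lemma length_le_h (l : List A.B) : l.length ≤ A.h l := by
  induction l with
  | nil => simp [h]
  | cons c l ih => rw [h_cons, List.length_cons]; have := A.ht_pos c; omega

lemma h_eq_zero {l : List A.B} : A.h l = 0 ↔ l = [] := by
  constructor
  · intro e
    have := A.length_le_h l
    rw [e] at this
    exact List.length_eq_zero_iff.1 (by omega)
  · rintro rfl; rfl

/-- The longest prefix of height at most `N` (the part up to the last renewal `≤ N`). -/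
def cut (N : ℕ) : List A.B → List A.B
  | [] => []
  | c :: l => if A.ht c ≤ N then c :: cut (N - A.ht c) l else []

lemma cut_prefix (N : ℕ) (l : List A.B) : ∃ r, l = A.cut N l ++ r := by
  induction l generalizing N with
  | nil => exact ⟨[], rfl⟩
  | cons c l ih =>
    unfold cut
    split_ifs with h1
    · obtain ⟨r, hr⟩ := ih (N - A.ht c)
      exact ⟨r, by rw [List.cons_append, ← hr]⟩
    · exact ⟨c :: l, rfl⟩

lemma h_cut_le (N : ℕ) (l : List A.B) : A.h (A.cut N l) ≤ N := by
  induction l generalizing N with
  | nil => exact Nat.zero_le _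
  | cons c l ih =>
    unfold cut
    split_ifs with h1
    · rw [h_cons]; have := ih (N - A.ht c); omega
    · exact Nat.zero_le _

/-- The block after the cut crosses the level `N`. -/
lemma h_cut_lt (N : ℕ) (l : List A.B) {c : A.B} {r : List A.B} (e : l = A.cut N l ++ c :: r) :
    N < A.h (A.cut N l) + A.ht c := by
  induction l generalizing N with
  | nil => simp [cut] at e
  | cons a l ih =>
    unfold cut at e ⊢
    split_ifs at e ⊢ with h1
    · rw [List.cons_append, List.cons.injEq] at e
      have := ih (N - A.ht a) e.2
      rw [h_cons]; omega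
    · rw [List.nil_append, List.cons.injEq] at e
      rw [← e.1, h_nil]; omega

end Alph

/-- The system: alphabet, avoidance of the two legs at a fold, extreme crossings. -/
structure Sys extends Alph where
  /-- avoidance: leg 1, leg 2 (both read from the fold outward) -/
  Av : List B → List B → Prop
  Av_pre : ∀ l l' s s', Av (l ++ l') (s ++ s') → Av l s
  /-- largest crossing: which leg is long, the long leg, height of the short leg -/
  hi : Bool → List B → ℕ → ℤ
  /-- smallest crossing -/
  lo : Bool → List B → ℕ → ℤ

namespace Sys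

variable (S : Sys)

/-- Shift of the level of the long leg: `1` if the long leg is leg 1, `0` if it is leg 2. -/
def d (σ : Bool) : ℕ := if σ then 1 else 0

lemma d_true : d true = 1 := rfl
lemma d_false : d false = 0 := rfl
lemma d_le (σ : Bool) : d σ ≤ 1 := by cases σ <;> simp [d]

/-- Avoidance of a long leg `l` and a short leg `s`. -/
def av (σ : Bool) (l s : List S.B) : Prop := if σ then S.Av l s else S.Av s l

lemma av_true (l s : List S.B) : S.av true l s = S.Av l s := rfl
lemma av_false (l s : List S.B) : S.av false l s = S.Av s l := rfl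

lemma av_pre {σ : Bool} {l l' s s' : List S.B} (h : S.av σ (l ++ l') (s ++ s')) : S.av σ l s := by
  cases σ
  · exact S.Av_pre _ _ _ _ h
  · exact S.Av_pre _ _ _ _ h

/-- Position of the end of leg 1. -/
def p1 : List S.B → ℤ
  | [] => 0
  | c :: l => S.ee c + S.x (c :: l)

/-- Position of the end of the long leg. -/
def pl (σ : Bool) (l : List S.B) : ℤ := if σ then S.p1 l else S.x l

/-- Position of the end of the short leg. -/
def ps (σ : Bool) (s : List S.B) : ℤ := if σ then S.x s else S.p1 s

lemma p1_append {s : List S.B} (hs : s ≠ []) (s' : List S.B) : S.p1 (s ++ s') = S.p1 s + S.x s' := by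
  cases s with
  | nil => exact absurd rfl hs
  | cons c s => simp only [List.cons_append, p1]; rw [S.x_cons, S.x_cons, S.x_append]; ring

lemma ps_append {σ : Bool} {s : List S.B} (hs : s ≠ []) (s' : List S.B) :
    S.ps σ (s ++ s') = S.ps σ s + S.x s' := by
  cases σ
  · exact S.p1_append hs s'
  · exact S.x_append s s'

lemma p1_sub (l : List S.B) : |S.p1 l - S.x l| ≤ 1 := by
  cases l with
  | nil => simp [p1, S.x_nil]
  | cons c l => simp only [p1]; rw [add_sub_cancel_right]; exact S.ee_le c

lemma pl_sub (σ : Bool) (l : List S.B) : |S.pl σ l - S.x l| ≤ 1 := by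
  cases σ
  · simp [pl]
  · exact S.p1_sub l

lemma ps_sub (σ : Bool) (s : List S.B) : |S.ps σ s - S.x s| ≤ 1 := by
  cases σ
  · exact S.p1_sub s
  · simp [ps]

/-- The height by which the long leg exceeds the short leg. -/
def del (σ : Bool) (l s : List S.B) : ℕ := S.h l - d σ - S.h s

/-- One-sidedness at distance `G`. -/
def os (σ : Bool) (G : ℕ) (l s : List S.B) : Prop :=
  s = [] ∨ S.hi σ l (S.h s) + G ≤ S.ps σ s ∨ S.ps σ s + G ≤ S.lo σ l (S.h s)

/-- Good pairs (long leg `l`, short leg `s`), gap at least `G`. -/
def good (σ : Bool) (G : ℕ) (l s : List S.B) : Prop :=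
  S.av σ l s ∧ S.h s ≤ S.h l - d σ ∧ S.os σ G l s

/-- The function `T` of one side. -/
noncomputable def T (σ : Bool) (M : ℕ) : ℝ≥0∞ :=
  ∑' l, ∑' s, ind (S.good σ 1 l s ∧ S.h l ≤ M) * (S.w l * S.w s * S.Lam (S.del σ l s))

/-- The function `T`. -/
noncomputable def TT (M : ℕ) : ℝ≥0∞ := S.T true M + S.T false M

/-- Probability that the parts of two independent legs up to the last renewals `≤ N` do not meet. -/
noncomputable def a (N : ℕ) : ℝ≥0∞ :=
  ∑' l, ∑' s, ind (S.Av l s ∧ S.h l ≤ N ∧ S.h s ≤ N) * (S.w l * S.w s * (S.Lam (N - S.h l) * S.Lam (N - S.h s)))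

/-- Mass of the pairs of legs of heights `p` (leg 1) and `q` (leg 2). -/
noncomputable def J (p q : ℕ) : ℝ≥0∞ :=
  ∑' l, ∑' s, ind (S.Av l s ∧ S.h l = p ∧ S.h s = q) * (S.w l * S.w s)

/-- The slit bound, with constant `K`. -/
def C1 (K : ℕ) : Prop :=
  ∀ (σ : Bool) (δ X G : ℕ), 1 ≤ G →
    (G : ℝ≥0∞) * ∑' l, ∑' s, ind (S.good σ G l s ∧ S.h l - d σ = S.h s + δ ∧ |S.pl σ l - S.ps σ s| ≤ X) *
      (S.w l * S.w s) ≤ K * (G + X) * S.b δ

/-- Chains of strands. -/
def Chn : List (List S.B) → Prop
  | [] => True
  | [_] => True
  | W :: W' :: c => (S.h W' < S.h W ∧ S.Av W.reverse W') ∧ Chn (W' :: c)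

/-- The mass of all the chains of strands of heights `1, ..., N`. -/
noncomputable def chm (N : ℕ) : ℝ≥0∞ :=
  ∑' c : List (List S.B), ind (S.Chn c ∧ ∀ W ∈ c, 1 ≤ S.h W ∧ S.h W ≤ N) * (c.map S.w).prod

/-- The hypotheses which the geometry supplies (`n` = bound for the number of steps of the blocks, `K` absolute). -/
structure Hyp (n K : ℕ) : Prop where
  /-- `b` is nonincreasing -/
  anti : Antitone S.b
  /-- displacements -/
  dxn : ∀ c, |S.dx c| ≤ n
  /-- the moving blocks have mass at least `1 / K` -/
  mov : 1 ≤ (K : ℝ≥0∞) * ∑' c, ind (S.dx c ≠ 0) * S.wt c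
  /-- the slit bound -/
  c1 : S.C1 K
  /-- planarity: the younger leg is the longer one, then the older leg is one-sided w.r.t. the cut younger leg -/
  plt : ∀ l s, S.Av l s → S.h l ≤ S.h s → S.os true 1 l (S.cut (S.h l - 1) s)
  /-- planarity: the older leg is the longer one, then the younger leg is one-sided w.r.t. the cut older leg -/
  plf : ∀ l s, S.Av s l → S.h l < S.h s → S.os false 1 l (S.cut (S.h l) s)

end Sys

end Pool.Agent.HEP
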