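import Pool.Agent.HEP.ChSum
import Pool.Agent.HEP.ScMain

/-!
Project HEP, section (4), conclusion: the mass of the chains of strands is at most `exp (C n ^ ε)`.
-/

namespace Pool.Agent.HEP

open scoped ENNReal
open Finset

namespace Ch

theorem log_bound {ε : ℝ} (hε : 0 < ε) {n : ℕ} (hn : 1 ≤ n) :
    ((Nat.log 2 n : ℝ) + 1) ^ 3 ≤ (1 + 12 / ε) ^ 3 * (n : ℝ) ^ (ε / 2) := by
  have hn1 : (1 : ℝ) ≤ n := by exact_mod_cast hn
  have hn0 : (0 : ℝ) < n := by linarith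
  have h1 : (Nat.log 2 n : ℝ) ≤ 2 * Real.log n := by
    have h2 : (Nat.log 2 n : ℝ) * Real.log 2 ≤ Real.log n := by
      rw [← Real.log_pow]
      refine Real.log_le_log (by positivity) ?_
      exact_mod_cast Nat.pow_log_le_self 2 (by omega : n ≠ 0)
    have h3 : (1 / 2 : ℝ) ≤ Real.log 2 := by
      have := Real.log_two_gt_d9
      linarith
    have h4 : (0 : ℝ) ≤ (Nat.log 2 n : ℝ) := Nat.cast_nonneg _
    nlinarith
  have h5 : Real.log n ≤ (n : ℝ) ^ (ε / 6) / (ε / 6) := Real.log_le_rpow_div hn0.le (by positivity)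
  have h6 : (1 : ℝ) ≤ (n : ℝ) ^ (ε / 6) := Real.one_le_rpow hn1 (by positivity)
  have h7 : (Nat.log 2 n : ℝ) + 1 ≤ (1 + 12 / ε) * (n : ℝ) ^ (ε / 6) := by
    have e : (n : ℝ) ^ (ε / 6) / (ε / 6) = 6 / ε * (n : ℝ) ^ (ε / 6) := by field_simp
    rw [e] at h5
    calc (Nat.log 2 n : ℝ) + 1 ≤ 2 * (6 / ε * (n : ℝ) ^ (ε / 6)) + (n : ℝ) ^ (ε / 6) := by linarith
      _ = _ := by ring
  calc ((Nat.log 2 n : ℝ) + 1) ^ 3 ≤ ((1 + 12 / ε) * (n : ℝ) ^ (ε / 6)) ^ 3 := by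
        have : (0 : ℝ) ≤ (Nat.log 2 n : ℝ) := Nat.cast_nonneg _
        gcongr
    _ = (1 + 12 / ε) ^ 3 * (n : ℝ) ^ (ε / 2) := by
        rw [mul_pow, ← Real.rpow_natCast ((n : ℝ) ^ (ε / 6)), ← Real.rpow_mul hn0.le]
        congr 2
        push_cast
        ring

end Ch

/-- **The mass of the chains of strands.** -/
theorem ch_main (ε : ℝ) (hε : 0 < ε) (K : ℕ) : ∃ C : ℝ, 0 < C ∧ ∀ (S : Sys) (n : ℕ), 1 ≤ n → S.Hyp n K →
    S.chm n ≤ ENNReal.ofReal (Real.exp (C * (n : ℝ) ^ ε)) := by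
  obtain ⟨C0, hC0, h0⟩ := sc_main (ε / 2) (by positivity) K
  refine ⟨137 * (1 + C0) * (1 + 12 / ε) ^ 3, by positivity, fun S n hn hH => ?_⟩
  have hn1 : (1 : ℝ) ≤ n := by exact_mod_cast hn
  have hn0 : (0 : ℝ) < n := by linarith
  have h1 : (1 : ℝ) ≤ (n : ℝ) ^ (ε / 2) := Real.one_le_rpow hn1 (by positivity)
  have hℓ : 1 ≤ (1 + C0) * (n : ℝ) ^ (ε / 2) := by nlinarith
  have ha : ∀ m ≤ n, S.a m * S.U m ≤ ENNReal.ofReal ((1 + C0) * (n : ℝ) ^ (ε / 2)) := by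
    intro m hm
    refine (h0 S n hn hH m hm).trans (ENNReal.ofReal_le_ofReal ?_)
    nlinarith
  refine (Ch.chm_le hH.anti hn hℓ ha).trans (ENNReal.ofReal_le_ofReal (Real.exp_le_exp.2 ?_))
  calc 137 * ((1 + C0) * (n : ℝ) ^ (ε / 2)) * ((Nat.log 2 n : ℝ) + 1) ^ 3
      ≤ 137 * ((1 + C0) * (n : ℝ) ^ (ε / 2)) * ((1 + 12 / ε) ^ 3 * (n : ℝ) ^ (ε / 2)) :=
        mul_le_mul_of_nonneg_left (Ch.log_bound hε hn) (by positivity)
    _ = 137 * (1 + C0) * (1 + 12 / ε) ^ 3 * ((n : ℝ) ^ (ε / 2) * (n : ℝ) ^ (ε / 2)) := by ring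
    _ = 137 * (1 + C0) * (1 + 12 / ε) ^ 3 * (n : ℝ) ^ ε := by
        rw [← Real.rpow_add hn0]
        congr 2
        ring

end Pool.Agent.HEP
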