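import Pool.Agent.HEP.ChTr

/-!
Project HEP, section (4): chains of strands; from the chains to the recursions `Wf`, `Tf`; the scales.
-/

namespace Pool.Agent.HEP

open scoped ENNReal
open Finset

namespace Ch

variable (S : Sys)

/-- Heights in `[A0, A1)`. -/
def HtIn (A0 A1 : ℕ) (c : List (List S.B)) : Prop := ∀ W ∈ c, A0 ≤ S.h W ∧ S.h W < A1

/-- The first strand does not meet the near part `P`. -/
def HeadAv (r : ℕ) (P : List S.B) (c : List (List S.B)) : Prop := ∀ W ∈ c.head?, S.Av P (S.cut r W)

/-- Mass of the chains with heights in `[A0, A1)`. -/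
noncomputable def CC (A0 A1 : ℕ) : ℝ≥0∞ :=
  ∑' c : List (List S.B), ind (S.Chn c ∧ HtIn S A0 A1 c) * (c.map S.w).prod

variable {S}

theorem chn_tail {W : List S.B} {c : List (List S.B)} (h : S.Chn (W :: c)) : S.Chn c := by
  cases c with
  | nil => trivial
  | cons W' c => exact h.2

theorem chn_lt {W : List S.B} {c : List (List S.B)} (h : S.Chn (W :: c)) : ∀ W' ∈ c, S.h W' < S.h W := by
  induction c generalizing W with
  | nil => intro W' h'; simp at h'
  | cons W1 c ih =>
    intro W' h'
    rw [List.mem_cons] at h'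
    rcases h' with rfl | h'
    · exact h.1.1
    · exact (ih h.2 W' h').trans h.1.1

theorem chn_head {W : List S.B} {c : List (List S.B)} (h : S.Chn (W :: c)) (r : ℕ) :
    HeadAv S r (S.cut r W.reverse) c := by
  cases c with
  | nil => intro W' h'; simp at h'
  | cons W1 c =>
    intro W' h'
    simp only [List.head?_cons, Option.mem_def, Option.some.injEq] at h'
    subst h'
    have h2 := h.1.2
    obtain ⟨r1, h1⟩ := S.cut_prefix r W.reverse
    obtain ⟨r2, h3⟩ := S.cut_prefix r W1
    rw [h1, h3] at h2
    exact S.Av_pre _ _ _ _ h2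

theorem chn_append {c c' : List (List S.B)} (h : S.Chn (c ++ c')) : S.Chn c ∧ S.Chn c' := by
  induction c with
  | nil => exact ⟨trivial, h⟩
  | cons W c ih =>
    rw [List.cons_append] at h
    have h1 := ih (chn_tail h)
    refine ⟨?_, h1.2⟩
    cases c with
    | nil => trivial
    | cons W' c => exact ⟨h.1, h1.1⟩

/-- Only the empty chain. -/
theorem tsum_empty {Q : List (List S.B) → Prop} (h : ∀ W c, ¬ Q (W :: c)) :
    ∑' c : List (List S.B), ind (Q c) * (c.map S.w).prod ≤ 1 := by
  rw [tsum_list]
  have z : ∑' W, ∑' c, ind (Q (W :: c)) * ((W :: c).map S.w).prod = 0 := by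
    rw [ENNReal.tsum_eq_zero]; intro W
    rw [ENNReal.tsum_eq_zero]; intro c
    rw [ind_false (h W c), zero_mul]
  rw [z, add_zero]
  simp only [List.map_nil, List.prod_nil, mul_one]
  exact ind_le_one _

theorem CP_le (r A0 n : ℕ) : ∀ P : List S.B,
    ∑' c : List (List S.B), ind (S.Chn c ∧ HtIn S A0 (A0 + n) c ∧ HeadAv S r P c) * (c.map S.w).prod ≤
      Wf S r A0 n P := by
  induction n with
  | zero =>
    intro P
    simp only [Wf]
    refine tsum_empty fun W c h => ?_
    have := h.2.1 W (by simp)
    omega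
  | succ n ih =>
    intro P
    simp only [Wf]
    have e1 : ∑' c : List (List S.B), ind (S.Chn c ∧ HtIn S A0 (A0 + (n + 1)) c ∧ HeadAv S r P c) * (c.map S.w).prod ≤
        ∑' c : List (List S.B), ind (S.Chn c ∧ HtIn S A0 (A0 + n) c ∧ HeadAv S r P c) * (c.map S.w).prod +
        ∑' W, ind (S.h W = A0 + n) * (S.w W * (ind (S.Av P (S.cut r W)) *
          ∑' c : List (List S.B), ind (S.Chn c ∧ HtIn S A0 (A0 + n) c ∧ HeadAv S r (S.cut r W.reverse) c) *
            (c.map S.w).prod)) := by
      rw [tsum_list, tsum_list (fun c : List (List S.B) =>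
        ind (S.Chn c ∧ HtIn S A0 (A0 + n) c ∧ HeadAv S r P c) * (c.map S.w).prod), add_assoc]
      refine add_le_add (mul_le_mul' (ind_mono ?_) le_rfl) ?_
      · rintro ⟨h1, h2, h3⟩
        exact ⟨h1, fun W hW => by simp at hW, h3⟩
      · rw [← ENNReal.tsum_add]
        refine ENNReal.tsum_le_tsum fun W => ?_
        rw [← ENNReal.tsum_mul_left, ← ENNReal.tsum_mul_left, ← ENNReal.tsum_mul_left, ← ENNReal.tsum_add]
        refine ENNReal.tsum_le_tsum fun c => ?_
        rw [List.map_cons, List.prod_cons]
        by_cases h : S.Chn (W :: c) ∧ HtIn S A0 (A0 + (n + 1)) (W :: c) ∧ HeadAv S r P (W :: c)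
        · obtain ⟨h1, h2, h3⟩ := h
          by_cases hW : S.h W = A0 + n
          · have h4 : HtIn S A0 (A0 + n) c := by
              intro W' hW'
              have := chn_lt h1 W' hW'
              exact ⟨(h2 W' (List.mem_cons_of_mem _ hW')).1, by omega⟩
            rw [ind_true ⟨h1, h2, h3⟩, ind_true hW, ind_true (h3 W (by simp)),
              ind_true (p := S.Chn c ∧ HtIn S A0 (A0 + n) c ∧ HeadAv S r (S.cut r W.reverse) c)
              ⟨chn_tail h1, h4, chn_head h1 r⟩]
            simp only [one_mul]
            exact le_add_self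
          · have h5 : S.h W < A0 + n := by
              have := h2 W (by simp)
              omega
            have h4 : HtIn S A0 (A0 + n) (W :: c) := by
              intro W' hW'
              rw [List.mem_cons] at hW'
              rcases hW' with rfl | hW'
              · exact ⟨(h2 W' (by simp)).1, h5⟩
              · exact ⟨(h2 W' (List.mem_cons_of_mem _ hW')).1, (chn_lt h1 W' hW').trans h5⟩
            rw [ind_true ⟨h1, h2, h3⟩, ind_true ⟨h1, h4, h3⟩]
            exact le_self_add
        · rw [ind_false h, zero_mul]; exact bot_le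
    refine e1.trans (add_le_add (ih P) (ENNReal.tsum_le_tsum fun W => ?_))
    exact mul_le_mul' le_rfl (mul_le_mul' le_rfl (mul_le_mul' le_rfl (ih _)))

/-- **Chains of one scale.** -/
theorem CC_le_Tf (r A0 n : ℕ) : CC S A0 (A0 + n) ≤ Tf S r A0 n := by
  induction n with
  | zero =>
    simp only [Tf]
    refine tsum_empty (Q := fun c => S.Chn c ∧ HtIn S A0 (A0 + 0) c) fun W c h => ?_
    have := h.2 W (by simp)
    omega
  | succ n ih =>
    simp only [Tf]
    have e1 : CC S A0 (A0 + (n + 1)) ≤ CC S A0 (A0 + n) +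
        ∑' W, ind (S.h W = A0 + n) * (S.w W *
          ∑' c : List (List S.B), ind (S.Chn c ∧ HtIn S A0 (A0 + n) c ∧ HeadAv S r (S.cut r W.reverse) c) *
            (c.map S.w).prod) := by
      unfold CC
      rw [tsum_list, tsum_list (fun c : List (List S.B) =>
        ind (S.Chn c ∧ HtIn S A0 (A0 + n) c) * (c.map S.w).prod), add_assoc]
      refine add_le_add (mul_le_mul' (ind_mono ?_) le_rfl) ?_
      · rintro ⟨h1, h2⟩
        exact ⟨h1, fun W hW => by simp at hW⟩
      · rw [← ENNReal.tsum_add]
        refine ENNReal.tsum_le_tsum fun W => ?_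
        rw [← ENNReal.tsum_mul_left, ← ENNReal.tsum_mul_left, ← ENNReal.tsum_add]
        refine ENNReal.tsum_le_tsum fun c => ?_
        rw [List.map_cons, List.prod_cons]
        by_cases h : S.Chn (W :: c) ∧ HtIn S A0 (A0 + (n + 1)) (W :: c)
        · obtain ⟨h1, h2⟩ := h
          by_cases hW : S.h W = A0 + n
          · have h4 : HtIn S A0 (A0 + n) c := by
              intro W' hW'
              have := chn_lt h1 W' hW'
              exact ⟨(h2 W' (List.mem_cons_of_mem _ hW')).1, by omega⟩
            rw [ind_true ⟨h1, h2⟩, ind_true hW,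
              ind_true (p := S.Chn c ∧ HtIn S A0 (A0 + n) c ∧ HeadAv S r (S.cut r W.reverse) c)
              ⟨chn_tail h1, h4, chn_head h1 r⟩]
            simp only [one_mul]
            exact le_add_self
          · have h5 : S.h W < A0 + n := by
              have := h2 W (by simp)
              omega
            have h4 : HtIn S A0 (A0 + n) (W :: c) := by
              intro W' hW'
              rw [List.mem_cons] at hW'
              rcases hW' with rfl | hW'
              · exact ⟨(h2 W' (by simp)).1, h5⟩
              · exact ⟨(h2 W' (List.mem_cons_of_mem _ hW')).1, (chn_lt h1 W' hW').trans h5⟩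
            rw [ind_true ⟨h1, h2⟩, ind_true ⟨h1, h4⟩]
            exact le_self_add
        · rw [ind_false h, zero_mul]; exact bot_le
    refine e1.trans (add_le_add ih (ENNReal.tsum_le_tsum fun W => ?_))
    exact mul_le_mul' le_rfl (mul_le_mul' le_rfl (CP_le r A0 n _))

/-- **Different scales**: the avoidance between them is dropped. -/
theorem CC_mul {A0 A1 A2 : ℕ} : CC S A0 A2 ≤ CC S A0 A1 * CC S A1 A2 := by
  classical
  have hinj : Function.Injective (fun c : List (List S.B) =>
      (c.takeWhile (fun W => decide (A1 ≤ S.h W)), c.dropWhile (fun W => decide (A1 ≤ S.h W)))) := by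
    intro c c' e
    simp only [Prod.mk.injEq] at e
    rw [← List.takeWhile_append_dropWhile (p := fun W => decide (A1 ≤ S.h W)) (l := c), e.1, e.2,
      List.takeWhile_append_dropWhile]
  let G : List (List S.B) × List (List S.B) → ℝ≥0∞ := fun p =>
    (ind (S.Chn p.1 ∧ HtIn S A1 A2 p.1) * (p.1.map S.w).prod) *
        (ind (S.Chn p.2 ∧ HtIn S A0 A1 p.2) * (p.2.map S.w).prod)
  have h1 : CC S A0 A2 ≤ ∑' c : List (List S.B),
      G (c.takeWhile (fun W => decide (A1 ≤ S.h W)), c.dropWhile (fun W => decide (A1 ≤ S.h W))) := by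
    unfold CC
    refine ENNReal.tsum_le_tsum fun c => ?_
    simp only [G]
    set c1 := c.takeWhile (fun W => decide (A1 ≤ S.h W)) with hc1
    set c2 := c.dropWhile (fun W => decide (A1 ≤ S.h W)) with hc2
    have hc : c = c1 ++ c2 := (List.takeWhile_append_dropWhile).symm
    by_cases h : S.Chn c ∧ HtIn S A0 A2 c
    · obtain ⟨h1, h2⟩ := h
      have h3 := h1
      rw [hc] at h3
      have h4 := chn_append h3
      have h5 : HtIn S A1 A2 c1 := by
        intro W hW
        have h6 := List.mem_takeWhile_imp hW
        simp only [decide_eq_true_eq] at h6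
        exact ⟨h6, (h2 W (by rw [hc]; exact List.mem_append_left _ hW)).2⟩
      have h7 : HtIn S A0 A1 c2 := by
        intro W hW
        refine ⟨(h2 W (by rw [hc]; exact List.mem_append_right _ hW)).1, ?_⟩
        cases hc2' : c2 with
        | nil => rw [hc2'] at hW; simp at hW
        | cons W1 c3 =>
          have h8 : ¬ (decide (A1 ≤ S.h W1) = true) := by
            have := List.head?_dropWhile_not (fun W => decide (A1 ≤ S.h W)) c
            rw [← hc2, hc2'] at this
            simpa using this
          simp only [decide_eq_true_eq, not_le] at h8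
          rw [hc2', List.mem_cons] at hW
          rcases hW with rfl | hW
          · exact h8
          · have h9 := h4.2
            rw [hc2'] at h9
            exact (chn_lt h9 W hW).trans h8
      rw [ind_true ⟨h1, h2⟩, ind_true ⟨h4.1, h5⟩, ind_true ⟨h4.2, h7⟩, one_mul, one_mul, one_mul]
      apply le_of_eq
      rw [hc, List.map_append, List.prod_append]
    · rw [ind_false h, zero_mul]; exact bot_le
  refine (h1.trans (ENNReal.tsum_comp_le_tsum_of_injective hinj G)).trans (le_of_eq ?_)
  rw [ENNReal.tsum_prod']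
  simp only [G]
  unfold CC
  rw [mul_comm, ← ENNReal.tsum_mul_right]
  refine tsum_congr fun c => ?_
  rw [← ENNReal.tsum_mul_left]

theorem CC_self (A0 A1 : ℕ) (h : A1 ≤ A0) : CC S A0 A1 ≤ 1 := by
  refine tsum_empty (Q := fun c => S.Chn c ∧ HtIn S A0 A1 c) fun W c h' => ?_
  have := h'.2 W (by simp)
  omega

/-- The dyadic scales. -/
theorem CC_prod (K : ℕ) : CC S 1 (2 ^ K) ≤ ∏ k ∈ range K, CC S (2 ^ k) (2 ^ k + 2 ^ k) := by
  induction K with
  | zero =>
    simp only [pow_zero, range_zero, prod_empty]
    exact CC_self 1 1 le_rfl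
  | succ K ih =>
    rw [prod_range_succ]
    refine (CC_mul (A1 := 2 ^ K)).trans (mul_le_mul' ih (le_of_eq ?_))
    congr 1
    rw [pow_succ]; ring

theorem chm_le_CC {n K : ℕ} (h : n < 2 ^ K) : S.chm n ≤ CC S 1 (2 ^ K) := by
  unfold Sys.chm CC
  refine ENNReal.tsum_le_tsum fun c => mul_le_mul' (ind_mono fun h1 => ⟨h1.1, fun W hW => ?_⟩) le_rfl
  have := h1.2 W hW
  exact ⟨this.1, lt_of_le_of_lt this.2 h⟩

end Ch

end Pool.Agent.HEP
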