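import Pool.Agent.HEP.Alph

/-!
Project HEP, section (4): sums over words which are cut at a level.
-/

namespace Pool.Agent.HEP

open scoped ENNReal

namespace Ch

/-- A sum over all words: the empty word and the words with a first letter. -/
theorem tsum_list {β : Type*} (F : List β → ℝ≥0∞) : ∑' l, F l = F [] + ∑' c, ∑' l, F (c :: l) := by
  classical
  rw [ENNReal.tsum_eq_add_tsum_ite (f := F) []]
  congr 1
  rw [← ENNReal.tsum_prod (f := fun c l => F (c :: l))]
  have hinj : Function.Injective (fun p : β × List β => p.1 :: p.2) := by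
    rintro ⟨c, l⟩ ⟨c', l'⟩ e
    simpa [List.cons.injEq] using e
  have hsupp : Function.support (fun l : List β => if l = [] then 0 else F l) ⊆
      Set.range (fun p : β × List β => p.1 :: p.2) := by
    intro l hl
    cases l with
    | nil => simp at hl
    | cons c l => exact ⟨(c, l), rfl⟩
  refine Eq.trans ?_ (Eq.trans (hinj.tsum_eq hsupp).symm ?_)
  · refine tsum_congr fun l => ?_
    by_cases h : l = [] <;> simp [h]
  · refine tsum_congr fun p => ?_
    simp

/-- A sum over all words, read backwards. -/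
theorem tsum_reverse {β : Type*} (F : List β → ℝ≥0∞) : ∑' l : List β, F l.reverse = ∑' l, F l :=
  (Equiv.tsum_eq (⟨List.reverse, List.reverse, List.reverse_reverse, List.reverse_reverse⟩ : List β ≃ List β) F)

variable (A : Alph)

/-- If the next block crosses the level `N`, the cut is where one expects it. -/
theorem cut_append_cons {N : ℕ} {l : List A.B} {c : A.B} (v : List A.B) (h1 : A.h l ≤ N)
    (h2 : N < A.h l + A.ht c) : A.cut N (l ++ c :: v) = l := by
  induction l generalizing N with
  | nil =>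
    rw [List.nil_append]
    unfold Alph.cut
    rw [A.h_nil] at h2
    rw [if_neg (by omega)]
  | cons a l ih =>
    rw [List.cons_append]
    unfold Alph.cut
    rw [A.h_cons] at h1 h2
    rw [if_pos (by omega), ih (by omega) (by omega)]

/-- A word of height at most `N` is not cut. -/
theorem cut_eq_self {N : ℕ} {l : List A.B} (h1 : A.h l ≤ N) : A.cut N l = l := by
  induction l generalizing N with
  | nil => rfl
  | cons a l ih =>
    unfold Alph.cut
    rw [A.h_cons] at h1
    rw [if_pos (by omega), ih (by omega)]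

/-- Cutting twice. -/
theorem cut_cut {M N : ℕ} (hMN : M ≤ N) (l : List A.B) : A.cut M (A.cut N l) = A.cut M l := by
  induction l generalizing M N with
  | nil => rfl
  | cons a l ih =>
    by_cases h1 : A.ht a ≤ N
    · have e1 : A.cut N (a :: l) = a :: A.cut (N - A.ht a) l := by
        conv_lhs => unfold Alph.cut
        rw [if_pos h1]
      rw [e1]
      unfold Alph.cut
      by_cases h2 : A.ht a ≤ M
      · rw [if_pos h2, if_pos h2, ih (by omega)]
      · rw [if_neg h2, if_neg h2]
    · have e1 : A.cut N (a :: l) = [] := by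
        conv_lhs => unfold Alph.cut
        rw [if_neg h1]
      rw [e1]
      unfold Alph.cut
      rw [if_neg (by omega)]

/-- **Sum over words, cut at the level `N`.** -/
theorem cut_sum (N : ℕ) (F : List A.B → ℝ≥0∞) :
    ∑' l, F l ≤ ∑' l, ind (A.h l ≤ N) * F l +
      ∑' l, ∑' c, ∑' v, ind (A.h l ≤ N ∧ N < A.h l + A.ht c) * F (l ++ c :: v) := by
  have hr : ∀ l, ∃ r, l = A.cut N l ++ r := A.cut_prefix N
  choose r hr using hr
  have hinj : Function.Injective (fun l : List A.B => (A.cut N l, r l)) := by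
    intro l l' e
    simp only [Prod.mk.injEq] at e
    rw [hr l, hr l', e.1, e.2]
  have h1 : ∑' l, F l ≤ ∑' p : List A.B × List A.B, ind (A.cut N (p.1 ++ p.2) = p.1) * F (p.1 ++ p.2) := by
    refine le_trans (le_of_eq ?_) (ENNReal.tsum_comp_le_tsum_of_injective hinj
      (fun p : List A.B × List A.B => ind (A.cut N (p.1 ++ p.2) = p.1) * F (p.1 ++ p.2)))
    refine tsum_congr fun l => ?_
    simp only
    rw [← hr l, ind_true rfl, one_mul]
  refine h1.trans ?_
  rw [ENNReal.tsum_prod', ← ENNReal.tsum_add]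
  refine ENNReal.tsum_le_tsum fun l => ?_
  simp only
  rw [tsum_list]
  refine add_le_add ?_ (ENNReal.tsum_le_tsum fun c => ENNReal.tsum_le_tsum fun v => ?_)
  · rw [List.append_nil]
    refine mul_le_mul' (ind_mono fun e => ?_) le_rfl
    rw [← e]; exact A.h_cut_le N l
  · refine mul_le_mul' (ind_mono fun e => ?_) le_rfl
    have h2 := A.h_cut_le N (l ++ c :: v)
    rw [e] at h2
    have h3 := A.h_cut_lt N (l ++ c :: v) (c := c) (r := v) (by rw [e])
    rw [e] at h3
    exact ⟨h2, h3⟩

/-- **Sum over words, cut at the level `N`** (equality). -/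
theorem cut_sum_eq (N : ℕ) (F : List A.B → ℝ≥0∞) :
    ∑' l, F l = ∑' l, ind (A.h l ≤ N) * F l +
      ∑' l, ∑' c, ∑' v, ind (A.h l ≤ N ∧ N < A.h l + A.ht c) * F (l ++ c :: v) := by
  refine le_antisymm (cut_sum A N F) ?_
  have key : ∑' p : List A.B × A.B × List A.B,
      ind (A.h p.1 ≤ N ∧ N < A.h p.1 + A.ht p.2.1) * F (p.1 ++ p.2.1 :: p.2.2) ≤
      ∑' l, ind (N < A.h l) * F l := by
    classical
    let T := {p : List A.B × A.B × List A.B // A.h p.1 ≤ N ∧ N < A.h p.1 + A.ht p.2.1}
    have e1 : ∑' p : List A.B × A.B × List A.B,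
      ind (A.h p.1 ≤ N ∧ N < A.h p.1 + A.ht p.2.1) * F (p.1 ++ p.2.1 :: p.2.2) =
      ∑' p : T, F (p.1.1 ++ p.1.2.1 :: p.1.2.2) := by
      have := tsum_subtype {p : List A.B × A.B × List A.B | A.h p.1 ≤ N ∧ N < A.h p.1 + A.ht p.2.1}
        (fun p => F (p.1 ++ p.2.1 :: p.2.2))
      refine Eq.trans ?_ this.symm
      refine tsum_congr fun p => ?_
      by_cases hp : A.h p.1 ≤ N ∧ N < A.h p.1 + A.ht p.2.1
      · rw [ind_true hp, one_mul, Set.indicator_of_mem (by exact hp)]
      · rw [ind_false hp, zero_mul, Set.indicator_of_notMem (by exact hp)]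
    rw [e1]
    have hinj : Function.Injective (fun p : T => p.1.1 ++ p.1.2.1 :: p.1.2.2) := by
      rintro ⟨⟨l, c, v⟩, h1, h2⟩ ⟨⟨l', c', v'⟩, h1', h2'⟩ e
      simp only at e h1 h2 h1' h2'
      have e2 : l = l' := by
        rw [← cut_append_cons A v h1 h2, e, cut_append_cons A v' h1' h2']
      subst e2
      rw [List.append_cancel_left_eq, List.cons.injEq] at e
      obtain ⟨rfl, rfl⟩ := e
      rfl
    refine le_trans (le_of_eq ?_) (ENNReal.tsum_comp_le_tsum_of_injective hinj
      (fun l => ind (N < A.h l) * F l))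
    refine tsum_congr ?_
    rintro ⟨⟨l, c, v⟩, h1, h2⟩
    simp only at h1 h2 ⊢
    rw [ind_true, one_mul]
    rw [A.h_append, A.h_cons]; omega
  rw [ENNReal.tsum_prod'] at key
  have e3 : ∀ l : List A.B, ∑' q : A.B × List A.B,
      ind (A.h l ≤ N ∧ N < A.h l + A.ht q.1) * F (l ++ q.1 :: q.2) =
      ∑' c, ∑' v, ind (A.h l ≤ N ∧ N < A.h l + A.ht c) * F (l ++ c :: v) := by
    intro l
    rw [ENNReal.tsum_prod']
  simp only [e3] at key
  refine (add_le_add_right key _).trans ?_
  rw [← ENNReal.tsum_add]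
  refine ENNReal.tsum_le_tsum fun l => ?_
  rw [← add_mul]
  have : ind (A.h l ≤ N) + ind (N < A.h l) ≤ 1 := by
    by_cases h : A.h l ≤ N
    · rw [ind_true h, ind_false (by omega), add_zero]
    · rw [ind_false h, ind_true (by omega), zero_add]
  exact (mul_le_mul' this le_rfl).trans (by rw [one_mul])

end Ch

end Pool.Agent.HEP
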