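import Pool.Agent.HEP.ChRen

/-!
Project HEP, section (4): the mass at a fold, for all the types of near parts. A type is `none` (near part up to the
last renewal `≤ r`, weight `w l * Lam (r - h l)`) or `some p` (near part of height exactly `p`). The bounds have
product form: `FF (phi r τ) (phi r τ') ≤ s1 τ * s2 τ'`.
-/

namespace Pool.Agent.HEP

open scoped ENNReal
open Finset

namespace Ch

/-- Weight of a near part of type `τ`. -/
noncomputable def phi (A : Alph) (r : ℕ) : Option ℕ → List A.B → ℝ≥0∞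
  | none, l => ind (A.h l ≤ r) * (A.w l * A.Lam (r - A.h l))
  | some p, l => ind (A.h l = p) * A.w l

/-- Mass at a fold. -/
noncomputable def FF (S : Sys) (φ ψ : List S.B → ℝ≥0∞) : ℝ≥0∞ :=
  ∑' l, ∑' s, ind (S.Av l s) * (φ l * ψ s)

/-- The bound of the older side. -/
noncomputable def s1 (A : Alph) (r : ℕ) : Option ℕ → ℝ≥0∞
  | none => 1
  | some p => A.U r / (p + 1)

/-- The bound of the younger side. -/
noncomputable def s2 (A : Alph) (L : ℝ≥0∞) (r : ℕ) : Option ℕ → ℝ≥0∞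
  | none => 8 * L / A.U r
  | some p => 8 * L / (p + 1)

/-- Valid types. -/
def Val (r : ℕ) : Option ℕ → Prop
  | none => True
  | some p => p ≤ r

/-- `φ` can be cut at the level `i`. -/
def Red (A : Alph) (i : ℕ) (C : ℝ≥0∞) (φ : List A.B → ℝ≥0∞) : Prop :=
  ∀ g : List A.B → ℝ≥0∞, ∑' l, φ l * g (A.cut i l) ≤ C * ∑' P, ind (A.h P ≤ i) * (A.w P * g P * A.Lam (i - A.h P))

theorem red_some {A : Alph} (hb : Antitone A.b) {i r p : ℕ} (h : i ≤ p) :
    Red A i (A.b (p - i)) (phi A r (some p)) := by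
  intro g
  rw [mul_comm (A.b (p - i))]
  refine le_trans (le_of_eq (tsum_congr fun l => ?_)) (cut_exact hb h g)
  simp only [phi]; ring

theorem red_none {A : Alph} {i r : ℕ} (h : i ≤ r) : Red A i 1 (phi A r none) := by
  intro g
  rw [one_mul]
  refine le_trans (le_of_eq (tsum_congr fun l => ?_)) (cut_free h g)
  simp only [phi]; ring

theorem FF_le {S : Sys} {i : ℕ} {C C' : ℝ≥0∞} {φ ψ : List S.B → ℝ≥0∞} (hφ : Red S.toAlph i C φ)
    (hψ : Red S.toAlph i C' ψ) : FF S φ ψ ≤ C * C' * S.a i := by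
  have hav : ∀ l s, ind (S.Av l s) ≤ ind (S.Av (S.cut i l) (S.cut i s)) := by
    intro l s
    refine ind_mono fun h => ?_
    obtain ⟨r1, h1⟩ := S.cut_prefix i l
    obtain ⟨r2, h2⟩ := S.cut_prefix i s
    rw [h1, h2] at h
    exact S.Av_pre _ _ _ _ h
  set G : List S.B → ℝ≥0∞ := fun P => ∑' Q, ind (S.h Q ≤ i) * (S.w Q * ind (S.Av P Q) * S.Lam (i - S.h Q)) with hG
  have e1 : FF S φ ψ ≤ ∑' l, φ l * (C' * G (S.cut i l)) := by
    unfold FF
    refine ENNReal.tsum_le_tsum fun l => ?_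
    calc ∑' s, ind (S.Av l s) * (φ l * ψ s) ≤ ∑' s, φ l * (ψ s * ind (S.Av (S.cut i l) (S.cut i s))) := by
          refine ENNReal.tsum_le_tsum fun s => ?_
          calc ind (S.Av l s) * (φ l * ψ s) ≤ ind (S.Av (S.cut i l) (S.cut i s)) * (φ l * ψ s) :=
                mul_le_mul' (hav l s) le_rfl
            _ = _ := by ring
      _ = φ l * ∑' s, ψ s * ind (S.Av (S.cut i l) (S.cut i s)) := ENNReal.tsum_mul_left
      _ ≤ φ l * (C' * G (S.cut i l)) := mul_le_mul' le_rfl (hψ fun s => ind (S.Av (S.cut i l) s))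
  have e2 : ∑' l, φ l * (C' * G (S.cut i l)) ≤
      C * ∑' P, ind (S.h P ≤ i) * (S.w P * (C' * G P) * S.Lam (i - S.h P)) := hφ fun P => C' * G P
  refine (e1.trans e2).trans (le_of_eq ?_)
  unfold Sys.a
  rw [mul_assoc]
  congr 1
  rw [← ENNReal.tsum_mul_left]
  refine tsum_congr fun P => ?_
  rw [hG]
  simp only
  rw [← ENNReal.tsum_mul_left, ← ENNReal.tsum_mul_left, ← ENNReal.tsum_mul_left, ← ENNReal.tsum_mul_right,
    ← ENNReal.tsum_mul_left]
  refine tsum_congr fun Q => ?_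
  rw [ind_and, ind_and]
  ring

/-- `U (p - p / 2) ≤ 2 U (p / 2)`. -/
theorem U_half {A : Alph} (p : ℕ) : A.U (p - p / 2) ≤ 2 * A.U (p / 2) := by
  have h1 : A.U (p - p / 2) ≤ A.U (p / 2 + 1) := A.U_mono (by omega)
  refine h1.trans ((A.U_succ_le _).trans ?_)
  rw [two_mul]
  exact add_le_add le_rfl (A.one_le_U _)

/-- `(p + 1) b (p - i) ≤ 2 U (p - i)` for `i ≤ p / 2`. -/
theorem b_half {A : Alph} (hb : Antitone A.b) {p i : ℕ} (hi : i ≤ p / 2) :
    ((p : ℝ≥0∞) + 1) * A.b (p - i) ≤ 2 * A.U (p - i) := by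
  have h1 : ((p : ℝ≥0∞) + 1) ≤ 2 * (((p - i : ℕ) : ℝ≥0∞) + 1) := by
    have : p + 1 ≤ 2 * ((p - i) + 1) := by omega
    exact_mod_cast this
  calc ((p : ℝ≥0∞) + 1) * A.b (p - i) ≤ 2 * (((p - i : ℕ) : ℝ≥0∞) + 1) * A.b (p - i) := mul_le_mul' h1 le_rfl
    _ = 2 * ((((p - i : ℕ) : ℝ≥0∞) + 1) * A.b (p - i)) := by ring
    _ ≤ 2 * A.U (p - i) := mul_le_mul' le_rfl (Alph.b_mul hb _)

variable {S : Sys} {L : ℝ≥0∞} {n r : ℕ}

theorem fold_nn (ha : ∀ m ≤ n, S.a m * S.U m ≤ L) (hr : r ≤ n) :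
    FF S (phi S.toAlph r none) (phi S.toAlph r none) * S.U r ≤ L := by
  refine le_trans (mul_le_mul' (FF_le (red_none le_rfl) (red_none le_rfl)) le_rfl) ?_
  rw [one_mul, one_mul]
  exact ha r hr

theorem fold_gn (hb : Antitone S.b) (ha : ∀ m ≤ n, S.a m * S.U m ≤ L) (hr : r ≤ n) {p : ℕ} (hp : p ≤ r) :
    ((p : ℝ≥0∞) + 1) * FF S (phi S.toAlph r (some p)) (phi S.toAlph r none) ≤ 4 * L := by
  have h1 := FF_le (S := S) (red_some hb (r := r) (Nat.div_le_self p 2)) (red_none (A := S.toAlph) (i := p / 2) (r := r)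
    ((Nat.div_le_self p 2).trans hp))
  calc ((p : ℝ≥0∞) + 1) * FF S (phi S.toAlph r (some p)) (phi S.toAlph r none)
      ≤ ((p : ℝ≥0∞) + 1) * (S.b (p - p / 2) * 1 * S.a (p / 2)) := mul_le_mul' le_rfl h1
    _ = (((p : ℝ≥0∞) + 1) * S.b (p - p / 2)) * S.a (p / 2) := by ring
    _ ≤ (2 * S.U (p - p / 2)) * S.a (p / 2) := mul_le_mul' (b_half hb le_rfl) le_rfl
    _ ≤ (2 * (2 * S.U (p / 2))) * S.a (p / 2) := mul_le_mul' (mul_le_mul' le_rfl (U_half p)) le_rfl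
    _ = 4 * (S.a (p / 2) * S.U (p / 2)) := by ring
    _ ≤ 4 * L := mul_le_mul' le_rfl (ha _ (by omega))

theorem fold_ng (hb : Antitone S.b) (ha : ∀ m ≤ n, S.a m * S.U m ≤ L) (hr : r ≤ n) {p : ℕ} (hp : p ≤ r) :
    ((p : ℝ≥0∞) + 1) * FF S (phi S.toAlph r none) (phi S.toAlph r (some p)) ≤ 4 * L := by
  have h1 := FF_le (S := S) (red_none (A := S.toAlph) (i := p / 2) (r := r)
    ((Nat.div_le_self p 2).trans hp)) (red_some hb (r := r) (Nat.div_le_self p 2))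
  calc ((p : ℝ≥0∞) + 1) * FF S (phi S.toAlph r none) (phi S.toAlph r (some p))
      ≤ ((p : ℝ≥0∞) + 1) * (1 * S.b (p - p / 2) * S.a (p / 2)) := mul_le_mul' le_rfl h1
    _ = (((p : ℝ≥0∞) + 1) * S.b (p - p / 2)) * S.a (p / 2) := by ring
    _ ≤ (2 * S.U (p - p / 2)) * S.a (p / 2) := mul_le_mul' (b_half hb le_rfl) le_rfl
    _ ≤ (2 * (2 * S.U (p / 2))) * S.a (p / 2) := mul_le_mul' (mul_le_mul' le_rfl (U_half p)) le_rfl
    _ = 4 * (S.a (p / 2) * S.U (p / 2)) := by ring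
    _ ≤ 4 * L := mul_le_mul' le_rfl (ha _ (by omega))

theorem fold_gg (hb : Antitone S.b) (ha : ∀ m ≤ n, S.a m * S.U m ≤ L) (hr : r ≤ n) {p q : ℕ} (hp : p ≤ r)
    (hq : q ≤ r) : (((p : ℝ≥0∞) + 1) * ((q : ℝ≥0∞) + 1)) * FF S (phi S.toAlph r (some p)) (phi S.toAlph r (some q)) ≤
      8 * L * S.U r := by
  have key : ∀ i, i ≤ p / 2 → i ≤ q / 2 → (S.U (p - i) ≤ 2 * S.U i ∨ S.U (q - i) ≤ 2 * S.U i) →
      (((p : ℝ≥0∞) + 1) * ((q : ℝ≥0∞) + 1)) * FF S (phi S.toAlph r (some p)) (phi S.toAlph r (some q)) ≤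
      8 * L * S.U r := by
    intro i hip hiq h2
    have h1 := FF_le (S := S) (red_some hb (r := r) (i := i) (p := p) (by omega))
      (red_some hb (r := r) (i := i) (p := q) (by omega))
    have h3 : S.U (p - i) * S.U (q - i) ≤ 2 * S.U i * S.U r := by
      rcases h2 with h2 | h2
      · exact mul_le_mul' h2 (S.U_mono (by omega))
      · rw [mul_comm]
        exact mul_le_mul' h2 (S.U_mono (by omega))
    calc (((p : ℝ≥0∞) + 1) * ((q : ℝ≥0∞) + 1)) * FF S (phi S.toAlph r (some p)) (phi S.toAlph r (some q))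
        ≤ (((p : ℝ≥0∞) + 1) * ((q : ℝ≥0∞) + 1)) * (S.b (p - i) * S.b (q - i) * S.a i) := mul_le_mul' le_rfl h1
      _ = (((p : ℝ≥0∞) + 1) * S.b (p - i)) * (((q : ℝ≥0∞) + 1) * S.b (q - i)) * S.a i := by ring
      _ ≤ (2 * S.U (p - i)) * (2 * S.U (q - i)) * S.a i :=
          mul_le_mul' (mul_le_mul' (b_half hb hip) (b_half hb hiq)) le_rfl
      _ = 4 * (S.U (p - i) * S.U (q - i)) * S.a i := by ring
      _ ≤ 4 * (2 * S.U i * S.U r) * S.a i := mul_le_mul' (mul_le_mul' le_rfl h3) le_rfl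
      _ = 8 * (S.a i * S.U i) * S.U r := by ring
      _ ≤ 8 * L * S.U r := mul_le_mul' (mul_le_mul' le_rfl (ha _ (by omega))) le_rfl
  rcases le_total p q with h | h
  · exact key (p / 2) le_rfl (by omega) (Or.inl (U_half p))
  · exact key (q / 2) (by omega) le_rfl (Or.inr (U_half q))

/-- **The fold bounds in product form.** -/
theorem fold (hb : Antitone S.b) (ha : ∀ m ≤ n, S.a m * S.U m ≤ L) (hr : r ≤ n) (τ τ' : Option ℕ) (hτ : Val r τ)
    (hτ' : Val r τ') : FF S (phi S.toAlph r τ) (phi S.toAlph r τ') ≤ s1 S.toAlph r τ * s2 S.toAlph L r τ' := by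
  have hU0 : S.U r ≠ 0 := S.U_ne_zero r
  have hU1 : S.U r ≠ ⊤ := S.U_ne_top r
  have hp0 : ∀ p : ℕ, (p : ℝ≥0∞) + 1 ≠ 0 := fun p => by positivity
  have hp1 : ∀ p : ℕ, (p : ℝ≥0∞) + 1 ≠ ⊤ := fun p => by
    exact_mod_cast ENNReal.natCast_ne_top (p + 1)
  have h48 : (4 : ℝ≥0∞) * L ≤ 8 * L := mul_le_mul' (by norm_num) le_rfl
  cases τ with
  | none =>
    cases τ' with
    | none =>
      simp only [s1, s2]
      rw [one_mul, ENNReal.le_div_iff_mul_le (Or.inl hU0) (Or.inl hU1)]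
      refine (fold_nn ha hr).trans ?_
      calc L = 1 * L := (one_mul L).symm
        _ ≤ 8 * L := mul_le_mul' (by norm_num) le_rfl
    | some q =>
      simp only [s1, s2]
      rw [one_mul, ENNReal.le_div_iff_mul_le (Or.inl (hp0 q)) (Or.inl (hp1 q)), mul_comm]
      exact (fold_ng hb ha hr hτ').trans h48
  | some p =>
    cases τ' with
    | none =>
      simp only [s1, s2]
      have e : S.U r / ((p : ℝ≥0∞) + 1) * (8 * L / S.U r) = 8 * L / ((p : ℝ≥0∞) + 1) := by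
        rw [div_eq_mul_inv, div_eq_mul_inv, div_eq_mul_inv]
        calc S.U r * ((p : ℝ≥0∞) + 1)⁻¹ * (8 * L * (S.U r)⁻¹)
            = (S.U r * (S.U r)⁻¹) * (8 * L * ((p : ℝ≥0∞) + 1)⁻¹) := by ring
          _ = _ := by rw [ENNReal.mul_inv_cancel hU0 hU1, one_mul]
      rw [e, ENNReal.le_div_iff_mul_le (Or.inl (hp0 p)) (Or.inl (hp1 p)), mul_comm]
      exact (fold_gn hb ha hr hτ).trans h48
    | some q =>
      simp only [s1, s2]
      have e : S.U r / ((p : ℝ≥0∞) + 1) * (8 * L / ((q : ℝ≥0∞) + 1)) =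
          (8 * L * S.U r) / (((p : ℝ≥0∞) + 1) * ((q : ℝ≥0∞) + 1)) := by
        rw [div_eq_mul_inv, div_eq_mul_inv, div_eq_mul_inv,
          ENNReal.mul_inv (Or.inl (hp0 p)) (Or.inl (hp1 p))]
        ring
      have h0 : (((p : ℝ≥0∞) + 1) * ((q : ℝ≥0∞) + 1)) ≠ 0 := mul_ne_zero (hp0 p) (hp0 q)
      have h1 : (((p : ℝ≥0∞) + 1) * ((q : ℝ≥0∞) + 1)) ≠ ⊤ := ENNReal.mul_ne_top (hp1 p) (hp1 q)
      rw [e, ENNReal.le_div_iff_mul_le (Or.inl h0) (Or.inl h1), mul_comm]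
      exact fold_gg hb ha hr hτ hτ'

end Ch

end Pool.Agent.HEP
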