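import Pool.Agent.HEP.ChStr
import Pool.Agent.HEP.RnSeq

/-!
Project HEP, section (4): the renewal inequality (T1) for words, one-sided cuts.
-/

namespace Pool.Agent.HEP

open scoped ENNReal
open Finset

namespace Ch

variable {A : Alph}

/-- (T1) in the form with words. -/
theorem t1_word (hb : Antitone A.b) : T1 A := by
  intro x t
  have e1 : ∀ c, ∑' v, ind (x < A.ht c ∧ A.ht c + A.h v = t) * (A.wt c * A.w v) =
      A.wt c * (fun k => ind (x < k ∧ k ≤ t) * A.b (t - k)) (A.ht c) := by
    intro c
    by_cases hc : x < A.ht c ∧ A.ht c ≤ t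
    · simp only
      rw [ind_true hc, one_mul]
      unfold Alph.b
      rw [← ENNReal.tsum_mul_left]
      refine tsum_congr fun v => ?_
      rw [ind_congr (p := x < A.ht c ∧ A.ht c + A.h v = t) (q := A.h v = t - A.ht c) (by omega)]
      ring
    · simp only
      rw [ind_false hc, zero_mul, mul_zero, ENNReal.tsum_eq_zero]
      intro v
      rw [ind_false (by omega), zero_mul]
  rw [tsum_congr e1, A.tsum_ht (fun k => ind (x < k ∧ k ≤ t) * A.b (t - k))]
  by_cases hxt : x ≤ t
  · have e2 : ∑' k, A.lam k * (ind (x < k ∧ k ≤ t) * A.b (t - k)) = ∑ k ∈ Ioc x t, A.lam k * A.b (t - k) := by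
      rw [tsum_eq_sum (s := Ioc x t)]
      · refine sum_congr rfl fun k hk => ?_
        rw [mem_Ioc] at hk
        rw [ind_true hk, one_mul]
      · intro k hk
        rw [mem_Ioc] at hk
        rw [ind_false hk]; simp
    rw [e2]
    have := Alph.T1 hb (p := 0) (w := x) (m := t) (Nat.zero_le _) hxt
    simpa using this
  · refine le_trans (le_of_eq (b := 0) ?_) bot_le
    rw [ENNReal.tsum_eq_zero]
    intro k
    rw [ind_false (by omega)]; simp

/-- One-sided cut, words of an exact height. -/
theorem cut_exact (hb : Antitone A.b) {N t : ℕ} (hN : N ≤ t) (g : List A.B → ℝ≥0∞) :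
    ∑' W, ind (A.h W = t) * (A.w W * g (A.cut N W)) ≤
      (∑' P, ind (A.h P ≤ N) * (A.w P * g P * A.Lam (N - A.h P))) * A.b (t - N) := by
  have t1 := t1_word hb
  rw [cut_sum_eq A N, ← ENNReal.tsum_mul_right, ← ENNReal.tsum_add]
  refine ENNReal.tsum_le_tsum fun P => ?_
  by_cases hP : A.h P ≤ N
  · rw [ind_true hP, one_mul, one_mul]
    by_cases hNt : N = t
    · subst hNt
      have z : ∑' c, ∑' v, ind (A.h P ≤ N ∧ N < A.h P + A.ht c) * (ind (A.h (P ++ c :: v) = N) *
          (A.w (P ++ c :: v) * g (A.cut N (P ++ c :: v)))) = 0 := by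
        rw [ENNReal.tsum_eq_zero]; intro c
        rw [ENNReal.tsum_eq_zero]; intro v
        by_cases h1 : A.h P ≤ N ∧ N < A.h P + A.ht c
        · rw [ind_false (p := A.h (P ++ c :: v) = N), zero_mul, mul_zero]
          rw [A.h_append, A.h_cons]; omega
        · rw [ind_false h1, zero_mul]
      rw [z, add_zero, Nat.sub_self, A.b_zero, mul_one]
      by_cases h2 : A.h P = N
      · rw [ind_true h2, one_mul, cut_eq_self A hP, h2, Nat.sub_self, A.Lam_zero, mul_one]
      · rw [ind_false h2, zero_mul]; exact bot_le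
    · rw [ind_false (p := A.h P = t) (by omega), zero_mul, zero_add]
      have e : ∀ c v, ind (A.h P ≤ N ∧ N < A.h P + A.ht c) * (ind (A.h (P ++ c :: v) = t) *
          (A.w (P ++ c :: v) * g (A.cut N (P ++ c :: v)))) =
          A.w P * g P * (ind (N - A.h P < A.ht c ∧ A.ht c + A.h v = t - A.h P) * (A.wt c * A.w v)) := by
        intro c v
        by_cases h1 : N < A.h P + A.ht c
        · rw [ind_true ⟨hP, h1⟩, one_mul, cut_append_cons A v hP h1, A.w_append, A.w_cons]
          rw [ind_congr (p := A.h (P ++ c :: v) = t)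
            (q := N - A.h P < A.ht c ∧ A.ht c + A.h v = t - A.h P)
            (by rw [A.h_append, A.h_cons]; omega)]
          ring
        · rw [ind_false (by tauto), zero_mul, ind_false (by omega)]; simp
      simp only [e]
      simp only [ENNReal.tsum_mul_left]
      rw [mul_assoc (A.w P * g P)]
      refine mul_le_mul' le_rfl ((t1 _ _).trans (mul_le_mul' le_rfl (hb ?_)))
      omega
  · rw [ind_false hP, zero_mul, zero_mul, zero_mul, zero_add]
    refine le_of_eq ?_
    rw [ENNReal.tsum_eq_zero]; intro c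
    rw [ENNReal.tsum_eq_zero]; intro v
    rw [ind_false (by tauto), zero_mul]

/-- One-sided cut, words up to their last renewal `≤ r`. -/
theorem cut_free {N r : ℕ} (hN : N ≤ r) (g : List A.B → ℝ≥0∞) :
    ∑' W, ind (A.h W ≤ r) * (A.w W * g (A.cut N W) * A.Lam (r - A.h W)) ≤
      ∑' P, ind (A.h P ≤ N) * (A.w P * g P * A.Lam (N - A.h P)) := by
  rw [cut_sum_eq A N, ← ENNReal.tsum_add]
  refine ENNReal.tsum_le_tsum fun P => ?_
  by_cases hP : A.h P ≤ N
  · rw [ind_true hP, one_mul, one_mul, ind_true (p := A.h P ≤ r) (by omega), one_mul, cut_eq_self A hP]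
    have e : ∀ c v, ind (A.h P ≤ N ∧ N < A.h P + A.ht c) * (ind (A.h (P ++ c :: v) ≤ r) *
        (A.w (P ++ c :: v) * g (A.cut N (P ++ c :: v)) * A.Lam (r - A.h (P ++ c :: v)))) =
        A.w P * g P * (ind (N - A.h P < A.ht c ∧ A.ht c ≤ r - A.h P) * A.wt c *
          (ind (A.h v ≤ r - A.h P - A.ht c) * (A.w v * A.Lam (r - A.h P - A.ht c - A.h v)))) := by
      intro c v
      by_cases h1 : N < A.h P + A.ht c
      · by_cases h2 : A.ht c ≤ r - A.h P
        · have e0 : r - A.h (P ++ c :: v) = r - A.h P - A.ht c - A.h v := by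
            rw [A.h_append, A.h_cons]; omega
          rw [ind_true ⟨hP, h1⟩, one_mul, cut_append_cons A v hP h1, A.w_append, A.w_cons, e0,
            ind_true (p := N - A.h P < A.ht c ∧ A.ht c ≤ r - A.h P) (by omega), one_mul]
          rw [ind_congr (p := A.h (P ++ c :: v) ≤ r) (q := A.h v ≤ r - A.h P - A.ht c)
            (by rw [A.h_append, A.h_cons]; omega)]
          ring
        · rw [ind_false (p := A.h (P ++ c :: v) ≤ r) (by rw [A.h_append, A.h_cons]; omega),
            ind_false (p := N - A.h P < A.ht c ∧ A.ht c ≤ r - A.h P) (by omega)]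
          simp
      · rw [ind_false (by tauto), zero_mul, ind_false (by omega)]; simp
    simp only [e]
    simp only [ENNReal.tsum_mul_left]
    rw [← mul_add]
    refine mul_le_mul' le_rfl ?_
    have e1 : ∀ c, ind (N - A.h P < A.ht c ∧ A.ht c ≤ r - A.h P) * A.wt c *
          ∑' v, (ind (A.h v ≤ r - A.h P - A.ht c) * (A.w v * A.Lam (r - A.h P - A.ht c - A.h v))) =
        ind (N - A.h P < A.ht c ∧ A.ht c ≤ r - A.h P) * A.wt c := by
      intro c
      rw [A.tsum_w_Lam, mul_one]
    simp only [e1]
    unfold Alph.Lam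
    rw [← ENNReal.tsum_add]
    refine ENNReal.tsum_le_tsum fun c => ?_
    rw [← add_mul]
    refine mul_le_mul' ?_ le_rfl
    by_cases h1 : r - A.h P < A.ht c
    · rw [ind_true h1, ind_false (by omega), ind_true (by omega), add_zero]
    · rw [ind_false h1, zero_add]
      exact ind_mono fun h => h.1
  · rw [ind_false hP, zero_mul, zero_mul, zero_add]
    refine le_of_eq ?_
    rw [ENNReal.tsum_eq_zero]; intro c
    rw [ENNReal.tsum_eq_zero]; intro v
    rw [ind_false (by tauto), zero_mul]

end Ch

end Pool.Agent.HEP
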