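import Pool.Agent.HEP.ChCut

/-!
Project HEP, section (4): a strand (word of height `t > 2 r`) cut at both ends at height `r`: near part `P` at the
beginning, near part `Q` at the end (read from the end), and a middle part which is a single block or begins and
ends with long blocks.
-/

namespace Pool.Agent.HEP

open scoped ENNReal

namespace Ch

variable (A : Alph)

/-- The renewal inequality (T1) in the form with words. -/
def T1 : Prop := ∀ x t : ℕ, ∑' c, ∑' v, ind (x < A.ht c ∧ A.ht c + A.h v = t) * (A.wt c * A.w v) ≤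
  A.Lam x * A.b t

/-- (T1) for the two ends of a word. -/
theorem t1_two (t1 : T1 A) (x y T : ℕ) :
    ∑' c, ∑' c', ∑' v, ind (x < A.ht c ∧ y < A.ht c' ∧ A.ht c + (A.ht c' + A.h v) = T) *
      (A.wt c * (A.wt c' * A.w v)) ≤ A.Lam x * A.Lam y * A.b T := by
  have h1 : ∀ c, ∑' c', ∑' v, ind (x < A.ht c ∧ y < A.ht c' ∧ A.ht c + (A.ht c' + A.h v) = T) *
      (A.wt c * (A.wt c' * A.w v)) ≤
      A.Lam y * ∑' v, ind (x < A.ht c ∧ A.ht c + A.h v = T) * (A.wt c * A.w v) := by
    intro c
    by_cases hc : x < A.ht c ∧ A.ht c ≤ T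
    · have e1 : ∑' c', ∑' v, ind (x < A.ht c ∧ y < A.ht c' ∧ A.ht c + (A.ht c' + A.h v) = T) *
          (A.wt c * (A.wt c' * A.w v)) =
          A.wt c * ∑' c', ∑' v, ind (y < A.ht c' ∧ A.ht c' + A.h v = T - A.ht c) * (A.wt c' * A.w v) := by
        rw [← ENNReal.tsum_mul_left]
        refine tsum_congr fun c' => ?_
        rw [← ENNReal.tsum_mul_left]
        refine tsum_congr fun v => ?_
        rw [ind_congr (p := x < A.ht c ∧ y < A.ht c' ∧ A.ht c + (A.ht c' + A.h v) = T)
          (q := y < A.ht c' ∧ A.ht c' + A.h v = T - A.ht c) (by omega)]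
        ring
      have e2 : ∑' v, ind (x < A.ht c ∧ A.ht c + A.h v = T) * (A.wt c * A.w v) = A.wt c * A.b (T - A.ht c) := by
        unfold Alph.b
        rw [← ENNReal.tsum_mul_left]
        refine tsum_congr fun v => ?_
        rw [ind_congr (p := x < A.ht c ∧ A.ht c + A.h v = T) (q := A.h v = T - A.ht c) (by omega)]
        ring
      rw [e1, e2]
      calc A.wt c * ∑' c', ∑' v, ind (y < A.ht c' ∧ A.ht c' + A.h v = T - A.ht c) * (A.wt c' * A.w v)
          ≤ A.wt c * (A.Lam y * A.b (T - A.ht c)) := mul_le_mul' le_rfl (t1 y (T - A.ht c))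
        _ = A.Lam y * (A.wt c * A.b (T - A.ht c)) := by ring
    · refine le_trans (le_of_eq (b := 0) ?_) bot_le
      rw [ENNReal.tsum_eq_zero]
      intro c'
      rw [ENNReal.tsum_eq_zero]
      intro v
      rw [ind_false (by omega), zero_mul]
  calc _ ≤ ∑' c, A.Lam y * ∑' v, ind (x < A.ht c ∧ A.ht c + A.h v = T) * (A.wt c * A.w v) :=
        ENNReal.tsum_le_tsum h1
    _ = A.Lam y * ∑' c, ∑' v, ind (x < A.ht c ∧ A.ht c + A.h v = T) * (A.wt c * A.w v) :=
        ENNReal.tsum_mul_left
    _ ≤ A.Lam y * (A.Lam x * A.b T) := mul_le_mul' le_rfl (t1 x T)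
    _ = _ := by ring

/-- **The two-sided cut of a strand.** -/
theorem strand (t1 : T1 A) (anti : Antitone A.b) {r t : ℕ} (hr : 2 * r < t) (g g' : List A.B → ℝ≥0∞) :
    ∑' W, ind (A.h W = t) * (A.w W * (g (A.cut r W) * g' (A.cut r W.reverse))) ≤
      ∑' P, ∑' Q, ind (A.h P ≤ r ∧ A.h Q ≤ r) * ((A.w P * g P) * (A.w Q * g' Q) *
        (A.Lam (r - A.h P) * A.Lam (r - A.h Q) * A.b (t - 2 * r) + A.lam (t - A.h P - A.h Q))) := by
  -- the term with the single middle block
  set X : List A.B → List A.B → ℝ≥0∞ := fun P Q => ind (A.h P ≤ r ∧ A.h Q ≤ r) * ((A.w P * g P) * (A.w Q * g' Q))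
    with hX
  rw [cut_sum_eq A r]
  have z1 : ∑' l, ind (A.h l ≤ r) * (ind (A.h l = t) * (A.w l * (g (A.cut r l) * g' (A.cut r l.reverse)))) = 0 := by
    rw [ENNReal.tsum_eq_zero]
    intro l
    by_cases h1 : A.h l ≤ r
    · rw [ind_false (p := A.h l = t) (by omega)]; simp
    · rw [ind_false h1]; simp
  rw [z1, zero_add]
  refine ENNReal.tsum_le_tsum fun P => ?_
  -- bound for fixed `P`, `c`
  have hPc : ∀ c, ∑' v, ind (A.h P ≤ r ∧ r < A.h P + A.ht c) * (ind (A.h (P ++ c :: v) = t) *
      (A.w (P ++ c :: v) * (g (A.cut r (P ++ c :: v)) * g' (A.cut r (P ++ c :: v).reverse)))) ≤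
      ∑' Q, X P Q * (ind (A.ht c = t - A.h P - A.h Q) * A.wt c) +
      ∑' Q, X P Q * ∑' c', ∑' v, ind (r - A.h P < A.ht c ∧ r - A.h Q < A.ht c' ∧
        A.ht c + (A.ht c' + A.h v) = t - A.h P - A.h Q) * (A.wt c * (A.wt c' * A.w v)) := by
    intro c
    rw [← tsum_reverse, cut_sum_eq A r]
    refine add_le_add (ENNReal.tsum_le_tsum fun Q => ?_) (ENNReal.tsum_le_tsum fun Q => ?_)
    · by_cases hQ : A.h Q ≤ r
      · by_cases hP : A.h P ≤ r ∧ r < A.h P + A.ht c
        · by_cases ht : A.h (P ++ c :: Q.reverse) = t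
          · have ht' := ht
            rw [A.h_append, A.h_cons, A.h_reverse] at ht'
            rw [ind_true hQ, ind_true hP, ind_true ht, one_mul, one_mul, one_mul, hX]
            simp only
            rw [ind_true ⟨hP.1, hQ⟩, ind_true (p := A.ht c = t - A.h P - A.h Q) (by omega),
              cut_append_cons A _ hP.1 hP.2]
            have e : (P ++ c :: Q.reverse).reverse = Q ++ c :: P.reverse := by simp
            rw [e, cut_append_cons A _ hQ (by omega), A.w_append, A.w_cons, A.w_reverse]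
            apply le_of_eq
            ring
          · rw [ind_false ht]; simp
        · rw [ind_false hP]; simp
      · rw [ind_false hQ]; simp
    · rw [← ENNReal.tsum_mul_left]
      refine ENNReal.tsum_le_tsum fun c' => ?_
      rw [← ENNReal.tsum_mul_left]
      refine ENNReal.tsum_le_tsum fun v => ?_
      by_cases hQ : A.h Q ≤ r ∧ r < A.h Q + A.ht c'
      · by_cases hP : A.h P ≤ r ∧ r < A.h P + A.ht c
        · by_cases ht : A.h (P ++ c :: (Q ++ c' :: v).reverse) = t
          · have ht' := ht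
            rw [A.h_append, A.h_cons, A.h_reverse, A.h_append, A.h_cons] at ht'
            rw [ind_true hQ, ind_true hP, ind_true ht, one_mul, one_mul, one_mul, hX]
            simp only
            rw [ind_true ⟨hP.1, hQ.1⟩, ind_true (p := r - A.h P < A.ht c ∧ r - A.h Q < A.ht c' ∧
              A.ht c + (A.ht c' + A.h v) = t - A.h P - A.h Q) (by omega),
              cut_append_cons A _ hP.1 hP.2]
            have e : (P ++ c :: (Q ++ c' :: v).reverse).reverse = Q ++ c' :: (v ++ c :: P.reverse) := by simp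
            rw [e, cut_append_cons A _ hQ.1 hQ.2, A.w_append, A.w_cons, A.w_reverse, A.w_append, A.w_cons]
            apply le_of_eq
            ring
          · rw [ind_false ht]; simp
        · rw [ind_false hP]; simp
      · rw [ind_false hQ]; simp
  refine (ENNReal.tsum_le_tsum hPc).trans ?_
  rw [ENNReal.tsum_add, ENNReal.tsum_comm (β := List A.B), ENNReal.tsum_comm (β := List A.B), ← ENNReal.tsum_add]
  refine ENNReal.tsum_le_tsum fun Q => ?_
  rw [ENNReal.tsum_mul_left, ENNReal.tsum_mul_left, ← mul_add]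
  have e3 : ∑' c, ind (A.ht c = t - A.h P - A.h Q) * A.wt c = A.lam (t - A.h P - A.h Q) := rfl
  rw [e3]
  by_cases h2 : A.h P ≤ r ∧ A.h Q ≤ r
  · rw [hX]
    simp only
    rw [ind_true h2, one_mul, one_mul, add_comm]
    refine mul_le_mul' le_rfl (add_le_add ?_ le_rfl)
    refine (t1_two A t1 _ _ _).trans (mul_le_mul' le_rfl (anti ?_))
    omega
  · rw [hX]
    simp only
    rw [ind_false h2, zero_mul, zero_mul, zero_mul]

end Ch

end Pool.Agent.HEP
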