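import Pool.Agent.HEP.ChFold

/-!
Project HEP, section (4): product bound for the chains of strands of one scale (all strands have heights
`≥ A0 > 2 r` and consecutive strands avoid each other only in their near parts of height `≤ r`).
-/

namespace Pool.Agent.HEP

open scoped ENNReal
open Finset

namespace Ch

/-- The factor of a strand of height `t`. -/
noncomputable def kap (A : Alph) (L : ℝ≥0∞) (r t : ℕ) : ℝ≥0∞ :=
  s2 A L r none * s1 A r none * A.b (t - 2 * r) +
    ∑ p ∈ range (r + 1), ∑ q ∈ range (r + 1), A.lam (t - p - q) * (s2 A L r (some p) * s1 A r (some q))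

/-- Chains of `< n` ... strands of heights `A0, ..., A0 + n - 1`, behind a strand whose near part is `P`. -/
noncomputable def Wf (S : Sys) (r A0 : ℕ) : ℕ → List S.B → ℝ≥0∞
  | 0, _ => 1
  | n + 1, P => Wf S r A0 n P + ∑' W, ind (S.h W = A0 + n) *
      (S.w W * (ind (S.Av P (S.cut r W)) * Wf S r A0 n (S.cut r W.reverse)))

/-- All the chains of strands of heights `A0, ..., A0 + n - 1`. -/
noncomputable def Tf (S : Sys) (r A0 : ℕ) : ℕ → ℝ≥0∞
  | 0 => 1
  | n + 1 => Tf S r A0 n + ∑' W, ind (S.h W = A0 + n) * (S.w W * Wf S r A0 n (S.cut r W.reverse))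

/-- The product of the factors. -/
noncomputable def Pf (A : Alph) (L : ℝ≥0∞) (r A0 n : ℕ) : ℝ≥0∞ := ∏ j ∈ range n, (1 + kap A L r (A0 + j))

theorem ind_le_eq_sum (m r : ℕ) : ind (m ≤ r) = ∑ p ∈ range (r + 1), ind (m = p) := by
  by_cases h : m ≤ r
  · rw [ind_true h, Finset.sum_eq_single_of_mem m (by simpa using Nat.lt_succ_of_le h), ind_true rfl]
    intro p _ hp
    exact ind_false (fun e => hp e.symm)
  · rw [ind_false h]
    symm
    refine Finset.sum_eq_zero fun p hp => ind_false ?_
    rw [mem_range] at hp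
    omega

/-- The two-sided cut, sorted by the types. -/
theorem strand_types {A : Alph} (hb : Antitone A.b) {r t : ℕ} (hr : 2 * r < t) (g g' : List A.B → ℝ≥0∞) :
    ∑' W, ind (A.h W = t) * (A.w W * (g (A.cut r W) * g' (A.cut r W.reverse))) ≤
      (∑' P, phi A r none P * g P) * (∑' Q, phi A r none Q * g' Q) * A.b (t - 2 * r) +
      ∑ p ∈ range (r + 1), ∑ q ∈ range (r + 1), A.lam (t - p - q) *
        ((∑' P, phi A r (some p) P * g P) * (∑' Q, phi A r (some q) Q * g' Q)) := by
  refine (strand A (t1_word hb) hb hr g g').trans (le_of_eq ?_)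
  have e1 : ∀ P Q, ind (A.h P ≤ r ∧ A.h Q ≤ r) * ((A.w P * g P) * (A.w Q * g' Q) *
        (A.Lam (r - A.h P) * A.Lam (r - A.h Q) * A.b (t - 2 * r) + A.lam (t - A.h P - A.h Q))) =
      (phi A r none P * g P) * (phi A r none Q * g' Q) * A.b (t - 2 * r) +
      ∑ p ∈ range (r + 1), ∑ q ∈ range (r + 1), A.lam (t - p - q) *
        ((phi A r (some p) P * g P) * (phi A r (some q) Q * g' Q)) := by
    intro P Q
    have e2 : ∑ p ∈ range (r + 1), ∑ q ∈ range (r + 1), A.lam (t - p - q) *
        ((phi A r (some p) P * g P) * (phi A r (some q) Q * g' Q)) =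
        ind (A.h P ≤ r ∧ A.h Q ≤ r) * ((A.w P * g P) * (A.w Q * g' Q) * A.lam (t - A.h P - A.h Q)) := by
      rw [ind_and, ind_le_eq_sum, ind_le_eq_sum, Finset.sum_mul_sum, Finset.sum_mul]
      refine sum_congr rfl fun p _ => ?_
      rw [Finset.sum_mul]
      refine sum_congr rfl fun q _ => ?_
      simp only [phi]
      by_cases hp : A.h P = p
      · by_cases hq : A.h Q = q
        · rw [hp, hq]; ring
        · rw [ind_false hq]; ring
      · rw [ind_false hp]; ring
    rw [e2, ind_and]
    simp only [phi]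
    ring
  simp only [e1]
  have e3 : ∀ P, ∑' Q, ((phi A r none P * g P) * (phi A r none Q * g' Q) * A.b (t - 2 * r) +
      ∑ p ∈ range (r + 1), ∑ q ∈ range (r + 1), A.lam (t - p - q) *
        ((phi A r (some p) P * g P) * (phi A r (some q) Q * g' Q))) =
      (phi A r none P * g P) * ((∑' Q, phi A r none Q * g' Q) * A.b (t - 2 * r)) +
      ∑ p ∈ range (r + 1), ∑ q ∈ range (r + 1), (phi A r (some p) P * g P) * (A.lam (t - p - q) *
        (∑' Q, phi A r (some q) Q * g' Q)) := by
    intro P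
    rw [ENNReal.tsum_add]
    congr 1
    · rw [← ENNReal.tsum_mul_right, ← ENNReal.tsum_mul_left]
      refine tsum_congr fun Q => ?_
      ring
    · rw [Summable.tsum_finsetSum (fun i _ => ENNReal.summable)]
      refine sum_congr rfl fun p _ => ?_
      rw [Summable.tsum_finsetSum (fun i _ => ENNReal.summable)]
      refine sum_congr rfl fun q _ => ?_
      rw [← ENNReal.tsum_mul_left, ← ENNReal.tsum_mul_left]
      refine tsum_congr fun Q => ?_
      ring
  simp only [e3]
  rw [ENNReal.tsum_add]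
  congr 1
  · rw [ENNReal.tsum_mul_right]; ring
  · rw [Summable.tsum_finsetSum (fun i _ => ENNReal.summable)]
    refine sum_congr rfl fun p _ => ?_
    rw [Summable.tsum_finsetSum (fun i _ => ENNReal.summable)]
    refine sum_congr rfl fun q _ => ?_
    rw [ENNReal.tsum_mul_right]; ring

variable {S : Sys} {L : ℝ≥0∞} {N r : ℕ}

/-- Total mass of a type. -/
theorem tsum_phi_none (A : Alph) (r : ℕ) : ∑' P, phi A r none P = 1 := by
  simp only [phi]
  exact A.tsum_w_Lam r

theorem tsum_phi_some (A : Alph) (r p : ℕ) : ∑' P, phi A r (some p) P = A.b p := by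
  simp only [phi]
  rfl

theorem tsum_phi_le {A : Alph} (hb : Antitone A.b) {r : ℕ} (τ : Option ℕ) (hτ : Val r τ) :
    ∑' P, phi A r τ P ≤ s1 A r τ := by
  cases τ with
  | none => rw [tsum_phi_none]; simp [s1]
  | some p =>
    rw [tsum_phi_some]
    simp only [s1]
    have hp0 : (p : ℝ≥0∞) + 1 ≠ 0 := by positivity
    have hp1 : (p : ℝ≥0∞) + 1 ≠ ⊤ := by exact_mod_cast ENNReal.natCast_ne_top (p + 1)
    rw [ENNReal.le_div_iff_mul_le (Or.inl hp0) (Or.inl hp1), mul_comm]
    exact (Alph.b_mul hb p).trans (A.U_mono hτ)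

/-- The general step. -/
theorem step_le (hb : Antitone S.b) {t : ℕ} (hr2 : 2 * r < t) (g g' : List S.B → ℝ≥0∞) (c c' : ℝ≥0∞)
    (hg : ∀ τ, Val r τ → ∑' Q, phi S.toAlph r τ Q * g Q ≤ c * s2 S.toAlph L r τ)
    (hg' : ∀ τ, Val r τ → ∑' Q, phi S.toAlph r τ Q * g' Q ≤ s1 S.toAlph r τ * c') :
    ∑' W, ind (S.h W = t) * (S.w W * (g (S.cut r W) * g' (S.cut r W.reverse))) ≤
      c * kap S.toAlph L r t * c' := by
  refine (strand_types hb hr2 g g').trans ?_
  have e : c * kap S.toAlph L r t * c' = (c * s2 S.toAlph L r none) * (s1 S.toAlph r none * c') * S.b (t - 2 * r) +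
      ∑ p ∈ range (r + 1), ∑ q ∈ range (r + 1), S.lam (t - p - q) *
        ((c * s2 S.toAlph L r (some p)) * (s1 S.toAlph r (some q) * c')) := by
    unfold kap
    rw [mul_add, add_mul, Finset.mul_sum, Finset.sum_mul]
    congr 1
    · ring
    · refine sum_congr rfl fun p _ => ?_
      rw [Finset.mul_sum, Finset.sum_mul]
      refine sum_congr rfl fun q _ => ?_
      ring
  rw [e]
  refine add_le_add (mul_le_mul' (mul_le_mul' (hg none trivial) (hg' none trivial)) le_rfl) ?_
  refine sum_le_sum fun p hp => sum_le_sum fun q hq => ?_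
  rw [mem_range] at hp hq
  exact mul_le_mul' le_rfl (mul_le_mul' (hg (some p) (Nat.lt_succ_iff.1 hp)) (hg' (some q) (Nat.lt_succ_iff.1 hq)))

/-- **Chains behind a near part of type `τ`.** -/
theorem Wf_le (hb : Antitone S.b) (ha : ∀ m ≤ N, S.a m * S.U m ≤ L) (hr : r ≤ N) {A0 : ℕ} (hA : 2 * r < A0) (n : ℕ) :
    ∀ τ, Val r τ → ∑' P, phi S.toAlph r τ P * Wf S r A0 n P ≤ s1 S.toAlph r τ * Pf S.toAlph L r A0 n := by
  induction n with
  | zero =>
    intro τ hτ
    simp only [Wf, Pf, mul_one, range_zero, prod_empty]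
    exact tsum_phi_le hb τ hτ
  | succ n ih =>
    intro τ hτ
    have e1 : ∑' P, phi S.toAlph r τ P * Wf S r A0 (n + 1) P =
        ∑' P, phi S.toAlph r τ P * Wf S r A0 n P +
        ∑' W, ind (S.h W = A0 + n) * (S.w W * ((fun Q => ∑' P, phi S.toAlph r τ P * ind (S.Av P Q)) (S.cut r W) *
          Wf S r A0 n (S.cut r W.reverse))) := by
      simp only [Wf, mul_add]
      rw [ENNReal.tsum_add]
      congr 1
      have e2 : ∀ P, phi S.toAlph r τ P * ∑' W, ind (S.h W = A0 + n) *
          (S.w W * (ind (S.Av P (S.cut r W)) * Wf S r A0 n (S.cut r W.reverse))) =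
          ∑' W, phi S.toAlph r τ P * (ind (S.h W = A0 + n) *
          (S.w W * (ind (S.Av P (S.cut r W)) * Wf S r A0 n (S.cut r W.reverse)))) := fun P =>
        ENNReal.tsum_mul_left.symm
      rw [tsum_congr e2]
      rw [ENNReal.tsum_comm]
      refine tsum_congr fun W => ?_
      rw [← ENNReal.tsum_mul_right, ← ENNReal.tsum_mul_left, ← ENNReal.tsum_mul_left]
      refine tsum_congr fun P => ?_
      ring
    rw [e1]
    have h2 := step_le (S := S) (L := L) (r := r) hb (t := A0 + n) (by omega)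
      (fun Q => ∑' P, phi S.toAlph r τ P * ind (S.Av P Q)) (Wf S r A0 n) (s1 S.toAlph r τ) (Pf S.toAlph L r A0 n)
      (by
        intro τ' hτ'
        refine le_trans (le_of_eq ?_) (fold hb ha hr τ τ' hτ hτ')
        unfold FF
        rw [ENNReal.tsum_comm]
        refine tsum_congr fun Q => ?_
        rw [← ENNReal.tsum_mul_left]
        refine tsum_congr fun P => ?_
        ring) ih
    refine (add_le_add (ih τ hτ) h2).trans (le_of_eq ?_)
    unfold Pf
    rw [prod_range_succ]
    ring

/-- **All the chains of one scale.** -/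
theorem Tf_le (hb : Antitone S.b) (ha : ∀ m ≤ N, S.a m * S.U m ≤ L) (hL : 1 ≤ L) (hr : r ≤ N) {A0 : ℕ}
    (hA : 2 * r < A0) (n : ℕ) : Tf S r A0 n ≤ S.U r * Pf S.toAlph L r A0 n := by
  induction n with
  | zero =>
    simp only [Tf, Pf, mul_one, range_zero, prod_empty]
    exact S.one_le_U r
  | succ n ih =>
    have hU0 : S.U r ≠ 0 := S.U_ne_zero r
    have hU1 : S.U r ≠ ⊤ := S.U_ne_top r
    have h8 : (1 : ℝ≥0∞) ≤ 8 * L := by
      calc (1 : ℝ≥0∞) = 1 * 1 := (one_mul 1).symm
        _ ≤ 8 * L := mul_le_mul' (by norm_num) hL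
    have h2 := step_le (S := S) (L := L) (r := r) hb (t := A0 + n) (by omega)
      (fun _ => 1) (Wf S r A0 n) (S.U r) (Pf S.toAlph L r A0 n)
      (by
        intro τ' hτ'
        simp only [mul_one]
        refine (tsum_phi_le hb τ' hτ').trans ?_
        cases τ' with
        | none =>
          simp only [s1, s2]
          rw [ENNReal.mul_div_cancel hU0 hU1]
          exact h8
        | some p =>
          simp only [s1, s2]
          rw [div_eq_mul_inv, div_eq_mul_inv, ← mul_assoc]
          refine mul_le_mul' ?_ le_rfl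
          calc S.U r = S.U r * 1 := (mul_one _).symm
            _ ≤ S.U r * (8 * L) := mul_le_mul' le_rfl h8) (Wf_le hb ha hr hA n)
    simp only [one_mul] at h2
    simp only [Tf]
    refine (add_le_add ih h2).trans (le_of_eq ?_)
    unfold Pf
    rw [prod_range_succ]
    ring

end Ch

end Pool.Agent.HEP
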