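import Pool.Agent.HEP.GSys
import Pool.Agent.HEP.GRev

/-!
HEP geometry, module GArc: the arc of a good pair.

`aw σ l s`: the arc which starts at the end of the LONG leg, goes to the fold and ends at the end of the SHORT leg:
`σ = true`: `fw (jn l.reverse) (jn s)` (long leg = older leg); `σ = false`: the reverse of `fw (jn s.reverse) (jn l)`.
In the frame of the arc the end has second coordinate `pl σ l - ps σ s`, and a row point at the position `y` (frame of the younger leg)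
has second coordinate `pl σ l - y`; the row is `F0 = 3 δ' - 2`, `δ' = δ + 1 - d σ`, and the end is in `F0 = 3 δ'`.

PAPER PROOF. `l, s ≠ []`. Let `σ = true`: `X = jn l.reverse` in `Br a`, `a + 1 = h l`, `Y = jn s` in `Br c`, `c + 1 = h s` (`jn_Br`, `hs_h`), `W = fw X Y`, `fw_V`.
`pl = p1 l = (fe X).2` (`hs_p1`), `ps = x s = (E Y).2` (`hs_x_eq`); `E W = fe X + (-1, 0) - E Y`. Mass: `W.length = X.length + Y.length + 2`,
`jn_length`, so `xE ^ (W.length + 1) = xE * (w l * w s)` (`wj l.reverse = wj l`). `F0 (fe X) = 3 a` (`fe_F0`), `F0 (E Y) = 3 c + 1`, `F0 (E W) = 3 (a - c - 1) = 3 δ`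
(here `h l - 1 = h s + δ`, i.e. `a = c + 1 + δ`). `Far δ τ δ W` if `(E W).2 - G < τ ≤ (E W).2` and `ps + G ≤ lo`: nodup from `av`; all points have `0 ≤ F0`
(`V X`; `fe X`; points `fe X + (-1, 0) - z`: `F0 = 3 a - 2 - F0 z ≥ 3 a - 2 - (3 c + 1) = 3 δ ≥ 0`); a point with `F0 = 3 δ - 2` is in `V X` (the others have
`F0 ≥ 3 δ`; `F0 (fe X) = 3 a ≥ 3 δ`), it is a row point: `F0 (fe X + (-1, 0) - z) = 3 a - 2 - 3 δ + 2 = 3 (c + 1) = 3 h s`, so `y = (fe X).2 - z.2` is in `rowT l (h s)`,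
`lo ≤ y` (the row is a finite set: `csInf_le`, bounded below since `V X` is finite), hence `z.2 = pl - y ≤ pl - ps - G = (E W).2 - G < τ`. `Dr W = - Dr Y` is not horizontal
(`Br.not_hz`, `hz_neg`). `fe X` has `F0 = 3 a ≥ 3 δ + 3` because `a = c + 1 + δ`. For `hi + G ≤ ps` use the reflected word: `V_not`, `E_not`, `F0_sg`,
`hz_sg`; `z.2 = pl - y ≥ pl - ps + G`, so `- z.2 ≤ - (E W).2 - G < τ`.
Let `σ = false`: long leg `Y = jn l` in `Br c`, `c + 1 = h l`, short leg `X = jn s.reverse` in `Br a`, `a + 1 = h s`, `h l = h s + δ`: `c = a + δ`. `W0 = fw X Y`, `W = rvw W0`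
(`rvw_spec`: `F0 (E W0) = 3 (a - c - 1)`, residue 0; `Dr W0` not horizontal): the points of `W` are `z - E W0`, `z` in `V W0`; `E W = - E W0 = E Y - fe X - (-1, 0)`, `F0 (E W) = 3 (δ + 1)`,
`(E W).2 = x l - p1 s = pl - ps`. Points of the younger leg: `E Y - z`, `z` in `V Y`, `F0 = 3 c + 1 - F0 z ≥ 0`; equal to `3 (δ + 1) - 2` iff `F0 z = 3 a = 3 h s - 3`:
row point `z.2 ∈ rowF l (h s)`, second coordinate `pl - z.2`. Points of the older leg: `F0 ≥ - F0 (E W0) = 3 (δ + 1)`. Fold vertex: `F0 (fe X - E W0) = 3 a + 3 (δ + 1) ≥ 3 δ + 3`.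
`aw_inj`: `fw_inj`, `jn_inj` (`l.reverse = l'.reverse`), and `rvw (rvw W0) = W0`.
-/

namespace Pool.Agent.HEP

open Pool.Agent.Hhelper14.SAW Pool.Agent.HHP
open scoped ENNReal

/-- The arc of a pair. -/
def aw (σ : Bool) (l s : List Blk) : List Bool :=
  if σ then fw (jn l.reverse) (jn s) else rvw (fw (jn s.reverse) (jn l))

variable {n : ℕ}

private lemma E_memV (W : List Bool) : E W ∈ V W := E_mem W

/-- Rows. -/
private def GArc_row (σ : Bool) (l : List Blk) (j : ℕ) : Set ℤ := if σ then rowT l j else rowF l j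

private lemma GArc_rowT_fin (l : List Blk) (j : ℕ) : (rowT l j).Finite := by
  have h : (rowT l j) ⊆ (fun z : ℤ × ℤ => (fe (jn l.reverse) + (-1, 0) - z).2) ''
      {z | z ∈ o' :: V (jn l.reverse)} := by
    rintro y ⟨z, h1, -, h3⟩
    exact ⟨z, by simpa using h1, h3.symm⟩
  exact ((List.finite_toSet _).image _).subset h

private lemma GArc_rowF_fin (l : List Blk) (j : ℕ) : (rowF l j).Finite := by
  have h : (rowF l j) ⊆ (fun z : ℤ × ℤ => z.2) '' {z | z ∈ V (jn l)} := by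
    rintro y ⟨z, h1, -, h3⟩
    exact ⟨z, h1, h3.symm⟩
  exact ((List.finite_toSet _).image _).subset h

private lemma GArc_row_fin (σ : Bool) (l : List Blk) (j : ℕ) : (GArc_row σ l j).Finite := by
  cases σ
  · exact GArc_rowF_fin l j
  · exact GArc_rowT_fin l j

private lemma GArc_br {l : List Blk} (hl : l ≠ []) : ∃ a, Br a (jn l) ∧ hj l = a + 1 := by
  refine ⟨hj l - 1, jn_Br hl, ?_⟩
  have := hj_pos hl
  omega

private lemma GArc_hj_rev (l : List Blk) : hj l.reverse = hj l := by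
  unfold hj
  rw [List.map_reverse, List.sum_reverse]

private lemma GArc_wj_rev (l : List Blk) : wj l.reverse = wj l := by
  unfold wj
  rw [List.map_reverse, List.prod_reverse]

/-- The reversed fold word. -/
private lemma GArc_rv {a c : ℕ} {X Y : List Bool} (hX : Br a X) (hY : Br c Y) :
    V (rvw (fw X Y)) = ((V (fw X Y)).reverse).map (fun z => z - E (fw X Y)) ∧
      E (rvw (fw X Y)) = - E (fw X Y) ∧ ¬ hz (Dr (rvw (fw X Y))) ∧
      (rvw (fw X Y)).length = (fw X Y).length ∧ rvw (rvw (fw X Y)) = fw X Y := by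
  obtain ⟨-, h2, h3, -⟩ := fw_V hX Y
  refine rvw_spec ?_ ?_
  · rw [h2, F0_sub, F0_add, fe_F0 hX, hY.2]
    simp only [F0]
    omega
  · rw [h3, hz_neg]
    exact hY.not_hz

theorem aw_E {σ : Bool} {l s : List Blk} (hl : l ≠ []) (hs0 : s ≠ []) (hav : (hs n).av σ l s) :
    (E (aw σ l s)).2 = (hs n).pl σ l - (hs n).ps σ s := by
  cases σ
  · have hav' : Avn n s l := hav
    obtain ⟨a, ha, -⟩ := GArc_br (l := s.reverse) (by simpa using hs0)
    obtain ⟨c, hc, -⟩ := GArc_br hl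
    have e : aw false l s = rvw (fw (jn s.reverse) (jn l)) := rfl
    have e1 : (hs n).pl false l = (hs n).x l := rfl
    have e2 : (hs n).ps false s = (hs n).p1 s := rfl
    rw [e, (GArc_rv ha hc).2.1, (fw_V ha _).2.1, e1, e2,
      hs_x_eq hl (fun c hc => hav'.1 c (List.mem_append_right _ hc)),
      hs_p1 hs0 (fun c hc => hav'.1 c (List.mem_append_left _ hc))]
    simp only [Prod.snd_neg, Prod.snd_sub, Prod.snd_add]
    ring
  · have hav' : Avn n l s := hav
    obtain ⟨a, ha, -⟩ := GArc_br (l := l.reverse) (by simpa using hl)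
    have e : aw true l s = fw (jn l.reverse) (jn s) := rfl
    have e1 : (hs n).pl true l = (hs n).p1 l := rfl
    have e2 : (hs n).ps true s = (hs n).x s := rfl
    rw [e, (fw_V ha _).2.1, e1, e2,
      hs_x_eq hs0 (fun c hc => hav'.1 c (List.mem_append_right _ hc)),
      hs_p1 hl (fun c hc => hav'.1 c (List.mem_append_left _ hc))]
    simp only [Prod.snd_sub, Prod.snd_add]
    ring

private lemma GArc_len {l s : List Blk} (hl : l ≠ []) (hs0 : s ≠ []) :
    xE ^ ((fw (jn l.reverse) (jn s)).length + 1) = xE * (wj l * wj s) := by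
  have hl' : l.reverse ≠ [] := by simpa using hl
  obtain ⟨a, ha, -⟩ := GArc_br hl'
  rw [(fw_V ha _).2.2.2, ← GArc_wj_rev l, jn_length hl', jn_length hs0]
  ring

theorem aw_mass {σ : Bool} {l s : List Blk} (hl : l ≠ []) (hs0 : s ≠ []) :
    xE ^ ((aw σ l s).length + 1) = xE * ((hs n).w l * (hs n).w s) := by
  rw [hs_w, hs_w]
  cases σ
  · have e : aw false l s = rvw (fw (jn s.reverse) (jn l)) := rfl
    obtain ⟨a, ha, -⟩ := GArc_br (l := s.reverse) (by simpa using hs0)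
    obtain ⟨c, hc, -⟩ := GArc_br hl
    rw [e, (GArc_rv ha hc).2.2.2.1, GArc_len hs0 hl]
    ring
  · exact GArc_len hl hs0

private lemma GArc_fwinj {l s l' s' : List Blk} (hl : l ≠ []) (hs0 : s ≠ []) (hl' : l' ≠ []) (hs0' : s' ≠ [])
    (h : fw (jn l.reverse) (jn s) = fw (jn l'.reverse) (jn s')) : l = l' ∧ s = s' := by
  have h1 : l.reverse ≠ [] := by simpa using hl
  have h2 : l'.reverse ≠ [] := by simpa using hl'
  obtain ⟨a, ha, -⟩ := GArc_br h1
  obtain ⟨a', ha', -⟩ := GArc_br h2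
  obtain ⟨c, hc, -⟩ := GArc_br hs0
  obtain ⟨c', hc', -⟩ := GArc_br hs0'
  obtain ⟨e1, e2⟩ := fw_inj ha ha' hc hc' h
  exact ⟨List.reverse_injective (jn_inj h1 h2 e1), jn_inj hs0 hs0' e2⟩

theorem aw_inj {σ : Bool} {l s l' s' : List Blk} (hl : l ≠ []) (hs0 : s ≠ []) (hl' : l' ≠ []) (hs0' : s' ≠ [])
    (h : aw σ l s = aw σ l' s') : l = l' ∧ s = s' := by
  cases σ
  · have h0 : rvw (fw (jn s.reverse) (jn l)) = rvw (fw (jn s'.reverse) (jn l')) := h
    obtain ⟨a, ha, -⟩ := GArc_br (l := s.reverse) (by simpa using hs0)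
    obtain ⟨c, hc, -⟩ := GArc_br hl
    obtain ⟨a', ha', -⟩ := GArc_br (l := s'.reverse) (by simpa using hs0')
    obtain ⟨c', hc', -⟩ := GArc_br hl'
    have h1 : fw (jn s.reverse) (jn l) = fw (jn s'.reverse) (jn l') := by
      rw [← (GArc_rv ha hc).2.2.2.2, ← (GArc_rv ha' hc').2.2.2.2, h0]
    have h2 := GArc_fwinj hs0 hl hs0' hl' h1
    exact ⟨h2.2, h2.1⟩
  · exact GArc_fwinj hl hs0 hl' hs0' h

/-- The arc, without the slit. -/
private lemma GArc_core {σ : Bool} {δ : ℕ} {l s : List Blk} (hl : l ≠ []) (hs0 : s ≠ []) (hav : (hs n).av σ l s)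
    (hδ : (hs n).h l - Sys.d σ = (hs n).h s + δ) :
    (V (aw σ l s)).Nodup ∧ (∀ z ∈ V (aw σ l s), 0 ≤ F0 z ∧
      (F0 z = 3 * ((δ + 1 - Sys.d σ : ℕ) : ℤ) - 2 → (hs n).pl σ l - z.2 ∈ GArc_row σ l ((hs n).h s))) ∧
      F0 (E (aw σ l s)) = 3 * ((δ + 1 - Sys.d σ : ℕ) : ℤ) ∧ ¬ hz (Dr (aw σ l s)) ∧
      ∃ z ∈ V (aw σ l s), 3 * (δ : ℤ) + 3 ≤ F0 z := by
  rw [hs_h, hs_h] at hδ
  rw [hs_h]
  cases σ
  · have hav' : Avn n s l := hav
    obtain ⟨a, ha, ha'⟩ := GArc_br (l := s.reverse) (by simpa using hs0)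
    rw [GArc_hj_rev] at ha'
    obtain ⟨c, hc, hc'⟩ := GArc_br hl
    have hN : (V (fw (jn s.reverse) (jn l))).Nodup := by
      rcases hav'.2 with h | h | h
      · exact absurd h hs0
      · exact absurd h hl
      · exact h
    have e : aw false l s = rvw (fw (jn s.reverse) (jn l)) := rfl
    have e1 : (hs n).pl false l = (E (jn l)).2 :=
      hs_x_eq hl (fun c hc => hav'.1 c (List.mem_append_right _ hc))
    have hd : Sys.d false = 0 := rfl
    rw [hd] at hδ ⊢
    rw [ha'] at hδ ⊢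
    rw [hc'] at hδ
    obtain ⟨f1, f2, f3, -⟩ := fw_V ha (jn l)
    obtain ⟨g1, g2, g3, -, -⟩ := GArc_rv ha hc
    have hE0 : F0 (E (fw (jn s.reverse) (jn l))) = -(3 * ((δ : ℤ) + 1)) := by
      rw [f2, F0_sub, F0_add, fe_F0 ha, hc.2]
      simp only [F0]
      omega
    rw [e, g1, g2]
    refine ⟨?_, ?_, ?_, g3, ?_⟩
    · exact (List.nodup_reverse.2 hN).map (sub_left_injective)
    · intro z hz
      rw [List.mem_map] at hz
      obtain ⟨y, hy, rfl⟩ := hz
      rw [List.mem_reverse, f1, List.mem_append, List.mem_cons, List.mem_map] at hy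
      rw [F0_sub, hE0]
      rcases hy with hy | rfl | ⟨u, hu, rfl⟩
      · have h1 := (ha.1.2 y hy).1
        refine ⟨by omega, fun h => ?_⟩
        exfalso; push_cast at h; omega
      · rw [fe_F0 ha]
        refine ⟨by omega, fun h => ?_⟩
        exfalso; push_cast at h; omega
      · have h1 := hc.1.2 u hu
        rw [F0_sub, F0_add, fe_F0 ha]
        have h2 : F0 ((-1, 0) : ℤ × ℤ) = -2 := by simp [F0]
        rw [h2]
        refine ⟨by omega, fun h => ?_⟩
        refine ⟨u, hu, ?_, ?_⟩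
        · push_cast at h ⊢; omega
        · rw [e1, f2]
          simp only [Prod.snd_sub, Prod.snd_add]
          ring
    · have h3 : F0 (-E (fw (jn s.reverse) (jn l))) = - F0 (E (fw (jn s.reverse) (jn l))) := by
        simp only [F0, Prod.fst_neg, Prod.snd_neg]; ring
      rw [h3, hE0]
      push_cast
      omega
    · refine ⟨fe (jn s.reverse) - E (fw (jn s.reverse) (jn l)), ?_, ?_⟩
      · refine List.mem_map_of_mem ?_
        rw [List.mem_reverse, f1]
        simp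
      · rw [F0_sub, hE0, fe_F0 ha]
        omega
  · have hav' : Avn n l s := hav
    obtain ⟨a, ha, ha'⟩ := GArc_br (l := l.reverse) (by simpa using hl)
    rw [GArc_hj_rev] at ha'
    obtain ⟨c, hc, hc'⟩ := GArc_br hs0
    have hN : (V (fw (jn l.reverse) (jn s))).Nodup := by
      rcases hav'.2 with h | h | h
      · exact absurd h hl
      · exact absurd h hs0
      · exact h
    have e : aw true l s = fw (jn l.reverse) (jn s) := rfl
    have e1 : (hs n).pl true l = (fe (jn l.reverse)).2 :=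
      hs_p1 hl (fun c hc => hav'.1 c (List.mem_append_left _ hc))
    have hd : Sys.d true = 1 := rfl
    rw [hd] at hδ ⊢
    rw [Nat.add_sub_cancel]
    rw [ha', hc'] at hδ
    rw [hc']
    obtain ⟨f1, f2, f3, -⟩ := fw_V ha (jn s)
    have h2 : F0 ((-1, 0) : ℤ × ℤ) = -2 := by simp [F0]
    have hE0 : F0 (E (fw (jn l.reverse) (jn s))) = 3 * (δ : ℤ) := by
      rw [f2, F0_sub, F0_add, fe_F0 ha, hc.2, h2]
      omega
    rw [e]
    refine ⟨hN, ?_, hE0, ?_, ?_⟩
    · intro z hz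
      rw [f1, List.mem_append, List.mem_cons, List.mem_map] at hz
      rcases hz with hz | rfl | ⟨u, hu, rfl⟩
      · have h1 := (ha.1.2 z hz).1
        refine ⟨h1, fun h => ?_⟩
        refine ⟨z, Or.inr hz, ?_, ?_⟩
        · rw [F0_sub, F0_add, fe_F0 ha, h2]
          push_cast; omega
        · rw [e1]
          simp only [Prod.snd_sub, Prod.snd_add]
          ring
      · rw [fe_F0 ha]
        refine ⟨by omega, fun h => ?_⟩
        exfalso; omega
      · have h1 := hc.1.2 u hu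
        rw [F0_sub, F0_add, fe_F0 ha, h2]
        refine ⟨by omega, fun h => ?_⟩
        exfalso; omega
    · rw [f3, hz_neg]
      exact hc.not_hz
    · refine ⟨fe (jn l.reverse), ?_, ?_⟩
      · rw [f1]; simp
      · rw [fe_F0 ha]; omega

theorem aw_far {σ : Bool} {G δ : ℕ} {l s : List Blk} (hl : l ≠ []) (hs0 : s ≠ []) (hav : (hs n).av σ l s)
    (hδ : (hs n).h l - Sys.d σ = (hs n).h s + δ) (hG : (hs n).ps σ s + G ≤ (hs n).lo σ l ((hs n).h s))
    {τ : ℤ} (h1 : (E (aw σ l s)).2 - G < τ) (h2 : τ ≤ (E (aw σ l s)).2) :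
    Far (δ + 1 - Sys.d σ) τ δ (aw σ l s) := by
  obtain ⟨c1, c2, c3, c4, c5⟩ := GArc_core hl hs0 hav hδ
  refine ⟨c1, fun z hz => ⟨(c2 z hz).1, ?_⟩, c3, h2, c4, c5⟩
  rintro ⟨h3, h4⟩
  have h5 := (c2 z hz).2 h3
  have h6 : (hs n).lo σ l ((hs n).h s) = sInf (GArc_row σ l ((hs n).h s)) := by
    cases σ <;> rfl
  have h7 := csInf_le (GArc_row_fin σ l ((hs n).h s)).bddBelow h5
  rw [← h6] at h7
  rw [aw_E hl hs0 hav] at h1
  omega

theorem aw_far' {σ : Bool} {G δ : ℕ} {l s : List Blk} (hl : l ≠ []) (hs0 : s ≠ []) (hav : (hs n).av σ l s)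
    (hδ : (hs n).h l - Sys.d σ = (hs n).h s + δ) (hG : (hs n).hi σ l ((hs n).h s) + G ≤ (hs n).ps σ s)
    {τ : ℤ} (h1 : - (E (aw σ l s)).2 - G < τ) (h2 : τ ≤ - (E (aw σ l s)).2) :
    Far (δ + 1 - Sys.d σ) τ δ ((aw σ l s).map (! ·)) := by
  obtain ⟨c1, c2, c3, c4, c5⟩ := GArc_core hl hs0 hav hδ
  have h6 : (hs n).hi σ l ((hs n).h s) = sSup (GArc_row σ l ((hs n).h s)) := by
    cases σ <;> rfl
  refine ⟨?_, ?_, ?_, ?_, ?_, ?_⟩
  · rw [V_not]
    exact c1.map sg_inj
  · intro z hz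
    rw [V_not, List.mem_map] at hz
    obtain ⟨y, hy, rfl⟩ := hz
    rw [F0_sg]
    refine ⟨(c2 y hy).1, ?_⟩
    rintro ⟨h3, h4⟩
    have h5 := (c2 y hy).2 h3
    have h7 := le_csSup (GArc_row_fin σ l ((hs n).h s)).bddAbove h5
    rw [← h6] at h7
    rw [aw_E hl hs0 hav] at h1
    have h8 : (sg y).2 = - y.2 := rfl
    rw [h8] at h4
    omega
  · rw [E_not, F0_sg]; exact c3
  · rw [E_not]; exact h2
  · rw [Dr_not, hz_sg]; exact c4
  · obtain ⟨z, hz, hz'⟩ := c5
    refine ⟨sg z, ?_, ?_⟩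
    · rw [V_not]; exact List.mem_map_of_mem hz
    · rw [F0_sg]; exact hz'

end Pool.Agent.HEP
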