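import Pool.Agent.HHP.Cprime
import Pool.Agent.HHP.Lib
import Pool.Agent.HHP.Mass
import Pool.Agent.HEP.Alph

/-!
Project HEP, geometry: DEFINITIONS (honeycomb lattice; words, `V`, `E`, `Dr`, `Br`, `Ren`, `rt`, `lt`, `ms`, `xE` as
in `HHP/Defs`).

* `fw X Y`: fold word. `X` in `Br a` is the older leg (walked towards the fold), then one step inside the top
  column, one step `(-1, 0)` into the column below, then `Y` (frame turned by 180 degrees). In the frame of `X` the
  point `z` of the frame of `Y` is `E (X ++ [!rt X]) + (-1, 0) - z`.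
* `Far δ τ T W`: self-avoiding words of the half plane `0 ≤ F0` which avoid the half row
  `F0 = 3 δ - 2, τ ≤ z.2` (the slit), reach the column `T + 1`, and end at the left border of the column `δ`, just
  beyond the slit (`F0 = 3 δ`, `τ ≤ (E W).2`).
* `Irr W`: irreducible bridges; `htw W` = number of columns of a bridge.
* `jn`: concatenation of a list of words.
* `rvw W`: the reversed word of an arc.
-/

namespace Pool.Agent.HEP

open Pool.Agent.Hhelper14.SAW Pool.Agent.HHP
open scoped ENNReal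

/-- Parameters of the finite domains: columns `0, ..., T`, lateral size `M`. -/
def cc (T M : ℕ) : Par := ⟨T, M, M, 0, M, M, 0⟩

/-- Domain with a slit. -/
def Rg (c : Par) (δ : ℕ) (τ : ℤ) (z : ℤ × ℤ) : Prop := D c z ∧ ¬ (F0 z = 3 * (δ : ℤ) - 2 ∧ τ ≤ z.2)

instance (c : Par) (δ : ℕ) (τ : ℤ) : DecidablePred (Rg c δ τ) := fun z => by unfold Rg; infer_instance

lemma Rg_dom (c : Par) (δ : ℕ) (τ : ℤ) : Dom (Rg c δ τ) := by
  refine ⟨⟨(D_dom c).start, ?_⟩, fun x h => h.1.1, fun x h => h.1.2.1⟩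
  rintro ⟨h, -⟩
  have : F0 o = 0 := by decide
  omega

/-- Words beyond the slit. -/
def Far (δ : ℕ) (τ : ℤ) (T : ℕ) (W : List Bool) : Prop :=
  (V W).Nodup ∧ (∀ z ∈ V W, 0 ≤ F0 z ∧ ¬ (F0 z = 3 * (δ : ℤ) - 2 ∧ τ ≤ z.2)) ∧ F0 (E W) = 3 * δ ∧ τ ≤ (E W).2 ∧
    ¬ hz (Dr W) ∧ ∃ z ∈ V W, 3 * (T : ℤ) + 3 ≤ F0 z

/-- Fold word. -/
def fw (X Y : List Bool) : List Bool := X ++ (!rt X) :: lt (X ++ [!rt X]) :: Y

/-- The vertex of the fold, at the end of `X ++ [!rt X]`. -/
def fe (X : List Bool) : ℤ × ℤ := E (X ++ [!rt X])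

/-- Number of columns of a bridge. -/
def htw (W : List Bool) : ℕ := (F0 (E W) / 3).toNat + 1

lemma htw_br {k : ℕ} {W : List Bool} (h : Br k W) : htw W = k + 1 := by
  unfold htw
  rw [h.2]
  omega

/-- Irreducible bridges. -/
def Irr (W : List Bool) : Prop := ∃ k, Br k W ∧ ∀ i, 1 ≤ i → i ≤ k → ¬ Ren i W

/-- The type of the blocks. -/
abbrev Blk : Type := {W : List Bool // Irr W}

/-- Concatenation. -/
def jn : List Blk → List Bool
  | [] => []
  | [c] => c.1
  | c :: c' :: l => c.1 ++ rt c.1 :: jn (c' :: l)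

/-- Sum of the heights. -/
def hj (l : List Blk) : ℕ := (l.map fun c => htw c.1).sum

/-- Sum of the displacements. -/
def xj (l : List Blk) : ℤ := (l.map fun c => (E c.1).2).sum

/-- Mass of a list of blocks. -/
noncomputable def wj (l : List Blk) : ℝ≥0∞ := (l.map fun c => xE ^ (c.1.length + 1)).prod

/-- The reversed word of an arc (a word that ends at a left border, followed by the exit step `(-1, 0)`). -/
def rvw (W : List Bool) : List Bool := ((W ++ [lt W]).tail.reverse).map (! ·)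

lemma Irr.br {W : List Bool} (h : Irr W) : Br (htw W - 1) W := by
  obtain ⟨k, h1, -⟩ := h
  rw [htw_br h1]
  exact h1

lemma htw_pos (W : List Bool) : 1 ≤ htw W := Nat.succ_pos _

end Pool.Agent.HEP
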