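import Pool.Agent.HEP.GDef

/-!
Project HEP, geometry: bridges are the concatenations of lists of irreducible bridges (blocks), uniquely.
-/

namespace Pool.Agent.HEP

open Pool.Agent.Hhelper14.SAW Pool.Agent.HHP
open scoped ENNReal

lemma jn_nil : jn [] = [] := rfl

lemma jn_single (c : Blk) : jn [c] = c.1 := rfl

lemma jn_cons {l : List Blk} (hl : l ≠ []) (c : Blk) : jn (c :: l) = c.1 ++ rt c.1 :: jn l := by
  cases l with
  | nil => exact absurd rfl hl
  | cons c' l => rfl

lemma hj_nil : hj [] = 0 := rfl

lemma hj_cons (c : Blk) (l : List Blk) : hj (c :: l) = htw c.1 + hj l := by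
  unfold hj; rw [List.map_cons, List.sum_cons]

lemma hj_append (l m : List Blk) : hj (l ++ m) = hj l + hj m := by
  unfold hj; rw [List.map_append, List.sum_append]

lemma xj_cons (c : Blk) (l : List Blk) : xj (c :: l) = (E c.1).2 + xj l := by
  unfold xj; rw [List.map_cons, List.sum_cons]

lemma wj_nil : wj [] = 1 := rfl

lemma wj_cons (c : Blk) (l : List Blk) : wj (c :: l) = xE ^ (c.1.length + 1) * wj l := by
  unfold wj; rw [List.map_cons, List.prod_cons]

lemma hj_pos {l : List Blk} (hl : l ≠ []) : 1 ≤ hj l := by
  cases l with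
  | nil => exact absurd rfl hl
  | cons c l => rw [hj_cons]; have := htw_pos c.1; omega

/-- The concatenation is a bridge. -/
lemma jn_Br {l : List Blk} (hl : l ≠ []) : Br (hj l - 1) (jn l) := by
  induction l with
  | nil => exact absurd rfl hl
  | cons c l ih =>
    by_cases h : l = []
    · subst h
      rw [jn_single, hj_cons, hj_nil, add_zero]
      exact c.2.br
    · rw [jn_cons h, hj_cons]
      have h1 := join_Br c.2.br (ih h)
      have h2 := htw_pos c.1
      have h3 := hj_pos h
      rwa [show htw c.1 - 1 + 1 + (hj l - 1) = htw c.1 + hj l - 1 by omega] at h1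

lemma jn_length {l : List Blk} (hl : l ≠ []) : wj l = xE ^ ((jn l).length + 1) := by
  induction l with
  | nil => exact absurd rfl hl
  | cons c l ih =>
    by_cases h : l = []
    · subst h
      rw [jn_single, wj_cons, wj_nil, mul_one]
    · rw [jn_cons h, wj_cons, ih h, ← pow_add]
      congr 1
      simp only [List.length_append, List.length_cons]
      omega

lemma jn_E {l : List Blk} (hl : l ≠ []) : (E (jn l)).2 = xj l := by
  induction l with
  | nil => exact absurd rfl hl
  | cons c l ih =>
    by_cases h : l = []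
    · subst h
      rw [jn_single, xj_cons]
      simp [xj]
    · rw [jn_cons h, xj_cons, (app_right c.2.br.tn_rt).2.1, ← ih h]
      simp

lemma jn_In {l : List Blk} (hl : l ≠ []) : In (hj l - 1) (jn l) := (jn_Br hl).1

/-- The first renewal of `jn (c :: l)` is at the end of the first block. -/
lemma jn_ren {l : List Blk} (hl : l ≠ []) (c : Blk) : Ren (htw c.1) (jn (c :: l)) := by
  rw [jn_cons hl]
  have h1 := (join c.2.br (jn_In hl)).2
  have h2 := htw_pos c.1
  rwa [show htw c.1 - 1 + 1 = htw c.1 by omega] at h1

lemma jn_not_ren {l : List Blk} (c : Blk) {i : ℕ} (hi : 1 ≤ i) (hi' : i < htw c.1) : ¬ Ren i (jn (c :: l)) := by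
  have hc : ¬ Ren i c.1 := by
    obtain ⟨k, hk, hk'⟩ := c.2
    refine hk' i hi ?_
    have := htw_br hk
    omega
  by_cases h : l = []
  · subst h
    rw [jn_single]; exact hc
  · rw [jn_cons h, ren_low c.2.br (jn_In h) (by omega)]
    exact hc

lemma jn_inj {l l' : List Blk} (hl : l ≠ []) (hl' : l' ≠ []) (h : jn l = jn l') : l = l' := by
  induction l generalizing l' with
  | nil => exact absurd rfl hl
  | cons c l ih =>
    cases l' with
    | nil => exact absurd rfl hl'
    | cons c' l' =>
      have hh : hj (c :: l) = hj (c' :: l') := by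
        have h1 := (jn_Br hl).2
        have h2 := (jn_Br hl').2
        rw [h, h2] at h1
        have h3 := hj_pos hl
        have h4 := hj_pos hl'
        omega
      rw [hj_cons, hj_cons] at hh
      have p1 := htw_pos c.1
      have p2 := htw_pos c'.1
      by_cases e1 : l = []
      · by_cases e2 : l' = []
        · subst e1 e2
          rw [jn_single, jn_single] at h
          rw [Subtype.ext h]
        · exfalso
          have h1 := jn_ren e2 c'
          rw [← h] at h1
          have h3 := hj_pos e2
          rw [e1, hj_nil] at hh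
          exact jn_not_ren c p2 (by omega) h1
      · by_cases e2 : l' = []
        · exfalso
          have h1 := jn_ren e1 c
          rw [h] at h1
          have h3 := hj_pos e1
          rw [e2, hj_nil] at hh
          exact jn_not_ren c' p1 (by omega) h1
        · have e3 : htw c.1 = htw c'.1 := by
            rcases lt_trichotomy (htw c.1) (htw c'.1) with h5 | h5 | h5
            · exfalso
              have h1 := jn_ren e1 c
              rw [h] at h1
              exact jn_not_ren c' p1 h5 h1
            · exact h5
            · exfalso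
              have h1 := jn_ren e2 c'
              rw [← h] at h1
              exact jn_not_ren c p2 h5 h1
          rw [jn_cons e1, jn_cons e2] at h
          have hE : ∀ {d : Blk}, F0 (E d.1 + (1, 0)) = 3 * (htw d.1 : ℤ) := by
            intro d
            rw [F0_add, d.2.br.2]
            have := htw_pos d.1
            have e : ((htw d.1 - 1 : ℕ) : ℤ) = (htw d.1 : ℤ) - 1 := by omega
            rw [e]; simp [F0]; ring
          have hb : ∀ (d : Blk) {m : List Blk}, m ≠ [] →
              ∀ z ∈ vs (E d.1 + tn (rt d.1) (Dr d.1)) (tn (rt d.1) (Dr d.1)) (jn m), 3 * (htw d.1 : ℤ) ≤ F0 z := by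
            intro d m hm z hz
            rw [d.2.br.tn_rt, vs_right] at hz
            obtain ⟨w, hw, rfl⟩ := List.mem_map.1 hz
            have := ((jn_In hm).2 w hw).1
            rw [F0_add, hE]; omega
          have ha : ∀ (d : Blk), ∀ z ∈ V d.1, F0 z < 3 * (htw d.1 : ℤ) := by
            intro d z hz
            have := (d.2.br.1.2 z hz).2
            have := htw_pos d.1
            omega
          obtain ⟨h6, -, h7⟩ := ren_uniq h (ha c) (hb c e1) (by rw [e3]; exact ha c') (by rw [e3]; exact hb c' e2)
          rw [Subtype.ext h6, ih e1 e2 h7]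

/-- Every bridge is a concatenation of blocks. -/
lemma jn_surj {k : ℕ} {W : List Bool} (h : Br k W) : ∃ l, l ≠ [] ∧ jn l = W ∧ hj l = k + 1 := by
  induction k using Nat.strong_induction_on generalizing W with
  | _ k ih =>
    by_cases hirr : ∃ i, 1 ≤ i ∧ i ≤ k ∧ Ren i W
    · classical
      obtain ⟨h1, h2, h3⟩ := Nat.find_spec hirr
      have hmin : ∀ j < Nat.find hirr, ¬ (1 ≤ j ∧ j ≤ k ∧ Ren j W) := fun j hj => Nat.find_min hirr hj
      set i := Nat.find hirr with hi
      obtain ⟨P, Q, rfl, hP, hQ⟩ := ren_split h.1 h1 h2 h3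
      have hPi : Irr P := by
        refine ⟨i - 1, hP, fun j hj hj' hr => ?_⟩
        refine hmin j (by omega) ⟨hj, by omega, ?_⟩
        exact (ren_low hP hQ (by omega)).2 hr
      have hQB : Br (k - i) Q := by
        refine ⟨hQ, ?_⟩
        have h4 := h.2
        rw [(app_right hP.tn_rt).2.1, F0_add, F0_add, hP.2] at h4
        have e1 : ((i - 1 : ℕ) : ℤ) = (i : ℤ) - 1 := by omega
        have e2 : ((k - i : ℕ) : ℤ) = (k : ℤ) - i := by omega
        have e3 : F0 ((1 : ℤ), (0 : ℤ)) = 2 := by simp [F0]
        rw [e1, e3] at h4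
        rw [e2]
        linarith
      obtain ⟨l, hl, hl1, hl2⟩ := ih (k - i) (by omega) hQB
      refine ⟨⟨P, hPi⟩ :: l, by simp, ?_, ?_⟩
      · rw [jn_cons hl, hl1]
      · rw [hj_cons, hl2, htw_br hP]; omega
    · push Not at hirr
      have hW : Irr W := ⟨k, h, fun i hi hi' => hirr i hi hi'⟩
      exact ⟨[⟨W, hW⟩], by simp, jn_single _, by rw [hj_cons, hj_nil, htw_br h]⟩

/-- The mass of the bridges of `k + 1` columns. -/
theorem ms_Br (k : ℕ) : ms xE (Br k) = ∑' l : List Blk, ind (hj l = k + 1) * wj l := by
  classical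
  unfold ms
  let φ : {l : List Blk // hj l = k + 1} → {W : List Bool // Br k W} := fun l =>
    ⟨jn l.1, by
      have h1 := jn_Br (l := l.1) (fun h => by have := l.2; rw [h, hj_nil] at this; omega)
      rwa [l.2, Nat.add_sub_cancel] at h1⟩
  have hne : ∀ l : {l : List Blk // hj l = k + 1}, l.1 ≠ [] := fun l h => by
    have := l.2; rw [h, hj_nil] at this; omega
  have hφ : Function.Bijective φ := by
    constructor
    · intro l l' h
      have h1 : jn l.1 = jn l'.1 := congrArg Subtype.val h
      exact Subtype.ext (jn_inj (hne l) (hne l') h1)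
    · rintro ⟨W, hW⟩
      obtain ⟨l, -, h2, h3⟩ := jn_surj hW
      exact ⟨⟨l, h3⟩, Subtype.ext h2⟩
  rw [← (Equiv.ofBijective φ hφ).tsum_eq]
  have h1 : ∀ l : {l : List Blk // hj l = k + 1},
      xE ^ (((Equiv.ofBijective φ hφ) l).1.length + 1) = wj l.1 := fun l => (jn_length (hne l)).symm
  rw [tsum_congr h1]
  refine (tsum_subtype {l : List Blk | hj l = k + 1} wj).trans (tsum_congr fun l => ?_)
  by_cases h : hj l = k + 1
  · rw [Set.indicator_of_mem (by exact h), ind_true h, one_mul]
  · rw [Set.indicator_of_notMem (by exact h), ind_false h, zero_mul]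

end Pool.Agent.HEP
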