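import Pool.Agent.HEP.GFac

/-!
HEP geometry, module GJn: complements on the concatenation of blocks.

PAPER PROOF. `xj_append`, `wj_append`: `List.map_append`, `List.sum_append`, `List.prod_append`. `jn_append`: induction on `l` (`jn_cons`);
`rt (P ++ rt P :: Q) = rt Q` for a bridge `P`, because `rt` depends on the last direction only and `Dr (P ++ rt P :: Q) = Dr Q` (`app_right`, `Br.tn_rt`).
`jn_snoc` from `jn_append` and `app_right` (case `l = []` separately). `jn_mem_len`: induction. `tsum_jn`: the map `l ↦ jn l` is a bijection from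
`{l | l ≠ [] ∧ hj l = k + 1 ∧ P (jn l)}` onto `{W | Br k W ∧ P W}` which keeps the mass (`jn_length`, `jn_Br`, `jn_inj`, `jn_surj`): as in the proof of `ms_Br`.
-/

namespace Pool.Agent.HEP

open Pool.Agent.Hhelper14.SAW Pool.Agent.HHP
open scoped ENNReal

theorem xj_append (l m : List Blk) : xj (l ++ m) = xj l + xj m := by
  unfold xj
  rw [List.map_append, List.sum_append]

theorem wj_append (l m : List Blk) : wj (l ++ m) = wj l * wj m := by
  unfold wj
  rw [List.map_append, List.prod_append]

private lemma rt_of_Dr {P Q : List Bool} (h : Dr P = Dr Q) : rt P = rt Q := by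
  unfold rt
  rw [h]

theorem jn_append {l m : List Blk} (hl : l ≠ []) (hm : m ≠ []) : jn (l ++ m) = jn l ++ rt (jn l) :: jn m := by
  induction l with
  | nil => exact absurd rfl hl
  | cons c l ih =>
    by_cases h : l = []
    · subst h
      rw [List.singleton_append, jn_cons hm, jn_single]
    · have e : rt (c.1 ++ rt c.1 :: jn l) = rt (jn l) := rt_of_Dr (app_right c.2.br.tn_rt).2.2
      rw [List.cons_append, jn_cons (by simp [h]), ih h, jn_cons h, e]
      simp

theorem jn_snoc (l : List Blk) (c : Blk) : Dr (jn (l ++ [c])) = Dr c.1 ∧ rt (jn (l ++ [c])) = rt c.1 := by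
  have key : Dr (jn (l ++ [c])) = Dr c.1 := by
    by_cases h : l = []
    · subst h
      rw [List.nil_append, jn_single]
    · rw [jn_append h (by simp), jn_single]
      exact (app_right (jn_Br h).tn_rt).2.2
  exact ⟨key, rt_of_Dr key⟩

theorem jn_mem_len {l : List Blk} {c : Blk} (hc : c ∈ l) : c.1.length ≤ (jn l).length := by
  induction l with
  | nil => exact absurd hc (by simp)
  | cons c' l ih =>
    by_cases h : l = []
    · subst h
      rw [List.mem_singleton] at hc
      rw [hc, jn_single]
    · rw [jn_cons h, List.length_append, List.length_cons]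
      rcases List.mem_cons.1 hc with e | e
      · rw [e]
        omega
      · have := ih e
        omega

theorem tsum_jn (k : ℕ) (P : List Bool → Prop) :
    ∑' l : List Blk, ind (l ≠ [] ∧ hj l = k + 1 ∧ P (jn l)) * wj l = ms xE (fun W => Br k W ∧ P W) := by
  classical
  unfold ms
  let φ : {l : List Blk // l ≠ [] ∧ hj l = k + 1 ∧ P (jn l)} → {W : List Bool // Br k W ∧ P W} := fun l =>
    ⟨jn l.1, by
      have h1 := jn_Br l.2.1
      rwa [l.2.2.1, Nat.add_sub_cancel] at h1, l.2.2.2⟩
  have hφ : Function.Bijective φ := by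
    constructor
    · intro l l' h
      exact Subtype.ext (jn_inj l.2.1 l'.2.1 (congrArg Subtype.val h))
    · rintro ⟨W, hW, hP⟩
      obtain ⟨l, h1, h2, h3⟩ := jn_surj hW
      exact ⟨⟨l, h1, h3, by rw [h2]; exact hP⟩, Subtype.ext h2⟩
  rw [← (Equiv.ofBijective φ hφ).tsum_eq]
  have h1 : ∀ l : {l : List Blk // l ≠ [] ∧ hj l = k + 1 ∧ P (jn l)},
      xE ^ (((Equiv.ofBijective φ hφ) l).1.length + 1) = wj l.1 := fun l => (jn_length l.2.1).symm
  rw [tsum_congr h1]
  symm
  refine (tsum_subtype {l : List Blk | l ≠ [] ∧ hj l = k + 1 ∧ P (jn l)} wj).trans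
    (tsum_congr fun l => ?_)
  by_cases h : l ≠ [] ∧ hj l = k + 1 ∧ P (jn l)
  · rw [Set.indicator_of_mem (by exact h), ind_true h, one_mul]
  · rw [Set.indicator_of_notMem (by exact h), ind_false h, zero_mul]

end Pool.Agent.HEP
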