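import Pool.Agent.HEP.GPLA

/-!
HEP geometry, module GPLB: planarity, the younger leg `Y` is one-sided (the older leg is the longer one).

PAPER PROOF. Put `Z = X' ++ rt X' :: X` (in `Br (a' + 1 + a)`, `join_Br`), `f = fe Z = (E X' + (1, 0)) + fe X` (same last directions), frame of `Z`.
The points of `Y` are `f + (-1, 0) - z`, `z ∈ V Y`; `F0 (f + (-1, 0) - z) = 3 (a' + 1 + a) - 2 - F0 z`; the row `F0 z = 3 a` of `Y` becomes
`F0 = 3 m - 2` with `m = a' + 1`. `V Z = V X' ++ ((E X' + (1, 0)) + V X)` (`app_right`). Apply `planar` with barrier (lower end first)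
`o' :: V Z ++ [f]`: `e2 = E X'` (`F0 = 3 a' + 1 = 3 m - 2`), `e1 = E X' + (1, 0)`, `A1 = o' :: (V X').dropLast`, `A2` = (the shifted `V X` without its first
point) ++ `[f]`. Path `P` = points of `Y`: `F0 ≤ 3 (a' + 1 + a) - 2 < F0 f = 3 (a' + 1 + a)`, and `F0 ≥ 3 (a' + a - c) ≥ 0 > F0 o' = -2` (`hful`).
Disjointness from `hN` via `fw_V` (and `o'` by `F0`). Second coordinates: for `z` in `V Y`, `(f + (-1, 0) - z).2 = (E X').2 + (fe X).2 - z.2`, so
`z.2 < (fe X).2` iff the point is above `e2`. `planar` gives the implication for `below`; for `above` use it by contraposition: if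
`z'.2 ≥ (fe X).2` then `z'.2 ≠ (fe X).2` (otherwise the point of `z'` is `e2`: same `F0` and same second coordinate, against disjointness), so the
point of `z'` is below `e2`, hence the point of `z` is below, contradiction.
-/

namespace Pool.Agent.HEP

open Pool.Agent.Hhelper14.SAW Pool.Agent.HHP

/-- The last vertex of a word. -/
private lemma GPLB_last (W : List Bool) : V W = (V W).dropLast ++ [E W] := by
  have h := vs_getLast? (0, 0) (1, 0) W
  have h1 : V W ≠ [] := vs_ne _ _ _
  have h2 : (V W).getLast h1 = E W := by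
    have := List.getLast?_eq_getLast_of_ne_nil h1
    unfold V at this
    rw [h] at this
    exact (Option.some.inj this).symm
  conv_lhs => rw [← List.dropLast_append_getLast h1]
  rw [h2]

/-- The first vertex of a word. -/
private lemma GPLB_head (W : List Bool) : V W = (0, 0) :: (V W).tail := by
  cases W <;> rfl

private lemma GPLB_mem (W : List Bool) : E W ∈ V W := by
  rw [GPLB_last W]
  simp

/-- The end of the longer older leg. -/
private lemma GPLB_fe {a' : ℕ} {X' X : List Bool} (hX' : Br a' X') :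
    fe (X' ++ rt X' :: X) = (E X' + (1, 0)) + fe X := by
  obtain ⟨-, h2, h3⟩ := app_right (Q := X) hX'.tn_rt
  have hrt : rt (X' ++ rt X' :: X) = rt X := by
    change decide (Dr (X' ++ rt X' :: X) = (1, -1)) = decide (Dr X = (1, -1))
    rw [h3]
  rw [fe_eq, fe_eq, hrt, h2, h3, add_assoc]

/-- The end of the older leg is not at the lateral position of a row vertex of the younger leg. -/
private lemma GPLB_ne {a a' c : ℕ} {X' X Y : List Bool} (hX' : Br a' X') (hX : Br a X) (hY : Br c Y)
    (hN : (V (fw (X' ++ rt X' :: X) Y)).Nodup) {z : ℤ × ℤ} (hz : z ∈ V Y) (hr : F0 z = 3 * (a : ℤ)) :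
    z.2 ≠ (fe X).2 := by
  intro he
  have hZ := join_Br hX' hX
  obtain ⟨v1, -, -, -⟩ := fw_V hZ Y
  obtain ⟨w1, -, -⟩ := app_right (Q := X) hX'.tn_rt
  rw [v1, GPLB_fe hX'] at hN
  have hnd := (List.nodup_append.1 hN).2.2
  have hfe := fe_F0 hX
  have hEX := hX'.2
  have h1 : E X' ∈ V (X' ++ rt X' :: X) := by
    rw [w1]
    exact List.mem_append_left _ (GPLB_mem X')
  have h2 : (E X' + (1, 0) + fe X + (-1, 0)) - z ∈
      (E X' + (1, 0) + fe X) :: (V Y).map (fun w => (E X' + (1, 0) + fe X + (-1, 0)) - w) :=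
    List.mem_cons_of_mem _ (List.mem_map_of_mem hz)
  refine hnd _ h1 _ h2 ?_
  ext
  · simp only [F0] at hfe hr
    simp only [Prod.fst_sub, Prod.fst_add]
    omega
  · simp only [Prod.snd_sub, Prod.snd_add]
    omega

theorem plB {a a' c : ℕ} {X' X Y : List Bool} (hX' : Br a' X') (hX : Br a X) (hY : Br c Y)
    (hac : a ≤ c) (hful : c ≤ a + a') (hN : (V (fw (X' ++ rt X' :: X) Y)).Nodup)
    {z z' : ℤ × ℤ} (hz : z ∈ V Y) (hz' : z' ∈ V Y) (hr : F0 z = 3 * (a : ℤ)) (hr' : F0 z' = 3 * (a : ℤ))
    (hlt : z.2 < (fe X).2) : z'.2 < (fe X).2 := by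
  have hne := GPLB_ne hX' hX hY hN hz' hr'
  have hZ := join_Br hX' hX
  obtain ⟨v1, -, -, -⟩ := fw_V hZ Y
  obtain ⟨w1, -, -⟩ := app_right (Q := X) hX'.tn_rt
  rw [v1, GPLB_fe hX'] at hN
  have hnd := List.nodup_append.1 hN
  have hfe := fe_F0 hX
  have hEX := hX'.2
  set q : ℤ × ℤ := E X' + (1, 0) with hq
  set g : ℤ × ℤ := q + fe X + (-1, 0) with hg
  have hFq : F0 q = 3 * a' + 3 := by rw [hq, F0_add, hEX]; simp [F0]; ring
  have hFf : F0 (q + fe X) = 3 * a' + 3 + 3 * a := by rw [F0_add, hFq, hfe]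
  have hFg : F0 g = 3 * a' + 1 + 3 * a := by rw [hg, F0_add, hFf]; simp [F0]; ring
  have hsn : ∀ w : ℤ × ℤ, (g - w).2 = (E X').2 + (fe X).2 - w.2 := by
    intro w
    rw [hg, hq]
    simp
  -- the barrier
  set A1 : List (ℤ × ℤ) := o' :: (V X').dropLast with hA1
  set A2 : List (ℤ × ℤ) := (V X).tail.map (fun w => q + w) ++ [q + fe X] with hA2
  have hT : o' :: (V (X' ++ rt X' :: X) ++ [q + fe X]) = A1 ++ E X' :: q :: A2 := by
    rw [w1]
    conv_lhs => rw [GPLB_last X', GPLB_head X]
    rw [hA1, hA2]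
    simp [hq]
  have hch : UChain (A1 ++ E X' :: q :: A2) := by
    rw [← hT]
    have h1 := uchain_V (X' ++ rt X' :: X)
    have h2 : List.IsChain (fun x y => U (x - y)) (V (X' ++ rt X' :: X) ++ [q + fe X]) := by
      refine List.isChain_append.2 ⟨h1, List.isChain_singleton _, ?_⟩
      intro x hx y hy
      have h3 := vs_getLast? (0, 0) (1, 0) (X' ++ rt X' :: X)
      unfold V at hx
      rw [h3] at hx
      have h4 : E (X' ++ rt X' :: X) = x := by simpa [E] using hx
      simp only [List.head?_cons, Option.mem_def, Option.some.injEq] at hy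
      rw [← h4, ← hy, ← GPLB_fe hX', fe_eq]
      have h5 : ∀ p s : ℤ × ℤ, p - (p + s) = - s := by intro p s; ring
      rw [h5]
      exact (U_tn _ _).neg
    have h3 : V (X' ++ rt X' :: X) ++ [q + fe X] =
        (0, 0) :: ((V (X' ++ rt X' :: X)).tail ++ [q + fe X]) := by
      conv_lhs => rw [GPLB_head (X' ++ rt X' :: X)]
      simp
    rw [h3] at h2 ⊢
    refine List.isChain_cons_cons.2 ⟨?_, h2⟩
    simp [U, o']
  have hmemY : ∀ x ∈ (V Y).map (fun w => g - w), ∃ w ∈ V Y, x = g - w ∧ F0 x = 3 * a' + 1 + 3 * a - F0 w := by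
    intro x hx
    rw [List.mem_map] at hx
    obtain ⟨w, hw, rfl⟩ := hx
    exact ⟨w, hw, rfl, by rw [F0_sub', hFg]⟩
  have hlast : (q :: A2).getLast (by simp) = q + fe X := by
    rw [hA2]
    simp
  have key := planar (P := (V Y).map (fun w => g - w)) (z := g - z') (z' := g - z) (m := (a' : ℤ) + 1) hch
    hq (by rw [hEX]; ring)
    (by
      intro x hx
      rw [hA1, List.mem_cons] at hx
      rcases hx with rfl | hx
      · simp only [F0, o']; omega
      · have := (hX'.1.2 x (List.mem_of_mem_dropLast hx)).2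
        omega)
    (by
      intro x hx
      rw [hA2, List.mem_append, List.mem_map, List.mem_singleton] at hx
      rcases hx with ⟨w, hw, rfl⟩ | rfl
      · have := (hX.1.2 w (List.mem_of_mem_tail hw)).1
        rw [F0_add, hFq]
        omega
      · rw [hFf]; omega)
    (by
      unfold UChain
      rw [List.isChain_map]
      refine List.IsChain.imp ?_ (uchain_V Y)
      intro x y h
      have : g - x - (g - y) = -(x - y) := by ring
      rw [this]
      exact h.neg)
    (by
      intro x hx hxB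
      rw [← hT, List.mem_cons, List.mem_append, List.mem_singleton] at hxB
      rcases hxB with h5 | h5 | h5
      · obtain ⟨w, hw, -, hF⟩ := hmemY x hx
        have h6 := (hY.1.2 w hw).2
        rw [h5] at hF
        simp only [F0, o'] at hF h6
        omega
      · exact hnd.2.2 x h5 x (List.mem_cons_of_mem _ hx) rfl
      · have h6 := hnd.2.1
        rw [List.nodup_cons] at h6
        exact h6.1 (h5 ▸ hx))
    (by
      intro x hx
      obtain ⟨w, hw, -, hF⟩ := hmemY x hx
      have h6 := (hY.1.2 w hw).2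
      rw [hF]
      have h7 : F0 (A1 ++ E X' :: q :: A2).headI = -2 := by
        rw [hA1]
        simp [F0, o']
      rw [h7]
      omega)
    (by
      intro x hx
      rw [hlast, hFf]
      obtain ⟨w, hw, -, hF⟩ := hmemY x hx
      have h6 := (hY.1.2 w hw).1
      rw [hF]
      omega)
    (List.mem_map_of_mem hz') (List.mem_map_of_mem hz)
    (by rw [F0_sub', hFg, hr']; ring) (by rw [F0_sub', hFg, hr]; ring)
  by_contra hcon
  have h8 : (g - z').2 < (E X').2 := by
    rw [hsn]
    omega
  have h9 := key h8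
  rw [hsn] at h9
  omega

/-- The end of the older leg is not at the lateral position of a row vertex of the younger leg. -/
theorem plB_ne {a a' c : ℕ} {X' X Y : List Bool} (hX' : Br a' X') (hX : Br a X) (hY : Br c Y)
    (hN : (V (fw (X' ++ rt X' :: X) Y)).Nodup) {z : ℤ × ℤ} (hz : z ∈ V Y) (hr : F0 z = 3 * (a : ℤ)) :
    z.2 ≠ (fe X).2 := GPLB_ne hX' hX hY hN hz hr

end Pool.Agent.HEP
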