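import Pool.Agent.HEP.GDef

/-!
HEP geometry, module GSide: planarity by discrete angles.

A barrier `Bar = A1 ++ e2 :: e1 :: A2` (a list of points, consecutive ones at distance one, head = lower end, last =
upper end) crosses the line between the columns `m - 1` and `m` exactly once, by the horizontal edge from `e2`
(`F0 = 3 m - 2`) to `e1 = e2 + (1, 0)`. A path `P` of unit steps which does not meet the barrier and stays strictly between
the two ends (in the coordinate `F0`) has all its points of the row `F0 = 3 m - 2` on one side of `e2`.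

PAPER PROOF. For `z` not in `Bar` with `F0 hb < F0 z < F0 ht` (`hb` = head, `ht` = last of `Bar`) put
`I z = Th z Bar + al (ht - z) - sec (hb - z)`, where `al w = if sec w ≤ 1 then sec w else sec w - 6`. (`Th z Bar` is the
total change of the angle from `ht` to `hb`.)
(a) `dl w w' = al w' - al w` if `0 < F0 w`, `0 < F0 w'`, `U (w' - w)` (the sectors are in `{0, 1, 4, 5}`; `dl_eq_of`); and
`dl w w' = sec w' - sec w` if `F0 w < 0`, `F0 w' < 0` (sectors in `{1, 2, 3, 4}`).
(b) `I p = I q` for `U (p - q)`, both not in `Bar` and strictly between the ends: `Th_change` (applied to `Bar = hb :: ..`)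
and (a) for the two ends.
So `I` is constant on `P` (induction along the chain; or: for all the members of a chain).
(c) For `z` in the row, `z ∉ Bar`: `z.2 ≠ e2.2` and they have the same parity (`F0 z = F0 e2`). The hexagon centres
`c = z + (0, 1)` and `c = z + (1, -1)` have `F0 c = 3 m - 1`, so they are not in `Bar` (the points of `Bar` have
`F0 ≤ 3 m - 2` or `≥ 3 m`) and `I z = I c` by (b).
(d) `I c` for `F0 c = 3 m - 1`: by (a), `Th c (e1 :: A2) = al (e1 - c) - al (ht - c)` (all these points have `F0 - F0 c ≥ 1`)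
and `Th c (A1 ++ [e2]) = sec (hb - c) - sec (e2 - c)`; `Th_append` joins them:
`I c = al (e1 - c) + dl (e1 - c) (e2 - c) - sec (e2 - c)`. With `e2 - c = (x, y)`, `2 x + y = -1`, `e1 - c = (x + 1, y)`: `I c = 0` if
`0 < y` and `I c = -6` if `y < 0` (`y` is odd; cases `y = 1, y ≥ 3, y = -1, y ≤ -3`; unfold `dl`, `sec`, `omega`).
So if `z.2 < e2.2` then `z.2 + 2 ≤ e2.2`, take `c = z + (0, 1)`: `0 < y = e2.2 - z.2 - 1`, `I z = 0`. If `e2.2 < z.2`
take `c = z + (1, -1)`: `y = e2.2 - z.2 + 1 < 0`, `I z = -6`. As `I z = I z'`, both are on the same side.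
-/
namespace Pool.Agent.HEP

open Pool.Agent.Hhelper14.SAW Pool.Agent.HHP

/-- Lift of the sector on the half plane `0 < F0`. -/
def al (w : ℤ × ℤ) : ℤ := if sec w ≤ 1 then sec w else sec w - 6

lemma dl_pos {w w' : ℤ × ℤ} (h : 0 < F0 w) (h' : 0 < F0 w') (hU : U (w' - w)) : dl w w' = al w' - al w := by
  obtain ⟨a, b⟩ := w
  obtain ⟨c, e⟩ := w'
  simp only [F0] at h h'
  refine dl_eq_of (by simp only [NZ]; omega) (by simp only [NZ]; omega) hU ?_ ?_ ?_
  · unfold al
    split_ifs <;> omega
  · simp only [U, Prod.fst_sub, Prod.snd_sub] at hU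
    unfold al sec
    simp only
    split_ifs <;> omega
  · simp only [U, Prod.fst_sub, Prod.snd_sub] at hU
    unfold al sec
    simp only
    split_ifs <;> omega

lemma dl_negF {w w' : ℤ × ℤ} (h : F0 w < 0) (h' : F0 w' < 0) (hU : U (w' - w)) : dl w w' = sec w' - sec w := by
  obtain ⟨a, b⟩ := w
  obtain ⟨c, e⟩ := w'
  simp only [F0] at h h'
  refine dl_eq_of (by simp only [NZ]; omega) (by simp only [NZ]; omega) hU (by omega) ?_ ?_
  · simp only [U, Prod.fst_sub, Prod.snd_sub] at hU
    unfold sec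
    simp only
    split_ifs <;> omega
  · simp only [U, Prod.fst_sub, Prod.snd_sub] at hU
    unfold sec
    simp only
    split_ifs <;> omega

lemma F0_sub' (x y : ℤ × ℤ) : F0 (x - y) = F0 x - F0 y := by
  simp only [F0, Prod.fst_sub, Prod.snd_sub]; ring

lemma sub_sub_sub' (x y c : ℤ × ℤ) : (x - c) - (y - c) = x - y := by ring

lemma Th_pos (c : ℤ × ℤ) : ∀ (P : List (ℤ × ℤ)) (h : ℤ × ℤ), UChain (h :: P) → (∀ x ∈ h :: P, F0 c < F0 x) →
    Th c (h :: P) = al (h - c) - al ((h :: P).getLast (by simp) - c) := by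
  intro P
  induction P with
  | nil => intro h _ _; simp
  | cons x r ih =>
    intro h hc hF
    have h1 := ih x hc.tail (fun y hy => hF y (List.mem_cons_of_mem _ hy))
    have hU : U (h - x) := (List.isChain_cons_cons.1 hc).1
    have hx := hF x (by simp)
    have hh := hF h (by simp)
    have h2 : dl (x - c) (h - c) = al (h - c) - al (x - c) :=
      dl_pos (by rw [F0_sub']; omega) (by rw [F0_sub']; omega) (by rw [sub_sub_sub']; exact hU)
    rw [Th_cons_cons, h1, h2, List.getLast_cons_cons]
    ring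

lemma Th_negF (c : ℤ × ℤ) : ∀ (P : List (ℤ × ℤ)) (h : ℤ × ℤ), UChain (h :: P) → (∀ x ∈ h :: P, F0 x < F0 c) →
    Th c (h :: P) = sec (h - c) - sec ((h :: P).getLast (by simp) - c) := by
  intro P
  induction P with
  | nil => intro h _ _; simp
  | cons x r ih =>
    intro h hc hF
    have h1 := ih x hc.tail (fun y hy => hF y (List.mem_cons_of_mem _ hy))
    have hU : U (h - x) := (List.isChain_cons_cons.1 hc).1
    have hx := hF x (by simp)
    have hh := hF h (by simp)
    have h2 : dl (x - c) (h - c) = sec (h - c) - sec (x - c) :=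
      dl_negF (by rw [F0_sub']; omega) (by rw [F0_sub']; omega) (by rw [sub_sub_sub']; exact hU)
    rw [Th_cons_cons, h1, h2, List.getLast_cons_cons]
    ring

/-- The invariant. -/
def Iv (B : List (ℤ × ℤ)) (hb ht z : ℤ × ℤ) : ℤ := Th z B + al (ht - z) - sec (hb - z)

lemma Iv_step {B : List (ℤ × ℤ)} {hb p q : ℤ × ℤ} (hB : UChain (hb :: B)) (hpq : U (p - q))
    (hp : p ∉ hb :: B) (hq : q ∉ hb :: B) (p1 : F0 hb < F0 p) (q1 : F0 hb < F0 q)
    (p2 : F0 p < F0 ((hb :: B).getLast (by simp))) (q2 : F0 q < F0 ((hb :: B).getLast (by simp))) :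
    Iv (hb :: B) hb ((hb :: B).getLast (by simp)) p = Iv (hb :: B) hb ((hb :: B).getLast (by simp)) q := by
  have h := Th_change hpq B hb hB hp hq
  have h1 : dl (hb - p) (hb - q) = sec (hb - q) - sec (hb - p) :=
    dl_negF (by rw [F0_sub']; omega) (by rw [F0_sub']; omega) (by
      have : hb - q - (hb - p) = p - q := by ring
      rw [this]; exact hpq)
  have h2 : dl ((hb :: B).getLast (by simp) - p) ((hb :: B).getLast (by simp) - q) =
      al ((hb :: B).getLast (by simp) - q) - al ((hb :: B).getLast (by simp) - p) :=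
    dl_pos (by rw [F0_sub']; omega) (by rw [F0_sub']; omega) (by
      have : (hb :: B).getLast (by simp) - q - ((hb :: B).getLast (by simp) - p) = p - q := by ring
      rw [this]; exact hpq)
  rw [h1, h2] at h
  unfold Iv
  omega

lemma Iv_chain {B : List (ℤ × ℤ)} {hb : ℤ × ℤ} (hB : UChain (hb :: B)) :
    ∀ (P : List (ℤ × ℤ)) (h : ℤ × ℤ), UChain (h :: P) → (∀ z ∈ h :: P, z ∉ hb :: B) →
    (∀ z ∈ h :: P, F0 hb < F0 z) → (∀ z ∈ h :: P, F0 z < F0 ((hb :: B).getLast (by simp))) →
    ∀ z ∈ h :: P, Iv (hb :: B) hb ((hb :: B).getLast (by simp)) z =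
      Iv (hb :: B) hb ((hb :: B).getLast (by simp)) h := by
  intro P
  induction P with
  | nil =>
    intro h _ _ _ _ z hz
    rw [List.mem_singleton] at hz
    rw [hz]
  | cons x r ih =>
    intro h hc hd h1 h2 z hz
    rcases List.mem_cons.1 hz with rfl | hz
    · rfl
    · have e1 := ih x hc.tail (fun y hy => hd y (List.mem_cons_of_mem _ hy))
        (fun y hy => h1 y (List.mem_cons_of_mem _ hy)) (fun y hy => h2 y (List.mem_cons_of_mem _ hy)) z hz
      rw [e1]
      have hU : U (h - x) := (List.isChain_cons_cons.1 hc).1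
      exact (Iv_step hB hU (hd h (by simp)) (hd x (by simp)) (h1 h (by simp)) (h1 x (by simp))
        (h2 h (by simp)) (h2 x (by simp))).symm

/-- The final computation at a hexagon centre. -/
lemma centre {x y : ℤ} (h : 2 * x + y = -1) :
    al (x + 1, y) + dl (x + 1, y) (x, y) - sec (x, y) = if 0 < y then 0 else -6 := by
  have hd : dl (x + 1, y) (x, y) = if 0 < y then sec (x, y) - al (x + 1, y) else sec (x, y) - al (x + 1, y) - 6 := by
    refine dl_eq_of (by simp only [NZ]; omega) (by simp only [NZ]; omega) (by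
      simp only [U, Prod.fst_sub, Prod.snd_sub]; omega) ?_ ?_ ?_
    · unfold al
      split_ifs <;> omega
    · unfold al sec
      simp only
      split_ifs <;> omega
    · unfold al sec
      simp only
      split_ifs <;> omega
  rw [hd]
  split_ifs <;> ring

/-- The value of the invariant in the row. -/
lemma Iv_row {A1 A2 B : List (ℤ × ℤ)} {e1 e2 hb z : ℤ × ℤ} {m : ℤ} (hBar : A1 ++ e2 :: e1 :: A2 = hb :: B)
    (hB : UChain (hb :: B)) (he : e1 = e2 + (1, 0)) (he2 : F0 e2 = 3 * m - 2)
    (h1 : ∀ z ∈ A1, F0 z ≤ 3 * m - 2) (h2 : ∀ z ∈ A2, 3 * m ≤ F0 z) (hz : z ∉ hb :: B)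
    (hlo : F0 hb < F0 z) (hr : F0 z = 3 * m - 2) :
    Iv (hb :: B) hb ((hb :: B).getLast (by simp)) z = if z.2 < e2.2 then 0 else -6 := by
  have he1 : F0 e1 = 3 * m := by rw [he]; simp only [F0, Prod.fst_add, Prod.snd_add] at *; omega
  have hlast : (hb :: B).getLast (by simp) = (e1 :: A2).getLast (by simp) := by
    have : (A1 ++ e2 :: e1 :: A2).getLast (by simp) = (e1 :: A2).getLast (by simp) := by
      rw [List.getLast_append_of_ne_nil _ (List.cons_ne_nil _ _), List.getLast_cons_cons]
    rw [← this]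
    simp only [hBar]
  have hF : ∀ x ∈ e1 :: A2, 3 * m ≤ F0 x := by
    intro x hx
    rcases List.mem_cons.1 hx with rfl | hx
    · omega
    · exact h2 x hx
  have hG : ∀ x ∈ A1 ++ [e2], F0 x ≤ 3 * m - 2 := by
    intro x hx
    rcases List.mem_append.1 hx with hx | hx
    · exact h1 x hx
    · rw [List.mem_singleton] at hx; rw [hx, he2]
  have hmem : ∀ x ∈ hb :: B, F0 x ≤ 3 * m - 2 ∨ 3 * m ≤ F0 x := by
    intro x hx
    rw [← hBar, List.mem_append, List.mem_cons] at hx
    rcases hx with hx | hx | hx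
    · exact Or.inl (h1 x hx)
    · left; rw [hx, he2]
    · exact Or.inr (hF x hx)
  have hl2 : 3 * m ≤ F0 ((hb :: B).getLast (by simp)) := by rw [hlast]; exact hF _ (List.getLast_mem _)
  -- the value at a centre
  have key : ∀ c : ℤ × ℤ, F0 c = 3 * m - 1 →
      Iv (hb :: B) hb ((hb :: B).getLast (by simp)) c = if 0 < (e2 - c).2 then 0 else -6 := by
    intro c hc
    have hch : UChain (A1 ++ e2 :: e1 :: A2) := by rw [hBar]; exact hB
    have t1 : Th c (A1 ++ [e2]) = sec (hb - c) - sec (e2 - c) := by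
      cases A1 with
      | nil =>
        simp only [List.nil_append, List.cons.injEq] at hBar
        simp only [List.nil_append, Th_single]
        rw [hBar.1]; ring
      | cons a A =>
        simp only [List.cons_append, List.cons.injEq] at hBar
        have hch' : UChain ((a :: (A ++ [e2])) ++ e1 :: A2) := by simpa using hch
        have := Th_negF c (A ++ [e2]) a (List.isChain_append.1 hch').1 (by
          intro x hx
          have := hG x (by simpa using hx)
          omega)
        rw [List.cons_append, this, hBar.1]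
        simp
    have t2 : Th c (e1 :: A2) = al (e1 - c) - al ((hb :: B).getLast (by simp) - c) := by
      have hch' : UChain ((A1 ++ [e2]) ++ e1 :: A2) := by simpa using hch
      rw [hlast]
      exact Th_pos c A2 e1 (List.isChain_append.1 hch').2.1 (by
        intro x hx
        have := hF x hx
        omega)
    have t3 : Th c (hb :: B) = Th c (A1 ++ [e2]) + dl (e1 - c) (e2 - c) + Th c (e1 :: A2) := by
      rw [← hBar]; exact Th_append c e2 e1 A1 A2
    have t4 : al (e1 - c) + dl (e1 - c) (e2 - c) - sec (e2 - c) = if 0 < (e2 - c).2 then 0 else -6 := by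
      have h5 : e1 - c = ((e2 - c).1 + 1, (e2 - c).2) := by
        rw [he]; ext
        · simp; ring
        · simp
      rw [h5]
      refine centre (x := (e2 - c).1) (y := (e2 - c).2) ?_
      simp only [F0] at he2 hc
      simp only [Prod.fst_sub, Prod.snd_sub]
      omega
    unfold Iv
    rw [t3, t1, t2, ← t4]
    ring
  have hne : z.2 ≠ e2.2 := by
    intro e
    apply hz
    have : z = e2 := by
      ext
      · simp only [F0] at hr he2; omega
      · exact e
    rw [this, ← hBar]; simp
  have hpar : 2 * z.1 + z.2 = 2 * e2.1 + e2.2 := by simp only [F0] at hr he2; omega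
  by_cases hlt : z.2 < e2.2
  · rw [if_pos hlt]
    have hc : F0 (z + (0, 1)) = 3 * m - 1 := by
      simp only [F0, Prod.fst_add, Prod.snd_add] at *; omega
    have hstep := Iv_step hB (p := z) (q := z + (0, 1)) (by
        simp only [U, Prod.fst_sub, Prod.snd_sub, Prod.fst_add, Prod.snd_add]; omega) hz (by
        intro hm; have := hmem _ hm; omega) hlo (by omega) (by omega) (by omega)
    rw [hstep, key _ hc, if_pos]
    simp only [Prod.snd_sub, Prod.snd_add]
    omega
  · rw [if_neg hlt]
    have hc : F0 (z + (1, -1)) = 3 * m - 1 := by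
      simp only [F0, Prod.fst_add, Prod.snd_add] at *; omega
    have hstep := Iv_step hB (p := z) (q := z + (1, -1)) (by
        simp only [U, Prod.fst_sub, Prod.snd_sub, Prod.fst_add, Prod.snd_add]; omega) hz (by
        intro hm; have := hmem _ hm; omega) hlo (by omega) (by omega) (by omega)
    rw [hstep, key _ hc, if_neg]
    simp only [Prod.snd_sub, Prod.snd_add]
    omega

theorem planar {A1 A2 P : List (ℤ × ℤ)} {e1 e2 : ℤ × ℤ} {m : ℤ}
    (hB : UChain (A1 ++ e2 :: e1 :: A2)) (he : e1 = e2 + (1, 0)) (he2 : F0 e2 = 3 * m - 2)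
    (h1 : ∀ z ∈ A1, F0 z ≤ 3 * m - 2) (h2 : ∀ z ∈ A2, 3 * m ≤ F0 z)
    (hP : UChain P) (hd : ∀ z ∈ P, z ∉ A1 ++ e2 :: e1 :: A2)
    (hlo : ∀ z ∈ P, F0 ((A1 ++ e2 :: e1 :: A2).headI) < F0 z)
    (hhi : ∀ z ∈ P, F0 z < F0 ((e1 :: A2).getLast (by simp)))
    {z z' : ℤ × ℤ} (hz : z ∈ P) (hz' : z' ∈ P) (hr : F0 z = 3 * m - 2) (hr' : F0 z' = 3 * m - 2)
    (hlt : z.2 < e2.2) : z'.2 < e2.2 := by
  obtain ⟨hb, B, hBar⟩ : ∃ hb B, A1 ++ e2 :: e1 :: A2 = hb :: B := by
    cases A1 with
    | nil => exact ⟨_, _, rfl⟩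
    | cons a A => exact ⟨_, _, rfl⟩
  have hlast : (e1 :: A2).getLast (by simp) = (hb :: B).getLast (by simp) := by
    have : (A1 ++ e2 :: e1 :: A2).getLast (by simp) = (e1 :: A2).getLast (by simp) := by
      rw [List.getLast_append_of_ne_nil _ (List.cons_ne_nil _ _), List.getLast_cons_cons]
    rw [← this]
    simp only [hBar]
  rw [hlast] at hhi
  rw [hBar] at hB hd hlo
  simp only [List.headI_cons] at hlo
  obtain ⟨h, P', rfl⟩ : ∃ h P', P = h :: P' := by
    cases P with
    | nil => exact absurd hz (by simp)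
    | cons a A => exact ⟨_, _, rfl⟩
  have c1 := Iv_chain hB P' h hP hd hlo hhi z hz
  have c2 := Iv_chain hB P' h hP hd hlo hhi z' hz'
  have r1 := Iv_row hBar hB he he2 h1 h2 (hd z hz) (hlo z hz) hr
  have r2 := Iv_row hBar hB he he2 h1 h2 (hd z' hz') (hlo z' hz') hr'
  rw [c1] at r1
  rw [c2, r1, if_pos hlt] at r2
  by_contra hcon
  rw [if_neg hcon] at r2
  omega

end Pool.Agent.HEP
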