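import Mathlib

set_option autoImplicit false

/-!
# HEP: Littlewood-Offord inequality for sign flips (Lemma R)

`lemmaR` is the main result (signs as functions `Fin N → Bool`), `lemmaR_list` its list form.
`pr w l x` is the probability that `∑ ± d`, `d ∈ l`, with independent fair signs, lies in
`[x, x + w)`.
-/

open Finset

noncomputable section

namespace Pool.HEP

/-- probability that the signed sum of the list lies in `[x, x + w)` -/
def pr (w : ℝ) : List ℝ → ℝ → ℝ
  | [], x => if x ≤ 0 ∧ 0 < x + w then 1 else 0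
  | d :: l, x => (pr w l (x - d) + pr w l (x + d)) / 2

theorem pr_nonneg (w : ℝ) (l : List ℝ) (x : ℝ) : 0 ≤ pr w l x := by
  induction l generalizing x with
  | nil => unfold pr; split_ifs <;> norm_num
  | cons d l ih => unfold pr; have := ih (x - d); have := ih (x + d); linarith

theorem pr_le_one (w : ℝ) (l : List ℝ) (x : ℝ) : pr w l x ≤ 1 := by
  induction l generalizing x with
  | nil => unfold pr; split_ifs <;> norm_num
  | cons d l ih => unfold pr; have := ih (x - d); have := ih (x + d); linarith

theorem pr_perm (w : ℝ) {l l' : List ℝ} (h : l.Perm l') (x : ℝ) : pr w l x = pr w l' x := by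
  induction h generalizing x with
  | nil => rfl
  | cons d _ ih => simp only [pr, ih]
  | swap a b l =>
    simp only [pr]
    have h1 : x - b - a = x - a - b := by ring
    have h2 : x - b + a = x + a - b := by ring
    have h3 : x + b - a = x - a + b := by ring
    have h4 : x + b + a = x + a + b := by ring
    rw [h1, h2, h3, h4]; ring
  | trans _ _ ih1 ih2 => rw [ih1, ih2]

theorem pr_append_le (w : ℝ) (l l' : List ℝ) {K : ℝ} (h : ∀ x, pr w l' x ≤ K) (x : ℝ) :
    pr w (l ++ l') x ≤ K := by
  induction l generalizing x with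
  | nil => simpa using h x
  | cons d l ih =>
    rw [List.cons_append]; unfold pr
    have := ih (x - d); have := ih (x + d); linarith

/-- a longer interval is a union of shorter ones -/
theorem pr_add_le (w : ℝ) (hw : 0 ≤ w) (m : ℕ) (l : List ℝ) (x : ℝ) :
    pr (m * w) l x ≤ ∑ i ∈ range m, pr w l (x + i * w) := by
  induction l generalizing x with
  | nil =>
    simp only [pr]
    by_cases h : x ≤ 0 ∧ 0 < x + m * w
    · rw [if_pos h]
      -- choose the interval
      obtain ⟨h1, h2⟩ := h
      have hex : ∃ i ∈ range m, x + i * w ≤ 0 ∧ 0 < x + i * w + w := by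
        have hm : 0 < m := by
          rcases Nat.eq_zero_or_pos m with h0 | h0
          · subst h0; simp at h2; linarith
          · exact h0
        let P : ℕ → Prop := fun i => 0 < x + i * w + w
        have hP : ∃ i, P i := ⟨m, by have : 0 ≤ w := hw; simp only [P]; linarith⟩
        classical
        refine ⟨Nat.find hP, ?_, ?_, Nat.find_spec hP⟩
        · rw [mem_range]
          have : Nat.find hP ≤ m - 1 := by
            apply Nat.find_min'
            simp only [P]
            have : ((m - 1 : ℕ) : ℝ) = m - 1 := by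
              rw [Nat.cast_sub hm]; simp
            rw [this]; linarith
          omega
        · rcases Nat.eq_zero_or_pos (Nat.find hP) with h0 | h0
          · rw [h0]; simpa using h1
          · have h3 := Nat.find_min hP (m := Nat.find hP - 1) (by omega)
            simp only [P, not_lt] at h3
            have : ((Nat.find hP - 1 : ℕ) : ℝ) = (Nat.find hP : ℝ) - 1 := by
              rw [Nat.cast_sub h0]; simp
            rw [this] at h3; linarith
      obtain ⟨i, hi, h3⟩ := hex
      calc (1 : ℝ) = if x + i * w ≤ 0 ∧ 0 < x + i * w + w then 1 else 0 := by rw [if_pos h3]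
        _ ≤ _ := Finset.single_le_sum
          (f := fun i : ℕ => if x + i * w ≤ 0 ∧ 0 < x + i * w + w then (1 : ℝ) else 0)
          (fun j _ => by split_ifs <;> norm_num) hi
    · rw [if_neg h]
      exact Finset.sum_nonneg fun i _ => by split_ifs <;> norm_num
  | cons d l ih =>
    simp only [pr]
    rw [← Finset.sum_div, Finset.sum_add_distrib]
    have h1 := ih (x - d)
    have h2 := ih (x + d)
    have e1 : ∀ i : ℕ, x - d + i * w = x + i * w - d := fun i => by ring
    have e2 : ∀ i : ℕ, x + d + i * w = x + i * w + d := fun i => by ring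
    simp only [e1] at h1
    simp only [e2] at h2
    linarith

theorem pr_mono (l : List ℝ) {w w' : ℝ} (h : w ≤ w') (x : ℝ) : pr w l x ≤ pr w' l x := by
  induction l generalizing x with
  | nil =>
    simp only [pr]
    by_cases h1 : x ≤ 0 ∧ 0 < x + w
    · rw [if_pos h1, if_pos ⟨h1.1, by linarith [h1.2]⟩]
    · rw [if_neg h1]; split_ifs <;> norm_num
  | cons d l ih => simp only [pr]; have := ih (x - d); have := ih (x + d); linarith

/-- signed sum -/
def sg {N : ℕ} (D : Fin N → ℝ) (f : Fin N → Bool) : ℝ := ∑ i, if f i then D i else -D i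

theorem pr_ofFn (w : ℝ) {N : ℕ} (D : Fin N → ℝ) (x : ℝ) :
    pr w (List.ofFn D) x * 2 ^ N =
      ∑ f : Fin N → Bool, if x ≤ sg D f ∧ sg D f < x + w then (1 : ℝ) else 0 := by
  induction N generalizing x with
  | zero =>
    simp [pr, sg]
  | succ N ih =>
    rw [List.ofFn_succ]
    unfold pr
    rw [← Equiv.sum_comp (Fin.consEquiv (fun _ : Fin (N + 1) => Bool)), Fintype.sum_prod_type,
      Fintype.sum_bool]
    have h1 := ih (fun i => D i.succ) (x - D 0)
    have h2 := ih (fun i => D i.succ) (x + D 0)
    have e1 : ∀ f : Fin N → Bool, sg D ((Fin.consEquiv (fun _ : Fin (N + 1) => Bool)) (true, f)) =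
        D 0 + sg (fun i => D i.succ) f := by
      intro f; unfold sg; rw [Fin.sum_univ_succ]; simp [Fin.consEquiv]
    have e2 : ∀ f : Fin N → Bool, sg D ((Fin.consEquiv (fun _ : Fin (N + 1) => Bool)) (false, f)) =
        -D 0 + sg (fun i => D i.succ) f := by
      intro f; unfold sg; rw [Fin.sum_univ_succ]; simp [Fin.consEquiv]
    simp only [e1, e2]
    rw [pow_succ]
    have h3 : (pr w (List.ofFn fun i => D i.succ) (x - D 0) +
        pr w (List.ofFn fun i => D i.succ) (x + D 0)) / 2 * (2 ^ N * 2) =
        pr w (List.ofFn fun i => D i.succ) (x - D 0) * 2 ^ N +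
        pr w (List.ofFn fun i => D i.succ) (x + D 0) * 2 ^ N := by ring
    rw [h3, h1, h2]
    congr 1
    · apply Finset.sum_congr rfl
      intro f _
      congr 1
      rw [eq_iff_iff]
      constructor
      · rintro ⟨a, b⟩; constructor <;> linarith
      · rintro ⟨a, b⟩; constructor <;> linarith
    · apply Finset.sum_congr rfl
      intro f _
      congr 1
      rw [eq_iff_iff]
      constructor
      · rintro ⟨a, b⟩; constructor <;> linarith
      · rintro ⟨a, b⟩; constructor <;> linarith

theorem pr_pos_le (s : ℝ) (hs : 0 < s) {N : ℕ} (D : Fin N → ℝ) (hD : ∀ i, s ≤ D i) (x : ℝ) :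
    pr (2 * s) (List.ofFn D) x * 2 ^ N ≤ (N.choose (N / 2) : ℝ) := by
  classical
  rw [pr_ofFn, ← Finset.sum_filter]
  simp only [Finset.sum_const, nsmul_eq_mul, mul_one]
  set F : Finset (Fin N → Bool) :=
    univ.filter fun f => x ≤ sg D f ∧ sg D f < x + 2 * s with hF
  let φ : (Fin N → Bool) → Finset (Fin N) := fun f => univ.filter fun i => f i = true
  have hφ : Function.Injective φ := by
    intro f g h
    funext i
    have : i ∈ φ f ↔ i ∈ φ g := by rw [h]
    simp only [φ, mem_filter, mem_univ, true_and] at this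
    cases hf : f i <;> cases hg : g i <;> simp_all
  have hanti : IsAntichain (· ⊆ ·) (SetLike.coe (F.image φ)) := by
    intro A hA B hB hne hsub
    rw [SetLike.mem_coe, mem_image] at hA hB
    obtain ⟨f, hf, rfl⟩ := hA
    obtain ⟨g, hg, rfl⟩ := hB
    rw [hF, mem_filter] at hf hg
    have hfg : ∀ i, f i = true → g i = true := by
      intro i hi
      have : i ∈ φ g := hsub (by simp only [φ, mem_filter, mem_univ, true_and]; exact hi)
      simpa [φ] using this
    have hne' : ∃ j, f j ≠ g j := by
      by_contra hcon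
      push Not at hcon
      exact hne (by rw [show f = g from funext hcon])
    obtain ⟨j, hj⟩ := hne'
    have hgj : g j = true ∧ f j = false := by
      cases hfj : f j
      · cases hgj : g j
        · simp_all
        · simp
      · have := hfg j hfj
        simp_all
    have hterm : ∀ i, 0 ≤ (if g i then D i else -D i) - (if f i then D i else -D i) := by
      intro i
      have := hD i
      cases hfi : f i
      · cases hgi : g i
        · simp
        · simp; linarith
      · have hgi := hfg i hfi
        rw [hgi]; simp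
    have hdiff : 2 * s ≤ sg D g - sg D f := by
      unfold sg
      rw [← Finset.sum_sub_distrib]
      calc 2 * s ≤ (if g j then D j else -D j) - (if f j then D j else -D j) := by
            rw [hgj.1, hgj.2]; simp; linarith [hD j]
        _ ≤ _ := Finset.single_le_sum
            (f := fun i => (if g i then D i else -D i) - (if f i then D i else -D i))
            (fun i _ => hterm i) (mem_univ j)
    linarith [hf.2.1, hg.2.2]
  have hsp := hanti.sperner
  rw [Finset.card_image_of_injective _ hφ, Fintype.card_fin] at hsp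
  exact_mod_cast hsp

theorem choose_mid (k : ℕ) : ((k.choose (k / 2) : ℝ)) ^ 2 * (k + 1) ≤ 4 ^ k := by
  have hcb : ∀ n : ℕ, ((Nat.centralBinom n : ℝ)) ^ 2 * (2 * n + 1) ≤ 16 ^ n := by
    intro n
    induction n with
    | zero => simp
    | succ n ih =>
      have h := Nat.succ_mul_centralBinom_succ n
      have h' : ((n : ℝ) + 1) * (Nat.centralBinom (n + 1) : ℝ) =
          2 * (2 * n + 1) * (Nat.centralBinom n : ℝ) := by exact_mod_cast h
      have hn : (0 : ℝ) < (n : ℝ) + 1 := by positivity
      have h2 : (Nat.centralBinom (n + 1) : ℝ) =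
          2 * (2 * n + 1) * (Nat.centralBinom n : ℝ) / ((n : ℝ) + 1) := by
        field_simp; linarith
      rw [h2, div_pow, div_mul_eq_mul_div, div_le_iff₀ (by positivity)]
      push_cast
      have h3 : ((2 * (n : ℝ) + 1)) * (2 * (n + 1) + 1) ≤ 4 * ((n : ℝ) + 1) ^ 2 := by nlinarith
      calc (2 * (2 * (n : ℝ) + 1) * (Nat.centralBinom n : ℝ)) ^ 2 * (2 * (↑n + 1) + 1) =
          4 * ((2 * (n : ℝ) + 1) * (2 * (n + 1) + 1)) *
            ((Nat.centralBinom n : ℝ) ^ 2 * (2 * n + 1)) := by ring
        _ ≤ 4 * (4 * ((n : ℝ) + 1) ^ 2) * 16 ^ n := by gcongr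
        _ = 16 ^ (n + 1) * ((n : ℝ) + 1) ^ 2 := by ring
  rcases Nat.even_or_odd' k with ⟨n, rfl | rfl⟩
  · have h1 : 2 * n / 2 = n := by omega
    rw [h1]
    have := hcb n
    have h2 : ((2 * n).choose n : ℝ) = (Nat.centralBinom n : ℝ) := by
      rw [Nat.centralBinom_eq_two_mul_choose]
    rw [h2]
    push_cast
    calc _ ≤ (16 : ℝ) ^ n := this
      _ = 4 ^ (2 * n) := by rw [pow_mul]; norm_num
  · have h1 : (2 * n + 1) / 2 = n := by omega
    rw [h1]
    have h3 := hcb (n + 1)
    have h4 : (Nat.centralBinom (n + 1) : ℝ) = 2 * ((2 * n + 1).choose n : ℝ) := by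
      rw [Nat.centralBinom_eq_two_mul_choose]
      have : (2 * (n + 1)).choose (n + 1) = (2 * n + 1).choose n + (2 * n + 1).choose (n + 1) := by
        rw [show 2 * (n + 1) = (2 * n + 1) + 1 by ring, Nat.choose_succ_succ]
      rw [this]
      have h5 : (2 * n + 1).choose (n + 1) = (2 * n + 1).choose n := by
        apply Nat.choose_symm_of_eq_add; ring
      rw [h5]; push_cast; ring
    rw [h4] at h3
    push_cast at h3 ⊢
    have h6 : (16 : ℝ) ^ (n + 1) = 4 * 4 ^ (2 * n + 1) := by
      rw [show (16 : ℝ) = 4 ^ 2 by norm_num, ← pow_mul, ← pow_succ']; congr 1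
    rw [h6] at h3
    nlinarith [sq_nonneg ((2 * n + 1).choose n : ℝ)]

theorem pr_abs (w : ℝ) (l : List ℝ) (x : ℝ) : pr w (l.map fun d => |d|) x = pr w l x := by
  induction l generalizing x with
  | nil => rfl
  | cons d l ih =>
    rw [List.map_cons]
    unfold pr
    rw [ih, ih]
    rcases abs_cases d with ⟨h, _⟩ | ⟨h, _⟩
    · rw [h]
    · rw [h, sub_neg_eq_add, add_comm (pr w l (x + d))]; rfl

theorem pr_big (s : ℝ) (hs : 0 < s) (l : List ℝ) (h : ∀ d ∈ l, s ≤ |d|) (x : ℝ) :
    pr (2 * s) l x ≤ 1 / √((l.length : ℝ) + 1) := by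
  rw [← pr_abs]
  set l2 := l.map fun d => |d| with hl2
  have hlen : l2.length = l.length := by rw [hl2, List.length_map]
  have hpos : ∀ i : Fin l2.length, s ≤ l2.get i := by
    intro i
    have hall : ∀ e ∈ l2, s ≤ e := by
      intro e he
      rw [hl2, List.mem_map] at he
      obtain ⟨d, hd, he⟩ := he
      rw [← he]; exact h d hd
    exact hall _ (List.get_mem l2 i)
  have h1 := pr_pos_le s hs l2.get hpos x
  rw [List.ofFn_get] at h1
  have h2 := choose_mid l2.length
  rw [hlen] at h1 h2
  set c : ℝ := ((l.length).choose (l.length / 2) : ℝ) with hc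
  have hc0 : 0 ≤ c := by rw [hc]; positivity
  have h3 : c * √((l.length : ℝ) + 1) ≤ 2 ^ l.length := by
    have h6 : (c * √((l.length : ℝ) + 1)) ^ 2 ≤ (2 ^ l.length) ^ 2 := by
      rw [mul_pow, Real.sq_sqrt (by positivity), ← pow_mul, mul_comm l.length 2, pow_mul]
      norm_num
      exact h2
    exact (sq_le_sq₀ (by positivity) (by positivity)).1 h6
  rw [le_div_iff₀ (by positivity)]
  have h4 : (0 : ℝ) < 2 ^ l.length := by positivity
  have h5 : pr (2 * s) l2 x * √((l.length : ℝ) + 1) * 2 ^ l.length ≤ 1 * 2 ^ l.length := by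
    calc pr (2 * s) l2 x * √((l.length : ℝ) + 1) * 2 ^ l.length =
        (pr (2 * s) l2 x * 2 ^ l.length) * √((l.length : ℝ) + 1) := by ring
      _ ≤ c * √((l.length : ℝ) + 1) := by gcongr
      _ ≤ 1 * 2 ^ l.length := by rw [one_mul]; exact h3
  exact le_of_mul_le_mul_right h5 h4

theorem lemmaR_list (G : ℕ) (hG : 1 ≤ G) (l : List ℝ) (hint : ∀ d ∈ l, d = 0 ∨ 1 ≤ |d|)
    (k : ℝ) (hk : 0 < k) (h : k ≤ (l.map fun d : ℝ => min 1 ((d / (G : ℝ)) ^ 2)).sum) (x : ℝ) :
    pr G l x ≤ 2 * √(((Nat.clog 2 G : ℝ) + 1) / k) := by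
  classical
  have hG0 : (0 : ℝ) < G := by exact_mod_cast hG
  set J := Nat.clog 2 G with hJ
  let cls : ℕ → ℝ → Prop := fun j d => (G : ℝ) ≤ 2 ^ j * |d| ∧ (j = 0 ∨ 2 ^ j * |d| < 2 * G)
  have hcls : ∀ d ∈ l, d ≠ 0 → ∃ j ∈ range (J + 1), cls j d := by
    intro d hd hd0
    have h1 : 1 ≤ |d| := (hint d hd).resolve_left hd0
    have hex : ∃ j : ℕ, (G : ℝ) ≤ 2 ^ j * |d| := by
      refine ⟨J, ?_⟩
      have : (G : ℝ) ≤ 2 ^ J := by exact_mod_cast Nat.le_pow_clog (by norm_num) G
      nlinarith [pow_pos (show (0 : ℝ) < 2 by norm_num) J]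
    refine ⟨Nat.find hex, ?_, Nat.find_spec hex, ?_⟩
    · rw [mem_range, Nat.lt_succ_iff]
      apply Nat.find_min'
      have : (G : ℝ) ≤ 2 ^ J := by exact_mod_cast Nat.le_pow_clog (by norm_num) G
      nlinarith [pow_pos (show (0 : ℝ) < 2 by norm_num) J]
    · rcases Nat.eq_zero_or_pos (Nat.find hex) with h0 | h0
      · exact Or.inl h0
      · right
        have h3 := Nat.find_min hex (m := Nat.find hex - 1) (by omega)
        rw [not_le] at h3
        have h4 : (2 : ℝ) ^ Nat.find hex = 2 * 2 ^ (Nat.find hex - 1) := by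
          rw [← pow_succ']; congr 1; omega
        rw [h4]; linarith
  let φ : ℝ → ℝ := fun d => min 1 ((d / G) ^ 2)
  have hφ0 : ∀ d, 0 ≤ φ d := fun d => le_min zero_le_one (sq_nonneg _)
  -- splitting
  have hsplit : ∀ l' : List ℝ, (∀ d ∈ l', d ∈ l) → (l'.map φ).sum ≤
      ∑ j ∈ range (J + 1), ((l'.filter fun d => decide (cls j d)).map φ).sum := by
    intro l'
    induction l' with
    | nil => intro _; simp
    | cons d l' ih =>
      intro hl'
      rw [List.map_cons, List.sum_cons]
      have hterm : ∀ j, (((d :: l').filter fun d => decide (cls j d)).map φ).sum =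
          (if cls j d then φ d else 0) + ((l'.filter fun d => decide (cls j d)).map φ).sum := by
        intro j
        by_cases hc : cls j d
        · rw [List.filter_cons_of_pos (by simpa using hc), if_pos hc, List.map_cons, List.sum_cons]
        · rw [List.filter_cons_of_neg (by simpa using hc), if_neg hc, zero_add]
      simp only [hterm]
      rw [Finset.sum_add_distrib]
      have h2 := ih (fun e he => hl' e (List.mem_cons_of_mem _ he))
      have h1 : φ d ≤ ∑ j ∈ range (J + 1), if cls j d then φ d else 0 := by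
        by_cases hd0 : d = 0
        · have : φ d = 0 := by simp [φ, hd0]
          rw [this]
          exact Finset.sum_nonneg fun j _ => by split_ifs <;> norm_num
        · obtain ⟨j, hj, hjc⟩ := hcls d (hl' d (List.mem_cons_self)) hd0
          calc φ d = if cls j d then φ d else 0 := by rw [if_pos hjc]
            _ ≤ _ := Finset.single_le_sum (f := fun j => if cls j d then φ d else 0)
              (fun i _ => by split_ifs; exacts [hφ0 d, le_rfl]) hj
      linarith
  have hk2 : k ≤ ∑ j ∈ range (J + 1), ((l.filter fun d => decide (cls j d)).map φ).sum :=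
    h.trans (hsplit l fun d hd => hd)
  have hexj : ∃ j ∈ range (J + 1), k / (J + 1) ≤
      ((l.filter fun d => decide (cls j d)).map φ).sum := by
    by_contra hcon
    push Not at hcon
    have : ∑ j ∈ range (J + 1), ((l.filter fun d => decide (cls j d)).map φ).sum <
        ∑ j ∈ range (J + 1), k / (J + 1) :=
      Finset.sum_lt_sum_of_nonempty ⟨0, by simp⟩ hcon
    rw [Finset.sum_const, card_range, nsmul_eq_mul] at this
    push_cast at this
    rw [mul_div_cancel₀ _ (by positivity)] at this
    linarith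
  obtain ⟨j, _, hj⟩ := hexj
  set lj := l.filter fun d => decide (cls j d) with hlj
  have hmem : ∀ d ∈ lj, cls j d := by
    intro d hd
    rw [hlj, List.mem_filter] at hd
    simpa using hd.2
  have hbound : ∀ d ∈ lj, φ d ≤ 4 / 4 ^ j := by
    intro d hd
    obtain ⟨_, h2⟩ := hmem d hd
    rcases h2 with h2 | h2
    · subst h2
      calc φ d ≤ 1 := min_le_left _ _
        _ ≤ 4 / 4 ^ 0 := by norm_num
    · calc φ d ≤ (d / G) ^ 2 := min_le_right _ _
        _ = (2 ^ j * |d|) ^ 2 / (G ^ 2 * 4 ^ j) := by
            rw [mul_pow, sq_abs, ← pow_mul, mul_comm j 2, pow_mul]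
            norm_num
            field_simp
        _ ≤ (2 * G) ^ 2 / (G ^ 2 * 4 ^ j) := by
            gcongr
        _ = 4 / 4 ^ j := by field_simp; ring
  have hsum : (lj.map φ).sum ≤ lj.length * (4 / 4 ^ j) := by
    have : ∀ l' : List ℝ, (∀ d ∈ l', φ d ≤ 4 / 4 ^ j) → (l'.map φ).sum ≤ l'.length * (4 / 4 ^ j) := by
      intro l'
      induction l' with
      | nil => intro _; simp
      | cons d l' ih =>
        intro hl'
        rw [List.map_cons, List.sum_cons, List.length_cons]
        have h1 := hl' d (List.mem_cons_self)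
        have h2 := ih (fun e he => hl' e (List.mem_cons_of_mem _ he))
        push_cast
        linarith
    exact this lj hbound
  have hN : k * 4 ^ j / (4 * (J + 1)) ≤ lj.length := by
    have h1 : k / (J + 1) ≤ lj.length * (4 / 4 ^ j) := hj.trans hsum
    rw [div_le_iff₀ (by positivity)] at h1
    rw [div_le_iff₀ (by positivity)]
    have h4 : (0 : ℝ) < 4 ^ j := by positivity
    calc k * 4 ^ j ≤ lj.length * (4 / 4 ^ j) * (J + 1) * 4 ^ j := by gcongr
      _ = lj.length * (4 * (J + 1)) := by field_simp
  set s : ℝ := G / 2 ^ j with hs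
  have hs0 : 0 < s := by positivity
  have hbig : ∀ y, pr (2 * s) lj y ≤ 1 / √((lj.length : ℝ) + 1) := by
    intro y
    apply pr_big s hs0
    intro d hd
    have := (hmem d hd).1
    rw [hs, div_le_iff₀ (by positivity)]
    linarith
  have hG2 : (G : ℝ) ≤ ((2 ^ j : ℕ) : ℝ) * (2 * s) := by
    rw [hs]; push_cast
    have : (2 : ℝ) ^ j * (2 * (G / 2 ^ j)) = 2 * G := by field_simp
    rw [this]; linarith
  have hmain : ∀ y, pr G lj y ≤ 2 * √(((J : ℝ) + 1) / k) := by
    intro y
    calc pr G lj y ≤ pr (((2 ^ j : ℕ) : ℝ) * (2 * s)) lj y := pr_mono _ hG2 _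
      _ ≤ ∑ i ∈ range (2 ^ j), pr (2 * s) lj (y + i * (2 * s)) :=
          pr_add_le _ (by positivity) _ _ _
      _ ≤ ∑ i ∈ range (2 ^ j), 1 / √((lj.length : ℝ) + 1) :=
          Finset.sum_le_sum fun i _ => hbig _
      _ = 2 ^ j / √((lj.length : ℝ) + 1) := by
          rw [Finset.sum_const, card_range, nsmul_eq_mul]; push_cast; ring
      _ ≤ 2 ^ j / √(k * 4 ^ j / (4 * (J + 1))) := by
          apply div_le_div_of_nonneg_left (by positivity) (by positivity)
          apply Real.sqrt_le_sqrt; linarith
      _ = 2 * √(((J : ℝ) + 1) / k) := by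
          have e1 : k * 4 ^ j / (4 * ((J : ℝ) + 1)) = (2 ^ j / 2) ^ 2 / (((J : ℝ) + 1) / k) := by
            rw [div_pow, ← pow_mul, mul_comm j 2, pow_mul]; norm_num; field_simp
          rw [e1, Real.sqrt_div (by positivity), Real.sqrt_sq (by positivity)]
          have : (0 : ℝ) < √(((J : ℝ) + 1) / k) := by positivity
          field_simp
  have hperm : l.Perm ((l.filter fun d => !decide (cls j d)) ++ lj) := by
    have := List.filter_append_perm (fun d => decide (cls j d)) l
    exact (this.symm).trans List.perm_append_comm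
  rw [pr_perm _ hperm]
  exact pr_append_le _ _ _ hmain x

/-- the bound of Lemma R -/
def rho (n k : ℕ) : ℝ := 2 * √((Nat.clog 2 n + 1) / k)

/-- **Lemma R** (Littlewood-Offord, Erdos). -/
theorem lemmaR {N n G k : ℕ} (hG : 1 ≤ G) (hGn : G ≤ n) (hk : 1 ≤ k) (D : Fin N → ℤ)
    (h : (k : ℝ) ≤ ∑ i, min 1 (((D i : ℝ) / G) ^ 2)) (x : ℤ) :
    ((univ.filter fun e : Fin N → Bool => x ≤ ∑ i, (if e i then D i else -D i) ∧
      ∑ i, (if e i then D i else -D i) < x + G).card : ℝ) ≤ rho n k * 2 ^ N := by
  have hk0 : (0 : ℝ) < k := by exact_mod_cast hk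
  have h1 := lemmaR_list G hG (List.ofFn fun i => (D i : ℝ)) (by
    intro d hd
    rw [List.mem_ofFn] at hd
    obtain ⟨i, hi⟩ := hd
    rw [← hi]
    by_cases h0 : D i = 0
    · left; simp [h0]
    · right
      have : (1 : ℤ) ≤ |D i| := Int.one_le_abs h0
      exact_mod_cast this) k hk0 (by
    rw [List.map_ofFn, List.sum_ofFn]
    exact h) x
  have h2 := pr_ofFn (G : ℝ) (fun i => (D i : ℝ)) x
  rw [← Finset.sum_filter] at h2
  simp only [Finset.sum_const, nsmul_eq_mul, mul_one] at h2
  have hset : (univ.filter fun e : Fin N → Bool => x ≤ ∑ i, (if e i then D i else -D i) ∧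
      ∑ i, (if e i then D i else -D i) < x + G) =
      univ.filter fun f : Fin N → Bool => (x : ℝ) ≤ sg (fun i => (D i : ℝ)) f ∧
        sg (fun i => (D i : ℝ)) f < (x : ℝ) + (G : ℝ) := by
    apply Finset.filter_congr
    intro e _
    have hc : sg (fun i => (D i : ℝ)) e = ((∑ i, (if e i then D i else -D i) : ℤ) : ℝ) := by
      unfold sg
      push_cast
      apply Finset.sum_congr rfl
      intro i _
      split_ifs <;> simp
    rw [hc]
    constructor
    · rintro ⟨a, b⟩
      exact ⟨by exact_mod_cast a, by exact_mod_cast b⟩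
    · rintro ⟨a, b⟩
      exact ⟨by exact_mod_cast a, by exact_mod_cast b⟩
  rw [hset, ← h2]
  apply mul_le_mul_of_nonneg_right _ (by positivity)
  refine h1.trans ?_
  unfold rho
  have hmono : (Nat.clog 2 G : ℝ) ≤ Nat.clog 2 n := by exact_mod_cast Nat.clog_mono_right 2 hGn
  gcongr

end Pool.HEP
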