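import Pool.Agent.HEP.GFin

/-!
Honeycomb lattice: for every `ε > 0`, `a_n ≤ μ_L^n exp(C n^ε)` for every `n`, and the corresponding lower bound of the
probability of Q1.
-/

namespace Pool.Agent.HEP.OneThird

open Pool.Agent.Hhelper14.Honeycomb

/-- For every `ε > 0` there is `C > 0` such that for every `n ≥ 1` the number of self-avoiding paths of length `n` of the
honeycomb lattice is at most `μ_L^n exp(C n^ε)`, and `P_n(w{1,...,n} ∩ w'{0,...,n} = ∅) ≥ exp(-C n^ε)`. -/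
theorem result : ∀ ε : ℝ, 0 < ε → ∃ C : ℝ, 0 < C ∧ ∀ n : ℕ, 1 ≤ n →
    (a n : ℝ) ≤ muL ^ n * Real.exp (C * (n : ℝ) ^ ε) ∧
    Real.exp (-(C * (n : ℝ) ^ ε)) ≤ P n :=
  Pool.Agent.HEP.main

end Pool.Agent.HEP.OneThird
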