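import Pool.Agent.HEP.RcDefs

/-!
Module RcCrude: monotonicity of `T`, the crude bound, splitting of `T`.

PAPER PROOF. `T_mono` : trivial. `T_le_U` : for fixed `l` the sum over `s` with `h s ≤ h l - d σ` of `w s * Lam (h l - d σ - h s)` is `1`
(`tsum_w_Lam`), then `tsum_le`.
`crude` : `T σ M = T σ m + (part with m < h l ≤ M)`; in the second part `av σ (cut m l) (cut m s)` (`av_pre`, `cut_prefix`). For fixed `l` the sum
over `s` with `h s ≤ c = h l - d σ` (`c ≥ m`), weight `Lam (c - h s)`: cut lemma (`ext_Lam` of RnCut), levels `m ≤ c`. Then the sum over `l` with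
`m < h l ≤ M`: passage lemma (`ext_fun`) with `j = m + 1`, `f = 1`: factor `∑ k ≤ M, b k = U M`. Result `a m * U M` (both `σ`: swap the sums).
`T_split` : the indicator of `good ∧ h l ≤ M` is at most the sum of the indicators of the six cases; in the last case `os σ G` and
`|pl - ps| ≤ |x l| + 1 + |x s| + 1` (`pl_sub`, `ps_sub`).
-/

namespace Pool.Agent.HEP

open scoped ENNReal

namespace Alph

variable (A : Alph)

/-- the mass of the blocks of height in `(m, c]` -/
private lemma RcCrude_Lam {m c : ℕ} (hmc : m ≤ c) :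
    A.Lam c + ∑' a, ind (m < A.ht a ∧ A.ht a ≤ c) * A.wt a = A.Lam m := by
  unfold Lam
  rw [← ENNReal.tsum_add]
  refine tsum_congr fun a => ?_
  rw [← add_mul]
  congr 1
  by_cases h1 : c < A.ht a
  · rw [ind_true h1, ind_false (by omega), ind_true (by omega), add_zero]
  · by_cases h2 : m < A.ht a
    · rw [ind_false h1, ind_true (by omega), ind_true h2, zero_add]
    · rw [ind_false h1, ind_false (by omega), ind_false h2, zero_add]

private lemma RcCrude_Y (m : ℕ) (f : List A.B → ℝ≥0∞) :
    ∑' s, ind (A.h s ≤ m) * (A.w s * A.Lam (m - A.h s)) * f s =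
      A.Lam m * f [] + ∑' a, ind (A.ht a ≤ m) * (A.wt a *
        ∑' s, ind (A.h s ≤ m - A.ht a) * (A.w s * A.Lam (m - A.ht a - A.h s)) * f (a :: s)) := by
  rw [tsum_list, A.h_nil, A.w_nil, ind_true (Nat.zero_le m), one_mul, one_mul, Nat.sub_zero]
  congr 1
  refine tsum_congr fun a => ?_
  by_cases ha : A.ht a ≤ m
  · rw [ind_true ha, one_mul, ← ENNReal.tsum_mul_left]
    refine tsum_congr fun s => ?_
    rw [A.h_cons, A.w_cons, ind_congr (show A.ht a + A.h s ≤ m ↔ A.h s ≤ m - A.ht a by omega),
      show m - (A.ht a + A.h s) = m - A.ht a - A.h s by omega]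
    ring
  · rw [ind_false ha, zero_mul, ENNReal.tsum_eq_zero]
    intro s
    rw [A.h_cons, ind_false (by omega), zero_mul, zero_mul]

/-- cut lemma -/
private lemma RcCrude_cut (m : ℕ) : ∀ (c : ℕ) (_ : m ≤ c) (f : List A.B → ℝ≥0∞),
    ∑' s, ind (A.h s ≤ c) * (A.w s * A.Lam (c - A.h s)) * f (A.cut m s) =
      ∑' s, ind (A.h s ≤ m) * (A.w s * A.Lam (m - A.h s)) * f s := by
  induction m using Nat.strong_induction_on with
  | _ m ih =>
    intro c hmc f
    rw [A.RcCrude_Y m f, tsum_list, A.h_nil, A.w_nil, ind_true (Nat.zero_le c), one_mul, one_mul,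
      Nat.sub_zero]
    have hnil : A.cut m [] = [] := rfl
    rw [hnil]
    have key : ∀ a, ∑' s, ind (A.h (a :: s) ≤ c) * (A.w (a :: s) * A.Lam (c - A.h (a :: s))) *
        f (A.cut m (a :: s)) =
        ind (m < A.ht a ∧ A.ht a ≤ c) * A.wt a * f [] + ind (A.ht a ≤ m) * (A.wt a *
        ∑' s, ind (A.h s ≤ m - A.ht a) * (A.w s * A.Lam (m - A.ht a - A.h s)) * f (a :: s)) := by
      intro a
      have hpos := A.ht_pos a
      by_cases ha : A.ht a ≤ m
      · rw [ind_true ha, one_mul, ind_false (by omega), zero_mul, zero_mul, zero_add,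
          ← ih (m - A.ht a) (by omega) (c - A.ht a) (by omega) (fun s => f (a :: s)),
          ← ENNReal.tsum_mul_left]
        refine tsum_congr fun s => ?_
        have h1 : A.cut m (a :: s) = a :: A.cut (m - A.ht a) s := by
          rw [cut, if_pos ha]
        rw [h1, A.h_cons, A.w_cons,
          ind_congr (show A.ht a + A.h s ≤ c ↔ A.h s ≤ c - A.ht a by omega),
          show c - (A.ht a + A.h s) = c - A.ht a - A.h s by omega]
        ring
      · rw [ind_false ha, zero_mul, add_zero]
        have h1 : ∀ s, A.cut m (a :: s) = [] := by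
          intro s
          rw [cut, if_neg ha]
        by_cases hc : A.ht a ≤ c
        · rw [ind_true ⟨by omega, hc⟩, one_mul]
          have h2 := A.tsum_w_Lam (c - A.ht a)
          calc _ = ∑' s, (A.wt a * f []) *
                (ind (A.h s ≤ c - A.ht a) * (A.w s * A.Lam (c - A.ht a - A.h s))) := by
                refine tsum_congr fun s => ?_
                rw [h1, A.h_cons, A.w_cons,
                  ind_congr (show A.ht a + A.h s ≤ c ↔ A.h s ≤ c - A.ht a by omega),
                  show c - (A.ht a + A.h s) = c - A.ht a - A.h s by omega]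
                ring
            _ = _ := by rw [ENNReal.tsum_mul_left, h2, mul_one]
        · rw [ind_false (by omega), zero_mul, zero_mul, ENNReal.tsum_eq_zero]
          intro s
          rw [A.h_cons, ind_false (by omega), zero_mul, zero_mul]
    rw [tsum_congr key, ENNReal.tsum_add, ENNReal.tsum_mul_right, ← add_assoc, ← add_mul,
      A.RcCrude_Lam hmc]

/-- passage lemma -/
private lemma RcCrude_pass (N m : ℕ) : ∀ (M : ℕ) (_ : M ≤ N) (f : List A.B → ℝ≥0∞),
    ∑' l, ind (m < A.h l ∧ A.h l ≤ M) * A.w l * f (A.cut m l) ≤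
      (∑' s, ind (A.h s ≤ m) * (A.w s * A.Lam (m - A.h s)) * f s) * A.U N := by
  induction m using Nat.strong_induction_on with
  | _ m ih =>
    intro M hMN f
    rw [A.RcCrude_Y m f, tsum_list, A.h_nil, ind_false (by omega), zero_mul, zero_mul, zero_add]
    have key : ∀ a, ∑' l, ind (m < A.h (a :: l) ∧ A.h (a :: l) ≤ M) * A.w (a :: l) *
        f (A.cut m (a :: l)) ≤
        (ind (m < A.ht a) * A.wt a * f [] + ind (A.ht a ≤ m) * (A.wt a *
        ∑' s, ind (A.h s ≤ m - A.ht a) * (A.w s * A.Lam (m - A.ht a - A.h s)) * f (a :: s))) *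
          A.U N := by
      intro a
      have hpos := A.ht_pos a
      by_cases ha : A.ht a ≤ m
      · rw [ind_true ha, one_mul, ind_false (by omega), zero_mul, zero_mul, zero_add, mul_assoc]
        refine le_trans (le_of_eq ?_) (mul_le_mul' le_rfl
          (ih (m - A.ht a) (by omega) (M - A.ht a) (by omega) (fun s => f (a :: s))))
        rw [← ENNReal.tsum_mul_left]
        refine tsum_congr fun s => ?_
        have h1 : A.cut m (a :: s) = a :: A.cut (m - A.ht a) s := by
          rw [cut, if_pos ha]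
        rw [h1, A.h_cons, A.w_cons,
          ind_congr (show (m < A.ht a + A.h s ∧ A.ht a + A.h s ≤ M) ↔
            (m - A.ht a < A.h s ∧ A.h s ≤ M - A.ht a) by omega)]
        ring
      · rw [ind_false ha, zero_mul, add_zero, ind_true (by omega), one_mul]
        have h1 : ∀ s, A.cut m (a :: s) = [] := by
          intro s
          rw [cut, if_neg ha]
        have h2 : A.U M ≤ A.U N := A.U_mono hMN
        rw [← A.tsum_le M] at h2
        refine le_trans ?_ (mul_le_mul' le_rfl h2)
        rw [← ENNReal.tsum_mul_left]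
        refine ENNReal.tsum_le_tsum fun s => ?_
        rw [h1, A.h_cons, A.w_cons]
        have h3 : ind (m < A.ht a + A.h s ∧ A.ht a + A.h s ≤ M) ≤ ind (A.h s ≤ M) :=
          ind_mono fun h => by omega
        calc _ ≤ ind (A.h s ≤ M) * (A.wt a * A.w s) * f [] := by gcongr
          _ = _ := by ring
    refine (ENNReal.tsum_le_tsum key).trans (le_of_eq ?_)
    rw [ENNReal.tsum_mul_right, ENNReal.tsum_add, ENNReal.tsum_mul_right]
    rfl

end Alph

namespace Sys

variable {S : Sys}

theorem T_mono (σ : Bool) : Monotone (S.T σ) := by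
  intro M N hMN
  unfold T
  refine ENNReal.tsum_le_tsum fun l => ENNReal.tsum_le_tsum fun s => mul_le_mul' ?_ le_rfl
  exact ind_mono fun h => ⟨h.1, h.2.trans hMN⟩

theorem TT_mono : Monotone S.TT := fun _ _ h => add_le_add (T_mono true h) (T_mono false h)

/-- `T` is at most the renewal function. -/
theorem T_le_U (σ : Bool) (M : ℕ) : S.T σ M ≤ S.U M := by
  unfold T
  rw [← S.tsum_le M]
  refine ENNReal.tsum_le_tsum fun l => ?_
  calc _ ≤ ∑' s, (ind (S.h l ≤ M) * S.w l) *
        (ind (S.h s ≤ S.h l - d σ) * (S.w s * S.Lam (S.h l - d σ - S.h s))) := by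
        refine ENNReal.tsum_le_tsum fun s => ?_
        have h1 : ind (S.good σ 1 l s ∧ S.h l ≤ M) ≤
            ind (S.h l ≤ M) * ind (S.h s ≤ S.h l - d σ) := by
          rw [← ind_and]
          exact ind_mono fun h => ⟨h.2, h.1.2.1⟩
        calc _ ≤ ind (S.h l ≤ M) * ind (S.h s ≤ S.h l - d σ) *
              (S.w l * S.w s * S.Lam (S.del σ l s)) := mul_le_mul' h1 le_rfl
          _ = _ := by
            unfold del
            ring
    _ = _ := by rw [ENNReal.tsum_mul_left, S.tsum_w_Lam, mul_one]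

theorem crude (σ : Bool) {m M : ℕ} (hmM : m ≤ M) : S.T σ M ≤ S.T σ m + S.a m * S.U M := by
  set F : List S.B → ℝ≥0∞ := fun l' =>
    ∑' s, ind (S.h s ≤ m) * (S.w s * S.Lam (m - S.h s)) * ind (S.av σ l' s) with hF
  have h1 : S.T σ M ≤ S.T σ m +
      ∑' l, ind (m < S.h l ∧ S.h l ≤ M) * S.w l * F (S.cut m l) := by
    unfold T
    rw [← ENNReal.tsum_add]
    refine ENNReal.tsum_le_tsum fun l => ?_
    by_cases hl : m < S.h l ∧ S.h l ≤ M
    · refine le_trans ?_ le_add_self
      have hc : m ≤ S.h l - d σ := by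
        have := d_le σ
        omega
      rw [ind_true hl, one_mul]
      have h2 := S.RcCrude_cut m (S.h l - d σ) hc (fun s => ind (S.av σ (S.cut m l) s))
      rw [hF]
      dsimp only
      rw [← h2, ← ENNReal.tsum_mul_left]
      refine ENNReal.tsum_le_tsum fun s => ?_
      have h3 : ind (S.good σ 1 l s ∧ S.h l ≤ M) ≤
          ind (S.h s ≤ S.h l - d σ) * ind (S.av σ (S.cut m l) (S.cut m s)) := by
        rw [← ind_and]
        refine ind_mono fun h => ⟨h.1.2.1, ?_⟩
        obtain ⟨r, hr⟩ := S.cut_prefix m l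
        obtain ⟨r', hr'⟩ := S.cut_prefix m s
        have h4 := h.1.1
        rw [hr, hr'] at h4
        exact S.av_pre h4
      calc _ ≤ ind (S.h s ≤ S.h l - d σ) * ind (S.av σ (S.cut m l) (S.cut m s)) *
            (S.w l * S.w s * S.Lam (S.del σ l s)) := mul_le_mul' h3 le_rfl
        _ = _ := by
          unfold del
          ring
    · refine le_trans ?_ le_self_add
      refine ENNReal.tsum_le_tsum fun s => mul_le_mul' ?_ le_rfl
      refine ind_mono fun h => ⟨h.1, ?_⟩
      by_contra hcon
      exact hl ⟨by omega, h.2⟩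
  refine h1.trans (add_le_add le_rfl ?_)
  refine (S.RcCrude_pass M m M le_rfl F).trans (mul_le_mul' (le_of_eq ?_) le_rfl)
  rw [hF]
  have h5 : ∀ l s : List S.B, ind (S.h l ≤ m) * (S.w l * S.Lam (m - S.h l)) *
      (ind (S.h s ≤ m) * (S.w s * S.Lam (m - S.h s)) * ind (S.av σ l s)) =
      ind (S.av σ l s ∧ S.h l ≤ m ∧ S.h s ≤ m) * (S.w l * S.w s *
        (S.Lam (m - S.h l) * S.Lam (m - S.h s))) := by
    intro l s
    rw [ind_and, ind_and]
    ring
  have h6 : ∑' l, ind (S.h l ≤ m) * (S.w l * S.Lam (m - S.h l)) *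
      (∑' s, ind (S.h s ≤ m) * (S.w s * S.Lam (m - S.h s)) * ind (S.av σ l s)) =
      ∑' l, ∑' s, ind (S.av σ l s ∧ S.h l ≤ m ∧ S.h s ≤ m) * (S.w l * S.w s *
        (S.Lam (m - S.h l) * S.Lam (m - S.h s))) := by
    refine tsum_congr fun l => ?_
    rw [← ENNReal.tsum_mul_left]
    exact tsum_congr fun s => h5 l s
  rw [h6]
  cases σ
  · rw [ENNReal.tsum_comm]
    unfold a
    refine tsum_congr fun s => tsum_congr fun l => ?_
    rw [ind_congr (show (S.av false l s ∧ S.h l ≤ m ∧ S.h s ≤ m) ↔
      (S.Av s l ∧ S.h s ≤ m ∧ S.h l ≤ m) by rw [S.av_false]; tauto)]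
    ring
  · rfl

theorem T_split (σ : Bool) {m M : ℕ} (hmM : m ≤ M) (Y G : ℕ) : S.T σ M ≤ S.T σ m +
    S.part σ m M (fun _ s => S.h s ≤ m) +
    S.part σ m M (fun l _ => (Y : ℤ) < |S.x l|) +
    S.part σ m M (fun _ s => (Y : ℤ) < |S.x s|) +
    S.part σ m M (fun l s => m < S.h s ∧ ¬ S.os σ G l s) +
    S.part σ m M (fun l s => S.os σ G l s ∧ |S.pl σ l - S.ps σ s| ≤ ((2 * Y + 2 : ℕ) : ℤ)) := by
  unfold T part
  simp only [← ENNReal.tsum_add, ← add_mul]
  refine ENNReal.tsum_le_tsum fun l => ENNReal.tsum_le_tsum fun s => mul_le_mul' ?_ le_rfl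
  by_cases h0 : S.good σ 1 l s ∧ S.h l ≤ M
  · rw [ind_true h0]
    obtain ⟨hg, hM⟩ := h0
    by_cases h1 : S.h l ≤ m
    · rw [ind_true ⟨hg, h1⟩, add_assoc, add_assoc, add_assoc, add_assoc]
      exact le_self_add
    · have h1' : m < S.h l := by omega
      by_cases h2 : S.h s ≤ m
      · rw [ind_true (p := S.good σ 1 l s ∧ m < S.h l ∧ S.h l ≤ M ∧ S.h s ≤ m) ⟨hg, h1', hM, h2⟩]
        refine le_trans ?_ le_self_add
        refine le_trans ?_ le_self_add
        refine le_trans ?_ le_self_add
        refine le_trans ?_ le_self_add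
        exact le_add_self
      · by_cases h3 : (Y : ℤ) < |S.x l|
        · rw [ind_true (p := S.good σ 1 l s ∧ m < S.h l ∧ S.h l ≤ M ∧ (Y : ℤ) < |S.x l|)
            ⟨hg, h1', hM, h3⟩]
          refine le_trans ?_ le_self_add
          refine le_trans ?_ le_self_add
          refine le_trans ?_ le_self_add
          exact le_add_self
        · by_cases h4 : (Y : ℤ) < |S.x s|
          · rw [ind_true (p := S.good σ 1 l s ∧ m < S.h l ∧ S.h l ≤ M ∧ (Y : ℤ) < |S.x s|)
              ⟨hg, h1', hM, h4⟩]
            refine le_trans ?_ le_self_add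
            refine le_trans ?_ le_self_add
            exact le_add_self
          · by_cases h5 : S.os σ G l s
            · rw [ind_true (p := S.good σ 1 l s ∧ m < S.h l ∧ S.h l ≤ M ∧
                S.os σ G l s ∧ |S.pl σ l - S.ps σ s| ≤ ((2 * Y + 2 : ℕ) : ℤ))
                ⟨hg, h1', hM, h5, ?_⟩]
              · exact le_add_self
              · have e1 := abs_le.mp (S.pl_sub σ l)
                have e2 := abs_le.mp (S.ps_sub σ s)
                have e3 := abs_le.mp (not_lt.mp h3)
                have e4 := abs_le.mp (not_lt.mp h4)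
                rw [abs_le]
                push_cast
                constructor <;> linarith [e1.1, e1.2, e2.1, e2.2, e3.1, e3.2, e4.1, e4.2]
            · rw [ind_true (p := S.good σ 1 l s ∧ m < S.h l ∧ S.h l ≤ M ∧
                m < S.h s ∧ ¬ S.os σ G l s) ⟨hg, h1', hM, by omega, h5⟩]
              refine le_trans ?_ le_self_add
              exact le_add_self
  · rw [ind_false h0]
    exact bot_le

end Sys

end Pool.Agent.HEP
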