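import Pool.Agent.HEP.RnWord
import Pool.Agent.HEP.LO

/-!
Project HEP, renewal toolbox 4: independent reflection of the blocks of a word.
-/

namespace Pool.Agent.HEP.Alph

open scoped ENNReal
open Finset

variable (A : Alph)

/-- Average over all sign patterns of the blocks of the word. -/
noncomputable def avg : (List A.B → ℝ≥0∞) → List A.B → ℝ≥0∞
  | F, [] => F []
  | F, c :: l => (avg (fun v => F (c :: v)) l + avg (fun v => F (A.rf c :: v)) l) / 2

/-- `G` does not change if a block is reflected. -/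
def FlipInv (G : List A.B → ℝ≥0∞) : Prop := ∀ (u v : List A.B) (c : A.B), G (u ++ A.rf c :: v) = G (u ++ c :: v)

variable {A} in
lemma FlipInv.cons {G : List A.B → ℝ≥0∞} (h : A.FlipInv G) (c : A.B) : A.FlipInv (fun l => G (c :: l)) :=
  fun u v d => h (c :: u) v d

variable {A} in
lemma FlipInv.head {G : List A.B → ℝ≥0∞} (h : A.FlipInv G) (c : A.B) (l : List A.B) :
    G (A.rf c :: l) = G (c :: l) := h [] l c

private lemma tsum_rf (f : A.B → ℝ≥0∞) : ∑' c, f (A.rf c) = ∑' c, f c :=
  (Equiv.mk A.rf A.rf A.rf_rf A.rf_rf).tsum_eq f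

private lemma tsum_avg_len (n : ℕ) (G F : List A.B → ℝ≥0∞) (hG : A.FlipInv G) :
    ∑' l, ind (l.length = n) * (G l * F l) = ∑' l, ind (l.length = n) * (G l * A.avg F l) := by
  induction n generalizing G F with
  | zero =>
    refine tsum_congr fun l => ?_
    rcases l with _ | ⟨c, l⟩
    · rfl
    · rw [ind_false (by simp), zero_mul, zero_mul]
  | succ n ih =>
    have hl : ∀ H : List A.B → ℝ≥0∞, ∑' l, ind (l.length = n + 1) * H l =
        ∑' c, ∑' l, ind (l.length = n) * H (c :: l) := by
      intro H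
      rw [tsum_list, ind_false (by simp), zero_mul, zero_add]
      refine tsum_congr fun c => tsum_congr fun l => ?_
      rw [List.length_cons, ind_congr (show l.length + 1 = n + 1 ↔ l.length = n by omega)]
    rw [hl, hl]
    have h1 : ∀ c, ∑' l, ind (l.length = n) * (G (c :: l) * F (c :: l)) =
        ∑' l, ind (l.length = n) * (G (c :: l) * A.avg (fun v => F (c :: v)) l) := fun c =>
      ih (fun l => G (c :: l)) (fun l => F (c :: l)) (hG.cons c)
    set a : A.B → ℝ≥0∞ := fun c => ∑' l, ind (l.length = n) * (G (c :: l) * A.avg (fun v => F (c :: v)) l) with ha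
    have h2 : ∀ c, ∑' l, ind (l.length = n) * (G (c :: l) * A.avg F (c :: l)) = (a c + a (A.rf c)) / 2 := by
      intro c
      rw [ha, ← ENNReal.tsum_add, div_eq_mul_inv, ← ENNReal.tsum_mul_right]
      refine tsum_congr fun l => ?_
      rw [avg, hG.head c l, div_eq_mul_inv]
      ring
    rw [tsum_congr h1, tsum_congr h2]
    simp_rw [div_eq_mul_inv]
    rw [ENNReal.tsum_mul_right, ENNReal.tsum_add, A.tsum_rf, ← two_mul, mul_comm (2 : ℝ≥0∞), mul_assoc,
      ENNReal.mul_inv_cancel two_ne_zero ENNReal.ofNat_ne_top, mul_one]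

/-- A sum over all words with an invariant weight is the sum of the averages. -/
theorem tsum_avg (G F : List A.B → ℝ≥0∞) (hG : A.FlipInv G) :
    ∑' l, G l * F l = ∑' l, G l * A.avg F l := by
  have h : ∀ H : List A.B → ℝ≥0∞, ∑' l, H l = ∑' n : ℕ, ∑' l, ind (l.length = n) * H l := by
    intro H
    rw [ENNReal.tsum_comm]
    refine tsum_congr fun l => ?_
    rw [tsum_eq_single l.length]
    · rw [ind_true rfl, one_mul]
    · intro n hn
      rw [ind_false (Ne.symm hn), zero_mul]
  rw [h, h (fun l => G l * A.avg F l)]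
  exact tsum_congr fun n => A.tsum_avg_len n G F hG

lemma avg_mono {F F' : List A.B → ℝ≥0∞} (h : ∀ l, F l ≤ F' l) (l : List A.B) : A.avg F l ≤ A.avg F' l := by
  induction l generalizing F F' with
  | nil => exact h []
  | cons c l ih =>
    rw [avg, avg]
    gcongr
    · exact ih fun v => h _
    · exact ih fun v => h _

/-- Comparison on the words which arise from `l` by reflections. -/
lemma avg_mono' {F F' : List A.B → ℝ≥0∞} (l : List A.B)
    (h : ∀ v, List.Forall₂ (fun c d => d = c ∨ d = A.rf c) l v → F v ≤ F' v) : A.avg F l ≤ A.avg F' l := by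
  induction l generalizing F F' with
  | nil => exact h [] List.Forall₂.nil
  | cons c l ih =>
    rw [avg, avg]
    gcongr
    · exact ih fun v hv => h _ (List.Forall₂.cons (Or.inl rfl) hv)
    · exact ih fun v hv => h _ (List.Forall₂.cons (Or.inr rfl) hv)

lemma avg_congr' {F F' : List A.B → ℝ≥0∞} (l : List A.B)
    (h : ∀ v, List.Forall₂ (fun c d => d = c ∨ d = A.rf c) l v → F v = F' v) : A.avg F l = A.avg F' l :=
  le_antisymm (A.avg_mono' l fun v hv => (h v hv).le) (A.avg_mono' l fun v hv => (h v hv).ge)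

lemma avg_mul_left (G F : List A.B → ℝ≥0∞) (hG : A.FlipInv G) (l : List A.B) :
    A.avg (fun v => G v * F v) l = G l * A.avg F l := by
  induction l generalizing G F with
  | nil => rfl
  | cons c l ih =>
    rw [avg, avg, ih (fun v => G (c :: v)) (fun v => F (c :: v)) (hG.cons c),
      ih (fun v => G (A.rf c :: v)) (fun v => F (A.rf c :: v)) (hG.cons (A.rf c)), hG.head c l, div_eq_mul_inv,
      div_eq_mul_inv]
    ring

private lemma half_add (a : ℝ≥0∞) : (a + a) / 2 = a := by
  rw [← two_mul, mul_comm, ENNReal.mul_div_cancel_right two_ne_zero ENNReal.ofNat_ne_top]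

lemma avg_const (a : ℝ≥0∞) (l : List A.B) : A.avg (fun _ => a) l = a := by
  induction l with
  | nil => rfl
  | cons c l ih => rw [avg, ih, half_add]

lemma avg_add (F F' : List A.B → ℝ≥0∞) (l : List A.B) :
    A.avg (fun v => F v + F' v) l = A.avg F l + A.avg F' l := by
  induction l generalizing F F' with
  | nil => rfl
  | cons c l ih =>
    rw [avg, avg, avg, ih, ih, div_eq_mul_inv, div_eq_mul_inv, div_eq_mul_inv]
    ring

lemma avg_mul_const (F : List A.B → ℝ≥0∞) (a : ℝ≥0∞) (l : List A.B) :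
    A.avg (fun v => a * F v) l = a * A.avg F l :=
  A.avg_mul_left (fun _ => a) F (fun _ _ _ => rfl) l

lemma avg_inv (G : List A.B → ℝ≥0∞) (hG : A.FlipInv G) (l : List A.B) : A.avg G l = G l := by
  have := A.avg_mul_left G (fun _ => 1) hG l
  simpa [A.avg_const] using this

lemma avg_le_one {F : List A.B → ℝ≥0∞} (h : ∀ l, F l ≤ 1) (l : List A.B) : A.avg F l ≤ 1 :=
  (A.avg_mono h l).trans (A.avg_const 1 l).le

/-- A function of the first `m` blocks. -/
lemma avg_take (F : List A.B → ℝ≥0∞) (m : ℕ) (l : List A.B) :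
    A.avg (fun v => F (v.take m)) l = A.avg F (l.take m) := by
  induction l generalizing F m with
  | nil => rw [List.take_nil, avg, avg, List.take_nil]
  | cons c l ih =>
    rcases m with _ | m
    · simp only [List.take_zero]
      rw [A.avg_const]
      rfl
    · rw [List.take_succ_cons, avg, avg]
      simp only [List.take_succ_cons]
      rw [ih (fun v => F (c :: v)), ih (fun v => F (A.rf c :: v))]

lemma avg_append (F : List A.B → ℝ≥0∞) (u v : List A.B) :
    A.avg F (u ++ v) = A.avg (fun u' => A.avg (fun v' => F (u' ++ v')) v) u := by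
  induction u generalizing F with
  | nil => rfl
  | cons c u ih =>
    rw [List.cons_append, avg, avg, ih, ih]
    rfl

lemma FlipInv.mul {G G' : List A.B → ℝ≥0∞} (h : A.FlipInv G) (h' : A.FlipInv G') :
    A.FlipInv (fun l => G l * G' l) := fun u v c => by
  show G _ * G' _ = G _ * G' _
  rw [h u v c, h' u v c]

/-- The words which arise from `l` by reflections have the same heights, weights, cuts. -/
lemma flip_h {l v : List A.B} (h : List.Forall₂ (fun c d => d = c ∨ d = A.rf c) l v) : A.h v = A.h l := by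
  induction h with
  | nil => rfl
  | cons hd _ ih =>
    rw [A.h_cons, A.h_cons, ih]
    rcases hd with rfl | rfl
    · rfl
    · rw [A.ht_rf]

lemma flip_w {l v : List A.B} (h : List.Forall₂ (fun c d => d = c ∨ d = A.rf c) l v) : A.w v = A.w l := by
  induction h with
  | nil => rfl
  | cons hd _ ih =>
    rw [A.w_cons, A.w_cons, ih]
    rcases hd with rfl | rfl
    · rfl
    · rw [A.wt_rf]

lemma flip_length {l v : List A.B} (h : List.Forall₂ (fun c d => d = c ∨ d = A.rf c) l v) : v.length = l.length :=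
  h.length_eq.symm

lemma flip_cut_length {l v : List A.B} (h : List.Forall₂ (fun c d => d = c ∨ d = A.rf c) l v) (N : ℕ) :
    (A.cut N v).length = (A.cut N l).length := by
  induction h generalizing N with
  | nil => rfl
  | @cons c d l v hd _ ih =>
    have e : A.ht d = A.ht c := by
      rcases hd with rfl | rfl
      · rfl
      · rw [A.ht_rf]
    unfold cut
    rw [e]
    split_ifs with h1
    · rw [List.length_cons, List.length_cons, ih]
    · rfl

lemma h_flip (φ : ℕ → ℝ≥0∞) : A.FlipInv (fun l => φ (A.h l)) := fun u v c => by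
  show φ _ = φ _
  rw [A.h_append, A.h_append, A.h_cons, A.h_cons, A.ht_rf]

/-- `min 1 (dx / r) ^ 2`. -/
noncomputable def q (r : ℕ) (c : A.B) : ℝ≥0∞ := ENNReal.ofReal (min 1 (((A.dx c : ℝ) / r) ^ 2))

/-- `∑ min 1 (dx / r) ^ 2` over a word. -/
noncomputable def Vq (r : ℕ) (l : List A.B) : ℝ≥0∞ := (l.map (A.q r)).sum

/-- Truncated second moment of the displacement of a block. -/
noncomputable def Phi (r : ℕ) : ℝ≥0∞ := ∑' c, A.wt c * A.q r c

lemma q_rf (r : ℕ) (c : A.B) : A.q r (A.rf c) = A.q r c := by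
  unfold q
  rw [A.dx_rf]
  push_cast
  rw [neg_div, neg_sq]

lemma q_le_one (r : ℕ) (c : A.B) : A.q r c ≤ 1 := by
  unfold q
  rw [← ENNReal.ofReal_one]
  exact ENNReal.ofReal_le_ofReal (min_le_left _ _)

lemma Vq_nil (r : ℕ) : A.Vq r [] = 0 := rfl

lemma Vq_cons (r : ℕ) (c : A.B) (l : List A.B) : A.Vq r (c :: l) = A.q r c + A.Vq r l := by
  unfold Vq; rw [List.map_cons, List.sum_cons]

lemma Vq_append (r : ℕ) (l m : List A.B) : A.Vq r (l ++ m) = A.Vq r l + A.Vq r m := by
  unfold Vq; rw [List.map_append, List.sum_append]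

lemma Vq_flip (r : ℕ) : A.FlipInv (A.Vq r) := fun u v c => by
  rw [A.Vq_append, A.Vq_append, A.Vq_cons, A.Vq_cons, A.q_rf]

lemma flip_Vq (r : ℕ) {l v : List A.B} (h : List.Forall₂ (fun c d => d = c ∨ d = A.rf c) l v) :
    A.Vq r v = A.Vq r l := by
  induction h with
  | nil => rfl
  | cons hd _ ih =>
    rw [A.Vq_cons, A.Vq_cons, ih]
    rcases hd with rfl | rfl
    · rfl
    · rw [A.q_rf]

lemma w_flip : A.FlipInv A.w := fun u v c => by
  rw [A.w_append, A.w_append, A.w_cons, A.w_cons, A.wt_rf]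

/-- Any function of the list of heights is invariant. -/
lemma ht_flip (φ : List ℕ → ℝ≥0∞) : A.FlipInv (fun l => φ (l.map A.ht)) := fun u v c => by
  show φ _ = φ _
  rw [List.map_append, List.map_append, List.map_cons, List.map_cons, A.ht_rf]

private lemma avg_sq (r : ℕ) (l : List A.B) (y : ℝ) :
    A.avg (fun v => ENNReal.ofReal (((y + A.x v) / r) ^ 2)) l =
      ENNReal.ofReal ((y / r) ^ 2) + (l.map fun c => ENNReal.ofReal (((A.dx c : ℝ) / r) ^ 2)).sum := by
  induction l generalizing y with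
  | nil => simp [avg, A.x_nil]
  | cons c l ih =>
    rw [avg, List.map_cons, List.sum_cons]
    have h1 : A.avg (fun v => ENNReal.ofReal (((y + A.x (c :: v)) / r) ^ 2)) l =
        A.avg (fun v => ENNReal.ofReal ((((y + A.dx c) + A.x v) / r) ^ 2)) l := by
      congr 1; funext v; rw [A.x_cons]; push_cast; ring_nf
    have h2 : A.avg (fun v => ENNReal.ofReal (((y + A.x (A.rf c :: v)) / r) ^ 2)) l =
        A.avg (fun v => ENNReal.ofReal ((((y - A.dx c) + A.x v) / r) ^ 2)) l := by
      congr 1; funext v; rw [A.x_cons, A.dx_rf]; push_cast; ring_nf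
    rw [h1, h2, ih, ih]
    set s := (l.map fun c => ENNReal.ofReal (((A.dx c : ℝ) / r) ^ 2)).sum
    have h3 : ENNReal.ofReal (((y + A.dx c) / r) ^ 2) + ENNReal.ofReal (((y - A.dx c) / r) ^ 2) =
        2 * (ENNReal.ofReal ((y / r) ^ 2) + ENNReal.ofReal (((A.dx c : ℝ) / r) ^ 2)) := by
      rw [← ENNReal.ofReal_add (by positivity) (by positivity), ← ENNReal.ofReal_add (by positivity) (by positivity),
        show (2 : ℝ≥0∞) = ENNReal.ofReal 2 by simp, ← ENNReal.ofReal_mul (by norm_num)]
      congr 1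
      ring
    calc (ENNReal.ofReal (((y + A.dx c) / r) ^ 2) + s + (ENNReal.ofReal (((y - A.dx c) / r) ^ 2) + s)) / 2
        = ((ENNReal.ofReal (((y + A.dx c) / r) ^ 2) + ENNReal.ofReal (((y - A.dx c) / r) ^ 2)) + 2 * s) / 2 := by
          ring_nf
      _ = (2 * (ENNReal.ofReal ((y / r) ^ 2) + ENNReal.ofReal (((A.dx c : ℝ) / r) ^ 2) + s)) / 2 := by
          rw [h3]; ring_nf
      _ = ENNReal.ofReal ((y / r) ^ 2) + ENNReal.ofReal (((A.dx c : ℝ) / r) ^ 2) + s := by
          rw [mul_comm, ENNReal.mul_div_cancel_right two_ne_zero ENNReal.ofNat_ne_top]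
      _ = _ := by rw [add_assoc]

/-- Chebyshev. -/
theorem cheb (r : ℕ) (hr : 1 ≤ r) (l : List A.B) : A.avg (fun v => ind ((r : ℤ) < |A.x v|)) l ≤ A.Vq r l := by
  have hr0 : (0 : ℝ) < r := by exact_mod_cast hr
  by_cases hbig : ∃ c ∈ l, 1 < ((A.dx c : ℝ) / r) ^ 2
  · obtain ⟨c, hc, hc1⟩ := hbig
    refine (A.avg_le_one (fun _ => ind_le_one _) l).trans ?_
    have h1 : A.q r c = 1 := by
      unfold q
      rw [min_eq_left hc1.le, ENNReal.ofReal_one]
    rw [← h1]
    unfold Vq
    exact List.single_le_sum (fun _ _ => bot_le) _ (List.mem_map_of_mem hc)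
  · push Not at hbig
    have h1 : A.Vq r l = (l.map fun c => ENNReal.ofReal (((A.dx c : ℝ) / r) ^ 2)).sum := by
      unfold Vq
      congr 1
      refine List.map_congr_left fun c hc => ?_
      unfold q
      rw [min_eq_right (hbig c hc)]
    have h2 := A.avg_sq r l 0
    simp only [zero_div, zero_add, ne_eq, OfNat.ofNat_ne_zero, not_false_eq_true, zero_pow,
      ENNReal.ofReal_zero] at h2
    rw [h1, ← h2]
    refine A.avg_mono (fun v => ?_) l
    by_cases h3 : (r : ℤ) < |A.x v|
    · rw [ind_true h3, ← ENNReal.ofReal_one]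
      refine ENNReal.ofReal_le_ofReal ?_
      have h4 : (r : ℝ) < |(A.x v : ℝ)| := by exact_mod_cast h3
      rw [← sq_abs, abs_div, abs_of_pos hr0]
      have h5 : 1 < |(A.x v : ℝ)| / r := by rwa [one_lt_div hr0]
      nlinarith
    · rw [ind_false h3]; exact bot_le

private lemma avg_pr (G : ℕ) (l : List A.B) (s y : ℤ) :
    A.avg (fun v => ind (s ≤ y + A.x v ∧ y + A.x v < s + G)) l =
      ENNReal.ofReal (Pool.HEP.pr G (l.map fun c => (A.dx c : ℝ)) ((s : ℝ) - y)) := by
  induction l generalizing y with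
  | nil =>
    simp only [avg, List.map_nil, Pool.HEP.pr, A.x_nil, add_zero]
    by_cases h : s ≤ y ∧ y < s + G
    · rw [ind_true h, if_pos, ENNReal.ofReal_one]
      constructor
      · have : (s : ℝ) ≤ y := by exact_mod_cast h.1
        linarith
      · have : (y : ℝ) < s + G := by exact_mod_cast h.2
        linarith
    · rw [ind_false h, if_neg, ENNReal.ofReal_zero]
      rintro ⟨h1, h2⟩
      refine h ⟨?_, ?_⟩
      · have : (s : ℝ) ≤ y := by linarith
        exact_mod_cast this
      · have : (y : ℝ) < s + G := by linarith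
        exact_mod_cast this
  | cons c l ih =>
    rw [avg, List.map_cons]
    unfold Pool.HEP.pr
    have h1 : A.avg (fun v => ind (s ≤ y + A.x (c :: v) ∧ y + A.x (c :: v) < s + G)) l =
        A.avg (fun v => ind (s ≤ (y + A.dx c) + A.x v ∧ (y + A.dx c) + A.x v < s + G)) l := by
      congr 1; funext v; rw [A.x_cons, add_assoc]
    have h2 : A.avg (fun v => ind (s ≤ y + A.x (A.rf c :: v) ∧ y + A.x (A.rf c :: v) < s + G)) l =
        A.avg (fun v => ind (s ≤ (y - A.dx c) + A.x v ∧ (y - A.dx c) + A.x v < s + G)) l := by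
      congr 1; funext v; rw [A.x_cons, A.dx_rf, ← add_assoc, ← sub_eq_add_neg]
    rw [h1, h2, ih, ih, ENNReal.ofReal_div_of_pos (by norm_num),
      ENNReal.ofReal_add (Pool.HEP.pr_nonneg _ _ _) (Pool.HEP.pr_nonneg _ _ _)]
    congr 2
    · congr 2; push_cast; ring
    · congr 2; push_cast; ring
    · simp

/-- Littlewood-Offord: the end of the word lies in an interval of length `G` (in the set `s ≤ · < s + G`). -/
theorem lo (n G k : ℕ) (hG : 1 ≤ G) (hGn : G ≤ n) (hk : 1 ≤ k) (l : List A.B)
    (hV : (k : ℝ≥0∞) ≤ A.Vq G l) (s : ℤ) :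
    A.avg (fun v => ind (s ≤ A.x v ∧ A.x v < s + G)) l ≤ ENNReal.ofReal (Pool.HEP.rho n k) := by
  have h1 := A.avg_pr G l s 0
  simp only [zero_add, Int.cast_zero, sub_zero] at h1
  rw [h1]
  refine ENNReal.ofReal_le_ofReal ?_
  have hk0 : (0 : ℝ) < k := by exact_mod_cast hk
  have h2 : (k : ℝ) ≤ ((l.map fun c => (A.dx c : ℝ)).map fun d : ℝ => min 1 ((d / (G : ℝ)) ^ 2)).sum := by
    have h3 : A.Vq G l = ENNReal.ofReal ((l.map fun c => min 1 (((A.dx c : ℝ) / G) ^ 2)).sum) := by
      clear h1 hV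
      induction l with
      | nil => simp [Vq]
      | cons c l ih =>
        rw [A.Vq_cons, ih, List.map_cons, List.sum_cons, ENNReal.ofReal_add (by positivity)]
        · rfl
        · refine List.sum_nonneg fun x hx => ?_
          rw [List.mem_map] at hx
          obtain ⟨c, _, rfl⟩ := hx
          positivity
    rw [h3] at hV
    have h4 := (ENNReal.ofReal_le_ofReal_iff (p := (k : ℝ)) (q := (l.map fun c => min 1 (((A.dx c : ℝ) / G) ^ 2)).sum)
      (List.sum_nonneg fun x hx => by
        rw [List.mem_map] at hx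
        obtain ⟨c, _, rfl⟩ := hx
        positivity)).1 (by rwa [ENNReal.ofReal_natCast])
    rw [List.map_map]
    exact h4
  refine (Pool.HEP.lemmaR_list G hG _ ?_ k hk0 h2 s).trans ?_
  · intro d hd
    rw [List.mem_map] at hd
    obtain ⟨c, _, rfl⟩ := hd
    by_cases h0 : A.dx c = 0
    · left; simp [h0]
    · right
      have : (1 : ℤ) ≤ |A.dx c| := Int.one_le_abs h0
      exact_mod_cast this
  · unfold Pool.HEP.rho
    have hmono : (Nat.clog 2 G : ℝ) ≤ Nat.clog 2 n := by exact_mod_cast Nat.clog_mono_right 2 hGn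
    gcongr

private lemma wald_aux (r : ℕ) (L : ℕ) (v : ℝ≥0∞) :
    (∑' l, ind (l.length ≤ L ∧ A.Vq r l < v) * A.w l) * A.Phi r ≤ v + 1 := by
  have hPhi : A.Phi r ≤ 1 := by
    unfold Phi
    rw [← A.tot]
    refine ENNReal.tsum_le_tsum fun c => ?_
    calc A.wt c * A.q r c ≤ A.wt c * 1 := mul_le_mul' le_rfl (A.q_le_one r c)
      _ = A.wt c := mul_one _
  induction L generalizing v with
  | zero =>
    have h1 : ∑' l, ind (l.length ≤ 0 ∧ A.Vq r l < v) * A.w l ≤ 1 := by
      rw [tsum_list]
      have h2 : ∑' c, ∑' l, ind ((c :: l).length ≤ 0 ∧ A.Vq r (c :: l) < v) * A.w (c :: l) = 0 := by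
        rw [ENNReal.tsum_eq_zero]
        intro c
        rw [ENNReal.tsum_eq_zero]
        intro l
        rw [ind_false (by simp), zero_mul]
      rw [h2, add_zero, A.w_nil, mul_one]
      exact ind_le_one _
    calc _ ≤ (1 : ℝ≥0∞) * 1 := mul_le_mul' h1 hPhi
      _ ≤ v + 1 := by rw [one_mul]; exact le_add_self
  | succ L ih =>
    by_cases hv : v = ⊤
    · rw [hv]; simp
    by_cases hv0 : v = 0
    · have h1 : ∑' l, ind (l.length ≤ L + 1 ∧ A.Vq r l < v) * A.w l = 0 := by
        rw [ENNReal.tsum_eq_zero]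
        intro l
        rw [ind_false (by rw [hv0]; simp), zero_mul]
      rw [h1, zero_mul]; exact bot_le
    have hq : ∀ c, A.q r c ≠ ⊤ := fun c => ne_top_of_le_ne_top ENNReal.one_ne_top (A.q_le_one r c)
    have h1 : ∀ c, (∑' l, ind ((c :: l).length ≤ L + 1 ∧ A.Vq r (c :: l) < v) * A.w (c :: l)) * A.Phi r +
        A.wt c * A.q r c ≤ A.wt c * (v + 1) := by
      intro c
      by_cases hc : A.q r c < v
      · have h2 : (∑' l, ind ((c :: l).length ≤ L + 1 ∧ A.Vq r (c :: l) < v) * A.w (c :: l)) =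
            A.wt c * ∑' l, ind (l.length ≤ L ∧ A.Vq r l < v - A.q r c) * A.w l := by
          rw [← ENNReal.tsum_mul_left]
          refine tsum_congr fun l => ?_
          rw [A.w_cons, A.Vq_cons, List.length_cons, ind_congr (show l.length + 1 ≤ L + 1 ∧ A.q r c + A.Vq r l < v ↔
            l.length ≤ L ∧ A.Vq r l < v - A.q r c from ?_)]
          · ring
          · rw [lt_tsub_iff_left]
            constructor
            · rintro ⟨h3, h4⟩; exact ⟨by omega, h4⟩
            · rintro ⟨h3, h4⟩; exact ⟨by omega, h4⟩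
        rw [h2, mul_assoc]
        calc A.wt c * ((∑' l, ind (l.length ≤ L ∧ A.Vq r l < v - A.q r c) * A.w l) * A.Phi r) + A.wt c * A.q r c
            ≤ A.wt c * (v - A.q r c + 1) + A.wt c * A.q r c := by gcongr; exact ih _
          _ = A.wt c * (v - A.q r c + A.q r c + 1) := by ring
          _ = A.wt c * (v + 1) := by rw [tsub_add_cancel_of_le hc.le]
      · have h2 : (∑' l, ind ((c :: l).length ≤ L + 1 ∧ A.Vq r (c :: l) < v) * A.w (c :: l)) = 0 := by
          rw [ENNReal.tsum_eq_zero]
          intro l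
          rw [ind_false, zero_mul]
          rintro ⟨_, h3⟩
          rw [A.Vq_cons] at h3
          exact hc (lt_of_le_of_lt le_self_add h3)
        rw [h2, zero_mul, zero_add]
        exact mul_le_mul' le_rfl ((A.q_le_one r c).trans le_add_self)
    rw [tsum_list, add_mul, ← ENNReal.tsum_mul_right]
    calc ind (([] : List A.B).length ≤ L + 1 ∧ A.Vq r [] < v) * A.w [] * A.Phi r +
          ∑' c, (∑' l, ind ((c :: l).length ≤ L + 1 ∧ A.Vq r (c :: l) < v) * A.w (c :: l)) * A.Phi r
        ≤ A.Phi r + ∑' c, (∑' l, ind ((c :: l).length ≤ L + 1 ∧ A.Vq r (c :: l) < v) * A.w (c :: l)) * A.Phi r := by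
          gcongr
          rw [A.w_nil, mul_one]
          calc _ ≤ 1 * A.Phi r := mul_le_mul' (ind_le_one _) le_rfl
            _ = A.Phi r := one_mul _
      _ = ∑' c, ((∑' l, ind ((c :: l).length ≤ L + 1 ∧ A.Vq r (c :: l) < v) * A.w (c :: l)) * A.Phi r +
          A.wt c * A.q r c) := by
          rw [ENNReal.tsum_add, add_comm]; rfl
      _ ≤ ∑' c, A.wt c * (v + 1) := ENNReal.tsum_le_tsum h1
      _ = v + 1 := by rw [ENNReal.tsum_mul_right, A.tot, one_mul]

/-- Expected number of the prefixes with `Vq < k`. -/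
theorem wald (r k : ℕ) : (∑' l, ind (A.Vq r l < k) * A.w l) * A.Phi r ≤ k + 1 := by
  rw [← ENNReal.tsum_mul_right, ENNReal.tsum_eq_iSup_sum]
  refine iSup_le fun s => ?_
  refine le_trans ?_ (A.wald_aux r (s.sup List.length) k)
  rw [← ENNReal.tsum_mul_right]
  refine le_trans (sum_le_sum fun l hl => ?_) (ENNReal.sum_le_tsum s)
  gcongr
  exact ind_mono fun h => ⟨le_sup (f := List.length) hl, h⟩

end Pool.Agent.HEP.Alph
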