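import Pool.Agent.HEP.RnSeq
import Pool.Agent.HEP.RnFlip

/-!
Project HEP, sections (1), (2) of note 2958: definitions.

* `ctp N l` = the longest prefix of `l` all of whose blocks START at a level `≤ N` (it is `cut N l` plus the block
  that follows, if there is one), `aft N l` = the rest, `l = ctp N l ++ aft N l`. `win u v l` = displacement of the blocks
  of `l` which start at a level in `(u, v]` (`u ≤ v`).
* `Tp σ m` = mass of the pairs (long leg up to its last renewal `≤ m`, short leg of any height `≤ m`).
* `part σ m M P` = the part of `T σ M` with `m < h l` and `P l s`.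
-/

namespace Pool.Agent.HEP

open scoped ENNReal

namespace Alph

variable (A : Alph)

/-- The longest prefix all of whose blocks start at a level `≤ N`. -/
def ctp (N : ℕ) : List A.B → List A.B
  | [] => []
  | c :: l => c :: (if A.ht c ≤ N then ctp (N - A.ht c) l else [])

/-- The rest behind `ctp N l`. -/
def aft (N : ℕ) : List A.B → List A.B
  | [] => []
  | c :: l => if A.ht c ≤ N then aft (N - A.ht c) l else l

/-- Displacement of the blocks which start at a level in `(u, v]`. -/
def win (u v : ℕ) (l : List A.B) : ℤ := A.x (A.ctp v l) - A.x (A.ctp u l)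

lemma ctp_append_aft (N : ℕ) (l : List A.B) : A.ctp N l ++ A.aft N l = l := by
  induction l generalizing N with
  | nil => rfl
  | cons c l ih =>
    unfold ctp aft
    split_ifs with h1
    · rw [List.cons_append, ih]
    · rfl

end Alph

namespace Sys

variable (S : Sys)

/-- Pairs (long leg up to its last renewal `≤ m`, short leg of height `≤ m`). -/
noncomputable def Tp (σ : Bool) (m : ℕ) : ℝ≥0∞ :=
  ∑' l, ∑' s, ind (S.av σ l s ∧ S.h l ≤ m ∧ S.h s ≤ m) * (S.w l * S.w s * S.Lam (m - S.h l))

/-- Part of `T σ M`: the long leg is higher than `m`, with a further property. -/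
noncomputable def part (σ : Bool) (m M : ℕ) (P : List S.B → List S.B → Prop) : ℝ≥0∞ :=
  ∑' l, ∑' s, ind (S.good σ 1 l s ∧ m < S.h l ∧ S.h l ≤ M ∧ P l s) * (S.w l * S.w s * S.Lam (S.del σ l s))

end Sys

end Pool.Agent.HEP
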