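import Pool.Agent.HEP.RcFarW

/-!
Module RcFar, section (2b) of note 2958: sum over the windows.

PAPER PROOF. Let `m 0 = 0 ≤ m 1 ≤ ... ≤ m (r + 1) = M`. If `h l ≤ M` then `ctp M l = l` (every block starts at a level `< h l`; for `l = []` trivial), so
`x l = x (ctp (m 1) l) + ∑ i in 1..r, win (m i) (m (i + 1)) l`. If `|x l| > (r + 1) * X` one of the `r + 1` terms is larger than `X` in absolute value. The
parts are added (`ind (∃ i ∈ range (r + 1), ..) ≤ ∑ i, ind ..`): `farl0` with `v = m 1` for `i = 0` (`m 0 = 0`), `farl` with `u = m i`, `v = m (i + 1)`,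
`m = m r` for `1 ≤ i ≤ r`. The same for `s` (`h s ≤ h l ≤ M`).
-/

namespace Pool.Agent.HEP

open scoped ENNReal

namespace Sys

variable {S : Sys}

private lemma RcFar_ctp_self (A : Alph) (l : List A.B) (N : ℕ) (h : A.h l ≤ N) : A.ctp N l = l := by
  induction l generalizing N with
  | nil => rfl
  | cons c l ih =>
    rw [A.h_cons] at h
    unfold Alph.ctp
    rw [if_pos (by omega), ih _ (by omega)]

/-- the displacement in the window `i` -/
private def RcFar_y (A : Alph) (m : ℕ → ℕ) (l : List A.B) : ℕ → ℤ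
  | 0 => A.x (A.ctp (m 1) l)
  | (i + 1) => A.win (m (i + 1)) (m (i + 2)) l

private lemma RcFar_sum (A : Alph) (m : ℕ → ℕ) (l : List A.B) (r : ℕ) :
    ∑ i ∈ Finset.range (r + 1), RcFar_y A m l i = A.x (A.ctp (m (r + 1)) l) := by
  induction r with
  | zero => rw [Finset.sum_range_one]; rfl
  | succ r ih =>
    rw [Finset.sum_range_succ, ih]
    change A.x (A.ctp (m (r + 1)) l) + A.win (m (r + 1)) (m (r + 2)) l = _
    unfold Alph.win
    ring

private lemma RcFar_ex (A : Alph) (m : ℕ → ℕ) (l : List A.B) (r X : ℕ) (h : A.h l ≤ m (r + 1))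
    (hx : (((r + 1) * X : ℕ) : ℤ) < |A.x l|) :
    ∃ i ∈ Finset.range (r + 1), (X : ℤ) < |RcFar_y A m l i| := by
  by_contra hcon
  push Not at hcon
  have h1 := RcFar_sum A m l r
  rw [RcFar_ctp_self A l _ h] at h1
  rw [← h1] at hx
  have h2 := Finset.abs_sum_le_sum_abs (RcFar_y A m l) (Finset.range (r + 1))
  have h3 := Finset.sum_le_sum hcon
  rw [Finset.sum_const, Finset.card_range, nsmul_eq_mul] at h3
  push_cast at hx h3
  linarith

private lemma RcFar_union (σ : Bool) (m M : ℕ) (P : List S.B → List S.B → Prop)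
    (Q : ℕ → List S.B → List S.B → Prop) (k : ℕ)
    (h : ∀ l s, S.good σ 1 l s → S.h l ≤ M → P l s → ∃ i ∈ Finset.range k, Q i l s) :
    S.part σ m M P ≤ ∑ i ∈ Finset.range k, S.part σ m M (Q i) := by
  unfold part
  rw [← Summable.tsum_finsetSum (fun i _ => ENNReal.summable)]
  refine ENNReal.tsum_le_tsum fun l => ?_
  rw [← Summable.tsum_finsetSum (fun i _ => ENNReal.summable)]
  refine ENNReal.tsum_le_tsum fun s => ?_
  rw [← Finset.sum_mul]
  refine mul_le_mul' ?_ le_rfl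
  by_cases hp : S.good σ 1 l s ∧ m < S.h l ∧ S.h l ≤ M ∧ P l s
  · obtain ⟨h1, h2, h3, h4⟩ := hp
    obtain ⟨i, hi, hq⟩ := h l s h1 h3 h4
    rw [ind_true ⟨h1, h2, h3, h4⟩]
    refine le_trans ?_ (Finset.single_le_sum (f := fun i => ind (S.good σ 1 l s ∧ m < S.h l ∧
      S.h l ≤ M ∧ Q i l s)) (fun _ _ => bot_le) hi)
    rw [ind_true ⟨h1, h2, h3, hq⟩]
  · rw [ind_false hp]
    exact bot_le

theorem farL (σ : Bool) (m : ℕ → ℕ) (hm : Monotone m) (hm0 : m 0 = 0) (r X : ℕ) (hX : 1 ≤ X) :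
    S.part σ (m r) (m (r + 1)) (fun l _ => (((r + 1) * X : ℕ) : ℤ) < |S.x l|) ≤
      (∑ i ∈ Finset.range (r + 1), S.a (m i) * S.U (m (i + 1))) * (S.Phi X * S.U (m (r + 1))) := by
  refine (RcFar_union σ (m r) (m (r + 1)) _
    (fun i l _ => (X : ℤ) < |RcFar_y S.toAlph m l i|) (r + 1) ?_).trans ?_
  · intro l s _ h2 h3
    exact RcFar_ex S.toAlph m l r X h2 h3
  · rw [Finset.sum_mul]
    refine Finset.sum_le_sum fun i hi => ?_
    rw [Finset.mem_range] at hi
    rcases i with _ | i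
    · rw [hm0]
      refine (farl0 σ (m r) (m (r + 1)) (m 1) X hX).trans (le_of_eq ?_)
      ring
    · refine (farl σ (hm (by omega : i + 1 ≤ r)) (m (r + 1)) X (hm (Nat.le_succ (i + 1)))
        hX).trans (le_of_eq ?_)
      ring

theorem farS (σ : Bool) (m : ℕ → ℕ) (hm : Monotone m) (hm0 : m 0 = 0) (r X : ℕ) (hX : 1 ≤ X) :
    S.part σ (m r) (m (r + 1)) (fun _ s => (((r + 1) * X : ℕ) : ℤ) < |S.x s|) ≤
      (∑ i ∈ Finset.range (r + 1), S.a (m i) * S.U (m (i + 1))) * (S.Phi X * S.U (m (r + 1))) := by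
  refine (RcFar_union σ (m r) (m (r + 1)) _
    (fun i _ s => (X : ℤ) < |RcFar_y S.toAlph m s i|) (r + 1) ?_).trans ?_
  · intro l s h1 h2 h3
    have h4 := h1.2.1
    exact RcFar_ex S.toAlph m s r X (by omega) h3
  · rw [Finset.sum_mul]
    refine Finset.sum_le_sum fun i hi => ?_
    rw [Finset.mem_range] at hi
    rcases i with _ | i
    · rw [hm0]
      refine (fars0 σ (m r) (m (r + 1)) (m 1) X hX).trans (le_of_eq ?_)
      ring
    · refine (fars σ (hm (by omega : i + 1 ≤ r)) (m (r + 1)) X (hm (Nat.le_succ (i + 1)))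
        hX).trans (le_of_eq ?_)
      ring

end Sys

end Pool.Agent.HEP
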