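import Pool.Agent.HEP.RcWinG
import Pool.Agent.HEP.ChCut

/-!
Module RcFarW, section (2b) of note 2958: one window, pairs.

PAPER PROOF. In all of them `good` is used only through `av σ l s → av σ (cut u l) (cut u s)` (`av_pre`, `cut_prefix`) and `h s ≤ h l - d σ`,
`del σ l s = (h l - d σ) - h s`. Note `u ≤ m < h l`, so `u ≤ h l - d σ` (`d_le`).
`farl` : for fixed `l` the sum over `s` of `g (cut u s) * w s * Lam (N - h s)`, `N = h l - d σ`, `h s ≤ N`: cut lemma (`cont_le` or `ext_Lam` of RnCut), levels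
`u ≤ N`. Then the sum over `l`: `win_long` with `g l0 = ∑' s0, ind (av σ l0 s0 ∧ h s0 ≤ u) * (w s0 * Lam (u - h s0))`. The result is `a u` (swap the sums
for `σ = false`).
`fars` : for fixed `l` the sum over `s`: `win_short` with `N = h l - d σ`, `g s0 = ind (av σ (cut u l) s0)`. Then the sum over `l`, `m < h l ≤ M`: passage
lemma (`pass_le` of RnCut with `j = u + 1`, `f = 1`, factor `U M`).
`farl0`, `fars0` : the same without past: any pair has `Av [] []` (`Av_pre`), and `a 0 = ind (Av [] [])` (`h l = 0` iff `l = []`, `Lam 0 = 1`, `w [] = 1`); use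
`tsum_w_Lam` and `win0_long`, resp. `win0_short` and `tsum_le`.
-/

namespace Pool.Agent.HEP

open scoped ENNReal

private lemma RcFarW_ind_add {p q r : Prop} (hp : p → r) (hq : q → r) (h : ¬ (p ∧ q)) :
    ind p + ind q ≤ ind r := by
  by_cases h1 : p
  · have h2 : ¬ q := fun h2 => h ⟨h1, h2⟩
    rw [ind_true h1, ind_false h2, add_zero, ind_true (hp h1)]
  · rw [ind_false h1, zero_add]; exact ind_mono hq

/-- The sum over the continuations behind the level `u`. -/
private lemma RcFarW_cut (A : Alph) {u N : ℕ} (huN : u ≤ N) (g : List A.B → ℝ≥0∞) :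
    ∑' s, ind (A.h s ≤ N) * (g (A.cut u s) * (A.w s * A.Lam (N - A.h s))) ≤
      ∑' s, ind (A.h s ≤ u) * (g s * (A.w s * A.Lam (u - A.h s))) := by
  refine (Ch.cut_sum A u _).trans ?_
  rw [← ENNReal.tsum_add]
  refine ENNReal.tsum_le_tsum fun l => ?_
  by_cases hl : A.h l ≤ u
  · have h1 : ∀ c v, ind (A.h l ≤ u ∧ u < A.h l + A.ht c) * (ind (A.h (l ++ c :: v) ≤ N) *
        (g (A.cut u (l ++ c :: v)) * (A.w (l ++ c :: v) * A.Lam (N - A.h (l ++ c :: v))))) =
        (g l * (A.w l * (ind (u < A.h l + A.ht c ∧ A.h l + A.ht c ≤ N) * A.wt c))) *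
          (ind (A.h v ≤ N - (A.h l + A.ht c)) * (A.w v * A.Lam (N - (A.h l + A.ht c) - A.h v))) := by
      intro c v
      by_cases hc : u < A.h l + A.ht c
      · rw [Ch.cut_append_cons A v hl hc, A.h_append, A.h_cons, A.w_append, A.w_cons]
        by_cases hc2 : A.h l + (A.ht c + A.h v) ≤ N
        · have e1 : ind (A.h l ≤ u ∧ u < A.h l + A.ht c) = 1 := ind_true ⟨hl, hc⟩
          have e2 : ind (A.h l + (A.ht c + A.h v) ≤ N) = 1 := ind_true hc2
          have e3 : ind (u < A.h l + A.ht c ∧ A.h l + A.ht c ≤ N) = 1 := ind_true ⟨hc, by omega⟩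
          have e4 : ind (A.h v ≤ N - (A.h l + A.ht c)) = 1 := ind_true (by omega)
          rw [e1, e2, e3, e4, show N - (A.h l + A.ht c) - A.h v = N - (A.h l + (A.ht c + A.h v)) by omega]
          ring
        · have e2 : ind (A.h l + (A.ht c + A.h v) ≤ N) = 0 := ind_false hc2
          rw [e2]
          by_cases hc3 : A.h l + A.ht c ≤ N
          · have e4 : ind (A.h v ≤ N - (A.h l + A.ht c)) = 0 := ind_false (by omega)
            rw [e4]; simp
          · have e3 : ind (u < A.h l + A.ht c ∧ A.h l + A.ht c ≤ N) = 0 := ind_false (by omega)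
            rw [e3]; simp
      · have e1 : ind (A.h l ≤ u ∧ u < A.h l + A.ht c) = 0 := ind_false (by omega)
        have e3 : ind (u < A.h l + A.ht c ∧ A.h l + A.ht c ≤ N) = 0 := ind_false (by omega)
        rw [e1, e3]; simp
    have e0 : ind (A.h l ≤ u) = 1 := ind_true hl
    have e5 : ind (A.h l ≤ N) = 1 := ind_true (by omega)
    rw [e0, e5, one_mul, one_mul, one_mul, Ch.cut_eq_self A hl]
    simp_rw [h1, ENNReal.tsum_mul_left, A.tsum_w_Lam, mul_one, ENNReal.tsum_mul_left]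
    rw [← mul_add, ← mul_add]
    refine mul_le_mul' le_rfl (mul_le_mul' le_rfl ?_)
    unfold Alph.Lam
    rw [← ENNReal.tsum_add]
    refine ENNReal.tsum_le_tsum fun c => ?_
    rw [← add_mul]
    exact mul_le_mul' (RcFarW_ind_add (fun h => by omega) (fun h => by omega) (fun h => by omega)) le_rfl
  · have e0 : ind (A.h l ≤ u) = 0 := ind_false hl
    have e1 : ∀ c, ind (A.h l ≤ u ∧ u < A.h l + A.ht c) = 0 := fun c => ind_false (by omega)
    rw [e0]
    simp [e1]

/-- The sum over the words which pass the level `u`. -/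
private lemma RcFarW_pass (A : Alph) (u M : ℕ) (g : List A.B → ℝ≥0∞) :
    ∑' l, ind (u < A.h l ∧ A.h l ≤ M) * (g (A.cut u l) * A.w l) ≤
      (∑' s, ind (A.h s ≤ u) * (g s * (A.w s * A.Lam (u - A.h s)))) * A.U M := by
  refine (Ch.cut_sum A u _).trans ?_
  rw [← ENNReal.tsum_add, ← ENNReal.tsum_mul_right]
  refine ENNReal.tsum_le_tsum fun l => ?_
  by_cases hl : A.h l ≤ u
  · have e0 : ind (u < A.h l ∧ A.h l ≤ M) = 0 := ind_false (by omega)
    have e1 : ind (A.h l ≤ u) = 1 := ind_true hl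
    rw [e0, e1, zero_mul, mul_zero, zero_add, one_mul]
    have h1 : ∀ c v, ind (A.h l ≤ u ∧ u < A.h l + A.ht c) * (ind (u < A.h (l ++ c :: v) ∧ A.h (l ++ c :: v) ≤ M) *
        (g (A.cut u (l ++ c :: v)) * A.w (l ++ c :: v))) ≤
        (g l * (A.w l * (ind (u - A.h l < A.ht c) * A.wt c))) * (ind (A.h v ≤ M) * A.w v) := by
      intro c v
      by_cases hc : u < A.h l + A.ht c
      · rw [Ch.cut_append_cons A v hl hc, A.h_append, A.h_cons, A.w_append, A.w_cons]
        by_cases hc2 : A.h v ≤ M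
        · have e3 : ind (u - A.h l < A.ht c) = 1 := ind_true (by omega)
          have e4 : ind (A.h v ≤ M) = 1 := ind_true hc2
          rw [e3, e4, one_mul, one_mul]
          refine (mul_le_mul' (ind_le_one _) (mul_le_mul' (ind_le_one _) le_rfl)).trans (le_of_eq ?_)
          ring
        · have e2 : ind (u < A.h l + (A.ht c + A.h v) ∧ A.h l + (A.ht c + A.h v) ≤ M) = 0 :=
            ind_false (by omega)
          rw [e2, zero_mul, mul_zero]
          exact bot_le
      · have e1 : ind (A.h l ≤ u ∧ u < A.h l + A.ht c) = 0 := ind_false (by omega)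
        rw [e1, zero_mul]
        exact bot_le
    refine (ENNReal.tsum_le_tsum fun c => ENNReal.tsum_le_tsum fun v => h1 c v).trans (le_of_eq ?_)
    simp_rw [ENNReal.tsum_mul_left, A.tsum_le]
    rw [ENNReal.tsum_mul_right]
    simp_rw [ENNReal.tsum_mul_left]
    rfl
  · have e0 : ind (A.h l ≤ u) = 0 := ind_false hl
    have e1 : ∀ c, ind (A.h l ≤ u ∧ u < A.h l + A.ht c) = 0 := fun c => ind_false (by omega)
    rw [e0]
    simp [e1]

namespace Sys

variable {S : Sys}

private lemma RcFarW_av_nil {σ : Bool} {l s : List S.B} (h : S.av σ l s) : S.Av [] [] := by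
  have h1 : S.av σ [] [] := S.av_pre (l := []) (l' := l) (s := []) (s' := s) h
  cases σ
  · exact h1
  · exact h1

private lemma RcFarW_av_cut {σ : Bool} {l s : List S.B} (u : ℕ) (h : S.av σ l s) :
    S.av σ (S.cut u l) (S.cut u s) := by
  obtain ⟨r, hr⟩ := S.cut_prefix u l
  obtain ⟨r', hr'⟩ := S.cut_prefix u s
  have h1 : S.av σ (S.cut u l ++ r) (S.cut u s ++ r') := by rw [← hr, ← hr']; exact h
  exact S.av_pre h1

theorem a_zero : S.a 0 = ind (S.Av [] []) := by
  unfold a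
  rw [tsum_eq_single []]
  · rw [tsum_eq_single []]
    · rw [ind_congr (show (S.Av [] [] ∧ S.h [] ≤ 0 ∧ S.h [] ≤ 0) ↔ S.Av [] [] from
        ⟨fun h => h.1, fun h => ⟨h, le_of_eq S.h_nil, le_of_eq S.h_nil⟩⟩), S.h_nil, S.w_nil, Nat.sub_self,
        S.Lam_zero]
      simp
    · intro s hs
      rw [ind_false (fun h => hs (S.h_eq_zero.1 (Nat.le_zero.1 h.2.2))), zero_mul]
  · intro l hl
    rw [ENNReal.tsum_eq_zero]
    intro s
    rw [ind_false (fun h => hl (S.h_eq_zero.1 (Nat.le_zero.1 h.2.1))), zero_mul]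

private lemma RcFarW_a_eq (σ : Bool) (u : ℕ) :
    ∑' l, ind (S.h l ≤ u) * ((∑' s, ind (S.h s ≤ u) * (ind (S.av σ l s) * (S.w s * S.Lam (u - S.h s)))) *
      (S.w l * S.Lam (u - S.h l))) = S.a u := by
  cases σ
  · unfold a
    rw [ENNReal.tsum_comm]
    refine tsum_congr fun l => ?_
    rw [← ENNReal.tsum_mul_right, ← ENNReal.tsum_mul_left]
    refine tsum_congr fun s => ?_
    rw [ind_and, ind_and, S.av_false]
    ring
  · unfold a
    refine tsum_congr fun l => ?_
    rw [← ENNReal.tsum_mul_right, ← ENNReal.tsum_mul_left]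
    refine tsum_congr fun s => ?_
    rw [ind_and, ind_and, S.av_true]
    ring

theorem farl0 (σ : Bool) (m M v X : ℕ) (hX : 1 ≤ X) :
    S.part σ m M (fun l _ => (X : ℤ) < |S.x (S.ctp v l)|) ≤ S.a 0 * (S.U v * S.Phi X * S.U M) := by
  have h1 : ∀ l s, ind (S.good σ 1 l s ∧ m < S.h l ∧ S.h l ≤ M ∧ (X : ℤ) < |S.x (S.ctp v l)|) *
      (S.w l * S.w s * S.Lam (S.del σ l s)) ≤
      (ind (S.Av [] []) * (ind (S.h l ≤ M ∧ (X : ℤ) < |S.x (S.ctp v l)|) * S.w l)) *
        (ind (S.h s ≤ S.h l - d σ) * (S.w s * S.Lam (S.h l - d σ - S.h s))) := by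
    intro l s
    by_cases h : S.good σ 1 l s ∧ m < S.h l ∧ S.h l ≤ M ∧ (X : ℤ) < |S.x (S.ctp v l)|
    · rw [ind_true h, ind_true (RcFarW_av_nil h.1.1), ind_true ⟨h.2.2.1, h.2.2.2⟩, ind_true h.1.2.1]
      refine le_of_eq ?_
      unfold del
      ring
    · rw [ind_false h, zero_mul]; exact bot_le
  unfold part
  refine (ENNReal.tsum_le_tsum fun l => ENNReal.tsum_le_tsum fun s => h1 l s).trans ?_
  simp_rw [ENNReal.tsum_mul_left, S.tsum_w_Lam, mul_one]
  rw [ENNReal.tsum_mul_left, a_zero]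
  exact mul_le_mul' le_rfl (Alph.win0_long X v M hX)

theorem fars0 (σ : Bool) (m M v X : ℕ) (hX : 1 ≤ X) :
    S.part σ m M (fun _ s => (X : ℤ) < |S.x (S.ctp v s)|) ≤ S.a 0 * (S.U v * S.Phi X * S.U M) := by
  have h1 : ∀ l s, ind (S.good σ 1 l s ∧ m < S.h l ∧ S.h l ≤ M ∧ (X : ℤ) < |S.x (S.ctp v s)|) *
      (S.w l * S.w s * S.Lam (S.del σ l s)) ≤
      (ind (S.Av [] []) * (ind (S.h l ≤ M) * S.w l)) *
        (ind (S.h s ≤ S.h l - d σ ∧ (X : ℤ) < |S.x (S.ctp v s)|) *
          (S.w s * S.Lam (S.h l - d σ - S.h s))) := by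
    intro l s
    by_cases h : S.good σ 1 l s ∧ m < S.h l ∧ S.h l ≤ M ∧ (X : ℤ) < |S.x (S.ctp v s)|
    · rw [ind_true h, ind_true (RcFarW_av_nil h.1.1), ind_true h.2.2.1, ind_true ⟨h.1.2.1, h.2.2.2⟩]
      refine le_of_eq ?_
      unfold del
      ring
    · rw [ind_false h, zero_mul]; exact bot_le
  unfold part
  refine (ENNReal.tsum_le_tsum fun l => ENNReal.tsum_le_tsum fun s => h1 l s).trans ?_
  simp_rw [ENNReal.tsum_mul_left]
  refine (ENNReal.tsum_le_tsum fun l => mul_le_mul' le_rfl (Alph.win0_short X v _ hX)).trans (le_of_eq ?_)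
  rw [ENNReal.tsum_mul_right, ENNReal.tsum_mul_left, S.tsum_le, a_zero]
  ring

theorem farl (σ : Bool) {u m : ℕ} (hum : u ≤ m) (M X : ℕ) {v : ℕ} (huv : u ≤ v) (hX : 1 ≤ X) :
    S.part σ m M (fun l _ => (X : ℤ) < |S.win u v l|) ≤ S.a u * (S.U v * S.Phi X * S.U M) := by
  set g : List S.B → ℝ≥0∞ := fun l =>
    ∑' s, ind (S.h s ≤ u) * (ind (S.av σ l s) * (S.w s * S.Lam (u - S.h s))) with hg
  have h1 : ∀ l, ∑' s, ind (S.good σ 1 l s ∧ m < S.h l ∧ S.h l ≤ M ∧ (X : ℤ) < |S.win u v l|) *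
      (S.w l * S.w s * S.Lam (S.del σ l s)) ≤
      ind (S.h l ≤ M ∧ (X : ℤ) < |S.win u v l|) * (g (S.cut u l) * S.w l) := by
    intro l
    by_cases h : m < S.h l ∧ S.h l ≤ M ∧ (X : ℤ) < |S.win u v l|
    · have hd := d_le σ
      have h2 : ∀ s, ind (S.good σ 1 l s ∧ m < S.h l ∧ S.h l ≤ M ∧ (X : ℤ) < |S.win u v l|) *
          (S.w l * S.w s * S.Lam (S.del σ l s)) ≤
          S.w l * (ind (S.h s ≤ S.h l - d σ) *
            ((fun s => ind (S.av σ (S.cut u l) s)) (S.cut u s) *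
              (S.w s * S.Lam (S.h l - d σ - S.h s)))) := by
        intro s
        by_cases h' : S.good σ 1 l s ∧ m < S.h l ∧ S.h l ≤ M ∧ (X : ℤ) < |S.win u v l|
        · simp only
          rw [ind_true h', ind_true h'.1.2.1, ind_true (RcFarW_av_cut u h'.1.1)]
          refine le_of_eq ?_
          unfold del
          ring
        · rw [ind_false h', zero_mul]; exact bot_le
      refine (ENNReal.tsum_le_tsum h2).trans ?_
      rw [ENNReal.tsum_mul_left, ind_true ⟨h.2.1, h.2.2⟩, one_mul, mul_comm (g (S.cut u l))]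
      exact mul_le_mul' le_rfl (RcFarW_cut S.toAlph (by omega) _)
    · have h2 : ∀ s, ind (S.good σ 1 l s ∧ m < S.h l ∧ S.h l ≤ M ∧ (X : ℤ) < |S.win u v l|) = 0 :=
        fun s => ind_false fun h' => h h'.2
      simp [h2]
  unfold part
  refine (ENNReal.tsum_le_tsum h1).trans ?_
  refine (Alph.win_long X M huv hX g).trans (le_of_eq ?_)
  rw [hg, RcFarW_a_eq]

theorem fars (σ : Bool) {u m : ℕ} (hum : u ≤ m) (M X : ℕ) {v : ℕ} (huv : u ≤ v) (hX : 1 ≤ X) :
    S.part σ m M (fun _ s => (X : ℤ) < |S.win u v s|) ≤ S.a u * (S.U v * S.Phi X * S.U M) := by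
  set g : List S.B → ℝ≥0∞ := fun l =>
    ∑' s, ind (S.h s ≤ u) * (ind (S.av σ l s) * (S.w s * S.Lam (u - S.h s))) with hg
  have h1 : ∀ l, ∑' s, ind (S.good σ 1 l s ∧ m < S.h l ∧ S.h l ≤ M ∧ (X : ℤ) < |S.win u v s|) *
      (S.w l * S.w s * S.Lam (S.del σ l s)) ≤
      (ind (u < S.h l ∧ S.h l ≤ M) * (g (S.cut u l) * S.w l)) * (S.U v * S.Phi X) := by
    intro l
    by_cases h : m < S.h l ∧ S.h l ≤ M
    · have h2 : ∀ s, ind (S.good σ 1 l s ∧ m < S.h l ∧ S.h l ≤ M ∧ (X : ℤ) < |S.win u v s|) *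
          (S.w l * S.w s * S.Lam (S.del σ l s)) ≤
          S.w l * (ind (S.h s ≤ S.h l - d σ ∧ (X : ℤ) < |S.win u v s|) *
            ((fun s => ind (S.av σ (S.cut u l) s)) (S.cut u s) *
              (S.w s * S.Lam (S.h l - d σ - S.h s)))) := by
        intro s
        by_cases h' : S.good σ 1 l s ∧ m < S.h l ∧ S.h l ≤ M ∧ (X : ℤ) < |S.win u v s|
        · simp only
          rw [ind_true h', ind_true ⟨h'.1.2.1, h'.2.2.2⟩, ind_true (RcFarW_av_cut u h'.1.1)]
          refine le_of_eq ?_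
          unfold del
          ring
        · rw [ind_false h', zero_mul]; exact bot_le
      refine (ENNReal.tsum_le_tsum h2).trans ?_
      rw [ENNReal.tsum_mul_left, ind_true ⟨by omega, h.2⟩, one_mul, mul_comm (g (S.cut u l)), mul_assoc]
      exact mul_le_mul' le_rfl (Alph.win_short X _ huv hX _)
    · have h2 : ∀ s, ind (S.good σ 1 l s ∧ m < S.h l ∧ S.h l ≤ M ∧ (X : ℤ) < |S.win u v s|) = 0 :=
        fun s => ind_false fun h' => h ⟨h'.2.1, h'.2.2.1⟩
      simp [h2]
  unfold part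
  refine (ENNReal.tsum_le_tsum h1).trans ?_
  rw [ENNReal.tsum_mul_right]
  refine (mul_le_mul' (RcFarW_pass S.toAlph u M g) le_rfl).trans (le_of_eq ?_)
  rw [hg, RcFarW_a_eq]
  ring

end Sys

end Pool.Agent.HEP
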