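import Pool.Agent.HEP.RcDefs

/-!
Module RcGood, section (2d) of note 2958.

PAPER PROOF. `good σ 1 l s ∧ os σ G l s → good σ G l s`. Split the sum over `δ = del σ l s ≤ M` (`h s ≤ h l - d σ` gives `h l - d σ = h s + δ`): it is
at most `∑ δ ≤ M, Lam δ * ∑' l s, ind (good σ G l s ∧ h l - d σ = h s + δ ∧ |pl - ps| ≤ X) * (w l * w s)`; multiply by `G` and use `c1`:
`≤ ∑ δ ≤ M, Lam δ * (K * (G + X) * b δ)`, and `∑ δ ≤ M, b δ * Lam δ ≤ K0 M` (`Lam δ * U δ ≤ 1`, RnSeq).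
-/

namespace Pool.Agent.HEP

open scoped ENNReal

namespace Sys

variable {S : Sys}

private lemma RcGood_pt (σ : Bool) (m M X G : ℕ) (l s : List S.B) :
    ind (S.good σ 1 l s ∧ m < S.h l ∧ S.h l ≤ M ∧ (S.os σ G l s ∧ |S.pl σ l - S.ps σ s| ≤ (X : ℤ))) *
        (S.w l * S.w s * S.Lam (S.del σ l s)) ≤
      ∑ δ ∈ Finset.range (M + 1), S.Lam δ *
        (ind (S.good σ G l s ∧ S.h l - d σ = S.h s + δ ∧ |S.pl σ l - S.ps σ s| ≤ (X : ℤ)) * (S.w l * S.w s)) := by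
  by_cases hc : S.good σ 1 l s ∧ m < S.h l ∧ S.h l ≤ M ∧ (S.os σ G l s ∧ |S.pl σ l - S.ps σ s| ≤ (X : ℤ))
  · obtain ⟨⟨h1, h2, _⟩, _, h4, h5, h6⟩ := hc
    have hδ : S.del σ l s ∈ Finset.range (M + 1) := by
      rw [Finset.mem_range]; unfold del; omega
    refine le_trans ?_ (Finset.single_le_sum (f := fun δ => S.Lam δ *
        (ind (S.good σ G l s ∧ S.h l - d σ = S.h s + δ ∧ |S.pl σ l - S.ps σ s| ≤ (X : ℤ)) * (S.w l * S.w s)))
      (fun _ _ => bot_le) hδ)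
    have h7 : S.good σ G l s ∧ S.h l - d σ = S.h s + S.del σ l s ∧ |S.pl σ l - S.ps σ s| ≤ (X : ℤ) :=
      ⟨⟨h1, h2, h5⟩, by unfold del; omega, h6⟩
    show _ ≤ S.Lam (S.del σ l s) * _
    rw [ind_true h7, one_mul, mul_comm (S.Lam _)]
    exact (mul_le_mul' (ind_le_one _) le_rfl).trans (one_mul _).le
  · rw [ind_false hc, zero_mul]
    exact bot_le

theorem good_le {n K : ℕ} (hH : S.Hyp n K) (σ : Bool) (m M X G : ℕ) (hG : 1 ≤ G) :
    (G : ℝ≥0∞) * S.part σ m M (fun l s => S.os σ G l s ∧ |S.pl σ l - S.ps σ s| ≤ (X : ℤ)) ≤ K * (G + X) * S.K0 M := by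
  have e1 : S.part σ m M (fun l s => S.os σ G l s ∧ |S.pl σ l - S.ps σ s| ≤ (X : ℤ)) ≤
      ∑ δ ∈ Finset.range (M + 1), S.Lam δ * ∑' l, ∑' s,
        ind (S.good σ G l s ∧ S.h l - d σ = S.h s + δ ∧ |S.pl σ l - S.ps σ s| ≤ (X : ℤ)) * (S.w l * S.w s) := by
    unfold part
    refine (ENNReal.tsum_le_tsum fun l => ENNReal.tsum_le_tsum fun s => RcGood_pt σ m M X G l s).trans ?_
    refine le_of_eq ?_
    have e2 : ∀ l : List S.B, (∑' s, ∑ δ ∈ Finset.range (M + 1), S.Lam δ *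
        (ind (S.good σ G l s ∧ S.h l - d σ = S.h s + δ ∧ |S.pl σ l - S.ps σ s| ≤ (X : ℤ)) * (S.w l * S.w s))) =
        ∑ δ ∈ Finset.range (M + 1), S.Lam δ * ∑' s,
        ind (S.good σ G l s ∧ S.h l - d σ = S.h s + δ ∧ |S.pl σ l - S.ps σ s| ≤ (X : ℤ)) * (S.w l * S.w s) := by
      intro l
      rw [Summable.tsum_finsetSum (fun _ _ => ENNReal.summable)]
      exact Finset.sum_congr rfl fun δ _ => ENNReal.tsum_mul_left
    rw [tsum_congr e2, Summable.tsum_finsetSum (fun _ _ => ENNReal.summable)]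
    exact Finset.sum_congr rfl fun δ _ => ENNReal.tsum_mul_left
  calc (G : ℝ≥0∞) * S.part σ m M (fun l s => S.os σ G l s ∧ |S.pl σ l - S.ps σ s| ≤ (X : ℤ))
      ≤ G * ∑ δ ∈ Finset.range (M + 1), S.Lam δ * ∑' l, ∑' s,
        ind (S.good σ G l s ∧ S.h l - d σ = S.h s + δ ∧ |S.pl σ l - S.ps σ s| ≤ (X : ℤ)) * (S.w l * S.w s) :=
        mul_le_mul' le_rfl e1
    _ = ∑ δ ∈ Finset.range (M + 1), S.Lam δ * (G * ∑' l, ∑' s,
        ind (S.good σ G l s ∧ S.h l - d σ = S.h s + δ ∧ |S.pl σ l - S.ps σ s| ≤ (X : ℤ)) * (S.w l * S.w s)) := by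
        rw [Finset.mul_sum]
        exact Finset.sum_congr rfl fun δ _ => by rw [← mul_assoc, mul_comm (G : ℝ≥0∞), mul_assoc]
    _ ≤ ∑ δ ∈ Finset.range (M + 1), S.Lam δ * (K * (G + X) * S.b δ) :=
        Finset.sum_le_sum fun δ _ => mul_le_mul' le_rfl (hH.c1 σ δ X G hG)
    _ = K * (G + X) * ∑ δ ∈ Finset.range (M + 1), S.b δ * S.Lam δ := by
        rw [Finset.mul_sum]
        exact Finset.sum_congr rfl fun δ _ => by ring
    _ ≤ K * (G + X) * S.K0 M := mul_le_mul' le_rfl (S.sum_bLam_le M)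

end Sys

end Pool.Agent.HEP
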