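import Pool.Agent.HEP.RcDefs
import Pool.Agent.HEP.RnCut

/-!
Module RcHugA, section (2c) of note 2958, many moving blocks behind the level `m`.

PAPER PROOF. Decompose `s` at the level `m` (`tsum_cut` of RnCut): as `m < h s`, `s = s0 ++ c :: r` with `h s0 ≤ m < t := h s0 + ht c`, `aft m s = r`,
`ps σ s = ps σ (s0 ++ [c]) + x r` (`ps_append`), `h s = t + h r`. `good σ 1` and `¬ os σ G` give `s ≠ []` and: either
`hi σ l (h s) + 1 ≤ ps σ s < hi σ l (h s) + G` or `lo σ l (h s) - G < ps σ s ≤ lo σ l (h s) - 1`. For fixed `l`, `s0`, `c` the position of `x r` is in one of two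
intervals `[y, y + G)`, `y = hi - ps σ (s0 ++ [c])` or `lo - G - ps σ (s0 ++ [c])`, where `y` depends on `h r` only. So with the `FlipInv` weight
`ind (t + h r ≤ N) * ind (k ≤ Vq G r) * (w r * Lam (N - t - h r))`, `N = h l - d σ`, `tsum_avg` and `lo` (inside `avg` the height is constant: `avg_mono'`,
`flip_h`) give the factor `2 * ofReal (rho n k)`. What remains is at most
`∑' l, ∑' s, ind (av σ (cut m l) (cut m s) ∧ m < h l ≤ M ∧ h s ≤ h l - d σ) * (w l * w s * Lam (del σ l s)) ≤ a m * U M` as in RcCrude (`crude`): cut lemma in `s`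
(levels `m ≤ h l - d σ`), passage lemma in `l` (`j = m + 1`, `f = 1`). (It is convenient to do the sum over `r` first: it is `≤ 1` times the factor, then
`∑' c, ind (m < h s0 + ht c) * wt c = Lam (m - h s0)`, then the sum over `l` with `g (cut m l)`.)
-/

namespace Pool.Agent.HEP

open scoped ENNReal

namespace Alph

private lemma RcHugA_aft_app (A : Alph) {N : ℕ} {l0 : List A.B} (h0 : A.h l0 ≤ N) {c : A.B}
    (hc : N < A.h l0 + A.ht c) (r : List A.B) : A.aft N (l0 ++ c :: r) = r := by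
  induction l0 generalizing N with
  | nil =>
    rw [A.h_nil] at hc
    rw [List.nil_append]
    unfold aft
    rw [if_neg (by omega)]
  | cons a l ih =>
    rw [A.h_cons] at h0 hc
    rw [List.cons_append]
    unfold aft
    rw [if_pos (by omega), ih (by omega) (by omega)]

/-- Littlewood-Offord for a sum over words with an invariant weight. -/
private lemma RcHugA_lo (A : Alph) {n G k : ℕ} (hG : 1 ≤ G) (hGn : G ≤ n) (hk : 1 ≤ k)
    (W : List A.B → ℝ≥0∞) (hW : A.FlipInv W) (y : ℕ → ℤ) :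
    ∑' r, (ind ((k : ℝ≥0∞) ≤ A.Vq G r) * W r) * ind (y (A.h r) ≤ A.x r ∧ A.x r < y (A.h r) + G) ≤
      ENNReal.ofReal (Pool.HEP.rho n k) * ∑' r, ind ((k : ℝ≥0∞) ≤ A.Vq G r) * W r := by
  have hinv : A.FlipInv (fun r => ind ((k : ℝ≥0∞) ≤ A.Vq G r) * W r) := by
    intro u v c
    show ind _ * W _ = ind _ * W _
    rw [A.Vq_flip G u v c, hW u v c]
  rw [A.tsum_avg _ _ hinv, ← ENNReal.tsum_mul_left]
  refine ENNReal.tsum_le_tsum fun r => ?_
  by_cases hV : (k : ℝ≥0∞) ≤ A.Vq G r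
  · rw [mul_comm (ENNReal.ofReal _)]
    refine mul_le_mul' le_rfl ?_
    refine (A.avg_mono' r (F' := fun v => ind (y (A.h r) ≤ A.x v ∧ A.x v < y (A.h r) + G)) ?_).trans
      (A.lo n G k hG hGn hk r hV _)
    intro v hv
    rw [A.flip_h hv]
  · rw [ind_false hV, zero_mul, zero_mul]
    exact bot_le

end Alph

namespace Sys

variable {S : Sys}

private lemma RcHugA_av_cut {σ : Bool} {l s : List S.B} (h : S.av σ l s) (m : ℕ) :
    S.av σ (S.cut m l) (S.cut m s) := by
  obtain ⟨l', hl'⟩ := S.cut_prefix m l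
  obtain ⟨s', hs'⟩ := S.cut_prefix m s
  rw [hl', hs'] at h
  exact S.av_pre h

/-- The sum over the short leg, for a fixed long leg. -/
private lemma RcHugA_short (σ : Bool) {m : ℕ} {n G k : ℕ} (hG : 1 ≤ G) (hGn : G ≤ n) (hk : 1 ≤ k)
    (l : List S.B) :
    (∑' s, ind (S.good σ 1 l s ∧ m < S.h s ∧ ¬ S.os σ G l s ∧ (k : ℝ≥0∞) ≤ S.Vq G (S.aft m s)) *
      (S.w s * S.Lam (S.del σ l s))) ≤
    (2 * ENNReal.ofReal (Pool.HEP.rho n k)) *
      ∑' s, ind (S.h s ≤ S.h l - d σ) * (ind (S.av σ (S.cut m l) (S.cut m s)) *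
        (S.w s * S.Lam (S.h l - d σ - S.h s))) := by
  set N : ℕ := S.h l - d σ with hN
  set R : ℝ≥0∞ := ENNReal.ofReal (Pool.HEP.rho n k) with hR
  rw [S.tsum_cut m, S.tsum_cut m (fun s => ind (S.h s ≤ N) * (ind (S.av σ (S.cut m l) (S.cut m s)) *
        (S.w s * S.Lam (N - S.h s)))), ← ENNReal.tsum_mul_left]
  refine ENNReal.tsum_le_tsum fun s0 => ?_
  by_cases h0 : S.h s0 ≤ m
  swap
  · rw [ind_false h0, zero_mul]
    exact bot_le
  rw [ind_true h0, one_mul, one_mul, ind_false (by rintro ⟨-, h, -⟩; omega), zero_mul, zero_add, mul_add]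
  refine le_trans ?_ le_add_self
  rw [← ENNReal.tsum_mul_left]
  refine ENNReal.tsum_le_tsum fun c => ?_
  by_cases h1 : m < S.h s0 + S.ht c
  swap
  · simp only [ind_false h1, zero_mul, tsum_zero]
    exact bot_le
  simp only [ind_true h1, one_mul]
  set t : ℕ := S.h s0 + S.ht c with ht
  have hh : ∀ r, S.h (s0 ++ c :: r) = t + S.h r := by
    intro r
    rw [S.h_append, S.h_cons, ht]
    ring
  have hw : ∀ r, S.w (s0 ++ c :: r) = S.w s0 * S.wt c * S.w r := by
    intro r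
    rw [S.w_append, S.w_cons, mul_assoc]
  have hps : ∀ r, S.ps σ (s0 ++ c :: r) = S.ps σ (s0 ++ [c]) + S.x r := by
    intro r
    rw [← S.ps_append (by simp), List.append_assoc, List.singleton_append]
  -- the weight
  set W : List S.B → ℝ≥0∞ := fun r => ind (t + S.h r ≤ N) * (ind (S.av σ (S.cut m l) s0) *
    (S.w s0 * S.wt c * S.w r * S.Lam (N - (t + S.h r)))) with hW
  have hWi : S.FlipInv W := by
    intro u v b
    simp only [hW]
    rw [S.w_flip u v b]
    have e : S.h (u ++ S.rf b :: v) = S.h (u ++ b :: v) := by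
      rw [S.h_append, S.h_append, S.h_cons, S.h_cons, S.ht_rf]
    rw [e]
  set y1 : ℕ → ℤ := fun j => S.hi σ l (t + j) + 1 - S.ps σ (s0 ++ [c]) with hy1
  set y2 : ℕ → ℤ := fun j => S.lo σ l (t + j) - G - S.ps σ (s0 ++ [c]) with hy2
  have hb1 := S.RcHugA_lo hG hGn hk W hWi y1
  have hb2 := S.RcHugA_lo hG hGn hk W hWi y2
  have hsum : (∑' r, ind ((k : ℝ≥0∞) ≤ S.Vq G r) * W r) ≤ ∑' r, ind (S.h (s0 ++ c :: r) ≤ N) *
      (ind (S.av σ (S.cut m l) (S.cut m (s0 ++ c :: r))) *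
        (S.w (s0 ++ c :: r) * S.Lam (N - S.h (s0 ++ c :: r)))) := by
    refine ENNReal.tsum_le_tsum fun r => ?_
    rw [S.cut_app h0 h1 r, hh, hw]
    calc ind ((k : ℝ≥0∞) ≤ S.Vq G r) * W r ≤ 1 * W r := mul_le_mul' (ind_le_one _) le_rfl
      _ = _ := by rw [one_mul]
  calc _ ≤ ∑' r, ((ind ((k : ℝ≥0∞) ≤ S.Vq G r) * W r) *
        ind (y1 (S.h r) ≤ S.x r ∧ S.x r < y1 (S.h r) + G) +
        (ind ((k : ℝ≥0∞) ≤ S.Vq G r) * W r) *
        ind (y2 (S.h r) ≤ S.x r ∧ S.x r < y2 (S.h r) + G)) := by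
        refine ENNReal.tsum_le_tsum fun r => ?_
        by_cases hP : S.good σ 1 l (s0 ++ c :: r) ∧ m < S.h (s0 ++ c :: r) ∧
            ¬ S.os σ G l (s0 ++ c :: r) ∧ (k : ℝ≥0∞) ≤ S.Vq G (S.aft m (s0 ++ c :: r))
        · rw [ind_true hP, one_mul]
          obtain ⟨⟨hav, hle, hos⟩, -, hnos, hV⟩ := hP
          rw [S.RcHugA_aft_app h0 h1 r] at hV
          have hav' := RcHugA_av_cut hav m
          rw [S.cut_app h0 h1 r] at hav'
          rw [hh] at hle
          have hWr : W r = S.w (s0 ++ c :: r) * S.Lam (S.del σ l (s0 ++ c :: r)) := by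
            simp only [hW]
            rw [ind_true hle, ind_true hav', one_mul, one_mul, hw]
            unfold del
            rw [hh]
          rw [← hWr, ind_true hV, one_mul, ← mul_add]
          refine le_mul_of_one_le_right bot_le ?_
          unfold os at hos hnos
          rw [hh, hps] at hos hnos
          push Not at hnos
          obtain ⟨-, hn1, hn2⟩ := hnos
          rcases hos with hos | hos | hos
          · exact absurd hos (by simp)
          · refine le_trans (le_of_eq (ind_true ?_).symm) le_self_add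
            simp only [hy1]
            push_cast at hos
            constructor <;> linarith
          · refine le_trans (le_of_eq (ind_true ?_).symm) le_add_self
            simp only [hy2]
            push_cast at hos
            constructor <;> linarith
        · rw [ind_false hP, zero_mul]
          exact bot_le
    _ ≤ R * (∑' r, ind ((k : ℝ≥0∞) ≤ S.Vq G r) * W r) + R * (∑' r, ind ((k : ℝ≥0∞) ≤ S.Vq G r) * W r) := by
        rw [ENNReal.tsum_add]
        exact add_le_add hb1 hb2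
    _ = 2 * R * (∑' r, ind ((k : ℝ≥0∞) ≤ S.Vq G r) * W r) := by ring
    _ ≤ _ := mul_le_mul' le_rfl hsum

theorem hugA (σ : Bool) {m M : ℕ} (hmM : m ≤ M) {n G k : ℕ} (hG : 1 ≤ G) (hGn : G ≤ n) (hk : 1 ≤ k) :
    S.part σ m M (fun l s => m < S.h s ∧ ¬ S.os σ G l s ∧ (k : ℝ≥0∞) ≤ S.Vq G (S.aft m s)) ≤
      S.a m * (2 * ENNReal.ofReal (Pool.HEP.rho n k) * S.U M) := by
  have _ := hmM
  set R : ℝ≥0∞ := 2 * ENNReal.ofReal (Pool.HEP.rho n k) with hR
  set F : List S.B → ℝ≥0∞ := fun l' =>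
    ∑' s, ind (S.h s ≤ m) * (ind (S.av σ l' s) * (S.w s * S.Lam (m - S.h s))) with hF
  have h1 : S.part σ m M (fun l s => m < S.h s ∧ ¬ S.os σ G l s ∧ (k : ℝ≥0∞) ≤ S.Vq G (S.aft m s)) ≤
      R * ∑' l, ind (m + 1 ≤ S.h l ∧ S.h l ≤ M) * (F (S.cut m l) * (S.w l * (fun _ => (1 : ℝ≥0∞)) (S.h l - (m + 1)))) := by
    unfold part
    rw [← ENNReal.tsum_mul_left]
    refine ENNReal.tsum_le_tsum fun l => ?_
    by_cases hl : m < S.h l ∧ S.h l ≤ M
    · have hd := d_le σ
      have h2 := S.RcHugA_short σ (m := m) hG hGn hk l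
      rw [S.ext_Lam (N := m) (N' := S.h l - d σ) (by omega) (fun s => ind (S.av σ (S.cut m l) s))] at h2
      rw [ind_true (p := m + 1 ≤ S.h l ∧ S.h l ≤ M) hl, one_mul]
      calc _ ≤ ∑' s, S.w l * (ind (S.good σ 1 l s ∧ m < S.h s ∧ ¬ S.os σ G l s ∧
            (k : ℝ≥0∞) ≤ S.Vq G (S.aft m s)) * (S.w s * S.Lam (S.del σ l s))) := by
            refine ENNReal.tsum_le_tsum fun s => ?_
            have h3 : ind (S.good σ 1 l s ∧ m < S.h l ∧ S.h l ≤ M ∧ m < S.h s ∧ ¬ S.os σ G l s ∧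
                (k : ℝ≥0∞) ≤ S.Vq G (S.aft m s)) ≤ ind (S.good σ 1 l s ∧ m < S.h s ∧ ¬ S.os σ G l s ∧
                (k : ℝ≥0∞) ≤ S.Vq G (S.aft m s)) := ind_mono fun h => ⟨h.1, h.2.2.2⟩
            refine (mul_le_mul' h3 le_rfl).trans (le_of_eq ?_)
            ring
        _ = S.w l * ∑' s, (ind (S.good σ 1 l s ∧ m < S.h s ∧ ¬ S.os σ G l s ∧
            (k : ℝ≥0∞) ≤ S.Vq G (S.aft m s)) * (S.w s * S.Lam (S.del σ l s))) := ENNReal.tsum_mul_left
        _ ≤ S.w l * (R * F (S.cut m l)) := mul_le_mul' le_rfl h2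
        _ = _ := by ring
    · refine le_trans (le_of_eq ?_) zero_le
      rw [ENNReal.tsum_eq_zero]
      intro s
      rw [ind_false (by rintro ⟨-, h2, h3, -⟩; exact hl ⟨h2, h3⟩), zero_mul]
  refine h1.trans ?_
  have h2 := S.pass_le (m := m) (j := m + 1) (N := M) (by omega) (f := fun _ => (1 : ℝ≥0∞))
    (fun _ _ _ => le_rfl) F
  refine (mul_le_mul' le_rfl h2).trans (le_of_eq ?_)
  have h3 : (∑ k ∈ Finset.range (M + 1), S.b k * (fun _ => (1 : ℝ≥0∞)) k) = S.U M := by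
    simp only [mul_one]
    rfl
  rw [h3]
  have h5 : ∀ l s : List S.B, ind (S.h l ≤ m) * (ind (S.h s ≤ m) * (ind (S.av σ l s) *
      (S.w s * S.Lam (m - S.h s))) * (S.w l * S.Lam (m - S.h l))) =
      ind (S.av σ l s ∧ S.h l ≤ m ∧ S.h s ≤ m) * (S.w l * S.w s *
        (S.Lam (m - S.h l) * S.Lam (m - S.h s))) := by
    intro l s
    rw [ind_and, ind_and]
    ring
  have h6 : ∑' l, ind (S.h l ≤ m) * (F l * (S.w l * S.Lam (m - S.h l))) =
      ∑' l, ∑' s, ind (S.av σ l s ∧ S.h l ≤ m ∧ S.h s ≤ m) * (S.w l * S.w s *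
        (S.Lam (m - S.h l) * S.Lam (m - S.h s))) := by
    refine tsum_congr fun l => ?_
    rw [hF]
    dsimp only
    rw [← ENNReal.tsum_mul_right, ← ENNReal.tsum_mul_left]
    exact tsum_congr fun s => h5 l s
  have h7 : (∑' l, ∑' s, ind (S.av σ l s ∧ S.h l ≤ m ∧ S.h s ≤ m) * (S.w l * S.w s *
        (S.Lam (m - S.h l) * S.Lam (m - S.h s)))) = S.a m := by
    cases σ
    · rw [ENNReal.tsum_comm]
      unfold a
      refine tsum_congr fun s => tsum_congr fun l => ?_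
      rw [ind_congr (show (S.av false l s ∧ S.h l ≤ m ∧ S.h s ≤ m) ↔
        (S.Av s l ∧ S.h s ≤ m ∧ S.h l ≤ m) by rw [S.av_false]; tauto)]
      ring
    · rfl
  rw [h6, h7]
  ring

end Sys

end Pool.Agent.HEP
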