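import Pool.Agent.HEP.RcDefs
import Pool.Agent.HEP.RnCut

/-!
Module RcHugB, section (2c) of note 2958, few moving blocks behind the level `m`.

PAPER PROOF. Only `av` and the heights are used. `s = s0 ++ c :: r` with `h s0 ≤ m < t := h s0 + ht c` (`m < h s`), `aft m s = r`. For fixed `s`, with
`u = h s + d σ > m`: `h s ≤ h l - d σ` and `m < h l` give `u ≤ h l`, `del σ l s = h l - u`. So the sum over `l` is at most
`∑' l, ind (u ≤ h l ≤ M) * (g (cut m l) * (w l * Lam (h l - u))) ≤ (∑' l, ind (h l ≤ m) * (g l * (w l * Lam (m - h l)))) * ∑ k ≤ M, b k * Lam k` (passage lemma `pass_le` of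
RnCut, `j = u > m`, `f = Lam`), `g l0 = ind (av σ l0 s0)`, and the last factor is `≤ K0 M` (`sum_bLam_le`). This does not depend on `r`, so the sum over `r` gives
`∑' r, ind (Vq G r < k) * w r`, the sum over `c` gives `Lam (m - h s0)`, the rest is `a m`.
`hug_le` : `hugA + hugB`, `wald` (for `Phi G ≠ 0`; if `Phi G = 0` the right side is `⊤` unless `a m = 0`; in that case everything is `0` too: all pairs have
`av σ (cut m l) (cut m s)` and `a m = 0` forces every such pair to have weight zero; it is enough to use the bound `a m * K0 M * (∑' ..)`.)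
-/

namespace Pool.Agent.HEP

open scoped ENNReal

namespace Alph

private lemma RcHugB_aft_app (A : Alph) {N : ℕ} {l0 : List A.B} (h0 : A.h l0 ≤ N) {c : A.B}
    (hc : N < A.h l0 + A.ht c) (r : List A.B) : A.aft N (l0 ++ c :: r) = r := by
  induction l0 generalizing N with
  | nil =>
    rw [A.h_nil] at hc
    rw [List.nil_append]
    unfold aft
    rw [if_neg (by omega)]
  | cons a l ih =>
    rw [A.h_cons] at h0 hc
    rw [List.cons_append]
    unfold aft
    rw [if_pos (by omega), ih (by omega) (by omega)]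

end Alph

namespace Sys

variable {S : Sys}

private lemma RcHugB_av_cut {σ : Bool} {l s : List S.B} (h : S.av σ l s) (m : ℕ) :
    S.av σ (S.cut m l) (S.cut m s) := by
  obtain ⟨l', hl'⟩ := S.cut_prefix m l
  obtain ⟨s', hs'⟩ := S.cut_prefix m s
  rw [hl', hs'] at h
  exact S.av_pre h

/-- The mass `a m` as an iterated sum, short leg first. -/
private lemma RcHugB_a_eq (σ : Bool) (m : ℕ) :
    (∑' s, ind (S.h s ≤ m) * ((∑' l, ind (S.h l ≤ m) * (ind (S.av σ l s) * (S.w l * S.Lam (m - S.h l)))) *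
      (S.w s * S.Lam (m - S.h s)))) = S.a m := by
  unfold a
  cases σ
  · refine tsum_congr fun s => ?_
    rw [mul_left_comm, ← ENNReal.tsum_mul_right]
    refine tsum_congr fun l => ?_
    rw [S.av_false, ind_and, ind_and]
    ring
  · rw [ENNReal.tsum_comm]
    refine tsum_congr fun s => ?_
    rw [mul_left_comm, ← ENNReal.tsum_mul_right]
    refine tsum_congr fun l => ?_
    rw [S.av_true, ind_and, ind_and]
    ring

theorem hugB (σ : Bool) {m M : ℕ} (hmM : m ≤ M) (G k : ℕ) :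
    S.part σ m M (fun _ s => m < S.h s ∧ S.Vq G (S.aft m s) < (k : ℝ≥0∞)) ≤
      S.a m * S.K0 M * ∑' r, ind (S.Vq G r < (k : ℝ≥0∞)) * S.w r := by
  have _ := hmM
  -- the sum over the long leg
  have hl : ∀ s, m < S.h s →
      (∑' l, ind (S.good σ 1 l s ∧ m < S.h l ∧ S.h l ≤ M ∧ (m < S.h s ∧ S.Vq G (S.aft m s) < (k : ℝ≥0∞))) *
        (S.w l * S.w s * S.Lam (S.del σ l s))) ≤
      (ind (S.Vq G (S.aft m s) < (k : ℝ≥0∞)) * S.w s) *
        ((∑' l, ind (S.h l ≤ m) * (ind (S.av σ l (S.cut m s)) * (S.w l * S.Lam (m - S.h l)))) * S.K0 M) := by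
    intro s hs
    have h1 := S.pass_le (m := m) (j := S.h s + d σ) (N := M) (by omega) S.Lam_anti
      (fun l => ind (S.av σ l (S.cut m s)))
    refine le_trans ?_ (mul_le_mul_right (h1.trans (mul_le_mul_right (S.sum_bLam_le M) _)) _)
    rw [← ENNReal.tsum_mul_left]
    refine ENNReal.tsum_le_tsum fun l => ?_
    by_cases hP : S.good σ 1 l s ∧ m < S.h l ∧ S.h l ≤ M ∧ (m < S.h s ∧ S.Vq G (S.aft m s) < (k : ℝ≥0∞))
    · obtain ⟨⟨hav, hh, -⟩, hml, hlM, -, hV⟩ := hP
      rw [ind_true hV, one_mul, ind_true (p := S.h s + d σ ≤ S.h l ∧ S.h l ≤ M) ⟨by omega, hlM⟩,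
        one_mul, ind_true (RcHugB_av_cut hav m), one_mul]
      have e : S.del σ l s = S.h l - (S.h s + d σ) := by
        unfold del; omega
      rw [e]
      calc ind _ * (S.w l * S.w s * S.Lam (S.h l - (S.h s + d σ)))
          ≤ 1 * (S.w l * S.w s * S.Lam (S.h l - (S.h s + d σ))) := mul_le_mul_left (ind_le_one _) _
        _ = S.w s * (S.w l * S.Lam (S.h l - (S.h s + d σ))) := by ring
    · rw [ind_false hP, zero_mul]
      exact zero_le
  have hall : ∀ s,
      (∑' l, ind (S.good σ 1 l s ∧ m < S.h l ∧ S.h l ≤ M ∧ (m < S.h s ∧ S.Vq G (S.aft m s) < (k : ℝ≥0∞))) *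
        (S.w l * S.w s * S.Lam (S.del σ l s))) ≤
      ind (m < S.h s) * ((ind (S.Vq G (S.aft m s) < (k : ℝ≥0∞)) * S.w s) *
        ((∑' l, ind (S.h l ≤ m) * (ind (S.av σ l (S.cut m s)) * (S.w l * S.Lam (m - S.h l)))) * S.K0 M)) := by
    intro s
    by_cases hs : m < S.h s
    · rw [ind_true hs, one_mul]
      exact hl s hs
    · rw [ind_false hs, zero_mul, nonpos_iff_eq_zero, ENNReal.tsum_eq_zero]
      intro l
      rw [ind_false, zero_mul]
      rintro ⟨-, -, -, h, -⟩
      exact hs h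
  unfold part
  rw [ENNReal.tsum_comm]
  refine (ENNReal.tsum_le_tsum hall).trans ?_
  rw [S.tsum_cut m, ← RcHugB_a_eq σ m, ← ENNReal.tsum_mul_right, ← ENNReal.tsum_mul_right]
  refine ENNReal.tsum_le_tsum fun s0 => ?_
  by_cases h0 : S.h s0 ≤ m
  · rw [ind_true h0, one_mul, one_mul, ind_false (p := m < S.h s0) (by omega), zero_mul, zero_add]
    set H : ℝ≥0∞ := ∑' l, ind (S.h l ≤ m) * (ind (S.av σ l s0) * (S.w l * S.Lam (m - S.h l))) with hH
    set W : ℝ≥0∞ := ∑' r, ind (S.Vq G r < (k : ℝ≥0∞)) * S.w r with hW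
    have e1 : ∀ c, (∑' r, ind (m < S.h s0 + S.ht c) * (ind (m < S.h (s0 ++ c :: r)) *
        ((ind (S.Vq G (S.aft m (s0 ++ c :: r)) < (k : ℝ≥0∞)) * S.w (s0 ++ c :: r)) *
        ((∑' l, ind (S.h l ≤ m) * (ind (S.av σ l (S.cut m (s0 ++ c :: r))) *
          (S.w l * S.Lam (m - S.h l)))) * S.K0 M)))) =
        (S.w s0 * H * S.K0 M * W) * (ind (m < S.h s0 + S.ht c) * S.wt c) := by
      intro c
      by_cases h1 : m < S.h s0 + S.ht c
      · rw [ind_true h1, one_mul]
        calc (∑' r, 1 * (ind (m < S.h (s0 ++ c :: r)) *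
            ((ind (S.Vq G (S.aft m (s0 ++ c :: r)) < (k : ℝ≥0∞)) * S.w (s0 ++ c :: r)) *
            ((∑' l, ind (S.h l ≤ m) * (ind (S.av σ l (S.cut m (s0 ++ c :: r))) *
              (S.w l * S.Lam (m - S.h l)))) * S.K0 M))))
            = ∑' r, (S.w s0 * H * S.K0 M * S.wt c) * (ind (S.Vq G r < (k : ℝ≥0∞)) * S.w r) := by
              refine tsum_congr fun r => ?_
              rw [S.cut_app h0 h1 r, S.RcHugB_aft_app h0 h1 r, S.h_append, S.h_cons, S.w_append, S.w_cons,
                ind_true (p := m < S.h s0 + (S.ht c + S.h r)) (by omega), ← hH]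
              ring
          _ = (S.w s0 * H * S.K0 M * W) * S.wt c := by rw [ENNReal.tsum_mul_left, ← hW]; ring
      · rw [ind_false h1, zero_mul, mul_zero, ENNReal.tsum_eq_zero]
        intro r
        rw [zero_mul]
    rw [tsum_congr e1, ENNReal.tsum_mul_left, S.tsum_cross m s0 h0]
    refine le_of_eq ?_
    ring
  · rw [ind_false h0, zero_mul]
    exact zero_le

end Sys

end Pool.Agent.HEP
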