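import Pool.Agent.HEP.RcOne

/-!
Module RcLag, section (2a) of note 2958: the pairs whose short leg is not higher than `m`.

PAPER PROOF. `Tp_le_sum` : for fixed `q ≤ m` let `i = q / 2`, so `i ≤ q - i`. `av σ l s → av σ (cut i l) (cut i s)` (`av_pre`, `cut_prefix`). In `l`
the cut lemma (levels `i ≤ m`, weight `Lam (m - h l)`), in `s` its exact form (`ext_exact` of RnCut):
`∑' s, ind (h s = q) * (g (cut i s) * w s) ≤ (∑' s, ind (h s ≤ i) * (g s * (w s * Lam (i - h s)))) * b (q - i)`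
(this is T1: `∑_(c, r) [i - h s < ht c, ht c + h r = q - h s] wt c * w r ≤ Lam (i - h s) * b (q - h s)`, `b` antitone). So the part `h s = q` of
`Tp σ m` is at most `a i * b (q - i) ≤ a i * b i` (for `σ = false` swap the two sums, `av false l s = Av s l`). Each `i` occurs twice.
`Tp_le` : `a i * b i ≤ K0 i * TT i * (b i / U i) ≤ K0 m * TT m * (b i / U i)` (`a_mul_U`; `0 < U i < ⊤`; `K0`, `TT` monotone), sum over `i`.
`lag_le` : `m < h l`, `h s ≤ m`: `av σ l s → av σ (cut m l) s` (`s ++ [] = s`); `del σ l s = h l - d σ - h s ≥ h l - (m + 1)`, `Lam` antitone. For fixed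
`s`: the passage lemma (`ext_fun` of RnCut) with `j = m + 1`, `f = Lam`: `∑' l, ind (m + 1 ≤ h l ≤ M) * (g (cut m l) * (w l * Lam (h l - (m + 1))))
≤ (∑' l, ind (h l ≤ m) * (g l * (w l * Lam (m - h l)))) * ∑ k ≤ M, b k * Lam k`.
-/

namespace Pool.Agent.HEP

open scoped ENNReal

namespace Sys

variable {S : Sys}

private theorem RcLag_av_cut {σ : Bool} {i : ℕ} {l s : List S.B} (h : S.av σ l s) :
    S.av σ (S.cut i l) (S.cut i s) := by
  obtain ⟨r, hr⟩ := S.cut_prefix i l
  obtain ⟨t, ht⟩ := S.cut_prefix i s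
  rw [hr, ht] at h
  exact S.av_pre h

private theorem RcLag_av_cut_l {σ : Bool} {i : ℕ} {l s : List S.B} (h : S.av σ l s) :
    S.av σ (S.cut i l) s := by
  obtain ⟨r, hr⟩ := S.cut_prefix i l
  have h' : S.av σ (S.cut i l ++ r) (s ++ []) := by rw [← hr, List.append_nil]; exact h
  exact S.av_pre h'

/-- `a` written with `av σ`. -/
private theorem RcLag_a (σ : Bool) (i : ℕ) :
    ∑' l, ∑' s, ind (S.av σ l s ∧ S.h l ≤ i ∧ S.h s ≤ i) *
      (S.w l * S.w s * (S.Lam (i - S.h l) * S.Lam (i - S.h s))) = S.a i := by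
  cases σ
  · unfold a
    rw [ENNReal.tsum_comm]
    refine tsum_congr fun l => tsum_congr fun s => ?_
    rw [S.av_false, ind_congr (show (S.Av l s ∧ S.h s ≤ i ∧ S.h l ≤ i) ↔
      (S.Av l s ∧ S.h l ≤ i ∧ S.h s ≤ i) by tauto)]
    ring
  · rfl

/-- The part of `Tp` with a short leg of height `q`. -/
private theorem RcLag_part {n K : ℕ} (hH : S.Hyp n K) (σ : Bool) {m q : ℕ} (hq : q ≤ m) :
    ∑' l, ∑' s, ind (S.av σ l s ∧ S.h l ≤ m ∧ S.h s = q) * (S.w l * S.w s * S.Lam (m - S.h l)) ≤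
      S.a (q / 2) * S.b (q / 2) := by
  set i := q / 2 with hi
  have hiq : i ≤ q := by omega
  have him : i ≤ m := by omega
  set g : List S.B → ℝ≥0∞ := fun l => ∑' s, ind (S.h s = q) * (ind (S.av σ l (S.cut i s)) * S.w s) with hg
  calc ∑' l, ∑' s, ind (S.av σ l s ∧ S.h l ≤ m ∧ S.h s = q) * (S.w l * S.w s * S.Lam (m - S.h l))
      ≤ ∑' l, ind (S.h l ≤ m) * (g (S.cut i l) * (S.w l * S.Lam (m - S.h l))) := by
        refine ENNReal.tsum_le_tsum fun l => ?_
        have e : ind (S.h l ≤ m) * (g (S.cut i l) * (S.w l * S.Lam (m - S.h l))) =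
            ∑' s, ind (S.h l ≤ m) * (ind (S.h s = q) * (ind (S.av σ (S.cut i l) (S.cut i s)) * S.w s)) *
              (S.w l * S.Lam (m - S.h l)) := by
          rw [ENNReal.tsum_mul_right, ENNReal.tsum_mul_left, ← mul_assoc]
        rw [e]
        refine ENNReal.tsum_le_tsum fun s => ?_
        have e2 : ind (S.av σ l s ∧ S.h l ≤ m ∧ S.h s = q) ≤
            ind (S.h l ≤ m) * (ind (S.h s = q) * ind (S.av σ (S.cut i l) (S.cut i s))) := by
          rw [← ind_and, ← ind_and]
          exact ind_mono fun h => ⟨h.2.1, h.2.2, RcLag_av_cut h.1⟩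
        calc ind (S.av σ l s ∧ S.h l ≤ m ∧ S.h s = q) * (S.w l * S.w s * S.Lam (m - S.h l))
            ≤ (ind (S.h l ≤ m) * (ind (S.h s = q) * ind (S.av σ (S.cut i l) (S.cut i s)))) *
              (S.w l * S.w s * S.Lam (m - S.h l)) := mul_le_mul' e2 le_rfl
          _ = _ := by ring
    _ ≤ ∑' l, ind (S.h l ≤ i) * (g l * (S.w l * S.Lam (i - S.h l))) := S.cont_le him g
    _ ≤ ∑' l, ind (S.h l ≤ i) * (((∑' s, ind (S.h s ≤ i) * (ind (S.av σ l s) *
          (S.w s * S.Lam (i - S.h s)))) * S.b (q - i)) * (S.w l * S.Lam (i - S.h l))) := by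
        refine ENNReal.tsum_le_tsum fun l => ?_
        refine mul_le_mul' le_rfl (mul_le_mul' ?_ le_rfl)
        exact Alph.t1_le hH.anti hiq (fun s => ind (S.av σ l s))
    _ = (∑' l, ∑' s, ind (S.av σ l s ∧ S.h l ≤ i ∧ S.h s ≤ i) *
          (S.w l * S.w s * (S.Lam (i - S.h l) * S.Lam (i - S.h s)))) * S.b (q - i) := by
        rw [← ENNReal.tsum_mul_right]
        refine tsum_congr fun l => ?_
        calc ind (S.h l ≤ i) * (((∑' s, ind (S.h s ≤ i) * (ind (S.av σ l s) *
              (S.w s * S.Lam (i - S.h s)))) * S.b (q - i)) * (S.w l * S.Lam (i - S.h l)))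
            = (ind (S.h l ≤ i) * (S.w l * S.Lam (i - S.h l)) * ∑' s, ind (S.h s ≤ i) *
                (ind (S.av σ l s) * (S.w s * S.Lam (i - S.h s)))) * S.b (q - i) := by ring
          _ = _ := by
              rw [← ENNReal.tsum_mul_left]
              congr 1
              refine tsum_congr fun s => ?_
              rw [ind_and, ind_and]
              ring
    _ = S.a i * S.b (q - i) := by rw [RcLag_a]
    _ ≤ S.a i * S.b i := mul_le_mul' le_rfl (hH.anti (by omega))

private theorem RcLag_half (f : ℕ → ℝ≥0∞) (k : ℕ) :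
    ∑ q ∈ Finset.range (2 * k), f (q / 2) = 2 * ∑ i ∈ Finset.range k, f i := by
  induction k with
  | zero => simp
  | succ k ih =>
    rw [show 2 * (k + 1) = 2 * k + 1 + 1 by ring, Finset.sum_range_succ, Finset.sum_range_succ, ih,
      Finset.sum_range_succ, show 2 * k / 2 = k by omega, show (2 * k + 1) / 2 = k by omega]
    ring

theorem Tp_le_sum {n K : ℕ} (hH : S.Hyp n K) (σ : Bool) (m : ℕ) :
    S.Tp σ m ≤ 2 * ∑ i ∈ Finset.range (m + 1), S.a i * S.b i := by
  have h1 : S.Tp σ m = ∑ q ∈ Finset.range (m + 1),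
      ∑' l, ∑' s, ind (S.av σ l s ∧ S.h l ≤ m ∧ S.h s = q) * (S.w l * S.w s * S.Lam (m - S.h l)) := by
    unfold Tp
    rw [← Summable.tsum_finsetSum (fun _ _ => ENNReal.summable)]
    refine tsum_congr fun l => ?_
    rw [← Summable.tsum_finsetSum (fun _ _ => ENNReal.summable)]
    refine tsum_congr fun s => ?_
    rw [← Finset.sum_mul]
    congr 1
    by_cases h : S.av σ l s ∧ S.h l ≤ m ∧ S.h s ≤ m
    · rw [ind_true h, Finset.sum_eq_single (S.h s)]
      · exact (ind_true ⟨h.1, h.2.1, rfl⟩).symm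
      · intro q _ hq
        exact ind_false fun h' => hq h'.2.2.symm
      · intro h'
        exact absurd (Finset.mem_range.2 (by omega)) h'
    · rw [ind_false h]
      refine (Finset.sum_eq_zero fun q hq => ?_).symm
      rw [Finset.mem_range] at hq
      exact ind_false fun h' => h ⟨h'.1, h'.2.1, by omega⟩
  rw [h1]
  calc ∑ q ∈ Finset.range (m + 1),
        ∑' l, ∑' s, ind (S.av σ l s ∧ S.h l ≤ m ∧ S.h s = q) * (S.w l * S.w s * S.Lam (m - S.h l))
      ≤ ∑ q ∈ Finset.range (m + 1), S.a (q / 2) * S.b (q / 2) :=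
        Finset.sum_le_sum fun q hq => RcLag_part hH σ (by rw [Finset.mem_range] at hq; omega)
    _ ≤ ∑ q ∈ Finset.range (2 * (m + 1)), S.a (q / 2) * S.b (q / 2) :=
        Finset.sum_le_sum_of_subset (Finset.range_subset_range.2 (by omega))
    _ = 2 * ∑ i ∈ Finset.range (m + 1), S.a i * S.b i := RcLag_half (fun i => S.a i * S.b i) (m + 1)

private theorem RcLag_T_mono (σ : Bool) : Monotone (S.T σ) := by
  intro M M' h
  unfold T
  refine ENNReal.tsum_le_tsum fun l => ENNReal.tsum_le_tsum fun s => mul_le_mul' ?_ le_rfl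
  exact ind_mono fun h' => ⟨h'.1, h'.2.trans h⟩

private theorem RcLag_TT_mono : Monotone S.TT := fun M M' h => by
  unfold TT
  exact add_le_add (RcLag_T_mono true h) (RcLag_T_mono false h)

theorem Tp_le {n K : ℕ} (hH : S.Hyp n K) (σ : Bool) (m : ℕ) : S.Tp σ m ≤ 2 * S.K0 m ^ 2 * S.TT m := by
  have h1 : ∀ i ∈ Finset.range (m + 1), S.a i * S.b i ≤ (S.K0 m * S.TT m) * (S.b i / S.U i) := by
    intro i hi
    rw [Finset.mem_range] at hi
    have h2 : S.a i * S.b i = (S.a i * S.U i) * (S.b i / S.U i) := by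
      rw [mul_assoc, ENNReal.mul_div_cancel (S.U_ne_zero i) (S.U_ne_top i)]
    rw [h2]
    refine mul_le_mul' ((a_mul_U hH i).trans ?_) le_rfl
    exact mul_le_mul' (S.K0_mono (by omega)) (RcLag_TT_mono (by omega))
  calc S.Tp σ m ≤ 2 * ∑ i ∈ Finset.range (m + 1), S.a i * S.b i := Tp_le_sum hH σ m
    _ ≤ 2 * ∑ i ∈ Finset.range (m + 1), (S.K0 m * S.TT m) * (S.b i / S.U i) :=
        mul_le_mul' le_rfl (Finset.sum_le_sum h1)
    _ = 2 * ((S.K0 m * S.TT m) * S.K0 m) := by
        rw [← Finset.mul_sum]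
        rfl
    _ = 2 * S.K0 m ^ 2 * S.TT m := by ring

theorem lag_le {n K : ℕ} (hH : S.Hyp n K) (σ : Bool) {m M : ℕ} (hmM : m ≤ M) :
    S.part σ m M (fun _ s => S.h s ≤ m) ≤ S.K0 M * (2 * S.K0 m ^ 2 * S.TT m) := by
  set g : List S.B → ℝ≥0∞ := fun l => ∑' s, ind (S.h s ≤ m) * (ind (S.av σ l s) * S.w s) with hg
  calc S.part σ m M (fun _ s => S.h s ≤ m)
      ≤ ∑' l, ind (m + 1 ≤ S.h l ∧ S.h l ≤ M) * (g (S.cut m l) * (S.w l * S.Lam (S.h l - (m + 1)))) := by
        unfold part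
        refine ENNReal.tsum_le_tsum fun l => ?_
        have e : ind (m + 1 ≤ S.h l ∧ S.h l ≤ M) * (g (S.cut m l) * (S.w l * S.Lam (S.h l - (m + 1)))) =
            ∑' s, ind (m + 1 ≤ S.h l ∧ S.h l ≤ M) * (ind (S.h s ≤ m) * (ind (S.av σ (S.cut m l) s) * S.w s)) *
              (S.w l * S.Lam (S.h l - (m + 1))) := by
          rw [ENNReal.tsum_mul_right, ENNReal.tsum_mul_left, ← mul_assoc]
        rw [e]
        refine ENNReal.tsum_le_tsum fun s => ?_
        by_cases h : S.good σ 1 l s ∧ m < S.h l ∧ S.h l ≤ M ∧ S.h s ≤ m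
        · rw [ind_true h, ind_true (show m + 1 ≤ S.h l ∧ S.h l ≤ M from ⟨h.2.1, h.2.2.1⟩), ind_true h.2.2.2,
            ind_true (RcLag_av_cut_l h.1.1), one_mul, one_mul, one_mul, one_mul]
          have h3 : S.Lam (S.del σ l s) ≤ S.Lam (S.h l - (m + 1)) := by
            refine S.Lam_anti ?_
            have := d_le σ
            unfold del
            omega
          calc S.w l * S.w s * S.Lam (S.del σ l s) ≤ S.w l * S.w s * S.Lam (S.h l - (m + 1)) :=
                mul_le_mul' le_rfl h3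
            _ = _ := by ring
        · rw [ind_false h, zero_mul]
          exact zero_le
    _ ≤ (∑' l, ind (S.h l ≤ m) * (g l * (S.w l * S.Lam (m - S.h l)))) *
          ∑ k ∈ Finset.range (M + 1), S.b k * S.Lam k :=
        S.pass_le (Nat.lt_succ_self m) S.Lam_anti g
    _ = S.Tp σ m * ∑ k ∈ Finset.range (M + 1), S.b k * S.Lam k := by
        congr 1
        unfold Tp
        refine tsum_congr fun l => ?_
        rw [hg]
        simp only
        rw [← ENNReal.tsum_mul_right, ← ENNReal.tsum_mul_left]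
        refine tsum_congr fun s => ?_
        rw [ind_and, ind_and]
        ring
    _ ≤ (2 * S.K0 m ^ 2 * S.TT m) * S.K0 M := mul_le_mul' (Tp_le hH σ m) (S.sum_bLam_le M)
    _ = _ := mul_comm _ _

end Sys

end Pool.Agent.HEP
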