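import Pool.Agent.HEP.RcLag
import Pool.Agent.HEP.RcCrude
import Pool.Agent.HEP.RcGood
import Pool.Agent.HEP.RcFar
import Pool.Agent.HEP.RcHugA
import Pool.Agent.HEP.RcHugB

/-!
Module RcRes: RESULT of section (2) of note 2958.

PAPER PROOF. `M = m (r + 1)`, `m = m r`, `Y = (r + 1) * X`, `K0 = K0 M ≥ K0 m ≥ 1` (`one_le_K0`, `K0_mono`). `T_split` for both `σ`; bound the parts:
`lag` : `lag_le`, total `≤ 4 K0 ^ 3 * TT m`. `far` : `farL + farS` for two `σ`: `4 * (∑ i ≤ r, a (m i) * U (m (i + 1))) * (Phi X * U M)`, and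
`a (m i) * U (m (i + 1)) ≤ κ * (a (m i) * U (m i)) ≤ κ * K0 * TT m` (`a_mul_U`, `TT_mono`), so `≤ 4 (r + 1) * K0 * TT m` with `Phi X * κ * U M ≤ 1`. `hug` : split by
`k ≤ Vq` or `Vq < k` (`ind_or_le`): `2 * (a m * (2 * ρ * U M) + a m * K0 * W)`, `W = ∑' r, ind (Vq < k) * w r`; `U M ≤ κ * U m`, `ρ * κ ≤ 1`:
first term `≤ 4 * a m * U m ≤ 4 K0 * TT m`; `W * Phi G ≤ k + 1 ≤ Phi G * U m` (`wald`) and `Phi G ≠ 0` (`k + 1 > 0`), `Phi G ≠ ⊤` (`≤ 1`), so `W ≤ U m`: second term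
`≤ 2 K0 * (a m * U m) ≤ 2 K0 ^ 2 * TT m`. `good` : `G * (part) ≤ K * (G + (2 Y + 2)) * K0`, `2 Y + 2 ≤ 4 (r + 1) * X`, so the two parts together, multiplied by `G`,
are `≤ 8 K (r + 1) * K0 * (G + X)`. Sum: `1 + 4 + 4 (r + 1) + 4 + 2 ≤ 15 (r + 1)`.
`crudeTT` : `crude` for both `σ`.
-/

namespace Pool.Agent.HEP

open scoped ENNReal

namespace Sys

variable {S : Sys}

/-- `part` is subadditive under covering of the property. -/
private lemma RcRes_part_add (σ : Bool) (m M : ℕ) (P Q R : List S.B → List S.B → Prop)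
    (h : ∀ l s, P l s → Q l s ∨ R l s) : S.part σ m M P ≤ S.part σ m M Q + S.part σ m M R := by
  unfold part
  rw [← ENNReal.tsum_add]
  refine ENNReal.tsum_le_tsum fun l => ?_
  rw [← ENNReal.tsum_add]
  refine ENNReal.tsum_le_tsum fun s => ?_
  rw [← add_mul]
  refine mul_le_mul_left ?_ _
  refine le_trans (ind_mono ?_) (ind_or_le _ _)
  rintro ⟨h1, h2, h3, h4⟩
  rcases h l s h4 with h5 | h5
  · exact Or.inl ⟨h1, h2, h3, h5⟩
  · exact Or.inr ⟨h1, h2, h3, h5⟩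

private lemma RcRes_Phi_le_one (G : ℕ) : S.Phi G ≤ 1 := by
  unfold Alph.Phi
  refine le_trans (ENNReal.tsum_le_tsum fun c => ?_) S.tot.le
  calc S.wt c * S.q G c ≤ S.wt c * 1 := mul_le_mul_right (S.q_le_one G c) _
    _ = S.wt c := mul_one _

theorem crudeTT {m M : ℕ} (hmM : m ≤ M) : S.TT M ≤ S.TT m + 2 * (S.a m * S.U M) := by
  unfold TT
  calc S.T true M + S.T false M
      ≤ (S.T true m + S.a m * S.U M) + (S.T false m + S.a m * S.U M) :=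
        add_le_add (crude true hmM) (crude false hmM)
    _ = S.T true m + S.T false m + 2 * (S.a m * S.U M) := by ring

/-- The sum of the windows. -/
private lemma RcRes_sum {n K : ℕ} (hH : S.Hyp n K) (m : ℕ → ℕ) (hm : Monotone m) (r : ℕ) (κ : ℝ≥0∞)
    (hκ : ∀ i ≤ r, S.U (m (i + 1)) ≤ κ * S.U (m i)) :
    ∑ i ∈ Finset.range (r + 1), S.a (m i) * S.U (m (i + 1)) ≤
      (r + 1) * (κ * (S.K0 (m (r + 1)) * S.TT (m r))) := by
  have h1 : ∀ i ∈ Finset.range (r + 1), S.a (m i) * S.U (m (i + 1)) ≤ κ * (S.K0 (m (r + 1)) * S.TT (m r)) := by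
    intro i hi
    have hi' : i ≤ r := Nat.lt_succ_iff.1 (Finset.mem_range.1 hi)
    calc S.a (m i) * S.U (m (i + 1)) ≤ S.a (m i) * (κ * S.U (m i)) := mul_le_mul_right (hκ i hi') _
      _ = κ * (S.a (m i) * S.U (m i)) := by ring
      _ ≤ κ * (S.K0 (m i) * S.TT (m i)) := mul_le_mul_right (a_mul_U hH _) _
      _ ≤ κ * (S.K0 (m (r + 1)) * S.TT (m r)) :=
        mul_le_mul_right (mul_le_mul' (S.K0_mono (hm (by omega))) (TT_mono (hm hi'))) _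
  calc ∑ i ∈ Finset.range (r + 1), S.a (m i) * S.U (m (i + 1))
      ≤ ∑ i ∈ Finset.range (r + 1), κ * (S.K0 (m (r + 1)) * S.TT (m r)) := Finset.sum_le_sum h1
    _ = (r + 1) * (κ * (S.K0 (m (r + 1)) * S.TT (m r))) := by
      rw [Finset.sum_const, Finset.card_range, nsmul_eq_mul]; push_cast; ring

/-- The bound of one side. -/
private lemma RcRes_side {n K : ℕ} (hH : S.Hyp n K) (m : ℕ → ℕ) (hm : Monotone m) (hm0 : m 0 = 0)
    (r X G k N : ℕ) (κ : ℝ≥0∞)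
    (hκ : ∀ i ≤ r, S.U (m (i + 1)) ≤ κ * S.U (m i)) (hX : 1 ≤ X) (hG : 1 ≤ G) (hGN : G ≤ N) (hk : 1 ≤ k)
    (hPX : S.Phi X * κ * S.U (m (r + 1)) ≤ 1) (hPG : (k : ℝ≥0∞) + 1 ≤ S.Phi G * S.U (m r))
    (hρ : ENNReal.ofReal (Pool.HEP.rho N k) * κ ≤ 1) (σ : Bool) :
    (G : ℝ≥0∞) * S.T σ (m (r + 1)) ≤ G * S.T σ (m r) +
      G * ((2 + 2 * (r + 1) + 2 + 1) * S.K0 (m (r + 1)) ^ 3 * S.TT (m r)) +
      4 * K * (r + 1) * S.K0 (m (r + 1)) * (G + X) := by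
  have hmM : m r ≤ m (r + 1) := hm (Nat.le_succ r)
  set M := m (r + 1) with hM
  set t := S.TT (m r) with ht
  have hK1 : 1 ≤ S.K0 M := S.one_le_K0 M
  have hKm : S.K0 (m r) ≤ S.K0 M := S.K0_mono hmM
  have hK3 : S.K0 M ≤ S.K0 M ^ 3 := by
    calc S.K0 M = S.K0 M ^ 1 := (pow_one _).symm
      _ ≤ S.K0 M ^ 3 := pow_le_pow_right' hK1 (by norm_num)
  have hK23 : S.K0 M ^ 2 ≤ S.K0 M ^ 3 := pow_le_pow_right' hK1 (by norm_num)
  -- lag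
  have hlag : S.part σ (m r) M (fun _ s => S.h s ≤ m r) ≤ 2 * (S.K0 M ^ 3 * t) := by
    calc S.part σ (m r) M (fun _ s => S.h s ≤ m r) ≤ S.K0 M * (2 * S.K0 (m r) ^ 2 * t) := lag_le hH σ hmM
      _ ≤ S.K0 M * (2 * S.K0 M ^ 2 * t) := by gcongr
      _ = 2 * (S.K0 M ^ 3 * t) := by ring
  -- far
  have hfar : (∑ i ∈ Finset.range (r + 1), S.a (m i) * S.U (m (i + 1))) * (S.Phi X * S.U M) ≤
      (r + 1) * (S.K0 M ^ 3 * t) := by
    calc (∑ i ∈ Finset.range (r + 1), S.a (m i) * S.U (m (i + 1))) * (S.Phi X * S.U M)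
        ≤ ((r + 1) * (κ * (S.K0 M * t))) * (S.Phi X * S.U M) :=
          mul_le_mul_left (RcRes_sum hH m hm r κ hκ) _
      _ = ((r + 1) * (S.K0 M * t)) * (S.Phi X * κ * S.U M) := by ring
      _ ≤ ((r + 1) * (S.K0 M * t)) * 1 := mul_le_mul_right hPX _
      _ = (r + 1) * (S.K0 M * t) := mul_one _
      _ ≤ (r + 1) * (S.K0 M ^ 3 * t) := by gcongr
  have hfL := (farL (S := S) σ m hm hm0 r X hX).trans hfar
  have hfS := (farS (S := S) σ m hm hm0 r X hX).trans hfar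
  -- a * U
  have haU : S.a (m r) * S.U (m r) ≤ S.K0 M * t :=
    (a_mul_U hH (m r)).trans (mul_le_mul_left hKm _)
  -- hug A
  have hA : S.part σ (m r) M (fun l s => m r < S.h s ∧ ¬ S.os σ G l s ∧ (k : ℝ≥0∞) ≤ S.Vq G (S.aft (m r) s)) ≤
      2 * (S.K0 M ^ 3 * t) := by
    calc S.part σ (m r) M (fun l s => m r < S.h s ∧ ¬ S.os σ G l s ∧ (k : ℝ≥0∞) ≤ S.Vq G (S.aft (m r) s))
        ≤ S.a (m r) * (2 * ENNReal.ofReal (Pool.HEP.rho N k) * S.U M) := hugA σ hmM hG hGN hk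
      _ ≤ S.a (m r) * (2 * ENNReal.ofReal (Pool.HEP.rho N k) * (κ * S.U (m r))) :=
        mul_le_mul_right (mul_le_mul_right (hκ r le_rfl) _) _
      _ = 2 * ((ENNReal.ofReal (Pool.HEP.rho N k) * κ) * (S.a (m r) * S.U (m r))) := by ring
      _ ≤ 2 * (1 * (S.K0 M * t)) := mul_le_mul_right (mul_le_mul' hρ haU) _
      _ ≤ 2 * (1 * (S.K0 M ^ 3 * t)) := by gcongr
      _ = 2 * (S.K0 M ^ 3 * t) := by rw [one_mul]
  -- hug B
  have hPG0 : S.Phi G ≠ 0 := by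
    intro h0
    rw [h0, zero_mul] at hPG
    have : (1 : ℝ≥0∞) ≤ 0 := le_trans le_add_self hPG
    exact absurd this (by norm_num)
  have hPGt : S.Phi G ≠ ⊤ := ne_top_of_le_ne_top ENNReal.one_ne_top (RcRes_Phi_le_one G)
  have hW : (∑' l, ind (S.Vq G l < (k : ℝ≥0∞)) * S.w l) ≤ S.U (m r) := by
    have h1 : S.Phi G * (∑' l, ind (S.Vq G l < (k : ℝ≥0∞)) * S.w l) ≤ S.Phi G * S.U (m r) := by
      rw [mul_comm]
      exact (S.wald G k).trans hPG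
    exact (ENNReal.mul_le_mul_iff_right hPG0 hPGt).1 h1
  have hB : S.part σ (m r) M (fun _ s => m r < S.h s ∧ S.Vq G (S.aft (m r) s) < (k : ℝ≥0∞)) ≤
      S.K0 M ^ 3 * t := by
    calc S.part σ (m r) M (fun _ s => m r < S.h s ∧ S.Vq G (S.aft (m r) s) < (k : ℝ≥0∞))
        ≤ S.a (m r) * S.K0 M * ∑' l, ind (S.Vq G l < (k : ℝ≥0∞)) * S.w l := hugB σ hmM G k
      _ ≤ S.a (m r) * S.K0 M * S.U (m r) := mul_le_mul_right hW _
      _ = S.K0 M * (S.a (m r) * S.U (m r)) := by ring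
      _ ≤ S.K0 M * (S.K0 M * t) := mul_le_mul_right haU _
      _ = S.K0 M ^ 2 * t := by ring
      _ ≤ S.K0 M ^ 3 * t := mul_le_mul_left hK23 _
  have hhug : S.part σ (m r) M (fun l s => m r < S.h s ∧ ¬ S.os σ G l s) ≤
      2 * (S.K0 M ^ 3 * t) + S.K0 M ^ 3 * t := by
    refine (RcRes_part_add σ (m r) M _
      (fun l s => m r < S.h s ∧ ¬ S.os σ G l s ∧ (k : ℝ≥0∞) ≤ S.Vq G (S.aft (m r) s))
      (fun _ s => m r < S.h s ∧ S.Vq G (S.aft (m r) s) < (k : ℝ≥0∞)) ?_).trans (add_le_add hA hB)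
    rintro l s ⟨h1, h2⟩
    rcases le_or_gt (k : ℝ≥0∞) (S.Vq G (S.aft (m r) s)) with h3 | h3
    · exact Or.inl ⟨h1, h2, h3⟩
    · exact Or.inr ⟨h1, h3⟩
  -- good
  have hgood : (G : ℝ≥0∞) * S.part σ (m r) M
      (fun l s => S.os σ G l s ∧ |S.pl σ l - S.ps σ s| ≤ ((2 * ((r + 1) * X) + 2 : ℕ) : ℤ)) ≤
      4 * K * (r + 1) * S.K0 M * (G + X) := by
    refine (good_le hH σ (m r) M (2 * ((r + 1) * X) + 2) G hG).trans ?_
    have h1 : (G : ℝ≥0∞) + ((2 * ((r + 1) * X) + 2 : ℕ) : ℝ≥0∞) ≤ 4 * (r + 1) * (G + X) := by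
      have h2 : G + (2 * ((r + 1) * X) + 2) ≤ 4 * (r + 1) * (G + X) := by nlinarith
      have h3 : ((G + (2 * ((r + 1) * X) + 2) : ℕ) : ℝ≥0∞) ≤ ((4 * (r + 1) * (G + X) : ℕ) : ℝ≥0∞) :=
        Nat.cast_le.2 h2
      calc (G : ℝ≥0∞) + ((2 * ((r + 1) * X) + 2 : ℕ) : ℝ≥0∞)
          = ((G + (2 * ((r + 1) * X) + 2) : ℕ) : ℝ≥0∞) := by push_cast; ring
        _ ≤ ((4 * (r + 1) * (G + X) : ℕ) : ℝ≥0∞) := h3
        _ = 4 * (r + 1) * (G + X) := by push_cast; ring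
    calc (K : ℝ≥0∞) * (G + ((2 * ((r + 1) * X) + 2 : ℕ) : ℝ≥0∞)) * S.K0 M
        ≤ K * (4 * (r + 1) * (G + X)) * S.K0 M := mul_le_mul_left (mul_le_mul_right h1 _) _
      _ = 4 * K * (r + 1) * S.K0 M * (G + X) := by ring
  have hsplit := T_split (S := S) σ hmM ((r + 1) * X) G
  calc (G : ℝ≥0∞) * S.T σ M
      ≤ G * (S.T σ (m r) + S.part σ (m r) M (fun _ s => S.h s ≤ m r) +
        S.part σ (m r) M (fun l _ => (((r + 1) * X : ℕ) : ℤ) < |S.x l|) +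
        S.part σ (m r) M (fun _ s => (((r + 1) * X : ℕ) : ℤ) < |S.x s|) +
        S.part σ (m r) M (fun l s => m r < S.h s ∧ ¬ S.os σ G l s) +
        S.part σ (m r) M (fun l s => S.os σ G l s ∧ |S.pl σ l - S.ps σ s| ≤ ((2 * ((r + 1) * X) + 2 : ℕ) : ℤ))) :=
        mul_le_mul_right hsplit _
    _ ≤ G * (S.T σ (m r) + 2 * (S.K0 M ^ 3 * t) + (r + 1) * (S.K0 M ^ 3 * t) + (r + 1) * (S.K0 M ^ 3 * t) +
        (2 * (S.K0 M ^ 3 * t) + S.K0 M ^ 3 * t)) + 4 * K * (r + 1) * S.K0 M * (G + X) := by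
      rw [mul_add (G : ℝ≥0∞) _ (S.part σ (m r) M _)]
      refine add_le_add (mul_le_mul_right ?_ _) hgood
      exact add_le_add (add_le_add (add_le_add (add_le_add le_rfl hlag) hfL) hfS) hhug
    _ = G * S.T σ (m r) +
      G * ((2 + 2 * (r + 1) + 2 + 1) * S.K0 M ^ 3 * t) +
      4 * K * (r + 1) * S.K0 M * (G + X) := by ring

theorem rec_le {n K : ℕ} (hH : S.Hyp n K) (m : ℕ → ℕ) (hm : Monotone m) (hm0 : m 0 = 0) (r X G k N : ℕ) (κ : ℝ≥0∞)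
    (hκ : ∀ i ≤ r, S.U (m (i + 1)) ≤ κ * S.U (m i)) (hX : 1 ≤ X) (hG : 1 ≤ G) (hGN : G ≤ N) (hk : 1 ≤ k)
    (hPX : S.Phi X * κ * S.U (m (r + 1)) ≤ 1) (hPG : (k : ℝ≥0∞) + 1 ≤ S.Phi G * S.U (m r))
    (hρ : ENNReal.ofReal (Pool.HEP.rho N k) * κ ≤ 1) :
    (G : ℝ≥0∞) * S.TT (m (r + 1)) ≤ G * (15 * (r + 1) * S.K0 (m (r + 1)) ^ 3 * S.TT (m r)) +
      8 * K * (r + 1) * S.K0 (m (r + 1)) * (G + X) := by
  have h1 := RcRes_side hH m hm hm0 r X G k N κ hκ hX hG hGN hk hPX hPG hρ true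
  have h2 := RcRes_side hH m hm hm0 r X G k N κ hκ hX hG hGN hk hPX hPG hρ false
  have hK3 : 1 ≤ S.K0 (m (r + 1)) ^ 3 := one_le_pow₀ (S.one_le_K0 _)
  have hTT : S.TT (m r) ≤ S.K0 (m (r + 1)) ^ 3 * S.TT (m r) := by
    calc S.TT (m r) = 1 * S.TT (m r) := (one_mul _).symm
      _ ≤ _ := mul_le_mul_left hK3 _
  have hr : (1 : ℝ≥0∞) + 2 * (2 + 2 * (r + 1) + 2 + 1) ≤ 15 * (r + 1) := by
    have h3 : 1 + 2 * (2 + 2 * (r + 1) + 2 + 1) ≤ 15 * (r + 1) := by omega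
    exact_mod_cast h3
  calc (G : ℝ≥0∞) * S.TT (m (r + 1))
      = G * S.T true (m (r + 1)) + G * S.T false (m (r + 1)) := by unfold TT; ring
    _ ≤ (G * S.T true (m r) +
        G * ((2 + 2 * (r + 1) + 2 + 1) * S.K0 (m (r + 1)) ^ 3 * S.TT (m r)) +
        4 * K * (r + 1) * S.K0 (m (r + 1)) * (G + X)) + (G * S.T false (m r) +
        G * ((2 + 2 * (r + 1) + 2 + 1) * S.K0 (m (r + 1)) ^ 3 * S.TT (m r)) +
        4 * K * (r + 1) * S.K0 (m (r + 1)) * (G + X)) := add_le_add h1 h2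
    _ = G * (S.T true (m r) + S.T false (m r)) +
        G * (2 * (2 + 2 * (r + 1) + 2 + 1) * (S.K0 (m (r + 1)) ^ 3 * S.TT (m r))) +
        8 * K * (r + 1) * S.K0 (m (r + 1)) * (G + X) := by ring
    _ = G * S.TT (m r) +
        G * (2 * (2 + 2 * (r + 1) + 2 + 1) * (S.K0 (m (r + 1)) ^ 3 * S.TT (m r))) +
        8 * K * (r + 1) * S.K0 (m (r + 1)) * (G + X) := by rfl
    _ ≤ G * (S.K0 (m (r + 1)) ^ 3 * S.TT (m r)) +
        G * (2 * (2 + 2 * (r + 1) + 2 + 1) * (S.K0 (m (r + 1)) ^ 3 * S.TT (m r))) +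
        8 * K * (r + 1) * S.K0 (m (r + 1)) * (G + X) := by
      gcongr
    _ = G * ((1 + 2 * (2 + 2 * (r + 1) + 2 + 1)) * (S.K0 (m (r + 1)) ^ 3 * S.TT (m r))) +
        8 * K * (r + 1) * S.K0 (m (r + 1)) * (G + X) := by ring
    _ ≤ G * ((15 * (r + 1)) * (S.K0 (m (r + 1)) ^ 3 * S.TT (m r))) +
        8 * K * (r + 1) * S.K0 (m (r + 1)) * (G + X) := by
      gcongr
    _ = G * (15 * (r + 1) * S.K0 (m (r + 1)) ^ 3 * S.TT (m r)) +
        8 * K * (r + 1) * S.K0 (m (r + 1)) * (G + X) := by ring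

end Sys

end Pool.Agent.HEP
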