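import Pool.Agent.HEP.RcDefs

/-!
Module RcWin: large displacement of the blocks which start at the levels of a window (one word).

PAPER PROOF. `mark` : `Vq X (ctp v r)` is the sum of `q X c` over the splits `r = r1 ++ c :: r2` with `h r1 ≤ v`. The pairs (word, index of
a block) correspond to the triples `(r1, c, r2)` (`r1 = r.take i`, `c = r[i]`, `r2 = r.drop (i + 1)`), so both sides are the same sum.
(In Lean: write both sides as sums over `i` of sums over the words `r` of length `> i`.)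
`win0_short` : `G r = ind (h r ≤ N) * (w r * Lam (N - h r))` is `FlipInv`; `ctp v r = r.take j` with `j` depending on the heights only, so
`avg (ind (X < |x (ctp v ·)|)) r ≤ Vq X (ctp v r)` (`avg_append`/`avg_take`, `cheb`, `tsum_avg`); then `mark` with `F = G`: for fixed `r1`, `c`, `t = h r1 + ht c`:
`∑' r2, ind (t + h r2 ≤ N) * (w r2 * Lam (N - t - h r2)) ≤ 1` (`tsum_w_Lam`), `∑' c, wt c * q X c = Phi X`, `∑' r1, ind (h r1 ≤ v) * w r1 = U v`.
`win0_long` : the same with `G r = ind (h r ≤ M) * w r`; the last sum is `≤ U M` (`tsum_le`).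
-/

namespace Pool.Agent.HEP.Alph

open scoped ENNReal
open Finset

variable {A : Alph}

private lemma RcWin_split (X v : ℕ) (r : List A.B) : A.Vq X (A.ctp v r) =
    ∑' r1, ∑' c, ∑' r2, ind (r1 ++ c :: r2 = r) * (ind (A.h r1 ≤ v) * A.q X c) := by
  induction r generalizing v with
  | nil =>
    symm
    show _ = A.Vq X []
    rw [A.Vq_nil, ENNReal.tsum_eq_zero]
    intro r1
    rw [ENNReal.tsum_eq_zero]
    intro c
    rw [ENNReal.tsum_eq_zero]
    intro r2
    rw [ind_false (by simp), zero_mul]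
  | cons a l ih =>
    have h1 : A.Vq X (A.ctp v (a :: l)) = A.q X a + ind (A.ht a ≤ v) * A.Vq X (A.ctp (v - A.ht a) l) := by
      show A.Vq X (a :: (if A.ht a ≤ v then A.ctp (v - A.ht a) l else [])) = _
      rw [A.Vq_cons]
      split_ifs with h
      · rw [ind_true h, one_mul]
      · rw [ind_false h, zero_mul, A.Vq_nil]
    rw [h1, tsum_list]
    congr 1
    · rw [tsum_eq_single a, tsum_eq_single l]
      · rw [ind_true (by simp), ind_true (by rw [A.h_nil]; omega), one_mul, one_mul]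
      · intro r2 hr2
        rw [ind_false (by simpa using hr2), zero_mul]
      · intro c hc
        rw [ENNReal.tsum_eq_zero]
        intro r2
        rw [ind_false (by simp [hc]), zero_mul]
    · rw [tsum_eq_single a]
      · rw [ih (v - A.ht a), ← ENNReal.tsum_mul_left]
        refine tsum_congr fun r1 => ?_
        rw [← ENNReal.tsum_mul_left]
        refine tsum_congr fun c => ?_
        rw [← ENNReal.tsum_mul_left]
        refine tsum_congr fun r2 => ?_
        rw [A.h_cons, ind_congr (show (a :: r1) ++ c :: r2 = a :: l ↔ r1 ++ c :: r2 = l by simp),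
          ind_congr (show A.ht a + A.h r1 ≤ v ↔ A.ht a ≤ v ∧ A.h r1 ≤ v - A.ht a by omega), ind_and]
        ring
      · intro d hd
        rw [ENNReal.tsum_eq_zero]
        intro r1
        rw [ENNReal.tsum_eq_zero]
        intro c
        rw [ENNReal.tsum_eq_zero]
        intro r2
        rw [ind_false (by simp [hd]), zero_mul]

theorem mark (F : List A.B → ℝ≥0∞) (X v : ℕ) : ∑' r, F r * A.Vq X (A.ctp v r) =
    ∑' r1, ∑' c, ∑' r2, ind (A.h r1 ≤ v) * (F (r1 ++ c :: r2) * A.q X c) := by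
  have h1 : ∀ r, F r * A.Vq X (A.ctp v r) =
      ∑' r1, ∑' c, ∑' r2, F r * (ind (r1 ++ c :: r2 = r) * (ind (A.h r1 ≤ v) * A.q X c)) := by
    intro r
    rw [RcWin_split, ← ENNReal.tsum_mul_left]
    refine tsum_congr fun r1 => ?_
    rw [← ENNReal.tsum_mul_left]
    refine tsum_congr fun c => ?_
    rw [← ENNReal.tsum_mul_left]
  rw [tsum_congr h1, ENNReal.tsum_comm]
  refine tsum_congr fun r1 => ?_
  rw [ENNReal.tsum_comm]
  refine tsum_congr fun c => ?_
  rw [ENNReal.tsum_comm]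
  refine tsum_congr fun r2 => ?_
  rw [tsum_eq_single (r1 ++ c :: r2)]
  · rw [ind_true rfl]
    ring
  · intro r hr
    rw [ind_false (Ne.symm hr), zero_mul, mul_zero]

private lemma RcWin_avg (F : List A.B → ℝ≥0∞) (v : ℕ) (l : List A.B) :
    A.avg (fun r => F (A.ctp v r)) l = A.avg F (A.ctp v l) := by
  induction l generalizing F v with
  | nil => rfl
  | cons c l ih =>
    have h1 : ∀ d : A.B, A.ht d = A.ht c → (fun r => F (A.ctp v (d :: r))) =
        fun r => F (d :: (if A.ht c ≤ v then A.ctp (v - A.ht c) r else [])) := by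
      intro d hd
      funext r
      show F (d :: (if A.ht d ≤ v then A.ctp (v - A.ht d) r else [])) = _
      rw [hd]
    show (A.avg (fun r => F (A.ctp v (c :: r))) l + A.avg (fun r => F (A.ctp v (A.rf c :: r))) l) / 2 =
      A.avg F (c :: (if A.ht c ≤ v then A.ctp (v - A.ht c) l else []))
    rw [h1 c rfl, h1 (A.rf c) (A.ht_rf c), avg]
    by_cases h : A.ht c ≤ v
    · simp only [if_pos h]
      rw [ih (fun r => F (c :: r)), ih (fun r => F (A.rf c :: r))]
    · simp only [if_neg h]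
      rw [A.avg_const, A.avg_const]
      rfl

private lemma RcWin_main (G : List A.B → ℝ≥0∞) (hG : A.FlipInv G) (X v : ℕ) (hX : 1 ≤ X)
    (K : ℕ → List A.B → ℝ≥0∞) (k : ℝ≥0∞)
    (hK : ∀ r1 c r2, G (r1 ++ c :: r2) ≤ A.w r1 * A.wt c * K (A.h r1 + A.ht c) r2)
    (hk : ∀ t, ∑' r2, K t r2 ≤ k) :
    ∑' r, G r * ind ((X : ℤ) < |A.x (A.ctp v r)|) ≤ A.U v * A.Phi X * k := by
  rw [A.tsum_avg G _ hG]
  calc ∑' r, G r * A.avg (fun r => ind ((X : ℤ) < |A.x (A.ctp v r)|)) r
      ≤ ∑' r, G r * A.Vq X (A.ctp v r) := by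
        refine ENNReal.tsum_le_tsum fun r => mul_le_mul' le_rfl ?_
        rw [RcWin_avg (fun r => ind ((X : ℤ) < |A.x r|)) v r]
        exact A.cheb X hX _
    _ = ∑' r1, ∑' c, ∑' r2, ind (A.h r1 ≤ v) * (G (r1 ++ c :: r2) * A.q X c) := mark G X v
    _ ≤ ∑' r1, ∑' c, ∑' r2, ind (A.h r1 ≤ v) * (A.w r1 * A.wt c * K (A.h r1 + A.ht c) r2 * A.q X c) := by
        refine ENNReal.tsum_le_tsum fun r1 => ENNReal.tsum_le_tsum fun c => ENNReal.tsum_le_tsum fun r2 => ?_
        gcongr
        exact hK r1 c r2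
    _ = ∑' r1, ∑' c, ind (A.h r1 ≤ v) * A.w r1 * (A.wt c * A.q X c) * ∑' r2, K (A.h r1 + A.ht c) r2 := by
        refine tsum_congr fun r1 => tsum_congr fun c => ?_
        rw [← ENNReal.tsum_mul_left]
        refine tsum_congr fun r2 => ?_
        ring
    _ ≤ ∑' r1, ∑' c, ind (A.h r1 ≤ v) * A.w r1 * (A.wt c * A.q X c) * k := by
        refine ENNReal.tsum_le_tsum fun r1 => ENNReal.tsum_le_tsum fun c => mul_le_mul' le_rfl (hk _)
    _ = A.U v * A.Phi X * k := by
        have h1 : ∀ r1, ∑' c, ind (A.h r1 ≤ v) * A.w r1 * (A.wt c * A.q X c) * k =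
            ind (A.h r1 ≤ v) * A.w r1 * (A.Phi X * k) := by
          intro r1
          unfold Phi
          rw [← ENNReal.tsum_mul_right, ← ENNReal.tsum_mul_left]
          refine tsum_congr fun c => ?_
          ring
        rw [tsum_congr h1, ENNReal.tsum_mul_right, A.tsum_le v, mul_assoc]

theorem win0_short (X v N : ℕ) (hX : 1 ≤ X) :
    ∑' r, ind (A.h r ≤ N ∧ (X : ℤ) < |A.x (A.ctp v r)|) * (A.w r * A.Lam (N - A.h r)) ≤ A.U v * A.Phi X := by
  have hG : A.FlipInv (fun r => ind (A.h r ≤ N) * (A.w r * A.Lam (N - A.h r))) := by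
    intro a b c
    show ind (A.h (a ++ A.rf c :: b) ≤ N) * (A.w (a ++ A.rf c :: b) * A.Lam (N - A.h (a ++ A.rf c :: b))) =
      ind (A.h (a ++ c :: b) ≤ N) * (A.w (a ++ c :: b) * A.Lam (N - A.h (a ++ c :: b)))
    have h1 : A.h (a ++ A.rf c :: b) = A.h (a ++ c :: b) := by
      rw [A.h_append, A.h_append, A.h_cons, A.h_cons, A.ht_rf]
    rw [h1, A.w_flip a b c]
  have key := RcWin_main (A := A) _ hG X v hX
    (fun t r2 => ind (t + A.h r2 ≤ N) * (A.w r2 * A.Lam (N - (t + A.h r2)))) 1 ?_ ?_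
  · rw [mul_one] at key
    refine le_trans (le_of_eq (tsum_congr fun r => ?_)) key
    rw [ind_and]
    ring
  · intro r1 c r2
    have h1 : A.h (r1 ++ c :: r2) = A.h r1 + A.ht c + A.h r2 := by
      rw [A.h_append, A.h_cons]; ring
    refine le_of_eq ?_
    show ind (A.h (r1 ++ c :: r2) ≤ N) * (A.w (r1 ++ c :: r2) * A.Lam (N - A.h (r1 ++ c :: r2))) = _
    rw [h1, A.w_append, A.w_cons]
    ring
  · intro t
    by_cases ht : t ≤ N
    · refine le_of_eq ?_
      rw [← A.tsum_w_Lam (N - t)]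
      refine tsum_congr fun r2 => ?_
      rw [ind_congr (show t + A.h r2 ≤ N ↔ A.h r2 ≤ N - t by omega), Nat.sub_sub]
    · have h0 : ∑' r2, ind (t + A.h r2 ≤ N) * (A.w r2 * A.Lam (N - (t + A.h r2))) = 0 := by
        rw [ENNReal.tsum_eq_zero]
        intro r2
        rw [ind_false (by omega), zero_mul]
      rw [h0]
      exact zero_le_one

theorem win0_long (X v M : ℕ) (hX : 1 ≤ X) :
    ∑' r, ind (A.h r ≤ M ∧ (X : ℤ) < |A.x (A.ctp v r)|) * A.w r ≤ A.U v * A.Phi X * A.U M := by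
  have hG : A.FlipInv (fun r => ind (A.h r ≤ M) * A.w r) := by
    intro a b c
    show ind (A.h (a ++ A.rf c :: b) ≤ M) * A.w (a ++ A.rf c :: b) =
      ind (A.h (a ++ c :: b) ≤ M) * A.w (a ++ c :: b)
    have h1 : A.h (a ++ A.rf c :: b) = A.h (a ++ c :: b) := by
      rw [A.h_append, A.h_append, A.h_cons, A.h_cons, A.ht_rf]
    rw [h1, A.w_flip a b c]
  have key := RcWin_main (A := A) _ hG X v hX
    (fun _ r2 => ind (A.h r2 ≤ M) * A.w r2) (A.U M) ?_ ?_
  · refine le_trans (le_of_eq (tsum_congr fun r => ?_)) key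
    rw [ind_and]
    ring
  · intro r1 c r2
    show ind (A.h (r1 ++ c :: r2) ≤ M) * A.w (r1 ++ c :: r2) ≤ A.w r1 * A.wt c * (ind (A.h r2 ≤ M) * A.w r2)
    rw [A.w_append, A.w_cons]
    calc ind (A.h (r1 ++ c :: r2) ≤ M) * (A.w r1 * (A.wt c * A.w r2))
        ≤ ind (A.h r2 ≤ M) * (A.w r1 * (A.wt c * A.w r2)) := by
          refine mul_le_mul' (ind_mono fun h => ?_) le_rfl
          rw [A.h_append, A.h_cons] at h
          omega
      _ = _ := by ring
  · intro t
    exact (A.tsum_le M).le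

end Pool.Agent.HEP.Alph
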