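import Pool.Agent.HEP.RcWin
import Pool.Agent.HEP.RnCut

/-!
Module RcWinG: large displacement in a window `(u, v]`, with a weight `g (cut u ·)` of the past.

PAPER PROOF. Decompose at the level `u` (`tsum_cut` of RnCut, or `Ch.cut_sum_eq` of ChCut). Words `s` with `h s ≤ u`: `ctp u s = ctp v s = s`, so `win = 0`.
Words `s0 ++ c :: r` with `h s0 ≤ u < t := h s0 + ht c`: `cut u = s0`, `ctp u = s0 ++ [c]`, `ctp v = s0 ++ c :: ctp (v - t) r` if `t ≤ v` and `s0 ++ [c]`
otherwise, so `win = x (ctp (v - t) r)` or `0`. For fixed `s0`, `c` (with `t ≤ v`, `t ≤ N`) the sum over `r` is at most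
`w s0 * wt c * (U (v - t) * Phi X)` by `win0_short` with `N - t` (`* U M` for `win0_long` with `M - t`), and
`∑' c, ind (u < h s0 + ht c) * wt c = Lam (u - h s0)`.
-/

namespace Pool.Agent.HEP.Alph

open scoped ENNReal
open Finset

variable {A : Alph}

private lemma RcWinG_ctp {v : ℕ} {l0 : List A.B} (h0 : A.h l0 ≤ v) (m : List A.B) :
    A.ctp v (l0 ++ m) = l0 ++ A.ctp (v - A.h l0) m := by
  induction l0 generalizing v with
  | nil => rfl
  | cons a l ih =>
    rw [A.h_cons] at h0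
    rw [List.cons_append, ctp, if_pos (by omega), ih (by omega), A.h_cons, Nat.sub_sub, List.cons_append]

private lemma RcWinG_self {u v : ℕ} (huv : u ≤ v) {s : List A.B} (hs : A.h s ≤ u) : A.win u v s = 0 := by
  have h1 := RcWinG_ctp (v := u) hs []
  have h2 := RcWinG_ctp (v := v) (hs.trans huv) []
  rw [List.append_nil] at h1 h2
  unfold win
  rw [h1, h2]
  show A.x (s ++ []) - A.x (s ++ []) = 0
  exact sub_self _

private lemma RcWinG_cons {u v : ℕ} (huv : u ≤ v) {l0 : List A.B} (h0 : A.h l0 ≤ u) {c : A.B}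
    (hc : u < A.h l0 + A.ht c) (r : List A.B) : A.win u v (l0 ++ c :: r) =
      A.x (if A.h l0 + A.ht c ≤ v then A.ctp (v - (A.h l0 + A.ht c)) r else []) := by
  have hu : A.ctp u (l0 ++ c :: r) = l0 ++ [c] := by
    rw [RcWinG_ctp (v := u) h0, ctp, if_neg (by omega)]
  have hv : A.ctp v (l0 ++ c :: r) =
      l0 ++ c :: (if A.h l0 + A.ht c ≤ v then A.ctp (v - (A.h l0 + A.ht c)) r else []) := by
    rw [RcWinG_ctp (v := v) (h0.trans huv), ctp]
    by_cases h1 : A.h l0 + A.ht c ≤ v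
    · rw [if_pos (by omega), if_pos h1, Nat.sub_sub]
    · rw [if_neg (by omega), if_neg h1]
  unfold win
  rw [hu, hv, A.x_append, A.x_append, A.x_cons, A.x_cons, A.x_nil]
  ring

private lemma RcWinG_main (X : ℕ) {u v : ℕ} (huv : u ≤ v) (g F : List A.B → ℝ≥0∞) (K : ℝ≥0∞)
    (hF : ∀ l0 c, A.h l0 + A.ht c ≤ v →
      ∑' r, ind ((X : ℤ) < |A.x (A.ctp (v - (A.h l0 + A.ht c)) r)|) * F (l0 ++ c :: r) ≤
        A.w l0 * A.wt c * K) :
    ∑' s, ind ((X : ℤ) < |A.win u v s|) * (g (A.cut u s) * F s) ≤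
      (∑' s, ind (A.h s ≤ u) * (g s * (A.w s * A.Lam (u - A.h s)))) * K := by
  rw [A.tsum_cut' u, ← ENNReal.tsum_mul_right]
  refine ENNReal.tsum_le_tsum fun l0 => ?_
  by_cases h0 : A.h l0 ≤ u
  · have hz : ¬ ((X : ℤ) < |A.win u v l0|) := by
      rw [RcWinG_self huv h0, abs_zero]
      omega
    rw [ind_true h0, one_mul, one_mul, ind_false hz, zero_mul, zero_add]
    have h1 : ∀ c, ind (u < A.h l0 + A.ht c) * ∑' r, ind ((X : ℤ) < |A.win u v (l0 ++ c :: r)|) *
        (g (A.cut u (l0 ++ c :: r)) * F (l0 ++ c :: r)) ≤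
        g l0 * A.w l0 * K * (ind (u < A.h l0 + A.ht c) * A.wt c) := by
      intro c
      by_cases hc : u < A.h l0 + A.ht c
      · rw [ind_true hc, one_mul, one_mul]
        by_cases hv : A.h l0 + A.ht c ≤ v
        · calc ∑' r, ind ((X : ℤ) < |A.win u v (l0 ++ c :: r)|) *
                (g (A.cut u (l0 ++ c :: r)) * F (l0 ++ c :: r))
              = g l0 * ∑' r, ind ((X : ℤ) < |A.x (A.ctp (v - (A.h l0 + A.ht c)) r)|) *
                  F (l0 ++ c :: r) := by
                rw [← ENNReal.tsum_mul_left]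
                refine tsum_congr fun r => ?_
                rw [RcWinG_cons huv h0 hc r, if_pos hv, A.cut_eq h0 hc]
                ring
            _ ≤ g l0 * (A.w l0 * A.wt c * K) := mul_le_mul' le_rfl (hF l0 c hv)
            _ = g l0 * A.w l0 * K * A.wt c := by ring
        · have h2 : ∑' r, ind ((X : ℤ) < |A.win u v (l0 ++ c :: r)|) *
              (g (A.cut u (l0 ++ c :: r)) * F (l0 ++ c :: r)) = 0 := by
            rw [ENNReal.tsum_eq_zero]
            intro r
            rw [RcWinG_cons huv h0 hc r, if_neg hv, A.x_nil, abs_zero, ind_false (by omega), zero_mul]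
          rw [h2]
          exact zero_le
      · rw [ind_false hc, zero_mul, zero_mul, mul_zero]
    calc ∑' c, ind (u < A.h l0 + A.ht c) * ∑' r, ind ((X : ℤ) < |A.win u v (l0 ++ c :: r)|) *
          (g (A.cut u (l0 ++ c :: r)) * F (l0 ++ c :: r))
        ≤ ∑' c, g l0 * A.w l0 * K * (ind (u < A.h l0 + A.ht c) * A.wt c) :=
          ENNReal.tsum_le_tsum h1
      _ = g l0 * (A.w l0 * A.Lam (u - A.h l0)) * K := by
        rw [ENNReal.tsum_mul_left, A.tsum_cross u l0 h0]
        ring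
  · rw [ind_false h0, zero_mul, zero_mul, zero_mul]

theorem win_short (X N : ℕ) {u v : ℕ} (huv : u ≤ v) (hX : 1 ≤ X) (g : List A.B → ℝ≥0∞) :
    ∑' s, ind (A.h s ≤ N ∧ (X : ℤ) < |A.win u v s|) * (g (A.cut u s) * (A.w s * A.Lam (N - A.h s))) ≤
      (∑' s, ind (A.h s ≤ u) * (g s * (A.w s * A.Lam (u - A.h s)))) * (A.U v * A.Phi X) := by
  have key := RcWinG_main X huv g (fun s => ind (A.h s ≤ N) * (A.w s * A.Lam (N - A.h s)))
    (A.U v * A.Phi X) ?_
  · refine le_trans (le_of_eq (tsum_congr fun s => ?_)) key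
    rw [ind_and]
    ring
  · intro l0 c _
    show ∑' r, ind ((X : ℤ) < |A.x (A.ctp (v - (A.h l0 + A.ht c)) r)|) *
      (ind (A.h (l0 ++ c :: r) ≤ N) * (A.w (l0 ++ c :: r) * A.Lam (N - A.h (l0 ++ c :: r)))) ≤ _
    by_cases hN : A.h l0 + A.ht c ≤ N
    · calc ∑' r, ind ((X : ℤ) < |A.x (A.ctp (v - (A.h l0 + A.ht c)) r)|) *
            (ind (A.h (l0 ++ c :: r) ≤ N) * (A.w (l0 ++ c :: r) * A.Lam (N - A.h (l0 ++ c :: r))))
          = A.w l0 * A.wt c * ∑' r, ind (A.h r ≤ N - (A.h l0 + A.ht c) ∧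
              (X : ℤ) < |A.x (A.ctp (v - (A.h l0 + A.ht c)) r)|) *
              (A.w r * A.Lam (N - (A.h l0 + A.ht c) - A.h r)) := by
            rw [← ENNReal.tsum_mul_left]
            refine tsum_congr fun r => ?_
            have h1 : A.h (l0 ++ c :: r) = A.h l0 + A.ht c + A.h r := by
              rw [A.h_append, A.h_cons]; ring
            rw [h1, A.w_append, A.w_cons, ind_and, Nat.sub_sub,
              ind_congr (show A.h l0 + A.ht c + A.h r ≤ N ↔ A.h r ≤ N - (A.h l0 + A.ht c) by omega)]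
            ring
        _ ≤ A.w l0 * A.wt c * (A.U (v - (A.h l0 + A.ht c)) * A.Phi X) :=
            mul_le_mul' le_rfl (win0_short X _ _ hX)
        _ ≤ A.w l0 * A.wt c * (A.U v * A.Phi X) := by
            have h2 := A.U_mono (show v - (A.h l0 + A.ht c) ≤ v by omega)
            gcongr
    · have h0 : ∑' r, ind ((X : ℤ) < |A.x (A.ctp (v - (A.h l0 + A.ht c)) r)|) *
          (ind (A.h (l0 ++ c :: r) ≤ N) * (A.w (l0 ++ c :: r) * A.Lam (N - A.h (l0 ++ c :: r)))) = 0 := by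
        rw [ENNReal.tsum_eq_zero]
        intro r
        rw [A.h_append, A.h_cons, ind_false (p := A.h l0 + (A.ht c + A.h r) ≤ N) (by omega), zero_mul,
          mul_zero]
      rw [h0]
      exact zero_le

theorem win_long (X M : ℕ) {u v : ℕ} (huv : u ≤ v) (hX : 1 ≤ X) (g : List A.B → ℝ≥0∞) :
    ∑' s, ind (A.h s ≤ M ∧ (X : ℤ) < |A.win u v s|) * (g (A.cut u s) * A.w s) ≤
      (∑' s, ind (A.h s ≤ u) * (g s * (A.w s * A.Lam (u - A.h s)))) * (A.U v * A.Phi X * A.U M) := by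
  have key := RcWinG_main X huv g (fun s => ind (A.h s ≤ M) * A.w s) (A.U v * A.Phi X * A.U M) ?_
  · refine le_trans (le_of_eq (tsum_congr fun s => ?_)) key
    rw [ind_and]
    ring
  · intro l0 c _
    show ∑' r, ind ((X : ℤ) < |A.x (A.ctp (v - (A.h l0 + A.ht c)) r)|) *
      (ind (A.h (l0 ++ c :: r) ≤ M) * A.w (l0 ++ c :: r)) ≤ _
    calc ∑' r, ind ((X : ℤ) < |A.x (A.ctp (v - (A.h l0 + A.ht c)) r)|) *
          (ind (A.h (l0 ++ c :: r) ≤ M) * A.w (l0 ++ c :: r))
        ≤ ∑' r, A.w l0 * A.wt c * (ind (A.h r ≤ M ∧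
            (X : ℤ) < |A.x (A.ctp (v - (A.h l0 + A.ht c)) r)|) * A.w r) := by
          refine ENNReal.tsum_le_tsum fun r => ?_
          have h1 : A.h (l0 ++ c :: r) = A.h l0 + A.ht c + A.h r := by
            rw [A.h_append, A.h_cons]; ring
          rw [h1, A.w_append, A.w_cons, ind_and]
          have h2 : ind (A.h l0 + A.ht c + A.h r ≤ M) ≤ ind (A.h r ≤ M) := ind_mono fun h => by omega
          calc ind ((X : ℤ) < |A.x (A.ctp (v - (A.h l0 + A.ht c)) r)|) *
                (ind (A.h l0 + A.ht c + A.h r ≤ M) * (A.w l0 * (A.wt c * A.w r)))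
              ≤ ind ((X : ℤ) < |A.x (A.ctp (v - (A.h l0 + A.ht c)) r)|) *
                (ind (A.h r ≤ M) * (A.w l0 * (A.wt c * A.w r))) :=
                mul_le_mul' le_rfl (mul_le_mul' h2 le_rfl)
            _ = _ := by ring
      _ = A.w l0 * A.wt c * ∑' r, ind (A.h r ≤ M ∧
            (X : ℤ) < |A.x (A.ctp (v - (A.h l0 + A.ht c)) r)|) * A.w r := ENNReal.tsum_mul_left
      _ ≤ A.w l0 * A.wt c * (A.U (v - (A.h l0 + A.ht c)) * A.Phi X * A.U M) :=
          mul_le_mul' le_rfl (win0_long X _ _ hX)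
      _ ≤ A.w l0 * A.wt c * (A.U v * A.Phi X * A.U M) := by
          have h2 := A.U_mono (show v - (A.h l0 + A.ht c) ≤ v by omega)
          gcongr

end Pool.Agent.HEP.Alph
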