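import Pool.Agent.HEP.LO

set_option autoImplicit false

/-!
# HEP, section (3): the recursion over the scales, pure real analysis
-/

open Finset

noncomputable section

namespace Pool.HEP

theorem pure_rec (Y : ℕ → ℝ) (S : ℕ) (P R A : ℝ) (hP : 1 ≤ P) (hR : 1 ≤ R) (hA : 1 ≤ A)
    (hY0 : 1 ≤ Y 0) (bad : Finset ℕ)
    (hgood : ∀ r, r < S → r ∉ bad → Y (r + 1) ≤ P * Y r + A)
    (hbad : ∀ r, r < S → r ∈ bad → Y (r + 1) ≤ R * Y r) :
    Y S ≤ (2 * P) ^ S * R ^ bad.card * A * Y 0 := by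
  have key : ∀ r, r ≤ S → Y r ≤ (2 * P) ^ r * R ^ (bad.filter (· < r)).card * A * Y 0 := by
    intro r
    induction r with
    | zero =>
      intro _
      simp only [pow_zero, one_mul, not_lt_zero, filter_false, card_empty]
      nlinarith
    | succ r ih =>
      intro hr
      have h1 := ih (by omega)
      have hpos : 1 ≤ (2 * P) ^ r * R ^ (bad.filter (· < r)).card * A * Y 0 := by
        have a1 : 1 ≤ (2 * P) ^ r := one_le_pow₀ (by linarith)
        have a2 : 1 ≤ R ^ (bad.filter (· < r)).card := one_le_pow₀ hR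
        have a3 := one_le_mul_of_one_le_of_one_le a1 a2
        have a4 := one_le_mul_of_one_le_of_one_le a3 hA
        exact one_le_mul_of_one_le_of_one_le a4 hY0
      set Z := (2 * P) ^ r * R ^ (bad.filter (· < r)).card * A * Y 0 with hZ
      by_cases hb : r ∈ bad
      · have hcard : (bad.filter (· < r + 1)).card = (bad.filter (· < r)).card + 1 := by
          have : bad.filter (· < r + 1) = insert r (bad.filter (· < r)) := by
            ext i
            simp only [mem_filter, mem_insert]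
            constructor
            · rintro ⟨h2, h3⟩
              rcases Nat.lt_succ_iff_lt_or_eq.1 h3 with h4 | h4
              · exact Or.inr ⟨h2, h4⟩
              · exact Or.inl h4
            · rintro (h2 | ⟨h2, h3⟩)
              · exact ⟨h2 ▸ hb, by omega⟩
              · exact ⟨h2, by omega⟩
          rw [this, card_insert_of_notMem (by simp)]
        rw [hcard]
        have h2 := hbad r (by omega) hb
        have h3 : R * Y r ≤ R * Z := mul_le_mul_of_nonneg_left h1 (by linarith)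
        calc Y (r + 1) ≤ R * Z := h2.trans h3
          _ = 1 * (R * Z) := by ring
          _ ≤ (2 * P) * (R * Z) := by
              apply mul_le_mul_of_nonneg_right (by linarith)
              have : 0 ≤ R := by linarith
              positivity
          _ = _ := by rw [hZ, pow_succ, pow_succ]; ring
      · have hcard : (bad.filter (· < r)).card ≤ (bad.filter (· < r + 1)).card := by
          apply card_le_card
          intro i
          simp only [mem_filter]
          rintro ⟨h2, h3⟩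
          exact ⟨h2, by omega⟩
        have h2 := hgood r (by omega) hb
        have hAZ : A ≤ Z := by
          rw [hZ]
          have a1 : 1 ≤ (2 * P) ^ r := one_le_pow₀ (by linarith)
          have a2 : 1 ≤ R ^ (bad.filter (· < r)).card := one_le_pow₀ hR
          have a3 := one_le_mul_of_one_le_of_one_le a1 a2
          have hA0 : 0 ≤ A := by linarith
          calc A = 1 * A * 1 := by ring
            _ ≤ (2 * P) ^ r * R ^ (bad.filter (· < r)).card * A * Y 0 := by gcongr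
        calc Y (r + 1) ≤ P * Y r + A := h2
          _ ≤ P * Z + Z := by
              have : P * Y r ≤ P * Z := mul_le_mul_of_nonneg_left h1 (by linarith)
              linarith
          _ ≤ 2 * P * Z := by nlinarith
          _ = (2 * P) ^ (r + 1) * R ^ (bad.filter (· < r)).card * A * Y 0 := by
              rw [hZ, pow_succ]; ring
          _ ≤ _ := by
              have : 0 ≤ A := by linarith
              have : 0 ≤ Y 0 := by linarith
              have : 0 ≤ P := by linarith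
              gcongr
  refine (key S le_rfl).trans ?_
  have : 0 ≤ A := by linarith
  have : 0 ≤ Y 0 := by linarith
  have : 0 ≤ P := by linarith
  gcongr
  exact filter_subset _ _

theorem log_bd (δ : ℝ) (hδ : 0 < δ) :
    ∃ C : ℝ, 1 ≤ C ∧ ∀ n : ℕ, 1 ≤ n → 1 + Real.log ((n : ℝ) + 1) ≤ C * (n : ℝ) ^ δ := by
  refine ⟨1 + 2 ^ δ / δ, by have : (0 : ℝ) ≤ 2 ^ δ / δ := by positivity
                            linarith, fun n hn => ?_⟩
  have hn1 : (1 : ℝ) ≤ n := by exact_mod_cast hn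
  have h1 : Real.log ((n : ℝ) + 1) ≤ ((n : ℝ) + 1) ^ δ / δ :=
    Real.log_le_rpow_div (by positivity) hδ
  have h2 : ((n : ℝ) + 1) ^ δ ≤ 2 ^ δ * (n : ℝ) ^ δ := by
    rw [← Real.mul_rpow (by norm_num) (by positivity)]
    exact Real.rpow_le_rpow (by positivity) (by linarith) hδ.le
  have h3 : (1 : ℝ) ≤ (n : ℝ) ^ δ := Real.one_le_rpow hn1 hδ.le
  have h4 : ((n : ℝ) + 1) ^ δ / δ ≤ 2 ^ δ * (n : ℝ) ^ δ / δ := by gcongr
  calc 1 + Real.log ((n : ℝ) + 1) ≤ (n : ℝ) ^ δ + 2 ^ δ * (n : ℝ) ^ δ / δ := by linarith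
    _ = (1 + 2 ^ δ / δ) * (n : ℝ) ^ δ := by ring

theorem two_pow_clog_le {n : ℕ} (hn : 2 ≤ n) : 2 ^ Nat.clog 2 n ≤ 2 * n := by
  have h1 : 0 < Nat.clog 2 n := Nat.clog_pos (by norm_num) hn
  have h2 := Nat.pow_pred_clog_lt_self (b := 2) (by norm_num) hn
  have h3 : 2 ^ Nat.clog 2 n = 2 * 2 ^ (Nat.clog 2 n).pred := by
    rw [← pow_succ']; congr 1
    exact (Nat.succ_pred_eq_of_pos h1).symm
  rw [h3]
  omega

theorem clog_bd {n : ℕ} (hn : 2 ≤ n) :
    ((Nat.clog 2 (n ^ 4) : ℕ) : ℝ) ≤ 4 * (1 + 2 * Real.log n) := by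
  have h1 : Nat.clog 2 (n ^ 4) ≤ 4 * Nat.clog 2 n := by
    apply Nat.clog_le_of_le_pow
    calc n ^ 4 ≤ (2 ^ Nat.clog 2 n) ^ 4 := Nat.pow_le_pow_left (Nat.le_pow_clog (by norm_num) n) 4
      _ = 2 ^ (4 * Nat.clog 2 n) := by rw [← pow_mul]; congr 1; ring
  have h2 : (Nat.clog 2 n : ℝ) ≤ 1 + 2 * Real.log n := by
    have h3 := two_pow_clog_le hn
    have h4 : ((2 : ℝ) ^ Nat.clog 2 n) ≤ 2 * n := by exact_mod_cast h3
    have hn0 : (0 : ℝ) < n := by positivity
    have h5 := Real.log_le_log (by positivity) h4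
    rw [Real.log_pow, Real.log_mul (by norm_num) hn0.ne'] at h5
    have h6 : (0.6931471803 : ℝ) < Real.log 2 := Real.log_two_gt_d9
    have h7 : 0 ≤ Real.log n := Real.log_nonneg (by exact_mod_cast (by omega : 1 ≤ n))
    nlinarith
  have h1' : ((Nat.clog 2 (n ^ 4) : ℕ) : ℝ) ≤ 4 * (Nat.clog 2 n : ℝ) := by exact_mod_cast h1
  linarith

theorem ev_bd (th : ℝ) (hth : 0 < th) (C0 : ℝ) : ∃ n0 : ℕ, ∀ n : ℕ, n0 ≤ n → 4 ≤ n ∧
    3 ≤ (n : ℝ) ^ th ∧ C0 < (n : ℝ) ^ th ∧
    72 * ((Nat.clog 2 (n ^ 4) : ℝ) + 1) + 1 ≤ (n : ℝ) ^ th := by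
  obtain ⟨C, hC, hlog⟩ := log_bd (th / 2) (by positivity)
  have ht : Filter.Tendsto (fun n : ℕ => (n : ℝ) ^ (th / 2)) Filter.atTop Filter.atTop :=
    (tendsto_rpow_atTop (by positivity)).comp tendsto_natCast_atTop_atTop
  have h1 := (ht.eventually_ge_atTop (max (max 3 (|C0| + 1)) (72 * 13 * C))).and
    (Filter.eventually_ge_atTop 4)
  obtain ⟨n0, hn0⟩ := Filter.eventually_atTop.1 h1
  refine ⟨n0, fun n hn => ?_⟩
  obtain ⟨h2, h4⟩ := hn0 n hn
  have hn1 : (1 : ℝ) ≤ n := by exact_mod_cast (by omega : 1 ≤ n)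
  set q := (n : ℝ) ^ (th / 2) with hq
  have hq2 : (n : ℝ) ^ th = q * q := by
    rw [hq, ← Real.rpow_add (by linarith)]; congr 1; ring
  have a1 : 3 ≤ q := (le_max_left _ _).trans ((le_max_left _ _).trans h2)
  have a2 : |C0| + 1 ≤ q := (le_max_right _ _).trans ((le_max_left _ _).trans h2)
  have a3 : 72 * 13 * C ≤ q := (le_max_right _ _).trans h2
  have hcl := clog_bd (n := n) (by omega)
  have hl := hlog n (by omega)
  have hl2 : Real.log n ≤ Real.log ((n : ℝ) + 1) := Real.log_le_log (by positivity) (by linarith)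
  refine ⟨h4, ?_, ?_, ?_⟩
  · rw [hq2]; nlinarith
  · rw [hq2]; have := le_abs_self C0; nlinarith
  · rw [hq2]
    have h5 : 1 + Real.log n ≤ C * q := by linarith
    have h6 : 0 ≤ Real.log n := Real.log_nonneg hn1
    have h7 : 72 * ((Nat.clog 2 (n ^ 4) : ℝ) + 1) + 1 ≤ 72 * 13 * (1 + Real.log n) := by nlinarith
    calc _ ≤ 72 * 13 * (1 + Real.log n) := h7
      _ ≤ 72 * 13 * (C * q) := by linarith
      _ = (72 * 13 * C) * q := by ring
      _ ≤ q * q := by gcongr

theorem tele (e : ℕ → ℕ) (S : ℕ) : ∑ r ∈ range S, e (r + 3) ≤ ∑ r ∈ range S, e (r - 3) +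
    (e (S + 2) + e (S + 1) + e S + e (S - 1) + e (S - 2) + e (S - 3)) := by
  induction S with
  | zero => simp
  | succ S ih =>
    rw [sum_range_succ, sum_range_succ]
    have h1 : S + 1 - 1 = S := by omega
    have h2 : S + 1 - 2 = S - 1 := by omega
    have h3 : S + 1 - 3 = S - 2 := by omega
    rw [h1, h2, h3]
    have h4 : S + 1 + 2 = S + 3 := by omega
    have h5 : S + 1 + 1 = S + 2 := by omega
    rw [h4, h5]
    omega

/-- number of scales where the quantile jumps -/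
theorem bad_card (e : ℕ → ℕ) (he : Monotone e) (S : ℕ) (n : ℕ) (hn : 2 ≤ n) (L : ℕ)
    (hL : e (S + 2) ≤ 3 * L) (hLn : 2 ^ L ≤ 2 * n) (t : ℝ) (ht : 0 < t) :
    (((range S).filter fun r => (n : ℝ) ^ t < 2 ^ (e (r + 3) - e (r - 3))).card : ℝ) ≤ 36 / t := by
  set F := (range S).filter fun r => (n : ℝ) ^ t < 2 ^ (e (r + 3) - e (r - 3)) with hF
  have hn1 : (1 : ℝ) < n := by exact_mod_cast (by omega : 1 < n)
  have hsum : ∑ r ∈ range S, (e (r + 3) - e (r - 3)) ≤ 18 * L := by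
    have h1 := tele e S
    have h2 : ∑ r ∈ range S, e (r - 3) + ∑ r ∈ range S, (e (r + 3) - e (r - 3)) =
        ∑ r ∈ range S, e (r + 3) := by
      rw [← sum_add_distrib]
      apply sum_congr rfl
      intro r _
      have : e (r - 3) ≤ e (r + 3) := he (by omega)
      omega
    have m1 : e (S + 1) ≤ e (S + 2) := he (by omega)
    have m2 : e S ≤ e (S + 2) := he (by omega)
    have m3 : e (S - 1) ≤ e (S + 2) := he (by omega)
    have m4 : e (S - 2) ≤ e (S + 2) := he (by omega)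
    have m5 : e (S - 3) ≤ e (S + 2) := he (by omega)
    omega
  have hprod : ((n : ℝ) ^ t) ^ F.card ≤ 2 ^ (18 * L) := by
    calc ((n : ℝ) ^ t) ^ F.card = ∏ r ∈ F, (n : ℝ) ^ t := by rw [prod_const]
      _ ≤ ∏ r ∈ F, (2 : ℝ) ^ (e (r + 3) - e (r - 3)) := by
          apply prod_le_prod
          · intro r _; positivity
          · intro r hr; rw [hF, mem_filter] at hr; exact hr.2.le
      _ = (2 : ℝ) ^ (∑ r ∈ F, (e (r + 3) - e (r - 3))) := by rw [prod_pow_eq_pow_sum]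
      _ ≤ 2 ^ (18 * L) := by
          apply pow_le_pow_right₀ (by norm_num)
          exact (sum_le_sum_of_subset (filter_subset _ _)).trans hsum
  have h36 : (2 : ℝ) ^ (18 * L) ≤ (n : ℝ) ^ (36 : ℕ) := by
    have h1 : ((2 : ℝ) ^ L) ≤ (n : ℝ) ^ 2 := by
      have h2 : (2 : ℝ) ^ L ≤ 2 * n := by exact_mod_cast hLn
      have h3 : (2 : ℝ) ≤ n := by exact_mod_cast hn
      nlinarith
    calc (2 : ℝ) ^ (18 * L) = (2 ^ L) ^ 18 := by rw [← pow_mul]; congr 1; ring
      _ ≤ ((n : ℝ) ^ 2) ^ 18 := by gcongr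
      _ = (n : ℝ) ^ 36 := by rw [← pow_mul]
  have h5 : (n : ℝ) ^ (t * F.card) ≤ (n : ℝ) ^ (36 : ℝ) := by
    rw [Real.rpow_mul (by positivity), Real.rpow_natCast]
    calc _ ≤ (2 : ℝ) ^ (18 * L) := hprod
      _ ≤ (n : ℝ) ^ (36 : ℕ) := h36
      _ = (n : ℝ) ^ (36 : ℝ) := by rw [← Real.rpow_natCast]; norm_num
  have h6 := (Real.rpow_le_rpow_left_iff hn1).1 h5
  rw [le_div_iff₀ ht]
  linarith

/-- the recursive inequality of section (2), for real sequences -/
def H3 (C0 κ : ℝ) (n : ℕ) (U T Φ : ℕ → ℝ) : Prop :=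
  ∀ (r : ℕ) (m : ℕ → ℕ) (kap X G k : ℕ), m 0 = 0 → Monotone m → (∀ s, m s ≤ n) → 1 ≤ kap →
    (∀ s, U (m (s + 1)) ≤ kap * U (m s)) → 1 ≤ X → 1 ≤ G → G ≤ n ^ 4 → 1 ≤ k →
    Φ X * kap * U (m (r + 1)) ≤ 1 → (k : ℝ) + 1 ≤ Φ G * U (m r) → rho (n ^ 4) k * kap ≤ 1 →
    T (m (r + 1)) ≤ 15 * (r + 1) * κ ^ 3 * T (m r) + C0 * (r + 1) * κ * (1 + X / G)

theorem sc_core (n S : ℕ) (q t C0 κ : ℝ) (hn : 4 ≤ n) (ht : 0 < t) (hC0 : 1 ≤ C0) (hq3 : 3 ≤ q)
    (hqC : C0 < q) (hql : 72 * ((Nat.clog 2 (n ^ 4) : ℝ) + 1) + 1 ≤ q)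
    (hqS : (n : ℝ) + 1 ≤ q ^ S) (hq4 : q ^ (S + 3) ≤ (n : ℝ) ^ 4)
    (U a T Φ : ℕ → ℝ) (hU0 : U 0 = 1) (hUm : Monotone U) (hUs : ∀ i, U (i + 1) ≤ U i + 1)
    (hUn : U n ≤ n + 1) (hT0 : 1 ≤ T 0) (hTm : Monotone T) (hκ : 1 ≤ κ) (ha0 : ∀ m, 0 ≤ a m)
    (H1 : ∀ m ≤ n, a m * U m ≤ κ * T m)
    (H2 : ∀ m M, m ≤ M → M ≤ n → T M ≤ T m + 2 * a m * U M)
    (H4' : ∀ x, 1 ≤ x → Φ x ≤ ((n : ℝ) / x) ^ 2)
    (H5 : 1 ≤ C0 * Φ 1) (h3 : H3 C0 κ n U T Φ) :
    ∃ c : ℕ, (c : ℝ) ≤ 36 / t + 4 ∧ T n ≤ (2 * (15 * (S + 1) * κ ^ 3)) ^ S *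
      (1 + 6 * q * κ) ^ c * (C0 * (S + 1) * κ * (1 + 2 * (n : ℝ) ^ t)) * T 0 := by
  classical
  have hn1 : (1 : ℝ) ≤ n := by exact_mod_cast (by omega : 1 ≤ n)
  have hq0 : 0 < q := by linarith
  have hqs : ∀ s : ℕ, 0 < q ^ s := fun s => pow_pos hq0 s
  have hqmono : ∀ {i j : ℕ}, i ≤ j → q ^ i ≤ q ^ j := fun h => pow_le_pow_right₀ (by linarith) h
  have hUpos : ∀ i, 1 ≤ U i := fun i => by rw [← hU0]; exact hUm (Nat.zero_le i)
  have hTpos : ∀ i, 1 ≤ T i := fun i => hT0.trans (hTm (Nat.zero_le i))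
  -- quantiles
  set L := Nat.clog 2 n with hL
  have hL2 : 2 ^ L ≤ 2 * n := two_pow_clog_le (by omega)
  have hL1 : n ≤ 2 ^ L := Nat.le_pow_clog (by norm_num) n
  have hex : ∀ s : ℕ, ∃ i : ℕ, Φ (2 ^ i) ≤ (q ^ s)⁻¹ ∨ i = 3 * L := fun s => ⟨3 * L, Or.inr rfl⟩
  let e : ℕ → ℕ := fun s => Nat.find (hex s)
  have he_spec : ∀ s, Φ (2 ^ e s) ≤ (q ^ s)⁻¹ ∨ e s = 3 * L := fun s => Nat.find_spec (hex s)
  have he_min : ∀ s i, i < e s → (q ^ s)⁻¹ < Φ (2 ^ i) := by
    intro s i hi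
    have := Nat.find_min (hex s) hi
    push Not at this
    exact this.1
  have he_le : ∀ s, e s ≤ 3 * L := fun s => Nat.find_min' (hex s) (Or.inr rfl)
  have he_mono : Monotone e := by
    apply monotone_nat_of_le_succ
    intro s
    apply Nat.find_min' (hex s)
    rcases he_spec (s + 1) with h | h
    · left
      refine h.trans ?_
      apply inv_anti₀ (hqs s)
      exact hqmono (by omega)
    · exact Or.inr h
  have hΦL : Φ (2 ^ (3 * L)) ≤ ((n : ℝ) ^ 4)⁻¹ := by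
    refine (H4' _ Nat.one_le_two_pow).trans ?_
    have h1 : (n : ℝ) ≤ 2 ^ L := by exact_mod_cast hL1
    have h2 : ((2 ^ (3 * L) : ℕ) : ℝ) = (2 ^ L) ^ 3 := by push_cast; rw [← pow_mul]; congr 1; ring
    rw [h2]
    have h3 : (n : ℝ) / (2 ^ L) ^ 3 ≤ n / (n : ℝ) ^ 3 := by gcongr
    have h4 : (n : ℝ) / (n : ℝ) ^ 3 = ((n : ℝ) ^ 2)⁻¹ := by
      field_simp
    rw [h4] at h3
    calc ((n : ℝ) / (2 ^ L) ^ 3) ^ 2 ≤ (((n : ℝ) ^ 2)⁻¹) ^ 2 := by gcongr
      _ = ((n : ℝ) ^ 4)⁻¹ := by rw [inv_pow, ← pow_mul]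
  have he_X : ∀ s, s ≤ S + 3 → Φ (2 ^ e s) ≤ (q ^ s)⁻¹ := by
    intro s hs
    rcases he_spec s with h | h
    · exact h
    · rw [h]
      refine hΦL.trans ?_
      apply inv_anti₀ (hqs s)
      exact (hqmono hs).trans hq4
  -- scales
  let m : ℕ → ℕ := fun s => if s = 0 then 0 else Nat.findGreatest (fun N => U N ≤ q ^ s) n
  have hm0 : m 0 = 0 := by simp [m]
  have hmn : ∀ s, m s ≤ n := by
    intro s
    simp only [m]
    split_ifs
    · exact Nat.zero_le _
    · exact Nat.findGreatest_le n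
  have hmU : ∀ s, U (m s) ≤ q ^ s := by
    intro s
    by_cases hs : s = 0
    · subst hs; rw [hm0, hU0, pow_zero]
    · have h1 : m s = Nat.findGreatest (fun N => U N ≤ q ^ s) n := by simp [m, hs]
      rw [h1]
      have h2 : U 0 ≤ q ^ s := by rw [hU0]; exact one_le_pow₀ (by linarith)
      exact Nat.findGreatest_spec (P := fun N => U N ≤ q ^ s) (Nat.zero_le n) h2
  have hmlow : ∀ s, m s < n → q ^ s / 2 ≤ U (m s) := by
    intro s hs
    by_cases hs0 : s = 0
    · subst hs0; rw [hm0, hU0, pow_zero]; norm_num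
    · have h1 : m s = Nat.findGreatest (fun N => U N ≤ q ^ s) n := by simp [m, hs0]
      have h2 : ¬ (U (m s + 1) ≤ q ^ s) := by
        apply Nat.findGreatest_is_greatest (P := fun N => U N ≤ q ^ s) (n := n)
        · rw [← h1]; omega
        · omega
      have h4 := hUs (m s)
      have h5 : q ≤ q ^ s := by
        calc q = q ^ 1 := (pow_one q).symm
          _ ≤ q ^ s := hqmono (by omega)
      push Not at h2
      linarith
  have hmmono : Monotone m := by
    apply monotone_nat_of_le_succ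
    intro s
    by_cases hs : s = 0
    · subst hs; rw [hm0]; exact Nat.zero_le _
    · have h1 : m s = Nat.findGreatest (fun N => U N ≤ q ^ s) n := by simp [m, hs]
      have h2 : m (s + 1) = Nat.findGreatest (fun N => U N ≤ q ^ (s + 1)) n := by simp [m]
      rw [h1, h2]
      apply Nat.findGreatest_mono_left
      intro N hN
      exact le_trans hN (hqmono (by omega))
  have hmS : m S = n := by
    have hS0 : S ≠ 0 := by
      rintro rfl
      rw [pow_zero] at hqS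
      linarith
    have h1 : m S = Nat.findGreatest (fun N => U N ≤ q ^ S) n := by simp [m, hS0]
    apply le_antisymm (hmn S)
    rw [h1]
    exact Nat.le_findGreatest le_rfl (hUn.trans hqS)
  -- kap
  set kap := ⌈2 * q⌉₊ with hkap
  have hk1 : 2 * q ≤ kap := Nat.le_ceil _
  have hk2 : (kap : ℝ) ≤ 3 * q := by
    have := Nat.ceil_lt_add_one (show 0 ≤ 2 * q by linarith)
    linarith
  have hk0 : 1 ≤ kap := by
    have : (1 : ℝ) ≤ kap := by linarith
    exact_mod_cast this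
  have hkU : ∀ s, U (m (s + 1)) ≤ kap * U (m s) := by
    intro s
    rcases (hmn s).lt_or_eq with h | h
    · have h1 := hmlow s h
      calc U (m (s + 1)) ≤ q ^ (s + 1) := hmU _
        _ = 2 * q * (q ^ s / 2) := by rw [pow_succ]; ring
        _ ≤ kap * U (m s) := by
            have := (hqs s).le
            gcongr
    · have h1 : m (s + 1) = n := le_antisymm (hmn _) (h ▸ hmmono (Nat.le_succ s))
      rw [h1, h]
      have h2 : (1 : ℝ) ≤ kap := by exact_mod_cast hk0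
      have := hUpos n
      nlinarith
  -- k
  set ℓ : ℝ := (Nat.clog 2 (n ^ 4) : ℝ) + 1 with hℓ
  have hℓ1 : 1 ≤ ℓ := by rw [hℓ]; linarith [Nat.cast_nonneg (α := ℝ) (Nat.clog 2 (n ^ 4))]
  set k := ⌈36 * q ^ 2 * ℓ⌉₊ with hk
  have hkk1 : 36 * q ^ 2 * ℓ ≤ k := Nat.le_ceil _
  have hkk2 : (k : ℝ) ≤ 36 * q ^ 2 * ℓ + 1 := (Nat.ceil_lt_add_one (by positivity)).le
  have hkk0 : 1 ≤ k := by
    have : (1 : ℝ) ≤ k := by nlinarith
    exact_mod_cast this
  have hkq : (k : ℝ) + 1 ≤ q ^ 3 / 2 := by nlinarith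
  have hrho : rho (n ^ 4) k * kap ≤ 1 := by
    unfold rho
    have h1 : ((Nat.clog 2 (n ^ 4) : ℝ) + 1) / k ≤ (1 / (6 * q)) ^ 2 := by
      rw [← hℓ, div_le_iff₀ (by positivity)]
      calc ℓ = (1 / (6 * q)) ^ 2 * (36 * q ^ 2 * ℓ) := by field_simp; ring
        _ ≤ (1 / (6 * q)) ^ 2 * k := by gcongr
    have h2 : √(((Nat.clog 2 (n ^ 4) : ℝ) + 1) / k) ≤ 1 / (6 * q) := by
      calc _ ≤ √((1 / (6 * q)) ^ 2) := Real.sqrt_le_sqrt h1
        _ = 1 / (6 * q) := Real.sqrt_sq (by positivity)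
    calc 2 * √(((Nat.clog 2 (n ^ 4) : ℝ) + 1) / k) * kap ≤ 2 * (1 / (6 * q)) * (3 * q) := by
          gcongr
      _ = 1 := by field_simp; norm_num
  -- the bad scales
  set bad := ((range S).filter fun r => (n : ℝ) ^ t < 2 ^ (e (r + 3) - e (r - 3))) ∪ range 4
    with hbad
  refine ⟨bad.card, ?_, ?_⟩
  · have h1 := bad_card e he_mono S n (by omega) L (he_le _) hL2 t ht
    have h0 : bad.card ≤
        ((range S).filter fun r => (n : ℝ) ^ t < 2 ^ (e (r + 3) - e (r - 3))).card + 4 := by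
      rw [hbad]
      refine (card_union_le _ _).trans ?_
      rw [card_range]
    have h2 : (bad.card : ℝ) ≤
        (((range S).filter fun r => (n : ℝ) ^ t < 2 ^ (e (r + 3) - e (r - 3))).card : ℝ) + 4 := by
      have h3 := (Nat.cast_le (α := ℝ)).2 h0
      rw [Nat.cast_add] at h3
      exact h3
    linarith
  · have hP : (1 : ℝ) ≤ 15 * (S + 1) * κ ^ 3 := by
      have h1 : (1 : ℝ) ≤ κ ^ 3 := one_le_pow₀ hκ
      have h2 : (1 : ℝ) ≤ 15 * ((S : ℝ) + 1) := by
        have : (0 : ℝ) ≤ S := Nat.cast_nonneg _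
        linarith
      exact one_le_mul_of_one_le_of_one_le h2 h1
    have hR : (1 : ℝ) ≤ 1 + 6 * q * κ := by
      have : 0 ≤ 6 * q * κ := by positivity
      linarith
    have hnt : (1 : ℝ) ≤ (n : ℝ) ^ t := Real.one_le_rpow hn1 ht.le
    have hA : (1 : ℝ) ≤ C0 * (S + 1) * κ * (1 + 2 * (n : ℝ) ^ t) := by
      have h1 : (1 : ℝ) ≤ (S : ℝ) + 1 := by
        have : (0 : ℝ) ≤ S := Nat.cast_nonneg _
        linarith
      have h2 := one_le_mul_of_one_le_of_one_le hC0 h1
      have h4 := one_le_mul_of_one_le_of_one_le h2 hκ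
      exact one_le_mul_of_one_le_of_one_le h4 (by linarith)
    have hfin := pure_rec (fun r => T (m r)) S (15 * (S + 1) * κ ^ 3) (1 + 6 * q * κ)
      (C0 * (S + 1) * κ * (1 + 2 * (n : ℝ) ^ t)) hP hR hA (hTpos _) bad ?_ ?_
    · simpa only [hmS, hm0] using hfin
    · intro r hr hrb
      rcases (hmn r).lt_or_eq with hlt | heq
      · rw [hbad, mem_union, mem_filter, mem_range, mem_range, not_or] at hrb
        obtain ⟨hrb1, hrb2⟩ := hrb
        have hr4 : 4 ≤ r := by omega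
        have hrat : (2 : ℝ) ^ (e (r + 3) - e (r - 3)) ≤ (n : ℝ) ^ t := by
          by_contra hcon
          exact hrb1 ⟨hr, not_le.1 hcon⟩
        have he1 : 1 ≤ e (r - 3) := by
          by_contra hcon
          have h0 : e (r - 3) = 0 := by omega
          have h1 := he_X (r - 3) (by omega)
          rw [h0, pow_zero] at h1
          have h2 : (q ^ (r - 3))⁻¹ ≤ q⁻¹ := by
            apply inv_anti₀ hq0
            calc q = q ^ 1 := (pow_one q).symm
              _ ≤ q ^ (r - 3) := hqmono (by omega)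
          have h5 : C0 * Φ 1 ≤ C0 * q⁻¹ := by
            apply mul_le_mul_of_nonneg_left (h1.trans h2) (by linarith)
          have h6 : C0 * q⁻¹ < 1 := by
            rw [← div_eq_mul_inv, div_lt_one hq0]; exact hqC
          linarith
        have hGlow := he_min (r - 3) (e (r - 3) - 1) (by omega)
        have hX := he_X (r + 3) (by omega)
        have hUr := hmlow r hlt
        have hGn : 2 ^ (e (r - 3) - 1) ≤ n ^ 4 := by
          have h1 : 2 ^ (e (r - 3) - 1) ≤ 2 ^ (3 * L - 1) :=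
            Nat.pow_le_pow_right (by norm_num) (by have := he_le (r - 3); omega)
          have h2 : 2 * 2 ^ (3 * L - 1) = 2 ^ (3 * L) := by
            rw [← pow_succ']; congr 1; have := he_le (r - 3); omega
          have h4 : 2 ^ (3 * L) ≤ (2 * n) ^ 3 := by
            calc 2 ^ (3 * L) = (2 ^ L) ^ 3 := by rw [← pow_mul]; congr 1; ring
              _ ≤ (2 * n) ^ 3 := Nat.pow_le_pow_left hL2 3
          have h5 : (2 * n) ^ 3 = 2 * (4 * n ^ 3) := by ring
          have h6 : 4 * n ^ 3 ≤ n ^ 4 := by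
            calc 4 * n ^ 3 ≤ n * n ^ 3 := Nat.mul_le_mul_right _ hn
              _ = n ^ 4 := by ring
          omega
        have hmain := h3 r m kap (2 ^ e (r + 3)) (2 ^ (e (r - 3) - 1)) k hm0 hmmono hmn hk0 hkU
          Nat.one_le_two_pow Nat.one_le_two_pow hGn hkk0 ?_ ?_ hrho
        · have hratio : ((2 ^ e (r + 3) : ℕ) : ℝ) / ((2 ^ (e (r - 3) - 1) : ℕ) : ℝ) ≤
              2 * (n : ℝ) ^ t := by
            push_cast
            have h1 : (2 : ℝ) ^ e (r + 3) = 2 ^ (e (r + 3) - e (r - 3)) * 2 *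
                2 ^ (e (r - 3) - 1) := by
              rw [mul_assoc, ← pow_succ', ← pow_add]; congr 1
              have : e (r - 3) ≤ e (r + 3) := he_mono (by omega)
              omega
            rw [h1, mul_div_assoc, div_self (by positivity), mul_one]
            linarith
          have hrS : (r : ℝ) + 1 ≤ S + 1 := by
            have : (r : ℝ) ≤ S := by exact_mod_cast hr.le
            linarith
          have hTr := hTpos (m r)
          calc T (m (r + 1)) ≤ _ := hmain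
            _ ≤ 15 * (S + 1) * κ ^ 3 * T (m r) + C0 * (S + 1) * κ * (1 + 2 * (n : ℝ) ^ t) := by
                gcongr
        · have h1 := hmU (r + 1)
          have hΦ0 : 0 ≤ (q ^ (r + 3))⁻¹ := inv_nonneg.2 (hqs _).le
          have hU1 := hUpos (m (r + 1))
          calc Φ (2 ^ e (r + 3)) * kap * U (m (r + 1)) ≤
              (q ^ (r + 3))⁻¹ * (3 * q) * q ^ (r + 1) := by gcongr
            _ = 3 / q := by
                rw [show r + 3 = (r + 1) + 2 by ring, pow_add]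
                have := hqs (r + 1)
                field_simp
            _ ≤ 1 := by rw [div_le_one hq0]; exact hq3
        · calc (k : ℝ) + 1 ≤ q ^ 3 / 2 := hkq
            _ = (q ^ (r - 3))⁻¹ * (q ^ r / 2) := by
                have h1 : q ^ r = q ^ (r - 3) * q ^ 3 := by rw [← pow_add]; congr 1; omega
                rw [h1]
                have := hqs (r - 3)
                field_simp
            _ ≤ Φ (2 ^ (e (r - 3) - 1)) * U (m r) := by
                have := (hqs r).le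
                have h0 : 0 ≤ Φ (2 ^ (e (r - 3) - 1)) :=
                  (inv_nonneg.2 (hqs _).le).trans hGlow.le
                gcongr
      · have h1 : m (r + 1) = n := le_antisymm (hmn _) (heq ▸ hmmono (Nat.le_succ r))
        rw [h1, heq]
        have := hTpos n
        nlinarith
    · intro r hr _
      have h1 := H2 (m r) (m (r + 1)) (hmmono (Nat.le_succ r)) (hmn _)
      have h2 := H1 (m r) (hmn r)
      have h4 := hkU r
      have h5 : 2 * a (m r) * U (m (r + 1)) ≤ 2 * a (m r) * (kap * U (m r)) := by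
        have := ha0 (m r)
        gcongr
      have hTr := hTpos (m r)
      have h6 : (kap : ℝ) * (a (m r) * U (m r)) ≤ 3 * q * (κ * T (m r)) := by
        have h7 : 0 ≤ κ * T (m r) := by positivity
        have h8 : (0 : ℝ) ≤ kap := Nat.cast_nonneg _
        calc (kap : ℝ) * (a (m r) * U (m r)) ≤ kap * (κ * T (m r)) := by gcongr
          _ ≤ 3 * q * (κ * T (m r)) := by gcongr
      nlinarith

theorem sc_pure (ε C0 : ℝ) (hε : 0 < ε) (hC0 : 1 ≤ C0) : ∃ C : ℝ, 0 < C ∧ ∀ n : ℕ, 1 ≤ n →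
    ∀ (U a T Φ : ℕ → ℝ) (κ : ℝ), U 0 = 1 → Monotone U → (∀ i, U (i + 1) ≤ U i + 1) →
    U n ≤ n + 1 → 1 ≤ T 0 → T 0 ≤ 2 → Monotone T → 1 ≤ κ → κ ≤ 1 + Real.log (n + 1) →
    (∀ m, 0 ≤ a m) → (∀ m, a m ≤ 1) → (∀ m ≤ n, a m * U m ≤ κ * T m) →
    (∀ m M, m ≤ M → M ≤ n → T M ≤ T m + 2 * a m * U M) →
    (∀ x, 1 ≤ x → Φ x ≤ ((n : ℝ) / x) ^ 2) →
    1 ≤ C0 * Φ 1 → H3 C0 κ n U T Φ → ∀ m ≤ n, a m * U m ≤ C * (n : ℝ) ^ ε := by
  -- constants
  set t : ℝ := ε / 4 with htdef
  have ht : 0 < t := by positivity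
  set B : ℕ := ⌈36 / t + 4⌉₊ with hB
  have hB1 : 36 / t + 4 ≤ B := Nat.le_ceil _
  have hBpos : (0 : ℝ) < B := by
    have : 0 < 36 / t := by positivity
    linarith
  set th : ℝ := min (1 / 4) (t / B) with hth
  have hth0 : 0 < th := lt_min (by norm_num) (by positivity)
  have hth1 : th ≤ 1 / 4 := min_le_left _ _
  have hth2 : th * B ≤ t := by
    have : th ≤ t / B := min_le_right _ _
    rwa [le_div_iff₀ hBpos] at this
  set S : ℕ := ⌈2 / th⌉₊ with hS
  have hS1 : 2 ≤ th * S := by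
    have : 2 / th ≤ S := Nat.le_ceil _
    rw [div_le_iff₀ hth0] at this
    linarith
  have hS2 : th * (S + 3) ≤ 4 := by
    have h1 : (S : ℝ) ≤ 2 / th + 1 := (Nat.ceil_lt_add_one (by positivity)).le
    have h2 : th * S ≤ 2 + th := by
      calc th * S ≤ th * (2 / th + 1) := by gcongr
        _ = 2 + th := by field_simp
    nlinarith
  set E : ℕ := 3 * S + B + 2 with hE
  have hEpos : (0 : ℝ) < E := by rw [hE]; push_cast; positivity
  obtain ⟨Cl, hCl, hlog⟩ := log_bd (t / E) (by positivity)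
  obtain ⟨n0, hn0⟩ := ev_bd th hth0 C0
  set D : ℝ := (30 * (S + 1)) ^ S * 7 ^ B * (C0 * (S + 1) * 3) * 2 * Cl ^ E with hD
  have hDpos : 0 < D := by rw [hD]; positivity
  refine ⟨D + (n0 + 1), by positivity, ?_⟩
  intro n hn U a T Φ κ hU0 hUm hUs hUn hT0 hT2 hTm hκ hκl ha0 ha1 H1 H2 H4' H5 h3 m hm
  have hn1 : (1 : ℝ) ≤ n := by exact_mod_cast hn
  have hnε : (1 : ℝ) ≤ (n : ℝ) ^ ε := Real.one_le_rpow hn1 hε.le
  have hUpos : ∀ i, 1 ≤ U i := fun i => by rw [← hU0]; exact hUm (Nat.zero_le i)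
  by_cases hnn : n < n0
  · have h1 : a m * U m ≤ n0 + 1 := by
      have h2 : U m ≤ n + 1 := (hUm hm).trans hUn
      have h4 : (n : ℝ) ≤ n0 := by exact_mod_cast hnn.le
      have := ha1 m
      have := ha0 m
      have := hUpos m
      nlinarith
    calc a m * U m ≤ (n0 + 1) * 1 := by linarith
      _ ≤ (D + (n0 + 1)) * (n : ℝ) ^ ε := by
          apply mul_le_mul (by linarith) hnε (by norm_num) (by positivity)
  · obtain ⟨hn4, hq3, hqC, hql⟩ := hn0 n (not_lt.1 hnn)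
    set q : ℝ := (n : ℝ) ^ th with hq
    have hqS : (n : ℝ) + 1 ≤ q ^ S := by
      rw [hq, ← Real.rpow_natCast, ← Real.rpow_mul (by positivity)]
      have h4 : (4 : ℝ) ≤ n := by exact_mod_cast hn4
      calc (n : ℝ) + 1 ≤ (n : ℝ) ^ (2 : ℝ) := by rw [Real.rpow_two]; nlinarith
        _ ≤ (n : ℝ) ^ (th * S) := Real.rpow_le_rpow_of_exponent_le hn1 hS1
    have hq4 : q ^ (S + 3) ≤ (n : ℝ) ^ 4 := by
      rw [hq, ← Real.rpow_natCast, ← Real.rpow_mul (by positivity)]
      calc (n : ℝ) ^ (th * ((S + 3 : ℕ) : ℝ)) ≤ (n : ℝ) ^ (4 : ℝ) := by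
            apply Real.rpow_le_rpow_of_exponent_le hn1
            push_cast
            exact hS2
        _ = (n : ℝ) ^ 4 := by
            have : (4 : ℝ) = ((4 : ℕ) : ℝ) := by norm_num
            rw [this, Real.rpow_natCast]
    obtain ⟨c, hc, hmain⟩ := sc_core n S q t C0 κ hn4 ht hC0 hq3 hqC hql hqS hq4 U a T Φ hU0 hUm
      hUs hUn hT0 hTm hκ ha0 H1 H2 H4' H5 h3
    have hcB : c ≤ B := by
      have : (c : ℝ) ≤ B := hc.trans hB1
      exact_mod_cast this
    have hq0 : 0 < q := by linarith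
    have hnt : (1 : ℝ) ≤ (n : ℝ) ^ t := Real.one_le_rpow hn1 ht.le
    have hqκ : (1 : ℝ) ≤ q * κ := by nlinarith
    have hTn : T n ≤ (30 * (S + 1) * κ ^ 3) ^ S * (7 * q * κ) ^ B *
        (C0 * (S + 1) * κ * (3 * (n : ℝ) ^ t)) * 2 := by
      refine hmain.trans ?_
      have e1 : (1 + 6 * q * κ) ^ c ≤ (7 * q * κ) ^ B := by
        calc (1 + 6 * q * κ) ^ c ≤ (7 * q * κ) ^ c := by gcongr; linarith
          _ ≤ (7 * q * κ) ^ B := pow_le_pow_right₀ (by linarith) hcB
      have e2 : 2 * (15 * ((S : ℝ) + 1) * κ ^ 3) = 30 * (S + 1) * κ ^ 3 := by ring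
      rw [e2]
      have e3 : 1 + 2 * (n : ℝ) ^ t ≤ 3 * (n : ℝ) ^ t := by linarith
      have e4 : 0 ≤ T 0 := by linarith
      gcongr
    have hκl' : κ ≤ Cl * (n : ℝ) ^ (t / E) := hκl.trans (hlog n hn)
    have hκE : κ ^ E ≤ Cl ^ E * (n : ℝ) ^ t := by
      calc κ ^ E ≤ (Cl * (n : ℝ) ^ (t / E)) ^ E := by gcongr
        _ = Cl ^ E * (n : ℝ) ^ t := by
            rw [mul_pow, ← Real.rpow_natCast ((n : ℝ) ^ (t / E)), ← Real.rpow_mul (by positivity)]
            congr 2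
            field_simp
    have hqB : q ^ B ≤ (n : ℝ) ^ t := by
      rw [hq, ← Real.rpow_natCast, ← Real.rpow_mul (by positivity)]
      exact Real.rpow_le_rpow_of_exponent_le hn1 hth2
    have hfin : κ * T n ≤ D * (n : ℝ) ^ ε := by
      calc κ * T n ≤ κ * ((30 * (S + 1) * κ ^ 3) ^ S * (7 * q * κ) ^ B *
            (C0 * (S + 1) * κ * (3 * (n : ℝ) ^ t)) * 2) := by gcongr
        _ = (30 * (S + 1)) ^ S * 7 ^ B * (C0 * (S + 1) * 3) * 2 * (κ ^ E) * q ^ B *
            (n : ℝ) ^ t := by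
            rw [hE, mul_pow, mul_pow, mul_pow, ← pow_mul]
            ring
        _ ≤ (30 * (S + 1)) ^ S * 7 ^ B * (C0 * (S + 1) * 3) * 2 * (Cl ^ E * (n : ℝ) ^ t) *
            (n : ℝ) ^ t * (n : ℝ) ^ t := by gcongr
        _ = D * ((n : ℝ) ^ t * (n : ℝ) ^ t * (n : ℝ) ^ t) := by rw [hD]; ring
        _ ≤ D * (n : ℝ) ^ ε := by
            apply mul_le_mul_of_nonneg_left _ hDpos.le
            rw [← Real.rpow_add (by positivity), ← Real.rpow_add (by positivity)]
            apply Real.rpow_le_rpow_of_exponent_le hn1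
            rw [htdef]; linarith
    calc a m * U m ≤ κ * T m := H1 m hm
      _ ≤ κ * T n := by
          have := hTm hm
          gcongr
      _ ≤ D * (n : ℝ) ^ ε := hfin
      _ ≤ (D + (n0 + 1)) * (n : ℝ) ^ ε := by
          apply mul_le_mul_of_nonneg_right _ (by positivity)
          have : (0 : ℝ) ≤ n0 := Nat.cast_nonneg _
          linarith

end Pool.HEP
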